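import Pool.Agent.PFM.Hsm
set_option autoImplicit false

/-!
# Absorption
-/
namespace Pool.Agent.PFM
open Finset Pool.Agent.Ldc

namespace MM
variable {G K L : Type}

theorem h_dil_zero [AddCommGroup G] (a : MM G) : h (dil 0 a) = 0 := by
  induction a using ind with | h A => ?_
  refine CV.hc_map_const A _ fun x y => ?_
  change (0 : ℤ) • x = (0 : ℤ) • y
  rw [zero_smul, zero_smul]

theorem h_add_dil_zero [AddCommGroup G] (n a : MM G) : h (n + dil 0 a) ≤ h n := by
  have := h_add_le n (dil 0 a)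
  rw [h_dil_zero, add_zero] at this
  exact this

theorem dil_add_eq [AddCommGroup G] (u v : ℤ) (a : MM G) :
    dil (u + v) a = mapHom ((zsmulAddGroupHom u : G →+ G) + zsmulAddGroupHom v) a := by
  have e : (zsmulAddGroupHom (u + v) : G →+ G) = zsmulAddGroupHom u + zsmulAddGroupHom v := by
    ext x
    change (u + v) • x = u • x + v • x
    exact add_smul _ _ _
  rw [dil_eq, e]

/-- splitting, two terms, dilates -/
theorem split_dil [AddCommGroup G] (n1 n2 a : MM G) (u v : ℤ) :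
    h (n1 + n2 + dil (u + v) a) - h (n1 + n2) ≤
      (h (n1 + dil u a) - h n1) + (h (n2 + dil v a) - h n2) := by
  rw [dil_add_eq]
  exact h_split n1 n2 a _ _

/-- splitting into bits -/
theorem split_bits [AddCommGroup G] (a : MM G) (nz : ℕ → MM G) (b : ℕ) :
    ∀ w : ℕ, w < 2 ^ b →
      h (∑ c ∈ range b, nz c + dil (w : ℤ) a) - h (∑ c ∈ range b, nz c) ≤
        ∑ c ∈ range b, (h (nz c + dil ((2 : ℤ) ^ c) a) - h (nz c)) := by
  induction b with
  | zero =>
    intro w hw
    have : w = 0 := by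
      rw [pow_zero] at hw
      omega
    subst this
    simp only [Finset.sum_range_zero]
    rw [Nat.cast_zero]
    have := h_add_dil_zero (0 : MM G) a
    linarith
  | succ b ih =>
    intro w hw
    rw [Finset.sum_range_succ, Finset.sum_range_succ]
    rcases Nat.lt_or_ge w (2 ^ b) with h1 | h1
    · have h2 := ih w h1
      have h3 := incr_anti (∑ c ∈ range b, nz c) (nz b) (dil (w : ℤ) a)
      have h4 := h_le_add (nz b) (dil ((2 : ℤ) ^ b) a)
      linarith
    · have h2 := ih (w - 2 ^ b) (by rw [pow_succ] at hw; omega)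
      have h3 := split_dil (∑ c ∈ range b, nz c) (nz b) a ((w - 2 ^ b : ℕ) : ℤ) ((2 : ℤ) ^ b)
      have h4 : ((w - 2 ^ b : ℕ) : ℤ) + (2 : ℤ) ^ b = (w : ℤ) := by
        push_cast [h1]
        ring
      rw [h4] at h3
      linarith

theorem absorb_sum [AddCommGroup G] {ι : Type} (nz : MM G) (s : Finset ι) (y : ι → MM G) (c : ℝ)
    (hc : ∀ i ∈ s, h (nz + y i) - h nz ≤ c) : h (nz + ∑ i ∈ s, y i) ≤ h nz + s.card * c := by
  classical
  induction s using Finset.induction_on with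
  | empty => simp
  | insert i s hi ih =>
    have h1 := ih fun j hj => hc j (Finset.mem_insert_of_mem hj)
    have h2 := hc i (Finset.mem_insert_self i s)
    have h3 := incr_anti nz (∑ i ∈ s, y i) (y i)
    rw [Finset.sum_insert hi, Finset.card_insert_of_notMem hi]
    have h4 : nz + (y i + ∑ i ∈ s, y i) = nz + ∑ i ∈ s, y i + y i := by abel
    rw [h4]
    push_cast
    linarith

theorem one_add_pow_le {r : ℝ} (hr : 0 ≤ r) {j : ℕ} (h : r * j ≤ 1) : (1 + r) ^ j ≤ 1 + 2 * (r * j) := by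
  have h0 : 0 ≤ r * j := mul_nonneg hr (Nat.cast_nonneg j)
  have h1 : (1 + r) ^ j ≤ (Real.exp r) ^ j :=
    pow_le_pow_left₀ (by linarith) (by linarith [Real.add_one_le_exp r]) j
  have h2 : (Real.exp r) ^ j = Real.exp (r * j) := by
    rw [← Real.exp_nat_mul]
    ring_nf
  have h3 := Real.abs_exp_sub_one_le (x := r * j) (by rw [abs_of_nonneg h0]; exact h)
  rw [abs_of_nonneg h0] at h3
  have h4 := le_abs_self (Real.exp (r * j) - 1)
  rw [h2] at h1
  linarith

/-- cost of one more copy: `m` hereditary with slack `m e` -/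
theorem incr_cost [AddCommGroup G] {r e : ℝ} {x : MM G} (hx : HerS r e x) {m : ℕ} (hm : 0 < m) :
    (m : ℝ) * (h ((2 * m) • x + x) - h ((2 * m) • x)) ≤ r * h (m • x) + m * e := by
  have h1 := incr_le x hm
  rw [succ_nsmul] at h1
  have h2 := (hx.nsmul m).kap_le
  have hm' : (0 : ℝ) < m := by exact_mod_cast hm
  rw [le_div_iff₀ hm'] at h1
  linarith

theorem Q_add_idx [AddCommGroup G] (s t : ℕ) (a : MM G) :
    Q (s + t) a = Q s a + dil ((2 : ℤ) ^ s) (Q t a) := by
  unfold Q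
  rw [Finset.sum_range_add, map_sum]
  congr 1
  refine Finset.sum_congr rfl fun i _ => ?_
  rw [dil_dil, pow_add]

theorem dil_Q_le [AddCommGroup G] (c t b : ℕ) (hc : c ≤ b) (a : MM G) :
    ∃ R : MM G, dil ((2 : ℤ) ^ c) (Q t a) + R = Q (t + b) a := by
  refine ⟨Q c a + dil ((2 : ℤ) ^ c) (dil ((2 : ℤ) ^ t) (Q (b - c) a)), ?_⟩
  have h1 : t + b = c + (t + (b - c)) := by omega
  rw [h1, Q_add_idx, Q_add_idx, map_add]
  abel

/-- forms of `Q_t(a)` with coefficients `< 2^b` -/
theorem grw_core (n b t j : ℕ) (r : ℝ) (hn : 1 ≤ n) (hb : 1 ≤ b) (hj : 2 * n * b * b ≤ 2 ^ j)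
    (hr : 0 ≤ r) (hrj : r * j ≤ 1) (hbt : (b : ℝ) ≤ r * t) (G : Type) [AddCommGroup G] (a : MM G)
    (e : ℝ) (he : 0 ≤ e) (ha : Her r e a) (w : Fin n → ℕ) (hw : ∀ i, w i < 2 ^ b) :
    h (∑ i, dil (w i : ℤ) (Q t a)) ≤ (1 + (2 * j + 6) * r) * h (Q t a) +
      ((1 + r) ^ j * (2 ^ j * (t + b)) + r * ((1 + r) ^ j * (2 ^ j * t)) + n * b * t) * e := by
  set a0 := Q t a with ha0
  set m' := n * b with hm'
  have hm0 : 0 < m' := Nat.mul_pos hn hb
  have hm0' : (0 : ℝ) < m' := by exact_mod_cast hm0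
  set x : ℕ → MM G := fun c => dil ((2 : ℤ) ^ c) a0 with hx
  set nz : ℕ → MM G := fun c => (2 * m') • x c with hnz
  have hxS : ∀ c, HerS r (t * e) (x c) := by
    intro c
    have h1 := (ha.map (zsmulAddGroupHom ((2 : ℤ) ^ c) : G →+ G)).Q t
    rw [← mapHom_Q] at h1
    exact h1
  have hcost : ∀ c, h (nz c + x c) - h (nz c) ≤ (r * h (m' • a0) + m' * (t * e)) / m' := by
    intro c
    have h1 := incr_cost (hxS c) hm0
    have h2 : h (m' • x c) ≤ h (m' • a0) := by
      have h3 : m' • x c = dil ((2 : ℤ) ^ c) (m' • a0) := by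
        rw [map_nsmul]
      rw [h3]
      exact h_map_le _ _
    rw [le_div_iff₀ hm0', mul_comm]
    have h4 := mul_le_mul_of_nonneg_left h2 hr
    simp only [hnz]
    linarith
  have hone : ∀ i ∈ (univ : Finset (Fin n)), h (∑ c ∈ range b, nz c + dil (w i : ℤ) a0)
      - h (∑ c ∈ range b, nz c) ≤ b * ((r * h (m' • a0) + m' * (t * e)) / m') := by
    intro i _
    refine (split_bits a0 nz b (w i) (hw i)).trans ?_
    refine (Finset.sum_le_sum fun c _ => hcost c).trans ?_
    rw [Finset.sum_const, card_range, nsmul_eq_mul]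
  have h1 := absorb_sum (∑ c ∈ range b, nz c) univ (fun i => dil (w i : ℤ) a0) _ hone
  rw [Finset.card_univ, Fintype.card_fin] at h1
  have h2 := h_le_add' (∑ c ∈ range b, nz c) (∑ i, dil (w i : ℤ) a0)
  have h3 : (n : ℝ) * (b * ((r * h (m' • a0) + m' * (t * e)) / m'))
      = r * h (m' • a0) + n * b * t * e := by
    have h4 : (m' : ℝ) = n * b := by rw [hm']; push_cast; ring
    have h5 : (m' : ℝ) ≠ 0 := hm0'.ne'
    have h6 : (n : ℝ) * (b * ((r * h (m' • a0) + m' * (t * e)) / m'))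
        = (m' : ℝ) * ((r * h (m' • a0) + m' * (t * e)) / m') := by rw [h4]; ring
    rw [h6, mul_div_cancel₀ _ h5, h4]
    ring
  rw [h3] at h1
  -- the noise
  have h4 : h (∑ c ∈ range b, nz c) ≤ h ((b * (2 * m')) • Q (t + b) a) := by
    choose! R hR using fun c (hc : c ∈ range b) => dil_Q_le c t b (Finset.mem_range.1 hc).le a
    have h5 : (b * (2 * m')) • Q (t + b) a = ∑ c ∈ range b, nz c + ∑ c ∈ range b, (2 * m') • R c := by
      rw [← Finset.sum_add_distrib]
      have h6 : ∀ c ∈ range b, nz c + (2 * m') • R c = (2 * m') • Q (t + b) a := by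
        intro c hc
        rw [← hR c hc, smul_add]
      rw [Finset.sum_congr rfl h6, Finset.sum_const, card_range, smul_smul]
    rw [h5]
    exact h_le_add _ _
  have hjm : b * (2 * m') ≤ 2 ^ j := by
    refine le_trans (le_of_eq ?_) hj
    rw [hm']
    ring
  have hjm' : m' ≤ 2 ^ j := by
    refine le_trans ?_ hjm
    nlinarith
  have h5 := (ha.Q (t + b)).growth hr (by positivity) hjm
  have h6 := (ha.Q t).growth hr (by positivity) hjm'
  have ht0 : (0 : ℝ) < t := by
    have hb' : (1 : ℝ) ≤ b := by exact_mod_cast hb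
    by_contra hh
    have : (t : ℝ) = 0 := le_antisymm (not_lt.1 hh) (Nat.cast_nonneg t)
    rw [this, mul_zero] at hbt
    linarith
  have hA : 0 ≤ h a0 := h_nonneg _
  have h7 : h (Q (t + b) a) ≤ (1 + r) * h a0 := by
    have h8 := Q_ratio t b a
    have h9 : ((t : ℝ) + b) * h a0 ≤ (t + r * t) * h a0 :=
      mul_le_mul_of_nonneg_right (by linarith) hA
    have h10 : (t : ℝ) * h (Q (t + b) a) ≤ t * ((1 + r) * h a0) := by
      rw [← ha0] at h8
      linarith
    exact le_of_mul_le_mul_left h10 ht0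
  have hP := one_add_pow_le hr hrj
  have hP0 : (0 : ℝ) ≤ (1 + r) ^ j := by positivity
  have hP1 : (1 + r) ^ j ≤ 3 := by linarith
  set P := (1 + r) ^ j with hPdef
  have h8 : P * h (Q (t + b) a) ≤ P * ((1 + r) * h a0) := mul_le_mul_of_nonneg_left h7 hP0
  have h9 : r * h (m' • a0) ≤ r * (P * (h a0 + 2 ^ j * (t * e))) := mul_le_mul_of_nonneg_left h6 hr
  have h10 : P * (1 + r) + r * P ≤ 1 + (2 * j + 6) * r := by
    -- P (1 + 2r) <= 1 + 2rj + 2r * 3
    have h11 : P * (2 * r) ≤ 3 * (2 * r) := mul_le_mul_of_nonneg_right hP1 (by linarith)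
    nlinarith
  have h12 : (P * (1 + r) + r * P) * h a0 ≤ (1 + (2 * j + 6) * r) * h a0 :=
    mul_le_mul_of_nonneg_right h10 hA
  push_cast at h5
  calc h (∑ i, dil (w i : ℤ) a0) ≤ h (∑ c ∈ range b, nz c + ∑ i, dil (w i : ℤ) a0) := h2
    _ ≤ h (∑ c ∈ range b, nz c) + (r * h (m' • a0) + n * b * t * e) := h1
    _ ≤ P * (h (Q (t + b) a) + 2 ^ j * ((t + b) * e))
        + (r * (P * (h a0 + 2 ^ j * (t * e))) + n * b * t * e) := by linarith [h4.trans h5]
    _ ≤ (1 + (2 * j + 6) * r) * h a0 +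
      (P * (2 ^ j * (t + b)) + r * (P * (2 ^ j * t)) + n * b * t) * e := by nlinarith

end MM
end Pool.Agent.PFM
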