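import Pool.Agent.PFM.CV
set_option autoImplicit false

/-!
# Basic inequalities for conditional variables
-/
namespace Pool.Agent.PFM
open Finset Pool.Agent.Ldc

namespace CV
variable {G K L M : Type}

theorem hc_nonneg (A : CV G) : 0 ≤ hc A := by
  unfold hc
  have := H_comp_le A.hp (fun ω => (A.f ω, A.z ω)) Prod.snd
  linarith

theorem hc_map_le (A : CV G) (φ : G → K) : hc (A.map φ) ≤ hc A := by
  have := H_comp_le A.hp (fun ω => (A.f ω, A.z ω)) (fun x => (φ x.1, x.2))
  change H A.p (fun ω => (φ (A.f ω), A.z ω)) - H A.p A.z ≤ H A.p (fun ω => (A.f ω, A.z ω)) - H A.p A.z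
  linarith

theorem hc_map_congr (A : CV G) (φ : G → K) (ψ : G → L) (h : ∀ x y, φ x = φ y ↔ ψ x = ψ y) :
    hc (A.map φ) = hc (A.map ψ) := by
  change H A.p (fun ω => (φ (A.f ω), A.z ω)) - H A.p A.z = H A.p (fun ω => (ψ (A.f ω), A.z ω)) - H A.p A.z
  congr 1
  refine H_ker _ _ _ fun ω ω' => ?_
  simp only [Prod.ext_iff, h]

theorem hc_map_inj (A : CV G) (φ : G → K) (h : Function.Injective φ) : hc (A.map φ) = hc A := by
  have := hc_map_congr A φ (fun x : G => x) (fun x y => h.eq_iff)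
  rw [this]
  rfl

theorem hc_map_const (A : CV G) (φ : G → K) (h : ∀ x y, φ x = φ y) : hc (A.map φ) = 0 := by
  change H A.p (fun ω => (φ (A.f ω), A.z ω)) - H A.p A.z = 0
  rw [sub_eq_zero]
  refine H_ker _ _ _ fun ω ω' => ?_
  simp only [Prod.ext_iff, h (A.f ω) (A.f ω'), true_and]

/-- Shannon's inequality for functions of a conditional variable -/
theorem hc_submod (A : CV G) (φ : G → K) (ψ : G → L) (χ : G → M) :
    hc (A.map fun x => (φ x, ψ x, χ x)) + hc (A.map χ) ≤
      hc (A.map fun x => (φ x, χ x)) + hc (A.map fun x => (ψ x, χ x)) := by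
  have := H_submod A.hp (fun ω => φ (A.f ω)) (fun ω => ψ (A.f ω)) (fun ω => (χ (A.f ω), A.z ω))
  have h1 : H A.p (fun ω => (φ (A.f ω), ψ (A.f ω), χ (A.f ω), A.z ω))
      = H A.p (fun ω => ((φ (A.f ω), ψ (A.f ω), χ (A.f ω)), A.z ω)) :=
    H_ker _ _ _ fun ω ω' => by simp only [Prod.ext_iff, and_assoc]
  have h2 : H A.p (fun ω => (φ (A.f ω), χ (A.f ω), A.z ω))
      = H A.p (fun ω => ((φ (A.f ω), χ (A.f ω)), A.z ω)) :=
    H_ker _ _ _ fun ω ω' => by simp only [Prod.ext_iff, and_assoc]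
  have h3 : H A.p (fun ω => (ψ (A.f ω), χ (A.f ω), A.z ω))
      = H A.p (fun ω => ((ψ (A.f ω), χ (A.f ω)), A.z ω)) :=
    H_ker _ _ _ fun ω ω' => by simp only [Prod.ext_iff, and_assoc]
  rw [h1, h2, h3] at this
  change H A.p (fun ω => ((φ (A.f ω), ψ (A.f ω), χ (A.f ω)), A.z ω)) - H A.p A.z
      + (H A.p (fun ω => (χ (A.f ω), A.z ω)) - H A.p A.z)
      ≤ H A.p (fun ω => ((φ (A.f ω), χ (A.f ω)), A.z ω)) - H A.p A.z
      + (H A.p (fun ω => ((ψ (A.f ω), χ (A.f ω)), A.z ω)) - H A.p A.z)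
  linarith

theorem hc_pair (A : CV G) (B : CV K) : hc (A.pair B) = hc A + hc B := by
  have hI := indep_pp A.hp B.hp (fun ω => (A.f ω, A.z ω)) (fun ω => (B.f ω, B.z ω))
  have h1 := H_indep (pp_isP A.hp B.hp) _ _ hI
  have hI2 := indep_pp A.hp B.hp A.z B.z
  have h2 := H_indep (pp_isP A.hp B.hp) _ _ hI2
  rw [H_pp_fst B.hp (fun ω => (A.f ω, A.z ω)), H_pp_snd A.hp (fun ω => (B.f ω, B.z ω))] at h1
  rw [H_pp_fst B.hp A.z, H_pp_snd A.hp B.z] at h2
  have h3 : H (pp A.p B.p) (fun x => ((A.f x.1, A.z x.1), (B.f x.2, B.z x.2)))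
      = H (pp A.p B.p) (fun x => ((A.f x.1, B.f x.2), (A.z x.1, B.z x.2))) :=
    H_ker _ _ _ fun ω ω' => by
      simp only [Prod.ext_iff]
      tauto
  rw [h3] at h1
  change H (pp A.p B.p) (fun x => ((A.f x.1, B.f x.2), (A.z x.1, B.z x.2)))
    - H (pp A.p B.p) (fun x => (A.z x.1, B.z x.2)) = _
  unfold hc
  rw [h1, h2]
  ring

theorem hc_one (x : G) : hc (one x) = 0 := by
  have := hc_map_const (one x) (fun y : G => y) 
  change H (fun _ : Unit => (1:ℝ)) (fun _ : Unit => (x, ())) - H (fun _ : Unit => (1:ℝ)) (fun _ => ()) = 0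
  rw [sub_eq_zero]
  exact H_ker _ _ _ fun ω ω' => by simp

theorem map_pair_pair {G' K' : Type} (A : CV G) (B : CV K) (φ : G → G') (ψ : K → K') :
    (A.map φ).pair (B.map ψ) = (A.pair B).map (fun x => (φ x.1, ψ x.2)) := rfl

theorem hc_le_add [AddCommGroup G] (A B : CV G) : hc A ≤ hc (A.add B) := by
  -- H(A) + H(B) = H(A + B, B) <= H(A + B) + H(B)
  have h1 := hc_submod (A.pair B) (fun x => x.1 + x.2) (fun x => x.2) (fun _ => ())
  have h2 : hc ((A.pair B).map fun x : G × G => (x.1 + x.2, x.2, ())) = hc A + hc B := by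
    rw [← hc_pair]
    refine hc_map_inj _ _ ?_
    rintro ⟨a, b⟩ ⟨a', b'⟩ h
    simp only [Prod.mk.injEq, and_true] at h
    obtain ⟨h3, h4⟩ := h
    subst h4
    rw [add_right_cancel h3]
  have h3 : hc ((A.pair B).map fun _ : G × G => ()) = 0 := hc_map_const _ _ fun _ _ => rfl
  have h4 : hc ((A.pair B).map fun x : G × G => (x.1 + x.2, ())) = hc (A.add B) :=
    hc_map_congr _ _ _ fun x y => by simp
  have h5 : hc ((A.pair B).map fun x : G × G => (x.2, ())) ≤ hc B := by
    have e1 : hc ((A.pair B).map fun x : G × G => (x.2, ())) = hc ((A.map fun _ => ()).pair B) := by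
      rw [show (A.map fun _ => ()).pair B = (A.pair B).map (fun x => ((), x.2)) from rfl]
      exact hc_map_congr _ _ _ fun x y => by simp
    rw [e1, hc_pair, hc_map_const A _ (fun _ _ => rfl), zero_add]
  linarith

theorem hc_add_le [AddCommGroup G] (A B : CV G) : hc (A.add B) ≤ hc A + hc B := by
  rw [← hc_pair]
  exact hc_map_le _ _

/-- submodularity -/
theorem hc_kvm [AddCommGroup G] (A B C : CV G) :
    hc ((A.add B).add C) + hc B ≤ hc (A.add B) + hc (B.add C) := by
  set T := (A.pair B).pair C with hT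
  have h1 := hc_submod T (fun x => x.1.1) (fun x => x.2) (fun x => x.1.1 + x.1.2 + x.2)
  have h2 : hc (T.map fun x => (x.1.1, x.2, x.1.1 + x.1.2 + x.2)) = hc A + hc B + hc C := by
    rw [hT, ← hc_pair, ← hc_pair]
    refine hc_map_inj _ _ ?_
    rintro ⟨⟨a, b⟩, c⟩ ⟨⟨a', b'⟩, c'⟩ h
    simp only [Prod.mk.injEq] at h
    obtain ⟨h3, h4, h5⟩ := h
    subst h3
    subst h4
    rw [add_left_cancel (add_right_cancel h5)]
  have h3 : hc (T.map fun x => x.1.1 + x.1.2 + x.2) = hc ((A.add B).add C) := rfl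
  have h4 : hc (T.map fun x => (x.1.1, x.1.1 + x.1.2 + x.2)) ≤ hc A + hc (B.add C) := by
    have e1 : CV.Iso (A.pair (B.add C)) (T.map fun x => (x.1.1, x.1.2 + x.2)) := by
      refine ⟨(Equiv.prodAssoc _ _ _).symm, fun ω => ?_, fun ω => rfl, fun ω ω' => ?_⟩
      · change (A.p ω.1 * B.p ω.2.1) * C.p ω.2.2 = A.p ω.1 * (B.p ω.2.1 * C.p ω.2.2)
        ring
      · change ((A.z ω.1, B.z ω.2.1), C.z ω.2.2) = ((A.z ω'.1, B.z ω'.2.1), C.z ω'.2.2) ↔
          (A.z ω.1, (B.z ω.2.1, C.z ω.2.2)) = (A.z ω'.1, (B.z ω'.2.1, C.z ω'.2.2))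
        simp only [Prod.ext_iff]
        exact and_assoc
    rw [← hc_pair, e1.hc_eq]
    refine le_of_eq (hc_map_congr _ _ _ fun x y => ?_)
    simp only [Prod.ext_iff]
    constructor
    · rintro ⟨h5, h6⟩
      refine ⟨h5, ?_⟩
      rw [h5, add_assoc, add_assoc] at h6
      exact add_left_cancel h6
    · rintro ⟨h5, h6⟩
      refine ⟨h5, ?_⟩
      rw [add_assoc, add_assoc, h5, h6]
  have h5 : hc (T.map fun x => (x.2, x.1.1 + x.1.2 + x.2)) ≤ hc (A.add B) + hc C := by
    rw [← hc_pair]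
    refine le_of_eq ?_
    rw [show (A.add B).pair C = T.map (fun x => (x.1.1 + x.1.2, x.2)) from rfl]
    refine hc_map_congr _ _ _ fun x y => ?_
    simp only [Prod.ext_iff]
    constructor
    · rintro ⟨h6, h7⟩
      rw [h6] at h7
      exact ⟨add_right_cancel h7, h6⟩
    · rintro ⟨h6, h7⟩
      exact ⟨h7, by rw [h6, h7]⟩
  rw [h2, h3] at h1
  linarith

end CV

namespace MM
variable {G K : Type}

theorem h_nonneg (a : MM G) : 0 ≤ h a := by
  induction a using ind with | h A => ?_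
  exact CV.hc_nonneg A

theorem h_zero [AddCommMonoid G] : h (0 : MM G) = 0 := CV.hc_one 0

theorem h_le_add [AddCommGroup G] (a b : MM G) : h a ≤ h (a + b) := by
  induction a using ind with | h A => ?_
  induction b using ind with | h B => ?_
  exact CV.hc_le_add A B

theorem h_le_add' [AddCommGroup G] (a b : MM G) : h b ≤ h (a + b) := by
  rw [add_comm]
  exact h_le_add b a

theorem h_add_le [AddCommGroup G] (a b : MM G) : h (a + b) ≤ h a + h b := by
  induction a using ind with | h A => ?_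
  induction b using ind with | h B => ?_
  exact CV.hc_add_le A B

/-- submodularity -/
theorem h_submod [AddCommGroup G] (a b c : MM G) : h (a + b + c) + h b ≤ h (a + b) + h (b + c) := by
  induction a using ind with | h A => ?_
  induction b using ind with | h B => ?_
  induction c using ind with | h C => ?_
  exact CV.hc_kvm A B C

theorem h_map_inj [AddCommMonoid G] [AddCommMonoid K] (φ : G →+ K) (hφ : Function.Injective φ)
    (a : MM G) : h (mapHom φ a) = h a := by
  induction a using ind with | h A => ?_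
  exact CV.hc_map_inj A φ hφ

theorem h_map_le [AddCommMonoid G] [AddCommMonoid K] (φ : G →+ K) (a : MM G) :
    h (mapHom φ a) ≤ h a := by
  induction a using ind with | h A => ?_
  exact CV.hc_map_le A φ

end MM
end Pool.Agent.PFM
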