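import Pool.Agent.Ldc.E5
import Pool.Agent.Ldc.E3b
import Pool.Agent.Ldc.E4
set_option autoImplicit false

/-!
# Conditional variables (MP_ce784b_co, full Q1).  Definitions and the monoid of conditional variables.
-/
namespace Pool.Agent.PFM
open Finset Pool.Agent.Ldc

/-- a conditional variable: the random variable `f` together with the conditioning `z`, both defined
on the finite probability space `(Ω, p)` -/
structure CV (G : Type) where
  Ω : Type
  [ft : Fintype Ω]
  β : Type
  p : Ω → ℝ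
  hp : IsP p
  z : Ω → β
  f : Ω → G

attribute [instance] CV.ft

namespace CV
variable {G K L : Type}

/-- conditional entropy `H(f | z)` -/
noncomputable def hc (A : CV G) : ℝ := H A.p (fun ω => (A.f ω, A.z ω)) - H A.p A.z

/-- image under a map -/
def map (φ : G → K) (A : CV G) : CV K where
  Ω := A.Ω
  β := A.β
  p := A.p
  hp := A.hp
  z := A.z
  f := fun ω => φ (A.f ω)

/-- independent pair -/
def pair (A : CV G) (B : CV K) : CV (G × K) where
  Ω := A.Ω × B.Ω
  β := A.β × B.β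
  p := pp A.p B.p
  hp := pp_isP A.hp B.hp
  z := fun ω => (A.z ω.1, B.z ω.2)
  f := fun ω => (A.f ω.1, B.f ω.2)

/-- sum of independent conditional variables -/
def add [Add G] (A B : CV G) : CV G := map (fun x : G × G => x.1 + x.2) (pair A B)

/-- the constant -/
def one (x : G) : CV G where
  Ω := Unit
  β := Unit
  p := fun _ => 1
  hp := ⟨fun _ => zero_le_one, by simp⟩
  z := fun _ => ()
  f := fun _ => x

/-- a law, no conditioning -/
def law [Fintype G] (q : G → ℝ) (hq : IsP q) : CV G where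
  Ω := G
  β := Unit
  p := q
  hp := hq
  z := fun _ => ()
  f := fun x => x

/-- `n` independent copies as a tuple -/
noncomputable def pow (n : ℕ) (A : CV G) : CV (Fin n → G) where
  Ω := Fin n → A.Ω
  β := Fin n → A.β
  p := pf (fun _ => A.p)
  hp := pf_isP _ (fun _ => A.hp)
  z := fun ω i => A.z (ω i)
  f := fun ω i => A.f (ω i)

/-- isomorphism of conditional variables -/
def Iso (A B : CV G) : Prop :=
  ∃ e : A.Ω ≃ B.Ω, (∀ ω, B.p (e ω) = A.p ω) ∧ (∀ ω, B.f (e ω) = A.f ω) ∧
    ∀ ω ω', B.z (e ω) = B.z (e ω') ↔ A.z ω = A.z ω'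

theorem Iso.refl (A : CV G) : Iso A A := ⟨Equiv.refl _, fun _ => rfl, fun _ => rfl, fun _ _ => Iff.rfl⟩

theorem Iso.symm {A B : CV G} (h : Iso A B) : Iso B A := by
  obtain ⟨e, h1, h2, h3⟩ := h
  refine ⟨e.symm, fun ω => ?_, fun ω => ?_, fun ω ω' => ?_⟩
  · rw [← h1, e.apply_symm_apply]
  · rw [← h2, e.apply_symm_apply]
  · rw [← h3, e.apply_symm_apply, e.apply_symm_apply]

theorem Iso.trans {A B C : CV G} (h : Iso A B) (h' : Iso B C) : Iso A C := by
  obtain ⟨e, h1, h2, h3⟩ := h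
  obtain ⟨e', h1', h2', h3'⟩ := h'
  refine ⟨e.trans e', fun ω => ?_, fun ω => ?_, fun ω ω' => ?_⟩
  · rw [Equiv.trans_apply, h1', h1]
  · rw [Equiv.trans_apply, h2', h2]
  · rw [Equiv.trans_apply, Equiv.trans_apply, h3', h3]

theorem Iso.map {A B : CV G} (h : Iso A B) (φ : G → K) : Iso (A.map φ) (B.map φ) := by
  obtain ⟨e, h1, h2, h3⟩ := h
  refine ⟨e, h1, fun ω => ?_, h3⟩
  change φ (B.f (e ω)) = φ (A.f ω)
  rw [h2]

theorem Iso.pair {A A' : CV G} {B B' : CV K} (h : Iso A A') (h' : Iso B B') :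
    Iso (A.pair B) (A'.pair B') := by
  obtain ⟨e, h1, h2, h3⟩ := h
  obtain ⟨e', h1', h2', h3'⟩ := h'
  refine ⟨Equiv.prodCongr e e', fun ω => ?_, fun ω => ?_, fun ω ω' => ?_⟩
  · change A'.p (e ω.1) * B'.p (e' ω.2) = A.p ω.1 * B.p ω.2
    rw [h1, h1']
  · change (A'.f (e ω.1), B'.f (e' ω.2)) = (A.f ω.1, B.f ω.2)
    rw [h2, h2']
  · change (A'.z (e ω.1), B'.z (e' ω.2)) = (A'.z (e ω'.1), B'.z (e' ω'.2)) ↔
      (A.z ω.1, B.z ω.2) = (A.z ω'.1, B.z ω'.2)
    rw [Prod.ext_iff, Prod.ext_iff]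
    exact and_congr (h3 _ _) (h3' _ _)

theorem Iso.add [Add G] {A A' B B' : CV G} (h : Iso A A') (h' : Iso B B') :
    Iso (A.add B) (A'.add B') := (h.pair h').map _

theorem H_equiv {Ω Ω' α : Type} [Fintype Ω] [Fintype Ω'] (p : Ω → ℝ) (p' : Ω' → ℝ) (e : Ω ≃ Ω')
    (he : ∀ ω, p' (e ω) = p ω) (f : Ω' → α) : H p (fun ω => f (e ω)) = H p' f := by
  classical
  have h1 : ∀ a, pr p (fun ω => f (e ω)) a = pr p' f a := by
    intro a
    unfold pr pe
    rw [← Equiv.sum_comp e]
    refine Finset.sum_congr rfl fun ω _ => ?_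
    rw [he]
  unfold H
  rw [← Equiv.sum_comp e]
  congr 1
  refine Finset.sum_congr rfl fun ω _ => ?_
  rw [he, h1]

theorem H_ker {Ω α α' : Type} [Fintype Ω] (p : Ω → ℝ) (f : Ω → α) (g : Ω → α')
    (h : ∀ ω ω', f ω = f ω' ↔ g ω = g ω') : H p f = H p g := by
  classical
  unfold H
  congr 1
  refine Finset.sum_congr rfl fun ω _ => ?_
  congr 2
  unfold pr pe
  refine Finset.sum_congr rfl fun ω' _ => ?_
  by_cases hh : f ω' = f ω
  · rw [if_pos hh, if_pos ((h _ _).1 hh)]
  · rw [if_neg hh, if_neg (fun h' => hh ((h _ _).2 h'))]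

theorem Iso.hc_eq {A B : CV G} (h : Iso A B) : hc A = hc B := by
  obtain ⟨e, h1, h2, h3⟩ := h
  unfold hc
  rw [← H_equiv A.p B.p e h1 (fun ω => (B.f ω, B.z ω)), ← H_equiv A.p B.p e h1 B.z]
  congr 1
  · refine H_ker _ _ _ fun ω ω' => ?_
    simp only [Prod.ext_iff, h2, h3]
  · exact H_ker _ _ _ fun ω ω' => (h3 ω ω').symm

theorem add_comm' [AddCommMonoid G] (A B : CV G) : Iso (A.add B) (B.add A) := by
  refine ⟨Equiv.prodComm _ _, fun ω => mul_comm _ _, fun ω => ?_, fun ω ω' => ?_⟩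
  · change B.f ω.2 + A.f ω.1 = A.f ω.1 + B.f ω.2
    exact add_comm _ _
  · change (B.z ω.2, A.z ω.1) = (B.z ω'.2, A.z ω'.1) ↔ (A.z ω.1, B.z ω.2) = (A.z ω'.1, B.z ω'.2)
    simp only [Prod.ext_iff]
    exact and_comm

theorem add_assoc' [AddCommMonoid G] (A B C : CV G) :
    Iso ((A.add B).add C) (A.add (B.add C)) := by
  refine ⟨Equiv.prodAssoc _ _ _, fun ω => ?_, fun ω => ?_, fun ω ω' => ?_⟩
  · change A.p ω.1.1 * (B.p ω.1.2 * C.p ω.2) = (A.p ω.1.1 * B.p ω.1.2) * C.p ω.2
    ring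
  · change A.f ω.1.1 + (B.f ω.1.2 + C.f ω.2) = A.f ω.1.1 + B.f ω.1.2 + C.f ω.2
    rw [add_assoc]
  · change (A.z ω.1.1, (B.z ω.1.2, C.z ω.2)) = (A.z ω'.1.1, (B.z ω'.1.2, C.z ω'.2)) ↔
      ((A.z ω.1.1, B.z ω.1.2), C.z ω.2) = ((A.z ω'.1.1, B.z ω'.1.2), C.z ω'.2)
    simp only [Prod.ext_iff]
    exact and_assoc.symm

theorem zero_add' [AddCommMonoid G] (A : CV G) : Iso ((one (0 : G)).add A) A := by
  refine ⟨Equiv.punitProd _, fun ω => ?_, fun ω => ?_, fun ω ω' => ?_⟩
  · change A.p ω.2 = 1 * A.p ω.2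
    rw [one_mul]
  · change A.f ω.2 = 0 + A.f ω.2
    rw [zero_add]
  · change A.z ω.2 = A.z ω'.2 ↔ ((), A.z ω.2) = ((), A.z ω'.2)
    simp only [Prod.ext_iff, true_and]

/-- the setoid of isomorphism -/
def st (G : Type) : Setoid (CV G) := ⟨Iso, Iso.refl, Iso.symm, Iso.trans⟩

end CV

/-- the monoid of conditional variables (isomorphism classes, addition = sum of independent ones) -/
def MM (G : Type) : Type 1 := Quotient (CV.st G)

namespace MM
variable {G K : Type}

/-- class -/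
def mk (A : CV G) : MM G := Quotient.mk (CV.st G) A

theorem sound {A B : CV G} (h : CV.Iso A B) : mk A = mk B := Quotient.sound (s := CV.st G) h

theorem ind {P : MM G → Prop} (h : ∀ A, P (mk A)) (a : MM G) : P a := Quotient.ind (s := CV.st G) h a

noncomputable instance [AddCommMonoid G] : Add (MM G) :=
  ⟨Quotient.map₂ CV.add (fun _ _ h _ _ h' => h.add h')⟩

noncomputable instance [AddCommMonoid G] : Zero (MM G) := ⟨mk (CV.one 0)⟩

noncomputable instance [AddCommMonoid G] : AddCommMonoid (MM G) where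
  add_assoc := by
    intro a b c
    induction a using ind with | h A => ?_
    induction b using ind with | h B => ?_
    induction c using ind with | h C => ?_
    exact sound (CV.add_assoc' A B C)
  zero_add := by
    intro a
    induction a using ind with | h A => ?_
    exact sound (CV.zero_add' A)
  add_zero := by
    intro a
    induction a using ind with | h A => ?_
    exact sound ((CV.add_comm' _ _).trans (CV.zero_add' A))
  add_comm := by
    intro a b
    induction a using ind with | h A => ?_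
    induction b using ind with | h B => ?_
    exact sound (CV.add_comm' A B)
  nsmul := nsmulRec

/-- conditional entropy -/
noncomputable def h (a : MM G) : ℝ := Quotient.lift (s := CV.st G) CV.hc (fun _ _ e => CV.Iso.hc_eq e) a

theorem h_mk (A : CV G) : h (mk A) = A.hc := rfl

theorem mk_add [AddCommMonoid G] (A B : CV G) : mk A + mk B = mk (A.add B) := rfl

/-- image under a homomorphism, as a homomorphism of monoids -/
noncomputable def mapHom [AddCommMonoid G] [AddCommMonoid K] (φ : G →+ K) : MM G →+ MM K where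
  toFun := Quotient.map (CV.map φ) (fun _ _ h => h.map φ)
  map_zero' := by
    refine sound ⟨Equiv.refl _, fun _ => rfl, fun _ => ?_, fun _ _ => Iff.rfl⟩
    change (0 : K) = φ 0
    rw [map_zero]
  map_add' := by
    intro a b
    induction a using ind with | h A => ?_
    induction b using ind with | h B => ?_
    refine sound ⟨Equiv.refl _, fun _ => rfl, fun ω => ?_, fun _ _ => Iff.rfl⟩
    change φ (A.f ω.1) + φ (B.f ω.2) = φ (A.f ω.1 + B.f ω.2)
    rw [map_add]

theorem mapHom_mk [AddCommMonoid G] [AddCommMonoid K] (φ : G →+ K) (A : CV G) :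
    mapHom φ (mk A) = mk (A.map φ) := rfl

/-- dilation by an integer -/
noncomputable def dil [AddCommGroup G] (n : ℤ) : MM G →+ MM G := mapHom (zsmulAddGroupHom n)

/-- `κ(a) = h(a + a') - h(a)` -/
noncomputable def kap [AddCommMonoid G] (a : MM G) : ℝ := h (2 • a) - h a

end MM
end Pool.Agent.PFM
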