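import Pool.Agent.PFM.Ref
set_option autoImplicit false

/-!
# `md`, `Ref`, `PP` and trivial lemmas (helper13; `Q`, `Her`, `RefM` are in `Defs`)
-/
namespace Pool.Agent.PFM
namespace MM
variable {G K L : Type}

/-- reduction modulo a subgroup -/
noncomputable def md [AddCommGroup G] (V : AddSubgroup G) : MM G →+ MM (G ⧸ V) :=
  mapHom (QuotientAddGroup.mk' V)

/-- `G` is killed by some `m`, `0 < m ≤ 2^T` -/
def Tor (T : ℕ) (G : Type) [AddCommGroup G] : Prop := ∃ m : ℕ, 0 < m ∧ m ≤ 2 ^ T ∧ ∀ g : G, m • g = 0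

/-- `b` is obtained from `a` by further conditioning (only the properties which are used) -/
def Ref [AddCommGroup G] (b a : MM G) : Prop :=
  ∀ (K L : Type) [AddCommGroup K] [AddCommGroup L] (φ : G →+ K) (χ : K →+ L) (n : MM K),
    h (mapHom φ b + n) - h (mapHom χ (mapHom φ b + n)) ≤
      h (mapHom φ a + n) - h (mapHom χ (mapHom φ a + n))

/-- `PP T r C` for the finite group `G`: a `(r, e)`-hereditary variable on a quotient `G/V₀` of `G` lies, up to
entropy `δ`, in a coset of `V/V₀`, where `log |V/V₀| ≤ C h(Q T a mod V₀) + δ` -/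
def PP (G : Type) [AddCommGroup G] (T : ℕ) (r C : ℝ) : Prop :=
  ∀ δ : ℝ, 0 < δ → ∃ e : ℝ, 0 < e ∧ ∀ (V₀ : AddSubgroup G) (a : MM G), Her r e (md V₀ a) →
    ∃ V : AddSubgroup G, V₀ ≤ V ∧ h (md V a) ≤ δ ∧
      Real.log (Nat.card V) - Real.log (Nat.card V₀) ≤ C * h (md V₀ (Q T a)) + δ

theorem mapHom_comp [AddCommMonoid G] [AddCommMonoid K] [AddCommMonoid L] (φ : G →+ K) (χ : K →+ L)
    (a : MM G) : mapHom χ (mapHom φ a) = mapHom (χ.comp φ) a := by
  induction a using ind with | h A => ?_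
  rfl

theorem mapHom_id [AddCommMonoid G] (a : MM G) : mapHom (AddMonoidHom.id G) a = a := by
  induction a using ind with | h A => ?_
  rfl

theorem dil_eq [AddCommGroup G] (n : ℤ) (a : MM G) : dil n a = mapHom (zsmulAddGroupHom n) a := rfl

theorem mapHom_dil [AddCommGroup G] [AddCommGroup K] (φ : G →+ K) (n : ℤ) (a : MM G) :
    mapHom φ (dil n a) = dil n (mapHom φ a) := by
  rw [dil_eq, dil_eq, mapHom_comp, mapHom_comp]
  have e : φ.comp (zsmulAddGroupHom n) = (zsmulAddGroupHom n).comp φ := by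
    ext x
    simp
  rw [e]

theorem dil_dil [AddCommGroup G] (n m : ℤ) (a : MM G) : dil n (dil m a) = dil (n * m) a := by
  rw [dil_eq, dil_eq, dil_eq, mapHom_comp]
  have e : (zsmulAddGroupHom n : G →+ G).comp (zsmulAddGroupHom m) = zsmulAddGroupHom (n * m) := by
    ext x
    simp [mul_smul]
  rw [e]

theorem dil_one [AddCommGroup G] (a : MM G) : dil 1 a = a := by
  rw [dil_eq]
  have e : (zsmulAddGroupHom (1 : ℤ) : G →+ G) = AddMonoidHom.id G := by
    ext x
    simp
  rw [e, mapHom_id]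

theorem mapHom_Q [AddCommGroup G] [AddCommGroup K] (φ : G →+ K) (t : ℕ) (a : MM G) :
    mapHom φ (Q t a) = Q t (mapHom φ a) := by
  unfold Q
  rw [map_sum]
  exact Finset.sum_congr rfl fun i _ => mapHom_dil _ _ _

theorem Q_add [AddCommGroup G] (t : ℕ) (a b : MM G) : Q t (a + b) = Q t a + Q t b := by
  unfold Q
  rw [← Finset.sum_add_distrib]
  exact Finset.sum_congr rfl fun i _ => map_add _ _ _

theorem Q_nsmul [AddCommGroup G] (t n : ℕ) (a : MM G) : Q t (n • a) = n • Q t a := by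
  unfold Q
  rw [Finset.smul_sum]
  exact Finset.sum_congr rfl fun i _ => map_nsmul _ _ _

end MM
end Pool.Agent.PFM
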