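import Pool.Agent.PFM.Sml
import Pool.Agent.PFM.Hd
import Pool.Agent.Ldc.E10
import Pool.Agent.Ldc.E9
import Pool.Agent.Ldc.S1b
set_option autoImplicit false

/-!
# Section P: the compactness lemma

For a finite abelian group `G` and `δ > 0` there is `η > 0` such that every conditional variable with
`κ a ≤ η` is within `δ` of (a coset of) a subgroup.

Laws: the simplex is compact, `κ` is continuous and vanishes only at uniform laws of cosets (`rd_eq_zero`).
Conditional variables: some label `b` has `E_z d(P_z, P_b) ≤ κ a`; compare with the law `P_b`.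
-/
namespace Pool.Agent.PFM
open Finset Pool.Agent.Ldc

namespace Cpt

theorem H_const_supp {Ω α : Type} [Fintype Ω] {p : Ω → ℝ} (hp : IsP p) (f : Ω → α)
    (h : ∀ ω ω', p ω ≠ 0 → p ω' ≠ 0 → f ω = f ω') : H p f = 0 := by
  classical
  unfold H
  rw [neg_eq_zero]
  refine Finset.sum_eq_zero fun ω _ => ?_
  by_cases h0 : p ω = 0
  · rw [h0, zero_mul]
  · have h1 : pr p f (f ω) = 1 := by
      unfold pr pe
      rw [← hp.2]
      refine Finset.sum_congr rfl fun ω' _ => ?_
      by_cases h2 : p ω' = 0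
      · rw [h2]; simp
      · rw [if_pos (h ω' ω h2 h0)]
    rw [h1, Real.log_one, mul_zero]

/-- the doubling of a law -/
noncomputable def kq {G : Type} [AddCommGroup G] [Fintype G] (q : G → ℝ) : ℝ :=
  H (pp q q) (fun u => u.1 + u.2) - ent q

theorem kq_eq {G : Type} [AddCommGroup G] [Fintype G] (q : G → ℝ) :
    rd q (fun g => q (-g)) = kq q := by
  rw [rd_neg_right]
  unfold kq
  ring

theorem isP_neg {G : Type} [AddCommGroup G] [Fintype G] {q : G → ℝ} (hq : IsP q) :
    IsP (fun g => q (-g)) :=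
  ⟨fun g => hq.1 _, by rw [← hq.2]; exact Equiv.sum_comp (Equiv.neg G) q⟩

theorem kq_zero {G : Type} [AddCommGroup G] [Fintype G] {q : G → ℝ} (hq : IsP q) (h : kq q = 0) :
    ∃ V : AddSubgroup G, H q (fun g => (QuotientAddGroup.mk g : G ⧸ V)) = 0 ∧
      ent q = Real.log (Nat.card V) := by
  classical
  rw [← kq_eq] at h
  obtain ⟨V, a, hV⟩ := rd_eq_zero hq (isP_neg hq) h
  refine ⟨V, ?_, ?_⟩
  · refine H_const_supp hq _ fun g g' hg hg' => ?_
    have key : ∀ g, q g ≠ 0 → g - a ∈ V := by
      intro g hg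
      rw [hV] at hg
      by_contra hcon
      apply hg
      unfold uS unif
      exact if_neg (by simpa using hcon)
    rw [QuotientAddGroup.eq]
    have h1 := V.sub_mem (key g' hg') (key g hg)
    have h2 : g' - a - (g - a) = -g + g' := by abel
    rwa [h2] at h1
  · rw [← ent_uS, hV]
    unfold ent
    exact Equiv.sum_comp (Equiv.subRight a) (fun g => Real.negMulLog (uS V g))

theorem cont_kq {G : Type} [AddCommGroup G] [Fintype G] : Continuous (kq : (G → ℝ) → ℝ) := by
  unfold kq
  refine Continuous.sub (E9_cont_H (fun q : G → ℝ => pp q q) (fun ω => ?_) _)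
    (E9_cont_ent (fun q : G → ℝ => q) (fun g => continuous_apply g))
  unfold pp
  exact (continuous_apply ω.1).mul (continuous_apply ω.2)

theorem cpt_law (G : Type) [AddCommGroup G] [Fintype G] (δ : ℝ) (hδ : 0 < δ) :
    ∃ η : ℝ, 0 < η ∧ ∀ q : G → ℝ, IsP q → kq q ≤ η →
      ∃ V : AddSubgroup G, H q (fun g => (QuotientAddGroup.mk g : G ⧸ V)) ≤ δ ∧
        |Real.log (Nat.card V) - ent q| ≤ δ := by
  classical
  set U : AddSubgroup G → Set (G → ℝ) := fun V =>
    {q | H q (fun g => (QuotientAddGroup.mk g : G ⧸ V)) < δ} ∩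
      {q | |Real.log (Nat.card V) - ent q| < δ} with hU
  have hUo : ∀ V, IsOpen (U V) := by
    intro V
    have : Fintype (G ⧸ V) := Fintype.ofFinite _
    refine IsOpen.inter ?_ ?_
    · exact isOpen_lt (E9_cont_H (fun q : G → ℝ => q) (fun g => continuous_apply g) _)
        continuous_const
    · exact isOpen_lt (continuous_abs.comp (continuous_const.sub
        (E9_cont_ent (fun q : G → ℝ => q) (fun g => continuous_apply g)))) continuous_const
  set C : Set (G → ℝ) := stdSimplex ℝ G ∩ ⋂ V, (U V)ᶜ with hC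
  have hCc : IsCompact C :=
    (isCompact_stdSimplex ℝ G).inter_right (isClosed_iInter fun V => (hUo V).isClosed_compl)
  have hout : ∀ q : G → ℝ, IsP q → q ∉ C → ∃ V : AddSubgroup G,
      H q (fun g => (QuotientAddGroup.mk g : G ⧸ V)) ≤ δ ∧
        |Real.log (Nat.card V) - ent q| ≤ δ := by
    intro q hq hqC
    by_contra hcon
    push Not at hcon
    apply hqC
    refine ⟨hq, Set.mem_iInter.2 fun V => ?_⟩
    intro hm
    have h1 : H q (fun g => (QuotientAddGroup.mk g : G ⧸ V)) < δ := hm.1
    have h2 : |Real.log (Nat.card V) - ent q| < δ := hm.2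
    exact absurd h2.le (not_le.2 (hcon V h1.le))
  by_cases hne : C.Nonempty
  · obtain ⟨q0, hq0, hmin⟩ := hCc.exists_isMinOn hne cont_kq.continuousOn
    have hq0P : IsP q0 := hq0.1
    have hnn : 0 ≤ kq q0 := by
      rw [← kq_eq]
      exact rd_nonneg hq0P (isP_neg hq0P)
    have hpos : 0 < kq q0 := by
      refine lt_of_le_of_ne hnn fun h0 => ?_
      obtain ⟨V, h1, h2⟩ := kq_zero hq0P h0.symm
      have h3 : q0 ∉ U V := Set.mem_iInter.1 hq0.2 V
      apply h3
      refine ⟨?_, ?_⟩
      · change H q0 (fun g => (QuotientAddGroup.mk g : G ⧸ V)) < δ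
        rw [h1]
        exact hδ
      · change |Real.log (Nat.card V) - ent q0| < δ
        rw [h2, sub_self, abs_zero]
        exact hδ
    refine ⟨kq q0 / 2, by positivity, fun q hq hk => hout q hq fun hqC => ?_⟩
    have h4 : kq q0 ≤ kq q := hmin hqC
    linarith
  · refine ⟨1, one_pos, fun q hq _ => hout q hq fun hqC => hne ⟨q, hqC⟩⟩

end Cpt

namespace MM

/-- compactness lemma (the base case): a conditional variable on a finite group with very small doubling
is nearly uniform on cosets of a subgroup -/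
theorem cpt (G : Type) [AddCommGroup G] [Finite G] (δ : ℝ) (hδ : 0 < δ) :
    ∃ η : ℝ, 0 < η ∧ ∀ a : MM G, kap a ≤ η →
      ∃ V : AddSubgroup G, h (md V a) ≤ δ ∧ |Real.log (Nat.card V) - h a| ≤ δ := by
  classical
  have : Fintype G := Fintype.ofFinite G
  obtain ⟨η, hη, hcpt⟩ := Cpt.cpt_law G (δ / 2) (by linarith)
  refine ⟨min (η / 2) (δ / 4), by positivity, ?_⟩
  intro a ha
  induction a using ind with | h A₀ => ?_
  obtain ⟨A, hAB, ⟨hB⟩⟩ := Sml.exists_fin A₀
  rw [sound hAB] at ha ⊢
  -- a good label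
  have hsum := Sml.hc_add_eq_sum A A
  have hA := Sml.hc_eq_sum A
  have hone := Sml.sum_pr_one A.hp A.z
  set w := fun b => pr A.p A.z b with hw
  set e := fun b => H (cnd A.p A.z b) A.f with he
  set E := fun b b' => H (pp (cnd A.p A.z b) (cnd A.p A.z b')) (fun u => A.f u.1 + A.f u.2) with hE
  have hone' : ∑ b, w b = 1 := hone
  have hA' : A.hc = ∑ b, w b * e b := hA
  have hsum' : (A.add A).hc = ∑ b, ∑ b', w b * w b' * E b b' := hsum
  have hkap : kap (mk A) = (A.add A).hc - A.hc := by
    unfold kap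
    rw [two_nsmul, mk_add, h_mk, h_mk]
  obtain ⟨b', hb', hu⟩ := exists_le_avg A.hp A.z
    (fun b' => ∑ b, w b * E b b' - A.hc / 2 - e b' / 2) (kap (mk A)) (by
      change ∑ b', w b' * (∑ b, w b * E b b' - A.hc / 2 - e b' / 2) ≤ kap (mk A)
      have e1 : ∀ b', w b' * (∑ b, w b * E b b' - A.hc / 2 - e b' / 2)
          = ∑ b, w b * w b' * E b b' - w b' * (A.hc / 2) - (w b' * e b') * (1 / 2) := by
        intro b'
        rw [mul_sub, mul_sub, Finset.mul_sum]
        have : ∀ b, w b' * (w b * E b b') = w b * w b' * E b b' := fun b => by ring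
        simp only [this]
        ring
      simp only [e1, Finset.sum_sub_distrib]
      rw [Finset.sum_comm, ← hsum', ← Finset.sum_mul, ← Finset.sum_mul, hone', ← hA', hkap]
      linarith)
  have hP' := cnd_isP A.hp A.z b' hb'
  set p' := cnd A.p A.z b' with hp'
  set B : CV G := ⟨A.Ω, Unit, p', hP', fun _ => (), A.f⟩ with hBdef
  -- entropies of B
  have hBc : B.hc = e b' := by
    change H p' (fun ω => (A.f ω, ())) - H p' (fun _ => ()) = H p' A.f
    rw [H_const hP' (fun _ => ()) (fun _ _ => rfl), sub_zero]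
    exact CV.H_ker _ _ _ fun ω ω' => by simp
  have hBf : Fintype B.β := (inferInstance : Fintype Unit)
  have hABc : (A.add B).hc = ∑ b, w b * E b b' := by
    have h1 : (A.add B).hc = H (pp A.p p') (fun u => (A.f u.1 + A.f u.2, (A.z u.1, ())))
        - H (pp A.p p') (fun u => (A.z u.1, ())) := rfl
    have hc1 : ∀ (q : A.Ω → ℝ), IsP q → pr q (fun _ => ()) () = 1 := by
      intro q hq
      unfold pr pe
      rw [← hq.2]
      exact Finset.sum_congr rfl fun ω _ => by rw [if_pos rfl]
    have hc2 : cnd p' (fun _ => ()) () = p' := by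
      funext ω
      have e0 : cnd p' (fun _ => ()) () ω = if (() : Unit) = () then p' ω / pr p' (fun _ => ()) () else 0 := by
        unfold cnd
        split_ifs <;> rfl
      rw [e0, if_pos rfl, hc1 p' hP', div_one]
    rw [h1, H_cond_sum (pp_isP A.hp hP') (fun u : A.Ω × A.Ω => A.f u.1 + A.f u.2)
      (fun u => (A.z u.1, ())), add_sub_cancel_left, Fintype.sum_prod_type]
    refine Finset.sum_congr rfl fun b _ => ?_
    rw [Fintype.sum_unique]
    obtain ⟨e1, e2⟩ := Sml.cnd_pp A.hp hP' A.z (fun _ => ()) b ()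
    change pr (pp A.p p') (fun u => (A.z u.1, ())) (b, ()) *
      H (cnd (pp A.p p') (fun u => (A.z u.1, ())) (b, ())) (fun u => A.f u.1 + A.f u.2) = _
    rw [e1, e2, hc1 p' hP', hc2, mul_one]
  have hη2 : kap (mk A) ≤ η / 2 := ha.trans (min_le_left _ _)
  have hδ4 : kap (mk A) ≤ δ / 4 := ha.trans (min_le_right _ _)
  have hd : (A.add B).hc - A.hc / 2 - B.hc / 2 ≤ kap (mk A) := by
    rw [hABc, hBc]
    exact hu
  have m1 : A.hc ≤ (A.add B).hc := CV.hc_le_add A B
  have m2 : B.hc ≤ (A.add B).hc := by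
    have := CV.hc_le_add B A
    rwa [(CV.add_comm' B A).hc_eq] at this
  -- kap B
  have hkB : kap (mk B) ≤ 2 * kap (mk A) := by
    have s1 := h_submod (mk B) (mk A) (mk B)
    have s2 : h (mk B + mk B) ≤ h (mk B + mk A + mk B) := by
      rw [show mk B + mk A + mk B = (mk B + mk B) + mk A by abel]
      exact h_le_add _ _
    have s3 : h (mk B + mk A) = (A.add B).hc := by
      rw [add_comm, mk_add, h_mk]
    have s4 : h (mk A + mk B) = (A.add B).hc := by
      rw [mk_add, h_mk]
    have s5 : kap (mk B) = h (mk B + mk B) - B.hc := by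
      unfold kap
      rw [two_nsmul, h_mk B]
    have s6 : h (mk A) = A.hc := h_mk A
    rw [s5]
    rw [s3, s4, s6] at s1
    linarith
  -- the law of B
  have hq : IsP (pr p' A.f) := pr_isP hP' A.f
  have hent : ent (pr p' A.f) = B.hc := by
    rw [hBc, ← H_eq_ent]
  have hkq : Cpt.kq (pr p' A.f) = kap (mk B) := by
    unfold Cpt.kq kap
    rw [hent, two_nsmul, mk_add, h_mk, h_mk]
    congr 1
    have h1 : (B.add B).hc = H (pp p' p') (fun u => (A.f u.1 + A.f u.2, ((), ())))
        - H (pp p' p') (fun _ => ((), ())) := rfl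
    rw [h1, H_const (pp_isP hP' hP') (fun _ => ((), ())) (fun _ _ => rfl), sub_zero]
    have h2 : H (pp p' p') (fun u => (A.f u.1 + A.f u.2, ((), ())))
        = H (pp p' p') (fun u => A.f u.1 + A.f u.2) := CV.H_ker _ _ _ fun ω ω' => by simp
    rw [h2]
    have h3 := H_fun_of_indep (indep_pp hP' hP' A.f A.f) (fun u : G × G => u.1 + u.2)
    rw [pr_pp_fst hP' A.f, pr_pp_snd hP' A.f] at h3
    exact h3.symm
  obtain ⟨V, hV1, hV2⟩ := hcpt _ hq (by rw [hkq]; linarith)
  refine ⟨V, ?_, ?_⟩
  · have h1 := h_map_incr (mk B) (mk A) (QuotientAddGroup.mk' V)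
    have h2 : h (md V (mk A)) ≤ h (md V (mk B + mk A)) := by
      rw [map_add]
      exact h_le_add' _ _
    have h3 : h (mk B + mk A) = (A.add B).hc := by
      rw [add_comm, mk_add, h_mk]
    have h4 : h (mk B) = B.hc := h_mk B
    have h5 : h (mapHom (QuotientAddGroup.mk' V) (mk B)) ≤ δ / 2 := by
      rw [mapHom_mk, h_mk]
      have h6 : (B.map (QuotientAddGroup.mk' V)).hc
          = H p' (fun ω => ((QuotientAddGroup.mk (A.f ω) : G ⧸ V), ()))
            - H p' (fun _ => ()) := rfl
      rw [h6, H_const hP' (fun _ => ()) (fun _ _ => rfl), sub_zero]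
      have h7 : H p' (fun ω => ((QuotientAddGroup.mk (A.f ω) : G ⧸ V), ()))
          = H p' (fun ω => (QuotientAddGroup.mk (A.f ω) : G ⧸ V)) :=
        CV.H_ker _ _ _ fun ω ω' => by simp
      rw [h7]
      have h8 := H_law p' A.f (fun g => (QuotientAddGroup.mk g : G ⧸ V))
      rw [h8] at hV1
      exact hV1
    have h9 : h (md V (mk B + mk A)) = h (mapHom (QuotientAddGroup.mk' V) (mk B + mk A)) := rfl
    rw [h3, h4] at h1
    linarith
  · rw [h_mk]
    rw [hent] at hV2
    have h1 : |B.hc - A.hc| ≤ 2 * kap (mk A) := by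
      rw [abs_le]
      constructor <;> linarith
    have h2 : |Real.log (Nat.card V) - A.hc| ≤ |Real.log (Nat.card V) - B.hc| + |B.hc - A.hc| := by
      have := abs_add_le (Real.log (Nat.card V) - B.hc) (B.hc - A.hc)
      rwa [sub_add_sub_cancel] at this
    linarith

end MM
end Pool.Agent.PFM
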