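import Pool.Agent.PFM.Ref
set_option autoImplicit false

/-!
# Section D1 (helper79, helper33): definitions and interface
-/
namespace Pool.Agent.PFM
open Finset Pool.Agent.Ldc

namespace D1

/-- `E` is killed by some `m`, `0 < m ≤ 2^T` -/
def Tor (T : ℕ) (E : Type) [AddCommGroup E] : Prop := ∃ m : ℕ, 0 < m ∧ m ≤ 2 ^ T ∧ ∀ g : E, m • g = 0

/-- `a` is terminated with parameter `L` -/
def Term {E : Type} [AddCommGroup E] (L : ℝ) (a : MM E) : Prop :=
  ∀ W : AddSubgroup E, W ≠ ⊤ →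
    L * MM.kap (MM.mapHom (QuotientAddGroup.mk' W) a) < MM.h (MM.mapHom (QuotientAddGroup.mk' W) a)

/-- the statement TR1 (deliverable of section P) with constant `C` and slope `3/2` -/
def TR1 (C : ℝ) : Prop := ∀ (E : Type) [AddCommGroup E] [Fintype E] (T : ℕ), 1 ≤ T → Tor T E → ∀ a : MM E,
  ∃ W : AddSubgroup E, MM.h (MM.mapHom (QuotientAddGroup.mk' W) a) ≤ C * MM.kap a ∧
    Real.log (Nat.card W) ≤ (3 / 2) * MM.h a + C * T * MM.kap a

end D1
end Pool.Agent.PFM
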