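import Pool.Agent.NPM.Defs
set_option autoImplicit false

/-!
# Squad PFM, section D2 (helper4): definitions and the two interface propositions `Ent C` and `RR C`.

`Ent C` is delivered by sections S, P, D1 (termination, (*), TR1); `RR C` is used by section M.
No conditional variables occur here: only laws, subgroups and counting.
-/
namespace Pool.Agent.PFM
open Finset Pool.Agent.Ldc Pool.Agent.NPM
open scoped Pointwise

section
variable {G : Type} [AddCommGroup G] [Fintype G]

open Classical in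
/-- the points of `V` which, translated by `x`, carry mass of `P` -/
noncomputable def pts (V : AddSubgroup G) (P : G → ℝ) (x : G) : Finset G :=
  univ.filter (fun v => v ∈ V ∧ 0 < P (x + v))

open Classical in
/-- the number of cosets of `F` meeting the support of `P` -/
noncomputable def ncos (F : AddSubgroup G) (P : G → ℝ) : ℕ :=
  ((univ.filter (fun g => 0 < P g)).image (fun g => (QuotientAddGroup.mk g : G ⧸ F))).card

/-- Fourier transform of (the indicator of) a finset -/
noncomputable def bh (B : Finset G) (ξ : AddChar G ℂ) : ℂ := ∑ b ∈ B, ξ b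

end

/-- the `q`-torsion of the subgroup `V` -/
def torq {G : Type} [AddCommGroup G] (q : ℕ) (V : AddSubgroup G) : AddSubgroup G where
  carrier := {v | v ∈ V ∧ q • v = 0}
  zero_mem' := ⟨V.zero_mem, smul_zero q⟩
  add_mem' := by
    rintro a b ⟨ha, ha'⟩ ⟨hb, hb'⟩
    exact ⟨V.add_mem ha hb, by rw [smul_add, ha', hb', add_zero]⟩
  neg_mem' := by
    rintro a ⟨ha, ha'⟩
    exact ⟨V.neg_mem ha, by rw [smul_neg, ha', neg_zero]⟩

/-- INTERFACE (sections S, P, D1): what the entropic part says about a law `P` with doubling constant `e^k` -/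
def Ent (C : ℝ) : Prop :=
  ∀ (G : Type) [AddCommGroup G] [Fintype G] (P : G → ℝ), IsP P → ∀ k : ℝ, 1 ≤ k →
    ent (conv P P) - ent P ≤ k →
    ∃ V : AddSubgroup G,
      (∃ x : G, (pts V P x).Nonempty ∧ ent P - C * k ≤ Real.log ((pts V P x).card : ℝ)) ∧
      (∀ q : ℕ, q.Prime → ∀ F : AddSubgroup G, F ≤ V → (∀ v ∈ V, q • v ∈ F) →
        Real.log (Nat.card V : ℝ) - Real.log (Nat.card F : ℝ) ≤
          3 / 2 * Real.log (ncos F P : ℝ) + C * k * Real.log q) ∧
      (∀ q : ℕ, q.Prime → ∃ x : G, (pts (torq q V) P x).Nonempty ∧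
        2 / 3 * Real.log (Nat.card (torq q V) : ℝ) - C * k * Real.log q ≤
          Real.log ((pts (torq q V) P x).card : ℝ))

/-- INTERFACE to section M: the dense piece `B` (a subset of the subgroup `V` after translation), the group of
characters `T` all of whose `q`-ranks are at most `R ≤ C k`, and the subset `B'` of points with dense
cosets of `Ann T` -/
def RR (C : ℝ) : Prop :=
  ∀ (G : Type) [AddCommGroup G] [Fintype G] [DecidableEq G] (A : Finset G) (K : ℝ), A.Nonempty → 1 ≤ K →
    ((A + A).card : ℝ) ≤ K * (A.card : ℝ) →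
    ∃ (V : AddSubgroup G) (x : G) (B : Finset V) (T : AddSubgroup (AddChar V ℂ)) (R : ℕ) (B' : Finset V),
      B.Nonempty ∧ (∀ v ∈ B, x + (v : G) ∈ A) ∧
      Real.exp (-(C * (1 + Real.log K))) * (A.card : ℝ) ≤ (B.card : ℝ) ∧
      ((B + B).card : ℝ) ≤ Real.exp (C * (1 + Real.log K)) * (B.card : ℝ) ∧
      (R : ℝ) ≤ C * (1 + Real.log K) ∧
      (∀ q : ℕ, q.Prime → Nat.card (torq q T) ≤ q ^ R) ∧
      B' ⊆ B ∧ Real.exp (-(C * (1 + Real.log K))) * (B.card : ℝ) ≤ (B'.card : ℝ) ∧
      ∀ b ∈ B', Real.exp (-(C * (1 + Real.log K))) * (Nat.card (Ann (T : Set (AddChar V ℂ))) : ℝ) ≤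
        (Nat.card {a : V // a ∈ B ∧ a - b ∈ Ann (T : Set (AddChar V ℂ))} : ℝ)

end Pool.Agent.PFM
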