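import Pool.Agent.PFM.D2Defs
set_option autoImplicit false

/-!
# D2d (size 1).  Counting lemmas.

`dense_pts`: `Σ_{b ∈ B} #{a ∈ B : a - b ∈ F} = #pairs ≥ 2 c |F| |B|` (the pairs `u` are counted with `u.1 - u.2 ∈ F`), every term is `≤ |F|` (injection
`a ↦ a - b`); `B' = {b ∈ B : c |F| ≤ #{a ∈ B : a - b ∈ F}}`: `2 c |F| |B| ≤ |F| |B'| + c |F| |B|`.
`dense_one`: pigeonhole.
`cover`: choose a representative `a_i ∈ A` of every coset of `F` which meets `A`; the sets `a_i + D ⊆ A + A` are disjoint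
(`a_i + d = a_j + d'` gives `a_i - a_j = d' - d ∈ F`).  (`0 < unif A g ↔ g ∈ A` as `A` is nonempty; `ncos F (unif A)` is the number of these cosets.)
-/
namespace Pool.Agent.PFM
open Finset Pool.Agent.Ldc Pool.Agent.NPM
open scoped Pointwise

variable {G : Type} [AddCommGroup G] [Fintype G] [DecidableEq G]

open Classical in
omit [Fintype G] [DecidableEq G] in
private theorem D2d_pairs (B : Finset G) (F : AddSubgroup G) :
    (((B ×ˢ B).filter (fun u => u.1 - u.2 ∈ F)).card : ℝ) =
      ∑ b ∈ B, ((B.filter (fun a => a - b ∈ F)).card : ℝ) := by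
  rw [Finset.card_filter, Finset.sum_product_right]
  push_cast
  refine Finset.sum_congr rfl fun b _ => ?_
  rw [Finset.card_filter]
  push_cast
  rfl

open Classical in
omit [DecidableEq G] in
private theorem D2d_le (B : Finset G) (F : AddSubgroup G) (b : G) :
    ((B.filter (fun a => a - b ∈ F)).card : ℝ) ≤ (Nat.card F : ℝ) := by
  have h : (B.filter (fun a => a - b ∈ F)).card ≤ (univ.filter (fun w => w ∈ F)).card := by
    refine Finset.card_le_card_of_injOn (fun a => a - b) ?_ ?_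
    · intro a ha
      rw [Finset.mem_coe, Finset.mem_filter] at ha
      rw [Finset.mem_coe, Finset.mem_filter]
      exact ⟨Finset.mem_univ _, ha.2⟩
    · intro a _ a' _ h
      exact sub_left_injective h
  have h2 : Nat.card F = (univ.filter (fun w => w ∈ F)).card :=
    Nat.subtype_card _ (fun x => by rw [Finset.mem_filter]; simp)
  rw [h2]
  exact_mod_cast h

open Classical in
theorem dense_pts (B : Finset G) (F : AddSubgroup G) (c : ℝ) (hc : 0 ≤ c)
    (h : 2 * c * (Nat.card F : ℝ) * (B.card : ℝ) ≤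
      (((B ×ˢ B).filter (fun u => u.1 - u.2 ∈ F)).card : ℝ)) :
    ∃ B' : Finset G, B' ⊆ B ∧ c * (B.card : ℝ) ≤ (B'.card : ℝ) ∧
      ∀ b ∈ B', c * (Nat.card F : ℝ) ≤ (Nat.card {a : G // a ∈ B ∧ a - b ∈ F} : ℝ) := by
  have hF : (0 : ℝ) < (Nat.card F : ℝ) := by
    have : 0 < Nat.card F := Nat.card_pos
    exact_mod_cast this
  refine ⟨B.filter (fun b => c * (Nat.card F : ℝ) ≤ ((B.filter (fun a => a - b ∈ F)).card : ℝ)),
    Finset.filter_subset _ _, ?_, ?_⟩
  · rw [D2d_pairs] at h
    have h1 : ∑ b ∈ B, ((B.filter (fun a => a - b ∈ F)).card : ℝ) ≤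
        ∑ b ∈ B, ((if c * (Nat.card F : ℝ) ≤ ((B.filter (fun a => a - b ∈ F)).card : ℝ) then
          (Nat.card F : ℝ) else 0) + c * (Nat.card F : ℝ)) := by
      refine Finset.sum_le_sum fun b _ => ?_
      split_ifs with h2
      · have h3 := D2d_le B F b
        have h4 : 0 ≤ c * (Nat.card F : ℝ) := by positivity
        linarith
      · rw [zero_add]
        exact (not_le.1 h2).le
    rw [Finset.sum_add_distrib, ← Finset.sum_filter, Finset.sum_const, Finset.sum_const,
      nsmul_eq_mul, nsmul_eq_mul] at h1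
    have h2 : (Nat.card F : ℝ) * (c * (B.card : ℝ)) ≤ (Nat.card F : ℝ) *
        ((B.filter (fun b => c * (Nat.card F : ℝ) ≤
          ((B.filter (fun a => a - b ∈ F)).card : ℝ))).card : ℝ) := by
      linarith
    exact le_of_mul_le_mul_left h2 hF
  · intro b hb
    rw [Finset.mem_filter] at hb
    have h3 : Nat.card {a : G // a ∈ B ∧ a - b ∈ F} = (B.filter (fun a => a - b ∈ F)).card :=
      Nat.subtype_card _ (fun x => by rw [Finset.mem_filter])
    rw [h3]
    exact hb.2

open Classical in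
theorem dense_one (B : Finset G) (hB : B.Nonempty) (F : AddSubgroup G) (c : ℝ)
    (h : c * (B.card : ℝ) ≤ (((B ×ˢ B).filter (fun u => u.1 - u.2 ∈ F)).card : ℝ)) :
    ∃ b ∈ B, c ≤ ((B.filter (fun a => a - b ∈ F)).card : ℝ) := by
  by_contra hcon
  push Not at hcon
  rw [D2d_pairs] at h
  have h1 := Finset.sum_lt_sum_of_nonempty hB hcon
  rw [Finset.sum_const, nsmul_eq_mul] at h1
  linarith

theorem cover (A D : Finset G) (hA : A.Nonempty) (F : AddSubgroup G) (hD : D ⊆ A)
    (h : ∀ d ∈ D, ∀ d' ∈ D, d - d' ∈ F) :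
    ncos F (unif A) * D.card ≤ (A + A).card := by
  classical
  obtain ⟨I, hI, hI2⟩ : ∃ I : Finset (G ⧸ F), ncos F (unif A) = I.card ∧
      ∀ c ∈ I, ∃ a ∈ A, (QuotientAddGroup.mk a : G ⧸ F) = c := by
    refine ⟨_, rfl, ?_⟩
    intro c hc
    obtain ⟨a, ha, hac⟩ := Finset.mem_image.1 hc
    refine ⟨a, ?_, hac⟩
    have ha2 := (Finset.mem_filter.1 ha).2
    by_contra hn
    unfold unif at ha2
    rw [if_neg hn] at ha2
    exact lt_irrefl _ ha2
  choose! rep hrep using hI2
  rw [hI, ← Finset.card_product]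
  refine Finset.card_le_card_of_injOn (fun u => rep u.1 + u.2) ?_ ?_
  · intro u hu
    rw [Finset.mem_coe, Finset.mem_product] at hu
    exact Finset.add_mem_add (hrep _ hu.1).1 (hD hu.2)
  · intro u hu v hv huv
    rw [Finset.mem_coe, Finset.mem_product] at hu hv
    have h1 : rep u.1 + u.2 = rep v.1 + v.2 := huv
    have h2 : -rep u.1 + rep v.1 = u.2 - v.2 := by
      have h3 : rep v.1 = rep u.1 + u.2 - v.2 := by rw [h1]; abel
      rw [h3]; abel
    have h4 : u.1 = v.1 := by
      rw [← (hrep _ hu.1).2, ← (hrep _ hv.1).2]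
      refine QuotientAddGroup.eq.2 ?_
      rw [h2]
      exact h _ hu.2 _ hv.2
    refine Prod.ext h4 ?_
    rw [h4] at h1
    exact add_left_cancel h1

end Pool.Agent.PFM
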