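import Pool.Agent.PFM.D2u
import Pool.Agent.PFM.D2d
set_option autoImplicit false

/-!
# D2a (size 2).  Primal side.

Apply `Ent C` to `P = unif A`, `k = 1 + log K` (`unif_kap`).  `x` from the first part; `B = univ.filter (fun v : V => x + v ∈ A)`; `|B| = |pts V (unif A) x|`
(`0 < unif A g ↔ g ∈ A`), `ent (unif A) = log |A|` (`ent_unif`).  `|B + B| ≤ |A + A|` (injection `v ↦ (x + x) + v` of `B + B` into `A + A`).
Last part: the second part of `Ent` for `F.map V.subtype` (`F ≤ V` etc.), `Nat.card (F.map V.subtype) = Nat.card F`, and `cover` for `D = (x + ·) '' D₀`: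
`ncos * |D₀| ≤ |A + A| ≤ K |A| ≤ K e^{C k} |B|`; take logarithms (`ncos > 0` since `A` is nonempty):
`log ncos ≤ log K + C k + log |B| - log |D₀|`.
-/
namespace Pool.Agent.PFM
open Finset Pool.Agent.Ldc Pool.Agent.NPM
open scoped Pointwise

private theorem D2a_unif {G : Type} (A : Finset G) (g : G) : 0 < unif A g ↔ g ∈ A := by
  unfold unif
  constructor
  · intro h
    by_contra hg
    rw [if_neg hg] at h
    exact lt_irrefl _ h
  · intro h
    rw [if_pos h]
    have : 0 < A.card := Finset.card_pos.mpr ⟨g, h⟩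
    positivity

private theorem D2a_isP {G : Type} [Fintype G] (A : Finset G) (hA : A.Nonempty) : IsP (unif A) := by
  classical
  have hc : (A.card : ℝ) ≠ 0 := by
    have := Finset.card_pos.mpr hA
    positivity
  constructor
  · intro g
    unfold unif
    split_ifs <;> positivity
  · unfold unif
    rw [← Finset.sum_filter, Finset.sum_const, nsmul_eq_mul]
    have : (univ.filter (fun g => g ∈ A)) = A := by ext; simp
    rw [this]
    field_simp

theorem primal (C : ℝ) (hC : 0 < C) (hE : Ent C) (G : Type) [AddCommGroup G] [Fintype G] [DecidableEq G]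
    (A : Finset G) (hA : A.Nonempty) (K : ℝ) (hK1 : 1 ≤ K)
    (hK : ((A + A).card : ℝ) ≤ K * (A.card : ℝ)) :
    ∃ (V : AddSubgroup G) (x : G) (B : Finset V), B.Nonempty ∧ (∀ v ∈ B, x + (v : G) ∈ A) ∧
      Real.log (A.card : ℝ) - C * (1 + Real.log K) ≤ Real.log (B.card : ℝ) ∧
      ((B + B).card : ℝ) ≤ Real.exp ((C + 1) * (1 + Real.log K)) * (B.card : ℝ) ∧
      ∀ q : ℕ, q.Prime → ∀ F : AddSubgroup V, (∀ v : V, q • v ∈ F) →
        ∀ D : Finset V, D ⊆ B → D.Nonempty → (∀ d ∈ D, ∀ d' ∈ D, d - d' ∈ F) →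
          Real.log (Nat.card V : ℝ) - Real.log (Nat.card F : ℝ) ≤
            3 / 2 * ((C + 1) * (1 + Real.log K) + Real.log (B.card : ℝ) - Real.log (D.card : ℝ))
              + C * (1 + Real.log K) * Real.log q := by
  have hlogK : 0 ≤ Real.log K := Real.log_nonneg hK1
  have hk1 : (1 : ℝ) ≤ 1 + Real.log K := by linarith
  have hkap : ent (conv (unif A) (unif A)) - ent (unif A) ≤ 1 + Real.log K := by
    have := unif_kap A hA K hK1 hK
    linarith
  obtain ⟨V, ⟨x, hne, hx⟩, hF, -⟩ := hE G (unif A) (D2a_isP A hA) (1 + Real.log K) hk1 hkap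
  have hex : ∃ B : Finset V, ∀ v : V, v ∈ B ↔ x + (v : G) ∈ A := by
    classical
    exact ⟨univ.filter (fun v : V => x + (v : G) ∈ A), fun v => by simp⟩
  obtain ⟨B, hB⟩ := hex
  have hBcard : B.card = (pts V (unif A) x).card := by
    rw [← Finset.card_map (Function.Embedding.subtype (fun g => g ∈ V)) (s := B)]
    congr 1
    ext g
    simp only [Finset.mem_map, Function.Embedding.coe_subtype, pts, Finset.mem_filter, Finset.mem_univ,
      true_and, D2a_unif]
    constructor
    · rintro ⟨v, hv, rfl⟩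
      exact ⟨v.2, (hB v).1 hv⟩
    · rintro ⟨hg, hgA⟩
      exact ⟨⟨g, hg⟩, (hB ⟨g, hg⟩).2 hgA, rfl⟩
  have hBne : B.Nonempty := by
    rw [← Finset.card_pos, hBcard, Finset.card_pos]
    exact hne
  have hBpos : (0 : ℝ) < (B.card : ℝ) := by
    have := Finset.card_pos.mpr hBne
    positivity
  have hApos : (0 : ℝ) < (A.card : ℝ) := by
    have := Finset.card_pos.mpr hA
    positivity
  have hlogAB : Real.log (A.card : ℝ) - C * (1 + Real.log K) ≤ Real.log (B.card : ℝ) := by
    rw [hBcard, ← ent_unif A hA]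
    exact hx
  -- `K |A| ≤ e^{(C+1) k} |B|`
  have hKA : K * (A.card : ℝ) ≤ Real.exp ((C + 1) * (1 + Real.log K)) * (B.card : ℝ) := by
    have hKpos : 0 < K := by linarith
    rw [← Real.log_le_log_iff (by positivity) (by positivity), Real.log_mul hKpos.ne' hApos.ne',
      Real.log_mul (Real.exp_pos _).ne' hBpos.ne', Real.log_exp]
    nlinarith
  refine ⟨V, x, B, hBne, fun v hv => (hB v).1 hv, hlogAB, ?_, ?_⟩
  · refine le_trans ?_ (hK.trans hKA)
    have h1 : (B + B).card ≤ (A + A).card := by
      apply Finset.card_le_card_of_injOn (fun v : V => (x + x) + (v : G))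
      · intro v hv
        have hv' : v ∈ B + B := hv
        obtain ⟨b, hb, b', hb', rfl⟩ := Finset.mem_add.mp hv'
        show (x + x) + ((b + b' : V) : G) ∈ ((A + A : Finset G) : Set G)
        rw [Finset.mem_coe, Finset.mem_add]
        refine ⟨x + (b : G), (hB b).1 hb, x + (b' : G), (hB b').1 hb', ?_⟩
        rw [AddSubgroup.coe_add]
        abel
      · intro v _ v' _ h
        exact Subtype.ext (add_left_cancel h)
    exact_mod_cast h1
  · intro q hq F hFq D hDB hDne hDF
    have hle : F.map V.subtype ≤ V := by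
      rintro g ⟨v, -, rfl⟩
      exact v.2
    have h1 := hF q hq (F.map V.subtype) hle (by
      intro v hv
      exact ⟨q • (⟨v, hv⟩ : V), hFq ⟨v, hv⟩, rfl⟩)
    have hcardF : Nat.card (F.map V.subtype) = Nat.card F :=
      (Nat.card_congr (F.equivMapOfInjective V.subtype V.subtype_injective).toEquiv).symm
    rw [hcardF] at h1
    have hDcard : (D.image (fun v : V => x + (v : G))).card = D.card := by
      apply Finset.card_image_of_injective
      intro v v' h
      exact Subtype.ext (add_left_cancel h)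
    have h2 := cover A (D.image (fun v : V => x + (v : G))) hA (F.map V.subtype) (by
      intro g hg
      obtain ⟨v, hv, rfl⟩ := Finset.mem_image.mp hg
      exact (hB v).1 (hDB hv)) (by
      intro d hd d' hd'
      obtain ⟨v, hv, rfl⟩ := Finset.mem_image.mp hd
      obtain ⟨v', hv', rfl⟩ := Finset.mem_image.mp hd'
      refine ⟨v - v', hDF v hv v' hv', ?_⟩
      rw [map_sub]
      simp)
    rw [hDcard] at h2
    have hncos : 0 < ncos (F.map V.subtype) (unif A) := by
      classical
      unfold ncos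
      rw [Finset.card_pos, Finset.image_nonempty]
      obtain ⟨a, ha⟩ := hA
      exact ⟨a, Finset.mem_filter.mpr ⟨Finset.mem_univ a, (D2a_unif A a).2 ha⟩⟩
    have hDpos : (0 : ℝ) < (D.card : ℝ) := by
      have := Finset.card_pos.mpr hDne
      positivity
    have hnpos : (0 : ℝ) < (ncos (F.map V.subtype) (unif A) : ℝ) := by exact_mod_cast hncos
    have h3 : (ncos (F.map V.subtype) (unif A) : ℝ) * (D.card : ℝ) ≤
        Real.exp ((C + 1) * (1 + Real.log K)) * (B.card : ℝ) := by
      refine le_trans ?_ (hK.trans hKA)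
      exact_mod_cast h2
    have h4 : Real.log (ncos (F.map V.subtype) (unif A) : ℝ) + Real.log (D.card : ℝ) ≤
        (C + 1) * (1 + Real.log K) + Real.log (B.card : ℝ) := by
      have h5 := Real.log_le_log (by positivity) h3
      rw [Real.log_mul hnpos.ne' hDpos.ne', Real.log_mul (Real.exp_pos _).ne' hBpos.ne',
        Real.log_exp] at h5
      exact h5
    linarith

end Pool.Agent.PFM
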