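import Pool.Agent.PFM.D2Defs
set_option autoImplicit false

/-!
# D2c (size 1).  Orthogonality over a group of characters; duality count.

`sum_char_mem`: for `T ≤ AddChar G ℂ` and `g : G`, `Σ_{ξ ∈ T} ξ g = |T|` if `g ∈ Ann T` and `0` otherwise
(if `ξ₁ ∈ T`, `ξ₁ g ≠ 1`: translating the sum by `ξ₁` multiplies it by `ξ₁ g`; `AddChar.add_apply : (ψ + χ) a = ψ a * χ a`).
`dual_card`: `Σ_{g} Σ_{ξ ∈ T} ξ g = |T| |Ann T|` by `sum_char_mem`, and `= |G|` after exchanging the sums (`Σ_g ξ g = if ξ = 0 then card G else 0`,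
`AddChar.sum_eq_ite` / `AddChar.sum_eq_zero_of_ne_one`).
-/
namespace Pool.Agent.PFM
open Finset Pool.Agent.Ldc Pool.Agent.NPM

variable {G : Type} [AddCommGroup G] [Fintype G] [DecidableEq G]

open Classical in
private theorem D2c_card {H : Type} [AddGroup H] [Fintype H] (T : AddSubgroup H) :
    (univ.filter (fun ξ : H => ξ ∈ T)).card = Nat.card T := by
  rw [Nat.card_eq_fintype_card, Fintype.card_subtype]

open Classical in
theorem sum_char_mem (T : AddSubgroup (AddChar G ℂ)) (g : G) :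
    ∑ ξ ∈ univ.filter (fun ξ : AddChar G ℂ => ξ ∈ T), ξ g =
      if g ∈ Ann (T : Set (AddChar G ℂ)) then (Nat.card T : ℂ) else 0 := by
  by_cases hg : g ∈ Ann (T : Set (AddChar G ℂ))
  · rw [if_pos hg]
    have h1 : ∀ ξ ∈ univ.filter (fun ξ : AddChar G ℂ => ξ ∈ T), ξ g = 1 := by
      intro ξ hξ
      exact hg ξ (Finset.mem_filter.1 hξ).2
    rw [Finset.sum_congr rfl h1, Finset.sum_const, D2c_card, nsmul_eq_mul, mul_one]
  · rw [if_neg hg]
    have h2 : ∃ ξ₁ ∈ T, ξ₁ g ≠ 1 := by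
      by_contra hcon
      push Not at hcon
      exact hg (fun ξ hξ => hcon ξ hξ)
    obtain ⟨ξ₁, hT, h1⟩ := h2
    set S := ∑ ξ ∈ univ.filter (fun ξ : AddChar G ℂ => ξ ∈ T), ξ g with hS
    have h3 : ξ₁ g * S = S := by
      rw [hS, Finset.mul_sum]
      refine Finset.sum_bij' (fun ξ _ => ξ₁ + ξ) (fun ξ _ => -ξ₁ + ξ) ?_ ?_ ?_ ?_ ?_
      · intro ξ hξ
        rw [Finset.mem_filter] at hξ ⊢
        exact ⟨Finset.mem_univ _, T.add_mem hT hξ.2⟩
      · intro ξ hξ
        rw [Finset.mem_filter] at hξ ⊢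
        exact ⟨Finset.mem_univ _, T.add_mem (T.neg_mem hT) hξ.2⟩
      · intro ξ _
        exact neg_add_cancel_left ξ₁ ξ
      · intro ξ _
        exact add_neg_cancel_left ξ₁ ξ
      · intro ξ _
        rw [AddChar.add_apply]
    have h4 : (ξ₁ g - 1) * S = 0 := by
      rw [sub_mul, h3, one_mul, sub_self]
    rcases mul_eq_zero.1 h4 with h5 | h5
    · exact absurd (sub_eq_zero.1 h5) h1
    · exact h5

theorem dual_card (T : AddSubgroup (AddChar G ℂ)) :
    Nat.card T * Nat.card (Ann (T : Set (AddChar G ℂ))) = Fintype.card G := by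
  classical
  have h1 : ∑ g : G, ∑ ξ ∈ univ.filter (fun ξ : AddChar G ℂ => ξ ∈ T), ξ g
      = (Nat.card T : ℂ) * (Nat.card (Ann (T : Set (AddChar G ℂ))) : ℂ) := by
    rw [Finset.sum_congr rfl (fun g _ => sum_char_mem T g), ← Finset.sum_filter, Finset.sum_const,
      D2c_card, nsmul_eq_mul, mul_comm]
  have h2 : ∑ g : G, ∑ ξ ∈ univ.filter (fun ξ : AddChar G ℂ => ξ ∈ T), ξ g
      = (Fintype.card G : ℂ) := by
    rw [Finset.sum_comm, Finset.sum_congr rfl (fun ξ _ => AddChar.sum_eq_ite ξ), Finset.sum_ite_eq',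
      if_pos (Finset.mem_filter.2 ⟨Finset.mem_univ _, T.zero_mem⟩)]
  rw [h1] at h2
  exact_mod_cast h2

end Pool.Agent.PFM
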