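import Pool.Agent.PFM.D2e
set_option autoImplicit false

/-!
# D2g (size 1).  A law on the spectrum with many points in a coset of `T'` gives many differences in `Ann T'`.

By `coset_sum`: its left side is at least the sum over `ξ ∈ pts T' ω ξ₀` (`ξ ∈ T'`, `0 < ω (ξ₀ + ξ)`), every term of which is `≥ η |B|²`.
-/
namespace Pool.Agent.PFM
open Finset Pool.Agent.Ldc Pool.Agent.NPM
open scoped Pointwise

open Classical in
theorem pts_pairs {W : Type} [AddCommGroup W] [Fintype W] [DecidableEq W] (B : Finset W)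
    (η : ℝ) (ω : AddChar W ℂ → ℝ)
    (hω : ∀ ξ, 0 < ω ξ → η * (B.card : ℝ) ^ 2 ≤ ‖bh B ξ‖ ^ 2) (T' : AddSubgroup (AddChar W ℂ))
    (ξ₀ : AddChar W ℂ) :
    ((pts T' ω ξ₀).card : ℝ) * (η * (B.card : ℝ) ^ 2) ≤ (Nat.card T' : ℝ) *
      (((B ×ˢ B).filter (fun u => u.1 - u.2 ∈ Ann (T' : Set (AddChar W ℂ)))).card : ℝ) := by
  refine le_trans ?_ (coset_sum T' B ξ₀)
  have h1 : ((pts T' ω ξ₀).card : ℝ) * (η * (B.card : ℝ) ^ 2) ≤
      ∑ ξ ∈ pts T' ω ξ₀, ‖bh B (ξ₀ + ξ)‖ ^ 2 := by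
    rw [← nsmul_eq_mul]
    refine Finset.card_nsmul_le_sum _ _ _ ?_
    intro ξ hξ
    unfold pts at hξ
    rw [Finset.mem_filter] at hξ
    exact hω _ hξ.2.2
  refine le_trans h1 ?_
  refine Finset.sum_le_sum_of_subset_of_nonneg ?_ (fun i _ _ => by positivity)
  intro ξ hξ
  unfold pts at hξ
  rw [Finset.mem_filter] at hξ ⊢
  exact ⟨Finset.mem_univ _, hξ.2.1⟩

end Pool.Agent.PFM
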