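import Pool.Agent.PFM.D2s
import Pool.Agent.PFM.D2c
import Pool.Agent.PFM.D2d
import Pool.Agent.PFM.D2g
set_option autoImplicit false

/-!
# D2b (size 2).  Dual side.

`dual`: `ω` from `spec_law` (constant `C₁`), `k₁ = 1 + log K₁`, `k₂ = C₁ k₁ ≥ 1`; `Ent C` for `ω` on the group `AddChar W ℂ` with `k = k₂` gives `T`.
(a) `F = Ann T`, `log |pts T ω ξ₀| ≥ ent ω - C k₂ ≥ log |W| - log |B| - (C₁ k₁ + C k₂)`; `pts_pairs`, `dual_card` (`|T| |F| = |W|`):
`#pairs ≥ η |B|² (|W| / |B|) e^{-(..)} / |T| = η e^{-(..)} |F| |B|`, `η = 1 / (2 K₁) ≥ e^{-(1 + k₁)}`.. ; `dense_pts` with `2 c = η e^{-(..)}`, `c ≥ e^{-C' k₁}`.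
(b) `q` prime: `ξ₀` from the third part of `Ent`, `M = |pts (torq q T) ω ξ₀| > 0`; `F₁ = Ann (torq q T)`: `q • w ∈ F₁` for all `w`
(`ξ (q • w) = (q • ξ) w = 1`), `log |W| - log |F₁| = log |torq q T|` (`dual_card`); `pts_pairs`, `dense_one` with `c = M η |B| / |torq q T|`:
`D = {a ∈ B : a - b ∈ F₁}` has `log |D| ≥ log M + log η + log |B| - log |torq q T|`,
`log M ≥ (2/3) log |torq q T| - C k₂ log q`, so `log |D| ≥ log |B| - (1/3) log |torq q T| - (C k₂) log q + log η`; `log q ≥ log 2 ≥ 1/2` absorbs `log η`.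
`C'` := any constant such as `4 + 4 C₁ + 4 C C₁`.
-/

namespace Pool.Agent.PFM
open Finset Pool.Agent.Ldc Pool.Agent.NPM
open scoped Pointwise

private theorem D2b_torq {W : Type} [AddCommGroup W] [Fintype W] (q : ℕ)
    (T : AddSubgroup (AddChar W ℂ)) (w : W) :
    q • w ∈ Ann ((torq q T : AddSubgroup (AddChar W ℂ)) : Set (AddChar W ℂ)) := by
  intro ξ hξ
  have h1 : q • ξ = 0 := hξ.2
  have h2 : (q • ξ) w = 1 := by
    rw [h1, AddChar.zero_apply]
  rw [AddChar.map_nsmul_eq_pow]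
  rwa [AddChar.nsmul_apply] at h2

private theorem D2b_exp {C C₁ K₁ : ℝ} (hK1 : 1 ≤ K₁) :
    Real.exp (-((C₁ + C * C₁ + 2) * (1 + Real.log K₁))) ≤
      1 / (2 * K₁) * Real.exp (-(C₁ * (1 + Real.log K₁) + C * (C₁ * (1 + Real.log K₁)))) / 2 := by
  have hK0 : 0 < K₁ := lt_of_lt_of_le one_pos hK1
  have hl : 0 ≤ Real.log K₁ := Real.log_nonneg hK1
  have hl2 : Real.log 2 ≤ 1 := by
    have := Real.log_two_lt_d9
    linarith
  have e1 : 1 / (2 * K₁) * Real.exp (-(C₁ * (1 + Real.log K₁) + C * (C₁ * (1 + Real.log K₁)))) / 2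
      = Real.exp (-(C₁ * (1 + Real.log K₁) + C * (C₁ * (1 + Real.log K₁))) - Real.log 2 - Real.log K₁
        - Real.log 2) := by
    rw [Real.exp_sub, Real.exp_sub, Real.exp_sub, Real.exp_log (by norm_num : (0 : ℝ) < 2),
      Real.exp_log hK0]
    field_simp
  rw [e1]
  apply Real.exp_le_exp.2
  nlinarith

theorem dual (C : ℝ) (hC : 0 < C) (hE : Ent C) : ∃ C' : ℝ, 0 < C' ∧
    ∀ (W : Type) [AddCommGroup W] [Fintype W] [DecidableEq W] (B : Finset W) (K₁ : ℝ), B.Nonempty →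
      1 ≤ K₁ → ((B + B).card : ℝ) ≤ K₁ * (B.card : ℝ) →
      ∃ T : AddSubgroup (AddChar W ℂ),
        (∃ B' : Finset W, B' ⊆ B ∧
          Real.exp (-(C' * (1 + Real.log K₁))) * (B.card : ℝ) ≤ (B'.card : ℝ) ∧
          ∀ b ∈ B', Real.exp (-(C' * (1 + Real.log K₁))) * (Nat.card (Ann (T : Set (AddChar W ℂ))) : ℝ) ≤
            (Nat.card {a : W // a ∈ B ∧ a - b ∈ Ann (T : Set (AddChar W ℂ))} : ℝ)) ∧
        ∀ q : ℕ, q.Prime → ∃ (F : AddSubgroup W) (D : Finset W), (∀ w : W, q • w ∈ F) ∧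
          Real.log (Nat.card W : ℝ) - Real.log (Nat.card F : ℝ) = Real.log (Nat.card (torq q T) : ℝ) ∧
          D ⊆ B ∧ D.Nonempty ∧ (∀ d ∈ D, ∀ d' ∈ D, d - d' ∈ F) ∧
          Real.log (B.card : ℝ) - Real.log (D.card : ℝ) ≤
            1 / 3 * Real.log (Nat.card (torq q T) : ℝ) + C' * (1 + Real.log K₁) * Real.log q := by
  classical
  obtain ⟨C₁, hC₁, hspec⟩ := spec_law
  refine ⟨C₁ + C * C₁ + 2, by positivity, ?_⟩
  intro W _ _ _ B K₁ hB hK1 hK
  have hl : 0 ≤ Real.log K₁ := Real.log_nonneg hK1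
  have hK0 : 0 < K₁ := lt_of_lt_of_le one_pos hK1
  obtain ⟨ω, hP, hω, hdb, hent⟩ := hspec W B K₁ hB hK1 hK
  have hk2 : 1 ≤ C₁ * (1 + Real.log K₁) := by nlinarith
  obtain ⟨T, ⟨ξ₀, hne, hx⟩, -, h3⟩ := hE (AddChar W ℂ) ω hP (C₁ * (1 + Real.log K₁)) hk2 hdb
  have hBc : (0 : ℝ) < (B.card : ℝ) := by exact_mod_cast hB.card_pos
  have hη : (0 : ℝ) < 1 / (2 * K₁) := by positivity
  refine ⟨T, ?_, ?_⟩
  · -- part (a)
    have hWc : (0 : ℝ) < (Fintype.card W : ℝ) := by
      exact_mod_cast Fintype.card_pos_iff.2 ⟨hB.choose⟩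
    have hdual : (Nat.card T : ℝ) * (Nat.card (Ann (T : Set (AddChar W ℂ))) : ℝ)
        = (Fintype.card W : ℝ) := by exact_mod_cast dual_card T
    have hTc : (0 : ℝ) < (Nat.card T : ℝ) := by
      have : 0 < Nat.card T := Nat.card_pos
      exact_mod_cast this
    have hFc : (0 : ℝ) < (Nat.card (Ann (T : Set (AddChar W ℂ))) : ℝ) := by
      have : 0 < Nat.card (Ann (T : Set (AddChar W ℂ))) := Nat.card_pos
      exact_mod_cast this
    have hNc : (0 : ℝ) < ((pts T ω ξ₀).card : ℝ) := by exact_mod_cast hne.card_pos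
    set L : ℝ := C₁ * (1 + Real.log K₁) + C * (C₁ * (1 + Real.log K₁)) with hL
    have hN : (Fintype.card W : ℝ) * Real.exp (-L) ≤ ((pts T ω ξ₀).card : ℝ) * (B.card : ℝ) := by
      have h4 : Real.log ((Fintype.card W : ℝ) * Real.exp (-L)) ≤
          Real.log (((pts T ω ξ₀).card : ℝ) * (B.card : ℝ)) := by
        rw [Real.log_mul hWc.ne' (Real.exp_pos _).ne', Real.log_exp,
          Real.log_mul hNc.ne' hBc.ne']
        linarith
      exact (Real.log_le_log_iff (mul_pos hWc (Real.exp_pos _)) (mul_pos hNc hBc)).1 h4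
    have hpairs := pts_pairs B (1 / (2 * K₁)) ω hω T ξ₀
    have hdense : 2 * (1 / (2 * K₁) * Real.exp (-L) / 2) *
        (Nat.card (Ann (T : Set (AddChar W ℂ))) : ℝ) * (B.card : ℝ) ≤
        (((B ×ˢ B).filter (fun u => u.1 - u.2 ∈ Ann (T : Set (AddChar W ℂ)))).card : ℝ) := by
      refine le_of_mul_le_mul_left (le_trans ?_ hpairs) hTc
      calc (Nat.card T : ℝ) * (2 * (1 / (2 * K₁) * Real.exp (-L) / 2) *
            (Nat.card (Ann (T : Set (AddChar W ℂ))) : ℝ) * (B.card : ℝ))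
          = ((Fintype.card W : ℝ) * Real.exp (-L)) * (1 / (2 * K₁) * (B.card : ℝ)) := by
            rw [← hdual]
            ring
        _ ≤ (((pts T ω ξ₀).card : ℝ) * (B.card : ℝ)) * (1 / (2 * K₁) * (B.card : ℝ)) :=
            mul_le_mul_of_nonneg_right hN (by positivity)
        _ = ((pts T ω ξ₀).card : ℝ) * (1 / (2 * K₁) * (B.card : ℝ) ^ 2) := by ring
    obtain ⟨B', hB'1, hB'2, hB'3⟩ := dense_pts B (Ann (T : Set (AddChar W ℂ)))
      (1 / (2 * K₁) * Real.exp (-L) / 2) (by positivity) hdense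
    have hexp := D2b_exp (C := C) (C₁ := C₁) hK1
    refine ⟨B', hB'1, ?_, fun b hb => ?_⟩
    · exact (mul_le_mul_of_nonneg_right hexp hBc.le).trans hB'2
    · exact (mul_le_mul_of_nonneg_right hexp hFc.le).trans (hB'3 b hb)
  · -- part (b)
    intro q hq
    obtain ⟨x, hxne, hx3⟩ := h3 q hq
    have hWc : (0 : ℝ) < (Nat.card W : ℝ) := by
      rw [Nat.card_eq_fintype_card]
      exact_mod_cast Fintype.card_pos_iff.2 ⟨hB.choose⟩
    have hdual : (Nat.card (torq q T) : ℝ) *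
        (Nat.card (Ann ((torq q T : AddSubgroup (AddChar W ℂ)) : Set (AddChar W ℂ))) : ℝ)
        = (Nat.card W : ℝ) := by
      rw [Nat.card_eq_fintype_card (α := W)]
      exact_mod_cast dual_card (torq q T)
    have hTc : (0 : ℝ) < (Nat.card (torq q T) : ℝ) := by
      have : 0 < Nat.card (torq q T) := Nat.card_pos
      exact_mod_cast this
    have hFc : (0 : ℝ) <
        (Nat.card (Ann ((torq q T : AddSubgroup (AddChar W ℂ)) : Set (AddChar W ℂ))) : ℝ) := by
      have : 0 < Nat.card (Ann ((torq q T : AddSubgroup (AddChar W ℂ)) : Set (AddChar W ℂ))) :=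
        Nat.card_pos
      exact_mod_cast this
    have hMc : (0 : ℝ) < ((pts (torq q T) ω x).card : ℝ) := by exact_mod_cast hxne.card_pos
    have hpairs := pts_pairs B (1 / (2 * K₁)) ω hω (torq q T) x
    have hone : (((pts (torq q T) ω x).card : ℝ) * (1 / (2 * K₁)) * (B.card : ℝ) /
        (Nat.card (torq q T) : ℝ)) * (B.card : ℝ) ≤
        (((B ×ˢ B).filter (fun u => u.1 - u.2 ∈
          Ann ((torq q T : AddSubgroup (AddChar W ℂ)) : Set (AddChar W ℂ)))).card : ℝ) := by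
      refine le_of_mul_le_mul_left (le_trans (le_of_eq ?_) hpairs) hTc
      field_simp
    obtain ⟨b, hb, hbc⟩ := dense_one B hB
      (Ann ((torq q T : AddSubgroup (AddChar W ℂ)) : Set (AddChar W ℂ))) _ hone
    refine ⟨Ann ((torq q T : AddSubgroup (AddChar W ℂ)) : Set (AddChar W ℂ)),
      B.filter (fun a => a - b ∈
        Ann ((torq q T : AddSubgroup (AddChar W ℂ)) : Set (AddChar W ℂ))),
      fun w => D2b_torq q T w, ?_, Finset.filter_subset _ _, ?_, ?_, ?_⟩
    · rw [← hdual, Real.log_mul hTc.ne' hFc.ne', add_sub_cancel_right]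
    · refine ⟨b, Finset.mem_filter.2 ⟨hb, ?_⟩⟩
      rw [sub_self]
      exact AddSubgroup.zero_mem _
    · intro d hd d' hd'
      have e : d - d' = (d - b) - (d' - b) := by abel
      rw [e]
      exact AddSubgroup.sub_mem _ (Finset.mem_filter.1 hd).2 (Finset.mem_filter.1 hd').2
    · have hcpos : (0 : ℝ) < ((pts (torq q T) ω x).card : ℝ) * (1 / (2 * K₁)) * (B.card : ℝ) /
          (Nat.card (torq q T) : ℝ) := by positivity
      have h4 := Real.log_le_log hcpos hbc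
      rw [Real.log_div (by positivity) hTc.ne', Real.log_mul (by positivity) hBc.ne',
        Real.log_mul hMc.ne' hη.ne', one_div, Real.log_inv, Real.log_mul two_ne_zero hK0.ne'] at h4
      have hlq : 1 / 2 ≤ Real.log q := by
        have h5 : Real.log 2 ≤ Real.log q := Real.log_le_log (by norm_num) (by exact_mod_cast hq.two_le)
        have h6 := Real.log_two_gt_d9
        linarith
      have hl2 : Real.log 2 ≤ 1 := by
        have := Real.log_two_lt_d9
        linarith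
      have h7 : 1 + Real.log K₁ ≤ 2 * (1 + Real.log K₁) * Real.log q := by nlinarith
      have h8 : 0 ≤ C₁ * (1 + Real.log K₁) * Real.log q := by
        have : 0 ≤ Real.log q := by linarith
        positivity
      nlinarith

end Pool.Agent.PFM
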