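import Pool.Agent.PFM.D2c
set_option autoImplicit false

/-!
# D2e (size 1).  Sums over cosets of a group of characters (Poisson).

`‖bh B (ξ₀ + ξ)‖² = Σ_{a, b ∈ B} ξ₀ (a - b) ξ (a - b)` (`conj (ξ b) = ξ (-b)`, `AddChar.map_neg_eq_conj`); sum over `ξ ∈ T`,
use `sum_char_mem` and `‖ξ₀ (a - b)‖ = 1` (the left side is real: take norms).
-/
namespace Pool.Agent.PFM
open Finset Pool.Agent.Ldc Pool.Agent.NPM

variable {G : Type} [AddCommGroup G] [Fintype G] [DecidableEq G]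

private theorem D2e_sq (B : Finset G) (ψ : AddChar G ℂ) :
    ((‖bh B ψ‖ ^ 2 : ℝ) : ℂ) = ∑ u ∈ B ×ˢ B, ψ (u.1 - u.2) := by
  rw [Complex.ofReal_pow, ← Complex.mul_conj', bh, map_sum, Finset.sum_mul_sum, Finset.sum_product]
  refine Finset.sum_congr rfl fun a _ => Finset.sum_congr rfl fun b _ => ?_
  rw [← AddChar.map_neg_eq_conj, ← AddChar.map_add_eq_mul, sub_eq_add_neg]

open Classical in
theorem coset_sum (T : AddSubgroup (AddChar G ℂ)) (B : Finset G) (ξ₀ : AddChar G ℂ) :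
    ∑ ξ ∈ univ.filter (fun ξ : AddChar G ℂ => ξ ∈ T), ‖bh B (ξ₀ + ξ)‖ ^ 2 ≤
      (Nat.card T : ℝ) *
        (((B ×ˢ B).filter (fun u => u.1 - u.2 ∈ Ann (T : Set (AddChar G ℂ)))).card : ℝ) := by
  have h1 : ((∑ ξ ∈ univ.filter (fun ξ : AddChar G ℂ => ξ ∈ T), ‖bh B (ξ₀ + ξ)‖ ^ 2 : ℝ) : ℂ) =
      ∑ u ∈ B ×ˢ B, ξ₀ (u.1 - u.2) *
        (if u.1 - u.2 ∈ Ann (T : Set (AddChar G ℂ)) then (Nat.card T : ℂ) else 0) := by
    rw [Complex.ofReal_sum]
    simp_rw [D2e_sq]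
    rw [Finset.sum_comm]
    refine Finset.sum_congr rfl fun u _ => ?_
    rw [← sum_char_mem, Finset.mul_sum]
    refine Finset.sum_congr rfl fun ξ _ => ?_
    rw [AddChar.add_apply]
  have h2 : ‖((∑ ξ ∈ univ.filter (fun ξ : AddChar G ℂ => ξ ∈ T), ‖bh B (ξ₀ + ξ)‖ ^ 2 : ℝ) : ℂ)‖ ≤
      (Nat.card T : ℝ) *
        (((B ×ˢ B).filter (fun u => u.1 - u.2 ∈ Ann (T : Set (AddChar G ℂ)))).card : ℝ) := by
    rw [h1]
    refine (norm_sum_le _ _).trans ?_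
    rw [Finset.card_filter, Nat.cast_sum, Finset.mul_sum]
    refine Finset.sum_le_sum fun u _ => ?_
    rw [norm_mul, AddChar.norm_apply, one_mul]
    split_ifs
    · simp
    · simp
  refine le_trans (le_of_eq ?_) h2
  rw [Complex.norm_real, Real.norm_of_nonneg]
  exact Finset.sum_nonneg fun _ _ => by positivity

end Pool.Agent.PFM
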