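import Pool.Agent.PFM.D2a
import Pool.Agent.PFM.D2b
set_option autoImplicit false

/-!
# D2f (size 1).  Final of D2: `Ent C → RR C''`.

`primal` gives `V, x, B`; `dual` for `W = V`, `K₁ = exp ((C + 1) k)`, `k = 1 + log K`, `1 + log K₁ = 1 + (C + 1) k ≤ (C + 2) k`, gives `T`, `B'`.
For `q` prime: `F, D` from `dual`; `t := log |torq q T| = log |V| - log |F| ≤ 3/2 ((C + 1) k + t / 3 + C' (C + 2) k log q) + C k log q`, so
`t / 2 ≤ (3/2) ((C + 1) + ..) k log q ..` (`log q ≥ log 2 ≥ 1 / 2`, so `1 ≤ 2 log q`), i.e. `t ≤ C₂ k log q ≤ R log q` with `R = ⌈C₂ k⌉`, and `|torq q T| ≤ q ^ R`.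
`R ≤ C₂ k + 1 ≤ (C₂ + 1) k`.  `exp (log |A| - C k) ≤ |B|`.
-/
namespace Pool.Agent.PFM
open Finset Pool.Agent.Ldc Pool.Agent.NPM
open scoped Pointwise

theorem ent_to_RR (C : ℝ) (hC : 0 < C) (hE : Ent C) : ∃ C'' : ℝ, 0 < C'' ∧ RR C'' := by
  obtain ⟨C', hC', hd⟩ := dual C hC hE
  have hC2 : 0 < 6 * (C + 1) + 3 * C' * (C + 2) + 2 * C := by positivity
  refine ⟨6 * (C + 1) + 3 * C' * (C + 2) + 2 * C + 1, by positivity, ?_⟩
  intro G _ _ _ A K hA hK1 hK
  obtain ⟨V, x, B, hB, hxB, hAB, hBB, hpr⟩ := primal C hC hE G A hA K hK1 hK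
  have hk1 : 1 ≤ 1 + Real.log K := by
    have := Real.log_nonneg hK1
    linarith
  generalize hk : 1 + Real.log K = k at *
  have hk0 : 0 < k := by linarith
  have hlogK1 : Real.log (Real.exp ((C + 1) * k)) = (C + 1) * k := Real.log_exp _
  letI : Fintype V := Fintype.ofFinite V
  obtain ⟨T, ⟨B', hB'B, hB'c, hB'd⟩, hq⟩ := hd V B (Real.exp ((C + 1) * k)) hB
    (Real.one_le_exp (by positivity)) hBB
  rw [hlogK1] at hB'c hB'd hq
  have hk2 : 1 + (C + 1) * k ≤ (C + 2) * k := by nlinarith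
  have hexp : ∀ a : ℝ, a ≤ (6 * (C + 1) + 3 * C' * (C + 2) + 2 * C + 1) * k →
      Real.exp (-((6 * (C + 1) + 3 * C' * (C + 2) + 2 * C + 1) * k)) ≤ Real.exp (-a) := by
    intro a ha
    exact Real.exp_le_exp.2 (by linarith)
  have hb1 : C' * (1 + (C + 1) * k) ≤ (6 * (C + 1) + 3 * C' * (C + 2) + 2 * C + 1) * k := by
    have h1 : C' * (1 + (C + 1) * k) ≤ C' * ((C + 2) * k) := mul_le_mul_of_nonneg_left hk2 hC'.le
    have h2 : 0 ≤ (6 * (C + 1) + 2 * C' * (C + 2) + 2 * C + 1) * k := by positivity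
    nlinarith
  have hb2 : C * k ≤ (6 * (C + 1) + 3 * C' * (C + 2) + 2 * C + 1) * k := by
    refine mul_le_mul_of_nonneg_right ?_ hk0.le
    have : 0 < 3 * C' * (C + 2) := by positivity
    linarith
  have hb3 : (C + 1) * k ≤ (6 * (C + 1) + 3 * C' * (C + 2) + 2 * C + 1) * k := by
    refine mul_le_mul_of_nonneg_right ?_ hk0.le
    have : 0 < 3 * C' * (C + 2) := by positivity
    linarith
  have hApos : (0 : ℝ) < (A.card : ℝ) := by exact_mod_cast Finset.card_pos.2 hA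
  have hBpos : (0 : ℝ) < (B.card : ℝ) := by exact_mod_cast Finset.card_pos.2 hB
  refine ⟨V, x, B, T, ⌈(6 * (C + 1) + 3 * C' * (C + 2) + 2 * C) * k⌉₊, B', hB, hxB, ?_, ?_, ?_, ?_,
    hB'B, ?_, ?_⟩
  · calc Real.exp (-((6 * (C + 1) + 3 * C' * (C + 2) + 2 * C + 1) * k)) * (A.card : ℝ)
        ≤ Real.exp (-(C * k)) * (A.card : ℝ) := mul_le_mul_of_nonneg_right (hexp _ hb2) hApos.le
      _ = Real.exp (Real.log (A.card : ℝ) - C * k) := by
          rw [sub_eq_add_neg, Real.exp_add, Real.exp_log hApos, mul_comm]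
      _ ≤ Real.exp (Real.log (B.card : ℝ)) := Real.exp_le_exp.2 hAB
      _ = (B.card : ℝ) := Real.exp_log hBpos
  · exact hBB.trans (mul_le_mul_of_nonneg_right (Real.exp_le_exp.2 hb3) hBpos.le)
  · have h1 := (Nat.ceil_lt_add_one (a := (6 * (C + 1) + 3 * C' * (C + 2) + 2 * C) * k)
      (by positivity)).le
    refine h1.trans ?_
    linarith
  · intro q hqp
    obtain ⟨F, D, hF, hFt, hDB, hD, hDF, hDl⟩ := hq q hqp
    have h1 := hpr q hqp F hF D hDB hD hDF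
    rw [hFt] at h1
    have hlq : 1 / 2 ≤ Real.log (q : ℝ) := by
      have h2 : (2 : ℝ) ≤ (q : ℝ) := by exact_mod_cast hqp.two_le
      have h3 : Real.log 2 ≤ Real.log (q : ℝ) := Real.log_le_log (by norm_num) h2
      have h4 := Real.log_two_gt_d9
      linarith
    have hqpos : (0 : ℝ) < (q : ℝ) := by exact_mod_cast hqp.pos
    generalize ht : Real.log (Nat.card (torq q T) : ℝ) = t at *
    have h2 : C' * (1 + (C + 1) * k) * Real.log (q : ℝ) ≤ C' * ((C + 2) * k) * Real.log (q : ℝ) :=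
      mul_le_mul_of_nonneg_right (mul_le_mul_of_nonneg_left hk2 hC'.le) (by linarith)
    have h3 : (C + 1) * k ≤ (C + 1) * k * (2 * Real.log (q : ℝ)) := by
      have : 0 < (C + 1) * k := by positivity
      exact le_mul_of_one_le_right this.le (by linarith)
    have h4 : t ≤ ((6 * (C + 1) + 3 * C' * (C + 2) + 2 * C) * k) * Real.log (q : ℝ) := by
      linarith
    have h5 : t ≤ (⌈(6 * (C + 1) + 3 * C' * (C + 2) + 2 * C) * k⌉₊ : ℝ) * Real.log (q : ℝ) :=
      h4.trans (mul_le_mul_of_nonneg_right (Nat.le_ceil _) (by linarith))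
    have hTpos : (0 : ℝ) < (Nat.card (torq q T) : ℝ) := by
      haveI : Nonempty (torq q T) := ⟨0⟩
      haveI : Finite (AddChar V ℂ) := inferInstance
      exact_mod_cast Nat.card_pos
    have h6 : (Nat.card (torq q T) : ℝ) ≤ ((q ^ ⌈(6 * (C + 1) + 3 * C' * (C + 2) + 2 * C) * k⌉₊ : ℕ) : ℝ) := by
      rw [← Real.exp_log hTpos, ht]
      push_cast
      rw [← Real.exp_log (show (0 : ℝ) < (q : ℝ) ^ ⌈(6 * (C + 1) + 3 * C' * (C + 2) + 2 * C) * k⌉₊ from
        pow_pos hqpos _), Real.log_pow]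
      exact Real.exp_le_exp.2 h5
    exact_mod_cast h6
  · exact (mul_le_mul_of_nonneg_right (hexp _ hb1) hBpos.le).trans hB'c
  · intro b hb
    exact (mul_le_mul_of_nonneg_right (hexp _ hb1) (Nat.cast_nonneg _)).trans (hB'd b hb)

end Pool.Agent.PFM
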