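import Pool.Agent.PFM.D2Defs
import Pool.Agent.NPM.Fou
set_option autoImplicit false

/-!
# D2p (size 2).  Parseval and the fourth moment.

`bh_eq_hat`: `hat (fun g => if g ∈ B then 1 else 0) ξ = bh B ξ`.
`parseval_bh`: `NPM.parseval` for the indicator function (`NPM.parseval f : Σ_ξ ‖hat f ξ‖ ^ 2 = card G * Σ_x (f x) ^ 2`).
`fourth`: `f s := #{(a, b) ∈ B × B : a + b = s}` as a real function; `hat f ξ = (bh B ξ) ^ 2`, so `Σ_ξ ‖bh B ξ‖ ^ 4 = card G * Σ_s (f s) ^ 2` (parseval);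
`f` is supported on `B + B` and `Σ_s f s = |B| ^ 2`, so `|B| ^ 4 ≤ |B + B| * Σ_s (f s) ^ 2` (Cauchy-Schwarz, `sq_sum_le_card_mul_sum_sq`).
-/
namespace Pool.Agent.PFM
open Finset Pool.Agent.Ldc Pool.Agent.NPM
open scoped Pointwise

variable {G : Type} [AddCommGroup G] [Fintype G] [DecidableEq G]

theorem bh_eq_hat (B : Finset G) (ξ : AddChar G ℂ) :
    hat (fun g => if g ∈ B then (1 : ℝ) else 0) ξ = bh B ξ := by
  unfold hat bh
  rw [← Finset.sum_filter_add_sum_filter_not univ (fun g => g ∈ B)]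
  have h1 : ∑ x ∈ univ.filter (fun g => ¬ g ∈ B),
      (((if x ∈ B then (1 : ℝ) else 0 : ℝ)) : ℂ) * ξ x = 0 := by
    refine Finset.sum_eq_zero fun x hx => ?_
    rw [Finset.mem_filter] at hx
    rw [if_neg hx.2]
    simp
  have h2 : univ.filter (fun g => g ∈ B) = B := by
    ext x
    simp
  rw [h1, add_zero, h2]
  refine Finset.sum_congr rfl fun x hx => ?_
  simp [hx]

omit [AddCommGroup G] in
private theorem D2p_sum_ind (B : Finset G) :
    ∑ x : G, (if x ∈ B then (1 : ℝ) else 0) = (B.card : ℝ) := by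
  simp

theorem parseval_bh (B : Finset G) :
    ∑ ξ : AddChar G ℂ, ‖bh B ξ‖ ^ 2 = (Fintype.card G : ℝ) * (B.card : ℝ) := by
  have h1 := parseval (G := G) (fun g => if g ∈ B then (1 : ℝ) else 0)
  simp only [bh_eq_hat] at h1
  rw [h1, ← D2p_sum_ind B]
  congr 1
  refine Finset.sum_congr rfl fun x _ => ?_
  split_ifs <;> simp

theorem fourth (B : Finset G) :
    (Fintype.card G : ℝ) * (B.card : ℝ) ^ 4 ≤
      ((B + B).card : ℝ) * ∑ ξ : AddChar G ℂ, ‖bh B ξ‖ ^ 4 := by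
  set u : G → ℝ := fun g => if g ∈ B then (1 : ℝ) else 0 with hu
  have h1 := parseval (G := G) (conv u u)
  have h2 : ∀ ξ : AddChar G ℂ, ‖hat (conv u u) ξ‖ ^ 2 = ‖bh B ξ‖ ^ 4 := by
    intro ξ
    rw [hat_conv, hu, bh_eq_hat, norm_mul]
    ring
  simp only [h2] at h1
  have h3 : ∀ s : G, s ∉ B + B → conv u u s = 0 := by
    intro s hs
    unfold conv
    refine Finset.sum_eq_zero fun x _ => ?_
    by_cases hx : x ∈ B
    · have h4 : s - x ∉ B := by
        intro h5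
        apply hs
        have h6 := Finset.add_mem_add hx h5
        simpa using h6
      simp [hu, h4]
    · simp [hu, hx]
  have h4 : ∑ s : G, conv u u s = (B.card : ℝ) ^ 2 := by
    unfold conv
    rw [Finset.sum_comm]
    have h5 : ∀ x : G, ∑ s : G, u x * u (s - x) = u x * (B.card : ℝ) := by
      intro x
      rw [← Finset.mul_sum]
      congr 1
      have h6 := Equiv.sum_comp (Equiv.subRight x) u
      simp only [Equiv.subRight_apply] at h6
      rw [h6]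
      exact D2p_sum_ind B
    rw [Finset.sum_congr rfl fun x _ => h5 x, ← Finset.sum_mul]
    have h6 : ∑ x : G, u x = (B.card : ℝ) := D2p_sum_ind B
    rw [h6]
    ring
  have h5 : ∑ s ∈ B + B, conv u u s = (B.card : ℝ) ^ 2 := by
    rw [← h4]
    exact Finset.sum_subset (Finset.subset_univ _) fun s _ hs => h3 s hs
  have h6 : (∑ s ∈ B + B, conv u u s) ^ 2 ≤ ((B + B).card : ℝ) * ∑ s ∈ B + B, (conv u u s) ^ 2 :=
    sq_sum_le_card_mul_sum_sq
  have h7 : ∑ s ∈ B + B, (conv u u s) ^ 2 ≤ ∑ s : G, (conv u u s) ^ 2 :=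
    Finset.sum_le_sum_of_subset_of_nonneg (Finset.subset_univ _) fun s _ _ => sq_nonneg _
  rw [h5] at h6
  have h8 : (B.card : ℝ) ^ 4 ≤ ((B + B).card : ℝ) * ∑ s : G, (conv u u s) ^ 2 := by
    calc (B.card : ℝ) ^ 4 = ((B.card : ℝ) ^ 2) ^ 2 := by ring
      _ ≤ ((B + B).card : ℝ) * ∑ s ∈ B + B, (conv u u s) ^ 2 := h6
      _ ≤ _ := mul_le_mul_of_nonneg_left h7 (Nat.cast_nonneg _)
  calc (Fintype.card G : ℝ) * (B.card : ℝ) ^ 4
      ≤ (Fintype.card G : ℝ) * (((B + B).card : ℝ) * ∑ s : G, (conv u u s) ^ 2) :=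
        mul_le_mul_of_nonneg_left h8 (Nat.cast_nonneg _)
    _ = ((B + B).card : ℝ) * ((Fintype.card G : ℝ) * ∑ s : G, (conv u u s) ^ 2) := by ring
    _ = ((B + B).card : ℝ) * ∑ ξ : AddChar G ℂ, ‖bh B ξ‖ ^ 4 := by rw [← h1]

end Pool.Agent.PFM
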