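import Pool.Agent.PFM.D2Defs
set_option autoImplicit false

/-!
# D2sb (size 2).  Many differences of the large spectrum are in the large spectrum.

`Ω` a finset of characters with `η |B|² ≤ ‖bh B ξ‖²` on `Ω`, `0 < η ≤ 1`: choose `c ξ` of modulus one with `c ξ * bh B ξ = ‖bh B ξ‖`.
`Σ_{ξ, ξ' ∈ Ω} ‖bh B (ξ - ξ')‖ ≥ ‖Σ_{ξ, ξ'} c ξ conj (c ξ') bh B (ξ - ξ')‖ = Σ_{b ∈ B} ‖Σ_ξ c ξ ξ b‖² ≥ (1 / |B|) ‖Σ_b Σ_ξ c ξ ξ b‖²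
 = (1 / |B|) (Σ_ξ ‖bh B ξ‖)² ≥ (1 / |B|) (|Ω| √η |B|)² = η |Ω|² |B|`; the pairs with `‖bh B (ξ - ξ')‖ < (η/2) |B|` contribute at most `(η/2) |B| |Ω|²`,
the others at most `|B|` each.  (`(ξ - ξ') b = ξ b * conj (ξ' b)`: `AddChar.sub_apply`, `AddChar.map_neg_eq_conj`.)
-/
namespace Pool.Agent.PFM
open Finset Pool.Agent.Ldc Pool.Agent.NPM
open scoped Pointwise

variable {G : Type} [AddCommGroup G] [Fintype G] [DecidableEq G]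

private theorem D2sb_unit (z : ℂ) : ∃ c : ℂ, ‖c‖ = 1 ∧ c * z = (‖z‖ : ℂ) := by
  rcases eq_or_ne z 0 with rfl | hz
  · exact ⟨1, by simp, by simp⟩
  · have hn : (‖z‖ : ℂ) ≠ 0 := by
      exact_mod_cast (norm_ne_zero_iff.2 hz)
    refine ⟨(starRingEnd ℂ) z / (‖z‖ : ℂ), ?_, ?_⟩
    · rw [norm_div, RCLike.norm_conj, Complex.norm_real, norm_norm]
      exact div_self (norm_ne_zero_iff.2 hz)
    · rw [div_mul_eq_mul_div, Complex.conj_mul', sq, mul_div_assoc, div_self hn, mul_one]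

private theorem D2sb_le (B : Finset G) (ξ : AddChar G ℂ) : ‖bh B ξ‖ ≤ (B.card : ℝ) := by
  unfold bh
  refine (norm_sum_le _ _).trans (le_of_eq ?_)
  simp [AddChar.norm_apply]

open Classical in
theorem popular (B : Finset G) (hB : B.Nonempty) (η : ℝ) (hη : 0 < η) (hη1 : η ≤ 1)
    (Ω : Finset (AddChar G ℂ)) (hΩ : ∀ ξ ∈ Ω, η * (B.card : ℝ) ^ 2 ≤ ‖bh B ξ‖ ^ 2) :
    η / 2 * (Ω.card : ℝ) ^ 2 ≤
      (((Ω ×ˢ Ω).filter (fun u => η / 2 * (B.card : ℝ) ≤ ‖bh B (u.1 - u.2)‖)).card : ℝ) := by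
  have hN : 0 < (B.card : ℝ) := by exact_mod_cast hB.card_pos
  choose c hc1 hc2 using fun ξ : AddChar G ℂ => D2sb_unit (bh B ξ)
  -- (1)
  have h1 : ∑ b ∈ B, ∑ ξ ∈ Ω, c ξ * ξ b = ((∑ ξ ∈ Ω, ‖bh B ξ‖ : ℝ) : ℂ) := by
    rw [Finset.sum_comm]
    push_cast
    refine Finset.sum_congr rfl fun ξ _ => ?_
    rw [← hc2 ξ, bh, Finset.mul_sum]
  -- (2)
  have h2 : (∑ ξ ∈ Ω, ‖bh B ξ‖) ^ 2 ≤ (B.card : ℝ) * ∑ b ∈ B, ‖∑ ξ ∈ Ω, c ξ * ξ b‖ ^ 2 := by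
    have e1 : ∑ ξ ∈ Ω, ‖bh B ξ‖ ≤ ∑ b ∈ B, ‖∑ ξ ∈ Ω, c ξ * ξ b‖ := by
      have e2 : ‖∑ b ∈ B, ∑ ξ ∈ Ω, c ξ * ξ b‖ = ∑ ξ ∈ Ω, ‖bh B ξ‖ := by
        rw [h1, Complex.norm_real, Real.norm_eq_abs, abs_of_nonneg]
        exact Finset.sum_nonneg fun ξ _ => norm_nonneg _
      rw [← e2]
      exact norm_sum_le _ _
    have e3 : 0 ≤ ∑ ξ ∈ Ω, ‖bh B ξ‖ := Finset.sum_nonneg fun ξ _ => norm_nonneg _
    exact (pow_le_pow_left₀ e3 e1 2).trans sq_sum_le_card_mul_sum_sq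
  -- (3)
  have h3 : ((∑ b ∈ B, ‖∑ ξ ∈ Ω, c ξ * ξ b‖ ^ 2 : ℝ) : ℂ) =
      ∑ u ∈ Ω ×ˢ Ω, c u.1 * (starRingEnd ℂ) (c u.2) * bh B (u.1 - u.2) := by
    push_cast
    have e1 : ∀ b ∈ B, ((‖∑ ξ ∈ Ω, c ξ * ξ b‖ : ℂ)) ^ 2 =
        ∑ u ∈ Ω ×ˢ Ω, c u.1 * (starRingEnd ℂ) (c u.2) * (u.1 - u.2) b := by
      intro b _
      rw [← Complex.mul_conj', map_sum, Finset.sum_mul_sum, Finset.sum_product]
      refine Finset.sum_congr rfl fun ξ _ => Finset.sum_congr rfl fun ξ' _ => ?_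
      rw [map_mul, AddChar.sub_apply, AddChar.map_neg_eq_conj]
      ring
    rw [Finset.sum_congr rfl e1, Finset.sum_comm]
    refine Finset.sum_congr rfl fun u _ => ?_
    rw [bh, Finset.mul_sum]
  have h4 : ∑ b ∈ B, ‖∑ ξ ∈ Ω, c ξ * ξ b‖ ^ 2 ≤ ∑ u ∈ Ω ×ˢ Ω, ‖bh B (u.1 - u.2)‖ := by
    have e0 : 0 ≤ ∑ b ∈ B, ‖∑ ξ ∈ Ω, c ξ * ξ b‖ ^ 2 := Finset.sum_nonneg fun b _ => by positivity
    have e1 : ‖((∑ b ∈ B, ‖∑ ξ ∈ Ω, c ξ * ξ b‖ ^ 2 : ℝ) : ℂ)‖ =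
        ∑ b ∈ B, ‖∑ ξ ∈ Ω, c ξ * ξ b‖ ^ 2 := by
      rw [Complex.norm_real, Real.norm_eq_abs, abs_of_nonneg e0]
    rw [← e1, h3]
    refine (norm_sum_le _ _).trans (Finset.sum_le_sum fun u _ => ?_)
    rw [norm_mul, norm_mul, RCLike.norm_conj, hc1, hc1, one_mul, one_mul]
  -- (4)
  have h5 : (Ω.card : ℝ) * (√η * B.card) ≤ ∑ ξ ∈ Ω, ‖bh B ξ‖ := by
    have e1 : ∀ ξ ∈ Ω, √η * (B.card : ℝ) ≤ ‖bh B ξ‖ := by
      intro ξ hξ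
      have := hΩ ξ hξ
      have e2 : (√η * (B.card : ℝ)) ^ 2 ≤ ‖bh B ξ‖ ^ 2 := by
        rw [mul_pow, Real.sq_sqrt hη.le]
        exact this
      exact le_of_sq_le_sq e2 (norm_nonneg _)
    have e3 := Finset.card_nsmul_le_sum Ω (fun ξ => ‖bh B ξ‖) _ e1
    rwa [nsmul_eq_mul] at e3
  have h6 : η * (Ω.card : ℝ) ^ 2 * B.card ≤ ∑ u ∈ Ω ×ˢ Ω, ‖bh B (u.1 - u.2)‖ := by
    have e1 : ((Ω.card : ℝ) * (√η * B.card)) ^ 2 ≤ (∑ ξ ∈ Ω, ‖bh B ξ‖) ^ 2 :=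
      pow_le_pow_left₀ (by positivity) h5 2
    have e2 : ((Ω.card : ℝ) * (√η * B.card)) ^ 2 = (B.card : ℝ) * (η * (Ω.card : ℝ) ^ 2 * B.card) := by
      rw [mul_pow, mul_pow, Real.sq_sqrt hη.le]
      ring
    rw [e2] at e1
    have e3 := e1.trans (h2.trans (mul_le_mul_of_nonneg_left h4 hN.le))
    exact le_of_mul_le_mul_left e3 hN
  -- (5)
  have h7 : ∑ u ∈ Ω ×ˢ Ω, ‖bh B (u.1 - u.2)‖ ≤
      (((Ω ×ˢ Ω).filter (fun u => η / 2 * (B.card : ℝ) ≤ ‖bh B (u.1 - u.2)‖)).card : ℝ) * B.card +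
        (Ω.card : ℝ) ^ 2 * (η / 2 * B.card) := by
    rw [← Finset.sum_filter_add_sum_filter_not (Ω ×ˢ Ω)
      (fun u => η / 2 * (B.card : ℝ) ≤ ‖bh B (u.1 - u.2)‖)]
    apply add_le_add
    · have := Finset.sum_le_card_nsmul
        ((Ω ×ˢ Ω).filter (fun u => η / 2 * (B.card : ℝ) ≤ ‖bh B (u.1 - u.2)‖))
        (fun u => ‖bh B (u.1 - u.2)‖) (B.card : ℝ) (fun u _ => D2sb_le B _)
      rwa [nsmul_eq_mul] at this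
    · have e1 := Finset.sum_le_card_nsmul
        ((Ω ×ˢ Ω).filter (fun u => ¬ η / 2 * (B.card : ℝ) ≤ ‖bh B (u.1 - u.2)‖))
        (fun u => ‖bh B (u.1 - u.2)‖) (η / 2 * (B.card : ℝ)) (fun u hu => by
          have := (Finset.mem_filter.1 hu).2
          exact (not_le.1 this).le)
      rw [nsmul_eq_mul] at e1
      refine e1.trans ?_
      have e2 : (((Ω ×ˢ Ω).filter
          (fun u => ¬ η / 2 * (B.card : ℝ) ≤ ‖bh B (u.1 - u.2)‖)).card : ℝ) ≤ (Ω.card : ℝ) ^ 2 := by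
        have e3 := Finset.card_filter_le (Ω ×ˢ Ω)
          (fun u => ¬ η / 2 * (B.card : ℝ) ≤ ‖bh B (u.1 - u.2)‖)
        rw [Finset.card_product] at e3
        have e4 : ((((Ω ×ˢ Ω).filter
          (fun u => ¬ η / 2 * (B.card : ℝ) ≤ ‖bh B (u.1 - u.2)‖)).card : ℕ) : ℝ) ≤
            ((Ω.card * Ω.card : ℕ) : ℝ) := by exact_mod_cast e3
        rw [sq]
        push_cast at e4
        exact e4
      exact mul_le_mul_of_nonneg_right e2 (by positivity)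
  have h8 := h6.trans h7
  have h9 : η / 2 * (Ω.card : ℝ) ^ 2 * B.card ≤
      (((Ω ×ˢ Ω).filter (fun u => η / 2 * (B.card : ℝ) ≤ ‖bh B (u.1 - u.2)‖)).card : ℝ) *
        B.card := by
    nlinarith
  exact le_of_mul_le_mul_right h9 hN

end Pool.Agent.PFM
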