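import Pool.Agent.PFM.D2Defs
import Pool.Agent.NPM.Kvm
import Pool.Agent.Ldc.E6
set_option autoImplicit false

/-!
# D2u (size 1).  Doubling of the uniform law; plus / minus conversion.

`unif_kap`: `ent (conv u u) ≤ log |A + A|` (`NPM.ent_conv`, `Ldc.H_le_log_card` with `s = A + A`: if `0 < pp u u (x, y)` then `x, y ∈ A`),
`ent (unif A) = log |A|` (`Ldc.ent_eq_H`, `Ldc.H_unif`), `log |A + A| ≤ log K + log |A|`.

`kap_le_rd`: `H(X + X') ≤ H(X + X' - Y)` (`NPM.ent_conv_ge`) and `H(X + (-Y) + X') + H(-Y) ≤ H(X - Y) + H(X' - Y) = 2 (H(X) + rd x x)` (`NPM.kvm`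
with the middle law `y = fun g => x (-g)`), `ent y = ent x` (`Ldc.ent_neg`, E6; or directly), `ent (conv x y) = H (pp x x) (fun u => u.1 - u.2)`.
(`rd x x = H (pp x x) (fun u => u.1 - u.2) - ent x / 2 - ent x / 2`.)
-/
namespace Pool.Agent.PFM
open Finset Pool.Agent.Ldc Pool.Agent.NPM
open scoped Pointwise

variable {G : Type} [AddCommGroup G] [Fintype G]

theorem ent_unif [DecidableEq G] (A : Finset G) (hA : A.Nonempty) :
    ent (unif A) = Real.log (A.card : ℝ) := by
  rw [ent_eq_H]
  exact H_unif A hA (fun a => a) (fun a _ b _ h => h)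

private theorem unif_pos_mem (A : Finset G) (a : G) (h : 0 < unif A a) : a ∈ A := by
  by_contra hn
  unfold unif at h
  rw [if_neg hn] at h
  exact lt_irrefl _ h

theorem unif_kap [DecidableEq G] (A : Finset G) (hA : A.Nonempty) (K : ℝ) (hK1 : 1 ≤ K)
    (hK : ((A + A).card : ℝ) ≤ K * (A.card : ℝ)) :
    ent (conv (unif A) (unif A)) - ent (unif A) ≤ Real.log K := by
  have hu := unif_isP A hA
  have h1 : ent (conv (unif A) (unif A)) ≤ Real.log ((A + A).card : ℝ) := by
    rw [ent_conv]
    refine H_le_log_card (pp_isP hu hu) _ (A + A) ?_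
    rintro ⟨x, y⟩ hxy
    have hxy' : 0 < unif A x * unif A y := hxy
    have hx : 0 < unif A x := by
      rcases lt_or_eq_of_le (hu.1 x) with h | h
      · exact h
      · rw [← h, zero_mul] at hxy'
        exact absurd hxy' (lt_irrefl _)
    have hy : 0 < unif A y := by
      rcases lt_or_eq_of_le (hu.1 y) with h | h
      · exact h
      · rw [← h, mul_zero] at hxy'
        exact absurd hxy' (lt_irrefl _)
    exact Finset.add_mem_add (unif_pos_mem A x hx) (unif_pos_mem A y hy)
  have hA0 : (0 : ℝ) < (A.card : ℝ) := by exact_mod_cast hA.card_pos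
  have hAA : (0 : ℝ) < ((A + A).card : ℝ) := by
    exact_mod_cast (hA.add hA).card_pos
  have h2 : Real.log ((A + A).card : ℝ) ≤ Real.log K + Real.log (A.card : ℝ) := by
    rw [← Real.log_mul (by linarith) (ne_of_gt hA0)]
    exact Real.log_le_log hAA hK
  rw [ent_unif A hA]
  linarith

theorem kap_le_rd {x : G → ℝ} (hx : IsP x) : ent (conv x x) - ent x ≤ 2 * rd x x := by
  have hy : IsP (fun g => x (-g)) := by
    refine ⟨fun g => hx.1 (-g), ?_⟩
    rw [← hx.2]
    exact Equiv.sum_comp (Equiv.neg G) x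
  have h1 : ent (conv x x) ≤ ent (conv (fun g => x (-g)) (conv x x)) :=
    ent_conv_ge hy (conv_isP hx hx)
  have h2 : conv (fun g => x (-g)) (conv x x) = conv x (conv x (fun g => x (-g))) := by
    rw [conv_comm, conv_assoc]
  have h3 := kvm hx hx hy
  have h4 := rd_neg_right x (fun g => x (-g))
  simp only [neg_neg] at h4
  rw [← ent_conv, ent_neg] at h4
  rw [ent_neg] at h3
  rw [h2] at h1
  linarith

end Pool.Agent.PFM
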