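import Pool.Agent.PFM.D2sa
import Pool.Agent.PFM.D2sb
import Pool.Agent.PFM.D2u
import Pool.Agent.Ldc.S1a
set_option autoImplicit false

/-!
# D2s (size 2).  The large spectrum of a set of small doubling carries a law of small doubling.

`B` nonempty, `|B + B| ≤ K₁ |B|`, `η = 1 / (2 K₁)`, `Ω = {ξ : η |B|² ≤ ‖bh B ξ‖²}`, nonempty by `spec_card`.
`S = Ω`, `P = {ξ : (η/2) |B| ≤ ‖bh B ξ‖}`, `|P| ≤ 4 |G| / (η² |B|) ≤ 32 K₁³ |Ω|` (`parseval_bh`, `spec_card`: `|G| ≤ 2 K₁ |B| |Ω|`); `Ldc.S2_law` with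
`κ = η / 2 = 1 / (4 K₁)` (`popular`), `K = 32 K₁³`: law `x` with `rd x x ≤ 12 log (4 K₁) + 6 log (32 K₁³)` and `ent x ≥ log |Ω| - ..`; `kap_le_rd`;
`log |Ω| ≥ log |G| - log |B| - log (2 K₁)`.  `C = 200` works (any absolute constant `≥ 1`).
-/
namespace Pool.Agent.PFM
open Finset Pool.Agent.Ldc Pool.Agent.NPM
open scoped Pointwise

theorem spec_law : ∃ C : ℝ, 1 ≤ C ∧ ∀ (G : Type) [AddCommGroup G] [Fintype G] [DecidableEq G]
    (B : Finset G) (K₁ : ℝ), B.Nonempty → 1 ≤ K₁ → ((B + B).card : ℝ) ≤ K₁ * (B.card : ℝ) →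
    ∃ ω : AddChar G ℂ → ℝ, IsP ω ∧
      (∀ ξ, 0 < ω ξ → 1 / (2 * K₁) * (B.card : ℝ) ^ 2 ≤ ‖bh B ξ‖ ^ 2) ∧
      ent (conv ω ω) - ent ω ≤ C * (1 + Real.log K₁) ∧
      Real.log (Fintype.card G : ℝ) - Real.log (B.card : ℝ) - C * (1 + Real.log K₁) ≤ ent ω := by
  classical
  refine ⟨200, by norm_num, ?_⟩
  intro G _ _ _ B K₁ hB hK1 hK
  have hK0 : (0 : ℝ) < K₁ := by linarith
  have hb0 : (0 : ℝ) < (B.card : ℝ) := by exact_mod_cast Finset.card_pos.mpr hB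
  have hG0 : (0 : ℝ) < (Fintype.card G : ℝ) := by
    have : Nonempty G := ⟨hB.choose⟩
    exact_mod_cast Fintype.card_pos
  set η : ℝ := 1 / (2 * K₁) with hη
  have hη0 : 0 < η := by rw [hη]; positivity
  have hη1 : η ≤ 1 := by
    rw [hη, div_le_one (by positivity)]; linarith
  set Ω : Finset (AddChar G ℂ) :=
    univ.filter (fun ξ : AddChar G ℂ => η * (B.card : ℝ) ^ 2 ≤ ‖bh B ξ‖ ^ 2) with hΩ
  have hsc : (Fintype.card G : ℝ) ≤ 2 * K₁ * (B.card : ℝ) * (Ω.card : ℝ) := by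
    have := spec_card B hB K₁ hK1 hK
    convert this using 3
  have hΩ0 : (0 : ℝ) < (Ω.card : ℝ) := by
    rcases (Nat.cast_nonneg (α := ℝ) Ω.card).lt_or_eq with h | h
    · exact h
    · rw [← h, mul_zero] at hsc
      linarith
  have hΩne : Ω.Nonempty := by
    rw [← Finset.card_pos]; exact_mod_cast hΩ0
  have hΩmem : ∀ ξ ∈ Ω, η * (B.card : ℝ) ^ 2 ≤ ‖bh B ξ‖ ^ 2 := by
    intro ξ hξ
    rw [hΩ, Finset.mem_filter] at hξ
    exact hξ.2
  set P : Finset (AddChar G ℂ) :=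
    univ.filter (fun ξ : AddChar G ℂ => η / 2 * (B.card : ℝ) ≤ ‖bh B ξ‖) with hP
  have hpop : η / 2 * (Ω.card : ℝ) ^ 2 ≤
      (((Ω ×ˢ Ω).filter (fun u => u.1 - u.2 ∈ P)).card : ℝ) := by
    have h := popular B hB η hη0 hη1 Ω hΩmem
    have heq : (Ω ×ˢ Ω).filter (fun u => u.1 - u.2 ∈ P) =
        (Ω ×ˢ Ω).filter (fun u => η / 2 * (B.card : ℝ) ≤ ‖bh B (u.1 - u.2)‖) := by
      apply Finset.filter_congr
      intro u _
      rw [hP, Finset.mem_filter]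
      simp
    rw [heq]
    convert h using 3
  have hPc : (P.card : ℝ) ≤ 32 * K₁ ^ 3 * (Ω.card : ℝ) := by
    have h1 : (P.card : ℝ) * (η / 2 * (B.card : ℝ)) ^ 2 ≤ (Fintype.card G : ℝ) * (B.card : ℝ) := by
      rw [← parseval_bh B]
      calc (P.card : ℝ) * (η / 2 * (B.card : ℝ)) ^ 2
          = ∑ _ξ ∈ P, (η / 2 * (B.card : ℝ)) ^ 2 := by
            rw [Finset.sum_const, nsmul_eq_mul]
        _ ≤ ∑ ξ ∈ P, ‖bh B ξ‖ ^ 2 := by
            apply Finset.sum_le_sum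
            intro ξ hξ
            rw [hP, Finset.mem_filter] at hξ
            exact pow_le_pow_left₀ (by positivity) hξ.2 2
        _ ≤ ∑ ξ : AddChar G ℂ, ‖bh B ξ‖ ^ 2 := by
            apply Finset.sum_le_univ_sum_of_nonneg
            intro ξ; positivity
    have h2 : (P.card : ℝ) * (η / 2 * (B.card : ℝ)) ^ 2 ≤
        (2 * K₁ * (B.card : ℝ) * (Ω.card : ℝ)) * (B.card : ℝ) :=
      le_trans h1 (mul_le_mul_of_nonneg_right hsc hb0.le)
    have h3 : (η / 2 * (B.card : ℝ)) ^ 2 = (B.card : ℝ) ^ 2 / (16 * K₁ ^ 2) := by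
      rw [hη]; field_simp; norm_num
    rw [h3] at h2
    have h4 : (P.card : ℝ) * ((B.card : ℝ) ^ 2 / (16 * K₁ ^ 2)) * (16 * K₁ ^ 2) ≤
        (2 * K₁ * (B.card : ℝ) * (Ω.card : ℝ)) * (B.card : ℝ) * (16 * K₁ ^ 2) :=
      mul_le_mul_of_nonneg_right h2 (by positivity)
    have h5 : (P.card : ℝ) * ((B.card : ℝ) ^ 2 / (16 * K₁ ^ 2)) * (16 * K₁ ^ 2) =
        (P.card : ℝ) * (B.card : ℝ) ^ 2 := by
      field_simp
    rw [h5] at h4
    have h6 : (P.card : ℝ) * (B.card : ℝ) ^ 2 ≤ (32 * K₁ ^ 3 * (Ω.card : ℝ)) * (B.card : ℝ) ^ 2 := by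
      calc (P.card : ℝ) * (B.card : ℝ) ^ 2 ≤ _ := h4
        _ = (32 * K₁ ^ 3 * (Ω.card : ℝ)) * (B.card : ℝ) ^ 2 := by ring
    exact le_of_mul_le_mul_right h6 (by positivity)
  have hK32 : (1 : ℝ) ≤ 32 * K₁ ^ 3 := by
    have : (1 : ℝ) ≤ K₁ ^ 3 := one_le_pow₀ hK1
    linarith
  obtain ⟨x, hx, hxS, hrd, hent⟩ := S2_law Ω P hΩne (η / 2) (32 * K₁ ^ 3) (by positivity)
    (by linarith) hK32 (by convert hpop using 3) hPc
  refine ⟨x, hx, ?_, ?_, ?_⟩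
  · intro ξ hξ
    exact hΩmem ξ (hxS ξ hξ)
  · have h1 := kap_le_rd hx
    have hl1 : Real.log (1 / (η / 2)) = 2 * Real.log 2 + Real.log K₁ := by
      have : 1 / (η / 2) = 2 ^ 2 * K₁ := by rw [hη]; field_simp
      rw [this, Real.log_mul (by norm_num) hK0.ne', Real.log_pow]; norm_num
    have hl2 : Real.log (32 * K₁ ^ 3) = 5 * Real.log 2 + 3 * Real.log K₁ := by
      have : (32 : ℝ) = 2 ^ 5 := by norm_num
      rw [this, Real.log_mul (by norm_num) (by positivity), Real.log_pow, Real.log_pow]; norm_num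
    rw [hl1, hl2] at hrd
    have h2 := Real.log_two_lt_d9
    have h3 : 0 ≤ Real.log K₁ := Real.log_nonneg hK1
    nlinarith
  · have hl1 : Real.log (1 / (η / 2)) = 2 * Real.log 2 + Real.log K₁ := by
      have : 1 / (η / 2) = 2 ^ 2 * K₁ := by rw [hη]; field_simp
      rw [this, Real.log_mul (by norm_num) hK0.ne', Real.log_pow]; norm_num
    have hl2 : Real.log (32 * K₁ ^ 3) = 5 * Real.log 2 + 3 * Real.log K₁ := by
      have : (32 : ℝ) = 2 ^ 5 := by norm_num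
      rw [this, Real.log_mul (by norm_num) (by positivity), Real.log_pow, Real.log_pow]; norm_num
    rw [hl1, hl2] at hent
    have h4 : Real.log (Fintype.card G : ℝ) ≤
        Real.log 2 + Real.log K₁ + Real.log (B.card : ℝ) + Real.log (Ω.card : ℝ) := by
      have := Real.log_le_log hG0 hsc
      rw [Real.log_mul (by positivity) hΩ0.ne', Real.log_mul (by positivity) hb0.ne',
        Real.log_mul (by norm_num) hK0.ne'] at this
      exact this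
    have h2 := Real.log_two_lt_d9
    have h3 : 0 ≤ Real.log K₁ := Real.log_nonneg hK1
    nlinarith

end Pool.Agent.PFM
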