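import Pool.Agent.PFM.D2p
set_option autoImplicit false

/-!
# D2sa (size 1).  The large spectrum of a set of small doubling is large.

`B` nonempty, `|B + B| ≤ K₁ |B|`, `η = 1 / (2 K₁)`, `Ω = {ξ : η |B|² ≤ ‖bh B ξ‖²}`.
`Σ_ξ ‖bh‖⁴ ≥ |G| |B|³ / K₁` (`fourth`), the terms outside `Ω` sum to at most `η |B|² Σ ‖bh‖² = |G| |B|³ / (2 K₁)` (`parseval_bh`),
each term is `≤ |B|⁴` (`‖bh B ξ‖ ≤ |B|`, `‖ξ b‖ = 1`): `|Ω| |B|⁴ ≥ |G| |B|³ / (2 K₁)`.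
-/
namespace Pool.Agent.PFM
open Finset Pool.Agent.Ldc Pool.Agent.NPM
open scoped Pointwise

variable {G : Type} [AddCommGroup G] [Fintype G] [DecidableEq G]

omit [DecidableEq G] in
private theorem D2sa_norm_le (B : Finset G) (ξ : AddChar G ℂ) : ‖bh B ξ‖ ≤ (B.card : ℝ) := by
  unfold bh
  refine (norm_sum_le _ _).trans ?_
  refine le_of_eq ?_
  rw [Finset.sum_congr rfl (fun b _ => AddChar.norm_apply ξ b)]
  simp

open Classical in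
theorem spec_card (B : Finset G) (hB : B.Nonempty) (K₁ : ℝ) (hK1 : 1 ≤ K₁)
    (hK : ((B + B).card : ℝ) ≤ K₁ * (B.card : ℝ)) :
    (Fintype.card G : ℝ) ≤ 2 * K₁ * (B.card : ℝ) *
      ((univ.filter (fun ξ : AddChar G ℂ => 1 / (2 * K₁) * (B.card : ℝ) ^ 2 ≤ ‖bh B ξ‖ ^ 2)).card : ℝ) := by
  have hf := fourth B
  have hp := parseval_bh B
  obtain ⟨b, hb⟩ : ∃ b : ℝ, b = (B.card : ℝ) := ⟨_, rfl⟩
  obtain ⟨n, hn⟩ : ∃ n : ℝ, n = (Fintype.card G : ℝ) := ⟨_, rfl⟩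
  obtain ⟨S4, hS4⟩ : ∃ S4 : ℝ, S4 = ∑ ξ : AddChar G ℂ, ‖bh B ξ‖ ^ 4 := ⟨_, rfl⟩
  rw [← hb, ← hn, ← hS4] at hf
  rw [← hb, ← hn] at hp
  rw [← hb] at hK
  rw [← hb, ← hn]
  have hb0 : 0 < b := by rw [hb]; exact_mod_cast hB.card_pos
  have hS40 : 0 ≤ S4 := by rw [hS4]; exact Finset.sum_nonneg fun _ _ => by positivity
  have hK0 : 0 < K₁ := by linarith
  have h1 : n * b ^ 4 ≤ K₁ * b * S4 := hf.trans (mul_le_mul_of_nonneg_right hK hS40)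
  have h2 : n * b ^ 3 ≤ K₁ * S4 := by
    have h3 : (n * b ^ 3) * b ≤ (K₁ * S4) * b := by linarith [h1]
    exact le_of_mul_le_mul_right h3 hb0
  obtain ⟨m, hm⟩ : ∃ m : ℝ, m = ((univ.filter
    (fun ξ : AddChar G ℂ => 1 / (2 * K₁) * b ^ 2 ≤ ‖bh B ξ‖ ^ 2)).card : ℝ) := ⟨_, rfl⟩
  rw [← hm]
  have h4 : S4 ≤ m * b ^ 4 + 1 / (2 * K₁) * b ^ 2 * (n * b) := by
    rw [hS4, ← hp, hm, ← Finset.sum_filter_add_sum_filter_not univ
      (fun ξ : AddChar G ℂ => 1 / (2 * K₁) * b ^ 2 ≤ ‖bh B ξ‖ ^ 2)]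
    refine add_le_add ?_ ?_
    · rw [← nsmul_eq_mul, ← Finset.sum_const]
      refine Finset.sum_le_sum fun ξ _ => ?_
      rw [hb]
      exact pow_le_pow_left₀ (norm_nonneg _) (D2sa_norm_le B ξ) 4
    · rw [Finset.mul_sum]
      refine (Finset.sum_le_sum (g := fun ξ => 1 / (2 * K₁) * b ^ 2 * ‖bh B ξ‖ ^ 2) ?_).trans ?_
      · intro ξ hξ
        have h5 := (Finset.mem_filter.1 hξ).2
        rw [not_le] at h5
        have h6 : ‖bh B ξ‖ ^ 4 = ‖bh B ξ‖ ^ 2 * ‖bh B ξ‖ ^ 2 := by ring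
        rw [h6]
        exact mul_le_mul_of_nonneg_right h5.le (by positivity)
      · exact Finset.sum_le_sum_of_subset_of_nonneg (Finset.filter_subset _ _)
          (fun _ _ _ => by positivity)
  have h7 : K₁ * (1 / (2 * K₁) * b ^ 2 * (n * b)) = n * b ^ 3 / 2 := by
    field_simp
  have h8 : n * b ^ 3 ≤ K₁ * (m * b ^ 4) + n * b ^ 3 / 2 := by
    have h9 := mul_le_mul_of_nonneg_left h4 hK0.le
    rw [mul_add, h7] at h9
    linarith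
  have h10 : n * b ^ 3 ≤ (2 * K₁ * b * m) * b ^ 3 := by
    have e : (2 * K₁ * b * m) * b ^ 3 = 2 * (K₁ * (m * b ^ 4)) := by ring
    rw [e]
    linarith
  exact le_of_mul_le_mul_right h10 (by positivity)

end Pool.Agent.PFM
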