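import Pool.Agent.NPM.Cmb
import Pool.Agent.NPM.Red
set_option autoImplicit false

/-!
# MIf.  The interface between sections D and M (helper4, helper38).

`RStat`: the structure theorem for sets of small doubling in finite abelian groups, from which the model is built
in section M.
-/
namespace Pool.Agent.PFM
open scoped Pointwise
open Pool.Agent.NPM

open Classical in
/-- The structure theorem delivered by section D. -/
def RStat : Prop :=
  ∃ C : ℝ, 0 < C ∧ ∀ (G : Type) [AddCommGroup G] [Fintype G] (A : Finset G) (K : ℝ),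
    A.Nonempty → 1 ≤ K → (((A + A).card : ℝ) ≤ K * (A.card : ℝ)) →
      ∃ (V : AddSubgroup G) (x : G) (B B' : Finset V) (T : AddSubgroup (AddChar V ℂ)) (R : ℕ),
        B.Nonempty ∧ B' ⊆ B ∧ (∀ v ∈ B, x + (v : G) ∈ A) ∧
        Real.exp (-(C * (1 + Real.log K))) * (A.card : ℝ) ≤ (B.card : ℝ) ∧
        ((B + B).card : ℝ) ≤ Real.exp (C * (1 + Real.log K)) * (B.card : ℝ) ∧
        (R : ℝ) ≤ C * (1 + Real.log K) ∧
        (∀ q : ℕ, q.Prime → (Finset.univ.filter (fun ξ : AddChar V ℂ => ξ ∈ T ∧ q • ξ = 0)).card ≤ q ^ R) ∧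
        Real.exp (-(C * (1 + Real.log K))) * (B.card : ℝ) ≤ (B'.card : ℝ) ∧
        ∀ b ∈ B', Real.exp (-(C * (1 + Real.log K))) * (Nat.card (Ann (T : Set (AddChar V ℂ))) : ℝ) ≤
          ((B.filter (fun a => a - b ∈ Ann (T : Set (AddChar V ℂ)))).card : ℝ)

end Pool.Agent.PFM
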