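import Pool.Agent.PFM.D2f
import Pool.Agent.PFM.MIf
set_option autoImplicit false

/-!
# D2z.  `Ent C → RStat` (helper38's form of the interface to section M).
-/
namespace Pool.Agent.PFM
open Finset Pool.Agent.Ldc Pool.Agent.NPM
open scoped Pointwise

open Classical in
private theorem d2z_tor {V : Type} [AddCommGroup V] [Fintype V] (T : AddSubgroup (AddChar V ℂ)) (q : ℕ) :
    (Finset.univ.filter (fun ξ : AddChar V ℂ => ξ ∈ T ∧ q • ξ = 0)).card = Nat.card (torq q T) := by
  rw [← Nat.card_eq_finsetCard]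
  refine Nat.card_congr (Equiv.subtypeEquivRight fun ξ => ?_)
  rw [Finset.mem_filter]
  exact ⟨fun h => h.2, fun h => ⟨Finset.mem_univ _, h⟩⟩

open Classical in
private theorem d2z_card {V : Type} [AddCommGroup V] (B : Finset V) (b : V) (F : AddSubgroup V) :
    Nat.card {a : V // a ∈ B ∧ a - b ∈ F} = (B.filter (fun a => a - b ∈ F)).card := by
  rw [← Nat.card_eq_finsetCard]
  refine Nat.card_congr (Equiv.subtypeEquivRight fun ξ => ?_)
  rw [Finset.mem_filter]

theorem rstat_of_ent (h : ∃ C : ℝ, 0 < C ∧ Ent C) : RStat := by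
  classical
  obtain ⟨C, hC, hE⟩ := h
  obtain ⟨C'', hC'', hR⟩ := ent_to_RR C hC hE
  refine ⟨C'', hC'', ?_⟩
  intro G _ _ A K hA hK1 hK
  obtain ⟨V, x, B, T, R, B', h1, h2, h3, h4, h5, h6, h7, h8, h9⟩ := hR G A K hA hK1 (by convert hK)
  refine ⟨V, x, B, B', T, R, h1, h7, h2, h3, ?_, h5, ?_, h8, ?_⟩
  · convert h4
  · intro q hq
    convert h6 q hq
    exact d2z_tor T q
  · intro b hb
    have h10 := h9 b hb
    rw [d2z_card] at h10
    convert h10

end Pool.Agent.PFM
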