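import Pool.Agent.PFM.DTerm
import Pool.Agent.PFM.D2Defs
set_option autoImplicit false

/-!
# Section D1 (helper79): entropy and the size of the fibres
-/
namespace Pool.Agent.PFM
open Finset Pool.Agent.Ldc

namespace CV
variable {G K : Type}

open Classical in
/-- the values of `f` which are possible when the label is that of `ω` -/
noncomputable def fib (B : CV K) (ω : B.Ω) : Finset K :=
  (univ.filter (fun ω' => 0 < B.p ω' ∧ B.z ω' = B.z ω)).image B.f

theorem mem_fib (B : CV K) (ω : B.Ω) (k : K) : k ∈ fib B ω ↔ ∃ ω', 0 < B.p ω' ∧ B.z ω' = B.z ω ∧ B.f ω' = k := by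
  classical
  unfold fib
  simp only [mem_image, mem_filter, mem_univ, true_and, and_assoc]

theorem hc_le_of_fib (B : CV K) (L : ℝ) (h : ∀ ω, 0 < B.p ω → Real.log ((fib B ω).card : ℝ) ≤ L) :
    hc B ≤ L := by
  classical
  have h1 := H_le_fiber B.hp (fun ω => (B.f ω, B.z ω)) (fun x : K × B.β => x.2)
    ((univ.filter (fun ω => 0 < B.p ω)).image (fun ω => (B.f ω, B.z ω)))
    (fun ω hω => mem_image_of_mem _ (mem_filter.2 ⟨mem_univ _, hω⟩)) L
    (fun ω hω u hu hu2 => by
      refine le_trans ?_ (h ω hω)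
      have hinj : Set.InjOn (fun x : K × B.β => x.1) (u : Set (K × B.β)) := by
        intro x hx y hy hxy
        have h2 := hu2 x hx
        have h3 := hu2 y hy
        exact Prod.ext hxy (h2.trans h3.symm)
      have hcard : u.card ≤ (fib B ω).card := by
        rw [← Finset.card_image_of_injOn hinj]
        refine Finset.card_le_card ?_
        intro k hk
        obtain ⟨x, hx, rfl⟩ := mem_image.1 hk
        obtain ⟨ω', hω', hx'⟩ := mem_image.1 (hu hx)
        rw [mem_fib]
        refine ⟨ω', (mem_filter.1 hω').2, ?_, ?_⟩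
        · have h2 := hu2 x hx
          rw [← hx'] at h2
          exact h2
        · rw [← hx']
      rcases Nat.eq_zero_or_pos u.card with h0 | h0
      · rw [h0, Nat.cast_zero, Real.log_zero]
        have hne : (fib B ω).Nonempty := ⟨B.f ω, (mem_fib B ω _).2 ⟨ω, hω, rfl, rfl⟩⟩
        exact Real.log_nonneg (by exact_mod_cast hne.card_pos)
      · exact Real.log_le_log (by exact_mod_cast h0) (by exact_mod_cast hcard))
  have h2 : H B.p (fun ω => (fun x : K × B.β => x.2) ((fun ω => (B.f ω, B.z ω)) ω)) = H B.p B.z := rfl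
  rw [h2] at h1
  unfold hc
  linarith

theorem exists_pos (B : CV K) : ∃ ω, 0 < B.p ω := by
  by_contra h
  push Not at h
  have h1 : ∑ ω, B.p ω ≤ 0 := Finset.sum_nonpos fun ω _ => h ω
  rw [B.hp.2] at h1
  linarith

/-- some fibre is at least as large as the entropy -/
theorem exists_fib (B : CV K) : ∃ ω, 0 < B.p ω ∧ hc B ≤ Real.log ((fib B ω).card : ℝ) := by
  classical
  obtain ⟨ω0, h0⟩ := exists_pos B
  obtain ⟨ω, hω, hmax⟩ := Finset.exists_max_image (univ.filter (fun ω => 0 < B.p ω))
    (fun ω => (fib B ω).card) ⟨ω0, mem_filter.2 ⟨mem_univ _, h0⟩⟩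
  have hpω := (mem_filter.1 hω).2
  refine ⟨ω, hpω, hc_le_of_fib B _ fun ω' hω' => ?_⟩
  have h1 := hmax ω' (mem_filter.2 ⟨mem_univ _, hω'⟩)
  have hne : (fib B ω').Nonempty := ⟨B.f ω', (mem_fib B ω' _).2 ⟨ω', hω', rfl, rfl⟩⟩
  exact Real.log_le_log (by exact_mod_cast hne.card_pos) (by exact_mod_cast h1)

end CV
end Pool.Agent.PFM
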