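import Pool.Agent.PFM.DSt
set_option autoImplicit false

/-!
# Section D1b (helper33): terminated variables fill their group
-/
namespace Pool.Agent.PFM
open Finset Pool.Agent.Ldc

namespace D1
open MM
variable {G K L : Type}

/-- the map `E/π⁻¹(W') → (E/W)/W'` -/
noncomputable def qq [AddCommGroup G] (W : AddSubgroup G) (W' : AddSubgroup (G ⧸ W)) :
    (G ⧸ W'.comap (QuotientAddGroup.mk' W)) →+ ((G ⧸ W) ⧸ W') :=
  QuotientAddGroup.lift _ ((QuotientAddGroup.mk' W').comp (QuotientAddGroup.mk' W)) (by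
    intro x hx
    have hx' : (QuotientAddGroup.mk' W') ((QuotientAddGroup.mk' W) x) = 0 := by
      rw [QuotientAddGroup.mk'_apply, QuotientAddGroup.eq_zero_iff]
      exact hx
    exact hx')

theorem qq_inj [AddCommGroup G] (W : AddSubgroup G) (W' : AddSubgroup (G ⧸ W)) :
    Function.Injective (qq W W') := by
  rw [injective_iff_map_eq_zero]
  intro x hx
  induction x using QuotientAddGroup.induction_on with | H z => ?_
  rw [QuotientAddGroup.eq_zero_iff]
  have h1 : (QuotientAddGroup.mk' W') ((QuotientAddGroup.mk' W) z) = 0 := hx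
  rw [QuotientAddGroup.mk'_apply, QuotientAddGroup.eq_zero_iff] at h1
  exact h1

theorem md_md [AddCommGroup G] (W : AddSubgroup G) (W' : AddSubgroup (G ⧸ W)) (a : MM G) :
    mapHom (QuotientAddGroup.mk' W') (mapHom (QuotientAddGroup.mk' W) a) =
      mapHom (qq W W') (mapHom (QuotientAddGroup.mk' (W'.comap (QuotientAddGroup.mk' W))) a) := by
  rw [mapHom_comp, mapHom_comp]
  rfl

/-- images of terminated variables are terminated -/
theorem Term.md [AddCommGroup G] {L : ℝ} {a : MM G} (ha : Term L a) (W : AddSubgroup G) :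
    Term L (mapHom (QuotientAddGroup.mk' W) a) := by
  intro W' hW'
  rw [md_md, h_map_inj _ (qq_inj W W'), kap_map_inj _ (qq_inj W W')]
  refine ha _ fun h => hW' ?_
  rw [eq_top_iff]
  intro y _
  obtain ⟨x, rfl⟩ := QuotientAddGroup.mk'_surjective W y
  have : x ∈ W'.comap (QuotientAddGroup.mk' W) := by
    rw [h]
    trivial
  exact this

theorem Term.mono [AddCommGroup G] {L L' : ℝ} {a : MM G} (ha : Term L a) (hL : L' ≤ L) : Term L' a := by
  intro W hW
  have h1 := ha W hW
  have h2 := st_kap_nonneg (mapHom (QuotientAddGroup.mk' W) a)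
  nlinarith [mul_le_mul_of_nonneg_right hL h2]

theorem mk_bot_inj [AddCommGroup G] : Function.Injective (QuotientAddGroup.mk' (⊥ : AddSubgroup G)) := by
  rw [injective_iff_map_eq_zero]
  intro x hx
  rw [QuotientAddGroup.mk'_apply, QuotientAddGroup.eq_zero_iff] at hx
  simpa using hx

theorem Tor.quot [AddCommGroup G] {T : ℕ} (hT : Tor T G) (W : AddSubgroup G) : Tor T (G ⧸ W) := by
  obtain ⟨m, h0, h1, h2⟩ := hT
  refine ⟨m, h0, h1, fun x => ?_⟩
  obtain ⟨y, rfl⟩ := QuotientAddGroup.mk'_surjective W x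
  rw [← map_nsmul, h2, map_zero]

/-- if `q G ≤ W` with `0 < q ≤ 2^T` then `Tor T (G/W)` -/
theorem Tor.of_le [AddCommGroup G] {T : ℕ} (q : ℕ) (hq0 : 0 < q) (hq : q ≤ 2 ^ T) (W : AddSubgroup G)
    (hW : ∀ g : G, q • g ∈ W) : Tor T (G ⧸ W) := by
  refine ⟨q, hq0, hq, fun x => ?_⟩
  obtain ⟨y, rfl⟩ := QuotientAddGroup.mk'_surjective W x
  rw [← map_nsmul, QuotientAddGroup.mk'_apply, QuotientAddGroup.eq_zero_iff]
  exact hW y

theorem term_bound_aux (s C1 L D : ℝ) (hs : 0 ≤ s) (hC : 0 < C1) (hL : 4 * C1 ≤ L)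
    (hD : (1 + s) * C1 ≤ 3 / 4 * D) (T : ℕ) (hT : 1 ≤ T)
    (H : ∀ (E : Type) [AddCommGroup E] [Finite E], Tor T E → ∀ a : MM E,
      ∃ W : AddSubgroup E, h (mapHom (QuotientAddGroup.mk' W) a) ≤ C1 * kap a ∧
        Real.log (Nat.card W : ℝ) ≤ s * h a + C1 * (T : ℝ) * kap a) :
    ∀ (n : ℕ) (E : Type) [AddCommGroup E] [Finite E], Nat.card E ≤ n → Tor T E → ∀ a : MM E, Term L a →
      Real.log (Nat.card E : ℝ) ≤ s * h a + D * (T : ℝ) * kap a := by
  have hT' : (1 : ℝ) ≤ (T : ℝ) := by exact_mod_cast hT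
  have hD1 : C1 ≤ D := by nlinarith [mul_nonneg hs hC.le]
  intro n
  induction n with
  | zero =>
    intro E _ _ hE
    have : 0 < Nat.card E := Nat.card_pos
    omega
  | succ n ih =>
    intro E _ _ hE hTor a ha
    have hk := st_kap_nonneg a
    have hTk : 0 ≤ (T : ℝ) * kap a := mul_nonneg (by linarith) hk
    have hTk' : kap a ≤ (T : ℝ) * kap a := by nlinarith
    obtain ⟨W, h1, h2⟩ := H E hTor a
    by_cases hW : W = ⊤
    · subst hW
      have e : Nat.card (⊤ : AddSubgroup E) = Nat.card E := by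
        rw [AddSubgroup.card_top]
      rw [e] at h2
      nlinarith [mul_le_mul_of_nonneg_right hD1 hTk]
    · by_cases hW0 : W = ⊥
      · exfalso
        subst hW0
        have h3 := ha _ hW
        have e1 : h (mapHom (QuotientAddGroup.mk' (⊥ : AddSubgroup E)) a) = h a :=
          h_map_inj _ mk_bot_inj a
        have e2 : kap (mapHom (QuotientAddGroup.mk' (⊥ : AddSubgroup E)) a) = kap a :=
          kap_map_inj _ mk_bot_inj a
        rw [e1, e2] at h3
        rw [e1] at h1
        nlinarith [mul_le_mul_of_nonneg_right hL hk, mul_nonneg hC.le hk]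
      · have hcard : Nat.card E = Nat.card (E ⧸ W) * Nat.card W :=
          AddSubgroup.card_eq_card_quotient_mul_card_addSubgroup W
        have hWc : 1 < Nat.card W := by
          rw [AddSubgroup.one_lt_card_iff_ne_bot]
          exact hW0
        have hQ : 0 < Nat.card (E ⧸ W) := Nat.card_pos
        have hlt : Nat.card (E ⧸ W) ≤ n := by
          have : Nat.card (E ⧸ W) < Nat.card E := by
            rw [hcard]
            nlinarith
          omega
        have h4 := ih (E ⧸ W) hlt (hTor.quot W) (mapHom (QuotientAddGroup.mk' W) a) (ha.md W)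
        have h3 := ha W hW
        have hkW := st_kap_nonneg (mapHom (QuotientAddGroup.mk' W) a)
        have h5 : kap (mapHom (QuotientAddGroup.mk' W) a) ≤ kap a / 4 := by
          have h6 : 4 * C1 * kap (mapHom (QuotientAddGroup.mk' W) a) ≤ C1 * kap a := by
            nlinarith [mul_le_mul_of_nonneg_right hL hkW]
          have h7 : C1 * (4 * kap (mapHom (QuotientAddGroup.mk' W) a)) ≤ C1 * kap a := by linarith
          have := le_of_mul_le_mul_left h7 hC
          linarith
        have hlog : Real.log (Nat.card E : ℝ) = Real.log (Nat.card (E ⧸ W) : ℝ) +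
            Real.log (Nat.card W : ℝ) := by
          rw [hcard]
          push_cast
          rw [Real.log_mul]
          · exact_mod_cast hQ.ne'
          · have : 0 < Nat.card W := by omega
            exact_mod_cast this.ne'
        rw [hlog]
        have hD0 : 0 ≤ D := hC.le.trans hD1
        have h8 : D * (T : ℝ) * kap (mapHom (QuotientAddGroup.mk' W) a) ≤ D * (T : ℝ) * (kap a / 4) :=
          mul_le_mul_of_nonneg_left h5 (mul_nonneg hD0 (by linarith))
        have h9 : s * h (mapHom (QuotientAddGroup.mk' W) a) ≤ s * (C1 * kap a) :=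
          mul_le_mul_of_nonneg_left h1 hs
        have h10 : s * C1 * kap a ≤ s * C1 * ((T : ℝ) * kap a) :=
          mul_le_mul_of_nonneg_left hTk' (mul_nonneg hs hC.le)
        have h11 : (1 + s) * C1 * ((T : ℝ) * kap a) ≤ 3 / 4 * D * ((T : ℝ) * kap a) :=
          mul_le_mul_of_nonneg_right hD hTk
        nlinarith [h2, h4, h8, h9, h10, h11]

/-- terminated variables fill their group -/
theorem term_bound {C : ℝ} (hC : 1 ≤ C) (htr : TR1 C) (E : Type) [AddCommGroup E] [Fintype E] (T : ℕ)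
    (hT : 1 ≤ T) (hE : Tor T E) (L : ℝ) (hL : 4 * C ≤ L) (a : MM E) (ha : Term L a) :
    Real.log (Nat.card E) ≤ (3 / 2) * MM.h a + 4 * C * T * MM.kap a := by
  refine term_bound_aux (3 / 2) C L (4 * C) (by norm_num) (by linarith) hL (by nlinarith) T hT ?_
    (Nat.card E) E le_rfl hE a ha
  intro E' _ _ hE' a'
  have := Fintype.ofFinite E'
  exact htr E' T hT hE' a'

/-- the bound for the quotients by `F ≥ q E` -/
theorem term_bound_md {C : ℝ} (hC : 1 ≤ C) (htr : TR1 C) (E : Type) [AddCommGroup E] [Fintype E] (T : ℕ)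
    (hT : 1 ≤ T) (L : ℝ) (hL : 4 * C ≤ L) (a : MM E) (ha : Term L a) (q : ℕ) (hq0 : 0 < q)
    (hq : q ≤ 2 ^ T) (F : AddSubgroup E) (hF : ∀ g : E, q • g ∈ F) :
    Real.log (Nat.card (E ⧸ F)) ≤ (3 / 2) * MM.h (mapHom (QuotientAddGroup.mk' F) a) +
      4 * C * T * MM.kap a := by
  have := Fintype.ofFinite (E ⧸ F)
  have h1 := term_bound hC htr (E ⧸ F) T hT (Tor.of_le q hq0 hq F hF) L hL
    (mapHom (QuotientAddGroup.mk' F) a) (ha.md F)
  have h2 : kap (mapHom (QuotientAddGroup.mk' F) a) ≤ kap a := kap_map_le _ a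
  have h3 : 0 ≤ 4 * C * (T : ℝ) := by
    have : (0 : ℝ) ≤ T := Nat.cast_nonneg T
    nlinarith
  nlinarith [mul_le_mul_of_nonneg_left h2 h3]

/-- the dual form, `F ≥ q E`: `(2/3) log |E/F| ≤ h a - h (q a) + (4 C + 4) T κ(a)` -/
theorem term_fibre {C : ℝ} (hC : 1 ≤ C) (htr : TR1 C) (E : Type) [AddCommGroup E] [Fintype E] (T : ℕ)
    (hT : 1 ≤ T) (L : ℝ) (hL : 4 * C ≤ L) (a : MM E) (ha : Term L a) (q : ℕ) (hq0 : 0 < q)
    (hq : q < 2 ^ T) (F : AddSubgroup E) (hF : ∀ g : E, q • g ∈ F) :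
    2 / 3 * Real.log (Nat.card (E ⧸ F)) ≤ h a - h (mapHom (nsmulAddMonoidHom q) a) +
      (4 * C + 4) * T * MM.kap a := by
  have h1 := term_bound_md hC htr E T hT L hL a ha q hq0 hq.le F hF
  have h2 := star_md T hT q hq F hF a
  have e : (zsmulAddGroupHom (q : ℤ) : E →+ E) = nsmulAddMonoidHom q := by
    ext x
    simp
  rw [dil_eq, e] at h2
  unfold md at h2
  have h3 : 0 ≤ C * ((T : ℝ) * kap a) :=
    mul_nonneg (by linarith) (mul_nonneg (Nat.cast_nonneg T) (st_kap_nonneg a))
  nlinarith [h1, h2, h3]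

end D1
end Pool.Agent.PFM
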