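import Pool.Agent.PFM.DQuo
import Pool.Agent.PFM.DCnt
import Pool.Agent.PFM.DTb
set_option autoImplicit false

/-!
# Section D1 (helper79): part (b) of `Ent`
-/
namespace Pool.Agent.PFM
open Finset Pool.Agent.Ldc

namespace D1
variable {G : Type} [AddCommGroup G] [Fintype G]

theorem h_md_le_ncos (P : G → ℝ) (hP : IsP P) (V F : AddSubgroup G) :
    MM.h (MM.mapHom (QuotientAddGroup.mk' (F.addSubgroupOf V)) (MM.mk (CV.sec V (CV.law P hP)))) ≤
      Real.log (ncos F P : ℝ) := by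
  classical
  change CV.hc ((CV.sec V (CV.law P hP)).map fun v => (QuotientAddGroup.mk v : V ⧸ F.addSubgroupOf V)) ≤ _
  set B := (CV.sec V (CV.law P hP)).map fun v => (QuotientAddGroup.mk v : V ⧸ F.addSubgroupOf V) with hB
  refine CV.hc_le_of_fib B _ fun ω hω => ?_
  have key : ∀ k ∈ CV.fib B ω, ∃ g : G, 0 < P g ∧
      (QuotientAddGroup.mk g : G ⧸ V) = QuotientAddGroup.mk (show G from ω) ∧
      (QuotientAddGroup.mk (CV.tr V g) : V ⧸ F.addSubgroupOf V) = k := by
    intro k hk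
    obtain ⟨g, h1, h2, h3⟩ := (CV.mem_fib B ω k).1 hk
    exact ⟨g, h1, (Prod.ext_iff.1 h2).2, h3⟩
  choose! f hf1 hf2 hf3 using key
  have hne : (CV.fib B ω).Nonempty := ⟨B.f ω, (CV.mem_fib B ω _).2 ⟨ω, hω, rfl, rfl⟩⟩
  refine Real.log_le_log (by exact_mod_cast hne.card_pos) ?_
  have hcard : (CV.fib B ω).card ≤ ncos F P := by
    unfold ncos
    refine Finset.card_le_card_of_injOn (fun k => (QuotientAddGroup.mk (f k) : G ⧸ F)) ?_ ?_
    · intro k hk
      exact mem_coe.2 (mem_image_of_mem _ (mem_filter.2 ⟨mem_univ _, hf1 k hk⟩))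
    · intro k hk l hl hkl
      have h1 := (CV.mk_eq_iff F _ _).1 hkl
      rw [← hf3 k hk, ← hf3 l hl, CV.mk_eq_iff, AddSubgroup.mem_addSubgroupOf, AddSubgroup.coe_sub,
        CV.tr_coe, CV.tr_coe, hf2 k hk, hf2 l hl]
      have e : f k - (QuotientAddGroup.mk (show G from ω) : G ⧸ V).out
          - (f l - (QuotientAddGroup.mk (show G from ω) : G ⧸ V).out) = f k - f l := by abel
      rw [e]
      exact h1
  exact_mod_cast hcard

theorem entB {C : ℝ} (hC : 1 ≤ C) (htr : TR1 C) (P : G → ℝ) (hP : IsP P) (V : AddSubgroup G) {L : ℝ}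
    (hL : 4 * C ≤ L) (hT : Term L (MM.mk (CV.sec V (CV.law P hP)))) {k : ℝ}
    (hk : MM.kap (MM.mk (CV.sec V (CV.law P hP))) ≤ k) (q : ℕ) (hq : q.Prime) (F : AddSubgroup G)
    (hF : F ≤ V) (hqF : ∀ v ∈ V, q • v ∈ F) :
    Real.log (Nat.card V : ℝ) - Real.log (Nat.card F : ℝ) ≤
      3 / 2 * Real.log (ncos F P : ℝ) + 12 * C * k * Real.log q := by
  classical
  have : Fintype (V ⧸ F.addSubgroupOf V) := Fintype.ofFinite _
  have hTor : Tor (Nat.size q) (V ⧸ F.addSubgroupOf V) := by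
    refine tor_size q hq.pos fun g => ?_
    obtain ⟨v, rfl⟩ := QuotientAddGroup.mk_surjective g
    have h1 : q • (QuotientAddGroup.mk v : V ⧸ F.addSubgroupOf V) = QuotientAddGroup.mk (q • v) := rfl
    rw [h1, QuotientAddGroup.eq_zero_iff, AddSubgroup.mem_addSubgroupOf]
    exact hqF _ v.2
  have hsz : 1 ≤ Nat.size q := Nat.size_pos.2 hq.pos
  have h1 := term_bound hC htr (V ⧸ F.addSubgroupOf V) (Nat.size q) hsz hTor L hL _
    (term_quot (F.addSubgroupOf V) hT)
  have h2 := h_md_le_ncos P hP V F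
  have h3 := (dq_kap_map_le (QuotientAddGroup.mk' (F.addSubgroupOf V)) (MM.mk (CV.sec V (CV.law P hP)))).trans hk
  have h4 := size_le_log q hq.two_le
  have h5 := log_card_quot (F.addSubgroupOf V)
  have h6 : Nat.card (F.addSubgroupOf V) = Nat.card F :=
    Nat.card_congr (AddSubgroup.addSubgroupOfEquivOfLe hF).toEquiv
  rw [h5, h6] at h1
  have h7 : 0 ≤ MM.kap (MM.mapHom (QuotientAddGroup.mk' (F.addSubgroupOf V)) (MM.mk (CV.sec V (CV.law P hP)))) :=
    CV.kap_nonneg _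
  have h8 : 4 * C * (Nat.size q : ℝ) * MM.kap (MM.mapHom (QuotientAddGroup.mk' (F.addSubgroupOf V))
      (MM.mk (CV.sec V (CV.law P hP)))) ≤ 12 * C * k * Real.log q := by
    have h9 : (4 * C) * ((Nat.size q : ℝ) * MM.kap (MM.mapHom (QuotientAddGroup.mk' (F.addSubgroupOf V))
      (MM.mk (CV.sec V (CV.law P hP))))) ≤ (4 * C) * ((3 * Real.log q) * k) := by
      refine mul_le_mul_of_nonneg_left ?_ (by linarith)
      refine mul_le_mul h4 h3 h7 ?_
      have : 0 ≤ Real.log q := Real.log_nonneg (by exact_mod_cast hq.one_le)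
      linarith
    calc _ = (4 * C) * ((Nat.size q : ℝ) * MM.kap (MM.mapHom (QuotientAddGroup.mk' (F.addSubgroupOf V))
      (MM.mk (CV.sec V (CV.law P hP))))) := by ring
      _ ≤ _ := h9
      _ = _ := by ring
  linarith

end D1
end Pool.Agent.PFM
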