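import Pool.Agent.PFM.DEntB
import Pool.Agent.NPM.Bas
set_option autoImplicit false

/-!
# Section D1 (helper79): parts (a) and (c) of `Ent`, and the interface proposition
-/
namespace Pool.Agent.PFM
open Finset Pool.Agent.Ldc

namespace D1
variable {G : Type} [AddCommGroup G] [Fintype G]

/-- a large fibre of a coset piece, given the class modulo `V` and a function `g` of the translated point -/
theorem exists_fib_sec {β : Type} (P : G → ℝ) (hP : IsP P) (V : AddSubgroup G) (g : V → β) :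
    ∃ (w : G) (S : Finset V), 0 < P w ∧ S.Nonempty ∧
      CV.hc ((CV.sec V (CV.law P hP)).cond g (fun v => v)) ≤ Real.log (S.card : ℝ) ∧
      ∀ k ∈ S, ∃ x : G, 0 < P x ∧ (QuotientAddGroup.mk x : G ⧸ V) = QuotientAddGroup.mk w ∧
        g (CV.tr V x) = g (CV.tr V w) ∧ CV.tr V x = k := by
  obtain ⟨ω, hω, h1⟩ := CV.exists_fib ((CV.sec V (CV.law P hP)).cond g (fun v => v))
  refine ⟨ω, CV.fib ((CV.sec V (CV.law P hP)).cond g (fun v => v)) ω, hω,
    ⟨_, (CV.mem_fib _ ω _).2 ⟨ω, hω, rfl, rfl⟩⟩, h1, fun k hk => ?_⟩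
  obtain ⟨x, h2, h3, h4⟩ := (CV.mem_fib _ ω k).1 hk
  have h30 := Prod.ext_iff.1 h3
  exact ⟨x, h2, (Prod.ext_iff.1 h30.1).2, h30.2, h4⟩

/-- the fibre as a set of translates -/
theorem card_le_pts (P : G → ℝ) (V U : AddSubgroup G) (w : G) (S : Finset V)
    (hS : ∀ k ∈ S, ∃ x : G, 0 < P x ∧ (QuotientAddGroup.mk x : G ⧸ V) = QuotientAddGroup.mk w ∧
      ((CV.tr V x : G) - (CV.tr V w : G)) ∈ U ∧ CV.tr V x = k) :
    S.card ≤ (pts U P w).card := by
  classical
  refine Finset.card_le_card_of_injOn (fun k => (k : G) - (CV.tr V w : G)) ?_ ?_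
  · intro k hk
    obtain ⟨x, h1, h2, h3, h4⟩ := hS k hk
    rw [mem_coe]
    unfold pts
    rw [mem_filter]
    rw [h4] at h3
    refine ⟨mem_univ _, h3, ?_⟩
    have e : (k : G) - (CV.tr V w : G) = x - w := by
      rw [← h4, CV.tr_coe, CV.tr_coe, h2]
      abel
    change 0 < P (w + ((k : G) - (CV.tr V w : G)))
    rw [e, add_sub_cancel]
    exact h1
  · intro k _ l _ hkl
    exact Subtype.ext (sub_left_injective hkl)

theorem entA (P : G → ℝ) (hP : IsP P) (V : AddSubgroup G) :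
    ∃ x : G, (pts V P x).Nonempty ∧ CV.hc (CV.sec V (CV.law P hP)) ≤ Real.log ((pts V P x).card : ℝ) := by
  obtain ⟨w, S, hw, hS, h1, h2⟩ := exists_fib_sec P hP V (fun _ => ())
  have h3 : S.card ≤ (pts V P w).card := card_le_pts P V V w S fun k hk => by
    obtain ⟨x, h4, h5, _, h6⟩ := h2 k hk
    exact ⟨x, h4, h5, V.sub_mem (CV.tr V x).2 (CV.tr V w).2, h6⟩
  refine ⟨w, Finset.card_pos.1 (lt_of_lt_of_le hS.card_pos h3), ?_⟩
  rw [CV.hc_cond, CV.hc_map_const _ (fun _ : V => ()) (fun _ _ => rfl), sub_zero] at h1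
  have e1 : CV.hc ((CV.sec V (CV.law P hP)).map fun v => (v, ())) = CV.hc (CV.sec V (CV.law P hP)) :=
    CV.hc_map_inj _ _ fun x y h => (Prod.ext_iff.1 h).1
  rw [e1] at h1
  exact h1.trans (Real.log_le_log (by exact_mod_cast hS.card_pos) (by exact_mod_cast h3))

omit [Fintype G] in
theorem card_torq (V : AddSubgroup G) (q : ℕ) :
    Nat.card (torq q V) = Nat.card (nsmulAddMonoidHom (α := V) q).ker := by
  refine Nat.card_congr
    { toFun := fun x => ⟨⟨x.1, x.2.1⟩, Subtype.ext x.2.2⟩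
      invFun := fun x => ⟨x.1.1, x.1.2, congrArg Subtype.val x.2⟩
      left_inv := fun _ => rfl
      right_inv := fun _ => rfl }

theorem entC {C : ℝ} (hC : 1 ≤ C) (htr : TR1 C) (P : G → ℝ) (hP : IsP P) (V : AddSubgroup G) {L : ℝ}
    (hL : 4 * C ≤ L) (hT : Term L (MM.mk (CV.sec V (CV.law P hP)))) {k : ℝ}
    (hk : MM.kap (MM.mk (CV.sec V (CV.law P hP))) ≤ k) (q : ℕ) (hq : q.Prime) :
    ∃ x : G, (pts (torq q V) P x).Nonempty ∧
      2 / 3 * Real.log (Nat.card (torq q V) : ℝ) - 23 * C * k * Real.log q ≤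
        Real.log ((pts (torq q V) P x).card : ℝ) := by
  classical
  set B := CV.sec V (CV.law P hP) with hB
  have hsz : 1 ≤ Nat.size q := Nat.size_pos.2 hq.pos
  have h4 := size_le_log q hq.two_le
  have hk0 : 0 ≤ MM.kap (MM.mk B) := CV.kap_nonneg _
  have hlq : 0 ≤ Real.log q := Real.log_nonneg (by exact_mod_cast hq.one_le)
  -- the classes modulo `qV`
  have hTor : Tor (Nat.size q) (V ⧸ (nsmulAddMonoidHom (α := V) q).range) := by
    refine tor_size q hq.pos fun g => ?_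
    obtain ⟨v, rfl⟩ := QuotientAddGroup.mk_surjective g
    have h1 : q • (QuotientAddGroup.mk v : V ⧸ (nsmulAddMonoidHom (α := V) q).range) =
      QuotientAddGroup.mk (q • v) := rfl
    rw [h1, QuotientAddGroup.eq_zero_iff]
    exact ⟨v, rfl⟩
  have : Fintype (V ⧸ (nsmulAddMonoidHom (α := V) q).range) := Fintype.ofFinite _
  have h1 := term_bound hC htr (V ⧸ (nsmulAddMonoidHom (α := V) q).range) (Nat.size q) hsz hTor L hL _
    (term_quot (nsmulAddMonoidHom (α := V) q).range hT)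
  rw [card_quot_range, ← card_torq] at h1
  have h2 := star V q (Nat.size q) hsz (Nat.lt_size_self q) (MM.mk B)
  have h3 := (dq_kap_map_le (QuotientAddGroup.mk' (nsmulAddMonoidHom (α := V) q).range) (MM.mk B)).trans hk
  have h3' : 0 ≤ MM.kap (MM.mapHom (QuotientAddGroup.mk' (nsmulAddMonoidHom (α := V) q).range) (MM.mk B)) :=
    CV.kap_nonneg _
  -- conditioning on `q f`
  have h5 : CV.hc (B.cond (fun v => q • v) (fun v => v)) =
      MM.h (MM.mk B) - MM.h (MM.mapHom (nsmulAddMonoidHom q) (MM.mk B)) := by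
    rw [CV.hc_cond]
    have e1 : CV.hc (B.map fun v => (v, q • v)) = CV.hc B :=
      CV.hc_map_inj _ _ fun x y h => (Prod.ext_iff.1 h).1
    rw [e1]
    rfl
  obtain ⟨w, S, hw, hS, h6, hS2⟩ := exists_fib_sec P hP V (fun v => q • v)
  have hcard : S.card ≤ (pts (torq q V) P w).card :=
    card_le_pts P V (torq q V) w S fun k hk => by
      obtain ⟨x, h20, h21, h22, h23⟩ := hS2 k hk
      refine ⟨x, h20, h21, ⟨V.sub_mem (CV.tr V x).2 (CV.tr V w).2, ?_⟩, h23⟩
      change q • ((CV.tr V x : G) - (CV.tr V w : G)) = 0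
      rw [smul_sub, ← AddSubgroup.coe_nsmul, ← AddSubgroup.coe_nsmul, h22]
      exact sub_self _
  refine ⟨w, Finset.card_pos.1 (lt_of_lt_of_le hS.card_pos hcard), ?_⟩
  have h7 : Real.log (S.card : ℝ) ≤ Real.log ((pts (torq q V) P w).card : ℝ) :=
    Real.log_le_log (by exact_mod_cast hS.card_pos) (by exact_mod_cast hcard)
  set κ' := MM.kap (MM.mapHom (QuotientAddGroup.mk' (nsmulAddMonoidHom (α := V) q).range) (MM.mk B)) with hκ'
  have h8 : (Nat.size q : ℝ) * κ' ≤ (3 * Real.log q) * k := mul_le_mul h4 h3 h3' (by linarith)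
  have h9 : (Nat.size q : ℝ) * MM.kap (MM.mk B) ≤ (3 * Real.log q) * k := mul_le_mul h4 hk hk0 (by linarith)
  have hk1 : 0 ≤ k := hk0.trans hk
  have h10 : 0 ≤ Real.log q * k := mul_nonneg hlq hk1
  have h11 : 4 * C * (Nat.size q : ℝ) * κ' ≤ 12 * C * k * Real.log q := by
    have := mul_le_mul_of_nonneg_left h8 (show (0 : ℝ) ≤ 4 * C by linarith)
    nlinarith
  have h12 : 5 * (Nat.size q : ℝ) * MM.kap (MM.mk B) ≤ 15 * C * k * Real.log q := by
    have h13 : (Real.log q * k) * 1 ≤ (Real.log q * k) * C := mul_le_mul_of_nonneg_left hC h10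
    nlinarith
  have h14 : CV.hc (B.cond (fun v => q • v) (fun v => v)) ≤ Real.log ((pts (torq q V) P w).card : ℝ) :=
    h6.trans h7
  rw [h5] at h14
  linarith

/-- the interface proposition from `TR1` -/
theorem ent_main {C : ℝ} (hC : 1 ≤ C) (htr : TR1 C) : Ent (23 * C) := by
  intro G _ _ P hP k hk hdoub
  obtain ⟨V, h1, h2, h3⟩ := CV.desc (CV.law P hP) (show (0 : ℝ) < 4 * C by linarith)
  have e1 : CV.hc (CV.law P hP) = ent P := by
    have h0 : H P (fun _ : G => ()) = 0 := H_const hP _ (fun _ _ => rfl)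
    change H P (fun ω => (ω, ())) - H P (fun _ : G => ()) = ent P
    rw [h0, sub_zero, ent_eq_H]
    exact CV.H_ker _ _ _ fun ω ω' => by simp
  have e2 : CV.hc ((CV.law P hP).add (CV.law P hP)) = ent (NPM.conv P P) := by
    have h0 : H (pp P P) (fun _ : G × G => ((), ())) = 0 := H_const (pp_isP hP hP) _ (fun _ _ => rfl)
    rw [NPM.ent_conv]
    change H (pp P P) (fun ω : G × G => (ω.1 + ω.2, ((), ()))) - H (pp P P) (fun _ : G × G => ((), ())) = _
    rw [h0, sub_zero]
    exact CV.H_ker _ _ _ fun ω ω' => by simp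
  have hkap : MM.kap (MM.mk (CV.law P hP)) ≤ k := by
    rw [CV.kap_mk, e1, e2]
    exact hdoub
  have hk2 := h3.trans hkap
  refine ⟨V, ?_, ?_, ?_⟩
  · obtain ⟨x, hx1, hx2⟩ := entA P hP V
    refine ⟨x, hx1, le_trans ?_ hx2⟩
    rw [CV.hc_sec, e1]
    have h4 : 4 * C * MM.kap (MM.mk (CV.law P hP)) ≤ 4 * C * k :=
      mul_le_mul_of_nonneg_left hkap (by linarith)
    nlinarith
  · intro q hq F hF hqF
    have h5 := entB hC htr P hP V le_rfl h1 hk2 q hq F hF hqF
    have h6 : 0 ≤ Real.log q := Real.log_nonneg (by exact_mod_cast hq.one_le)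
    have h7 : 0 ≤ C * k * Real.log q := mul_nonneg (mul_nonneg (by linarith) (by linarith)) h6
    linarith
  · intro q hq
    exact entC hC htr P hP V le_rfl h1 hk2 q hq

end D1
end Pool.Agent.PFM
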