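import Pool.Agent.PFM.PCh1
set_option autoImplicit false

/-!
# PCh (size 2).  Both regimes together.

`pp_all`: combine: for `c L r ≤ 1` take `C = exp (3 c L r) ≤ 1 + 3 e^3 c L r` (convexity / `Real.exp_le..` on `[0,3]`): `C (1 + 3 T r) ≤ 1 + C₄ T r` since `L ≤ T`, `c L r ≤ 1`;
  for `c L r > 1`: `C = C_*`, `1 < c L r ≤ c T r`: `C_* (1 + 3 T r) ≤ C_* (c + 3) T r`.
-/
namespace Pool.Agent.PFM
namespace MM

theorem pp_all : ∃ C₄ r₁ : ℝ, 1 ≤ C₄ ∧ 0 < r₁ ∧ r₁ ≤ 1 ∧ ∀ (G : Type) [AddCommGroup G] [Finite G] (T : ℕ) (r : ℝ),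
    Tor T G → 1 ≤ T → 0 < r → r ≤ r₁ → ∃ C : ℝ, 1 ≤ C ∧ PP G T r C ∧ C * (1 + 3 * T * r) ≤ 1 + C₄ * T * r := by
  obtain ⟨c, hc, h2⟩ := pp_two
  obtain ⟨C, r₁, hC, hr₁, hr₁', h1⟩ := pp_one
  have he : (0 : ℝ) < Real.exp 3 := Real.exp_pos 3
  refine ⟨3 * Real.exp 3 * (c + 1) + C * (c + 3), r₁, ?_, hr₁, hr₁', ?_⟩
  · have h3 : 0 < 3 * Real.exp 3 * (c + 1) := by positivity
    nlinarith
  intro G _ _ T r hG hT hr hrr
  have hT1 : (1 : ℝ) ≤ (T : ℝ) := by exact_mod_cast hT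
  have hT0 : (0 : ℝ) < (T : ℝ) := by linarith
  have hlog0 : 0 ≤ Real.log T := Real.log_nonneg hT1
  have hL : 1 + Real.log T ≤ T := by
    have := Real.log_le_sub_one_of_pos hT0
    linarith
  have hTr : 0 < (T : ℝ) * r := mul_pos hT0 hr
  have hx : c * (1 + Real.log T) * r ≤ c * (T * r) := by
    have h3 := mul_le_mul_of_nonneg_right (mul_le_mul_of_nonneg_left hL (by linarith : (0 : ℝ) ≤ c)) hr.le
    linarith
  by_cases h : c * (1 + Real.log T) * r ≤ 1
  · refine ⟨Real.exp (3 * (c * (1 + Real.log T) * r)), ?_, h2 G T r hG hT hr h, ?_⟩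
    · exact Real.one_le_exp (by positivity)
    · set x : ℝ := c * (1 + Real.log T) * r with hxdef
      have hx0 : 0 ≤ x := by positivity
      have hE3 : Real.exp (3 * x) ≤ Real.exp 3 := Real.exp_le_exp.2 (by linarith)
      have hE1 : Real.exp (3 * x) ≤ 1 + 3 * x * Real.exp 3 := by
        have h3 : 1 - 3 * x ≤ Real.exp (-(3 * x)) := by
          have := Real.add_one_le_exp (-(3 * x))
          linarith
        have h4 : Real.exp (-(3 * x)) * Real.exp (3 * x) = 1 := by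
          rw [← Real.exp_add]; simp
        have h5 : (1 - 3 * x) * Real.exp (3 * x) ≤ 1 := by
          exact (mul_le_mul_of_nonneg_right h3 (Real.exp_pos _).le).trans h4.le
        have h6 : 3 * x * Real.exp (3 * x) ≤ 3 * x * Real.exp 3 :=
          mul_le_mul_of_nonneg_left hE3 (by linarith)
        linarith
      have h7 : Real.exp (3 * x) * (3 * (T * r)) ≤ Real.exp 3 * (3 * (T * r)) :=
        mul_le_mul_of_nonneg_right hE3 (by linarith)
      have h8 : 3 * x * Real.exp 3 ≤ 3 * (c * (T * r)) * Real.exp 3 :=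
        mul_le_mul_of_nonneg_right (by linarith) he.le
      have h9 : 0 ≤ C * (c + 3) * (T * r) := by positivity
      calc Real.exp (3 * x) * (1 + 3 * T * r)
          = Real.exp (3 * x) + Real.exp (3 * x) * (3 * (T * r)) := by ring
        _ ≤ 1 + 3 * (c * (T * r)) * Real.exp 3 + Real.exp 3 * (3 * (T * r)) := by linarith
        _ ≤ 1 + 3 * (c * (T * r)) * Real.exp 3 + Real.exp 3 * (3 * (T * r)) + C * (c + 3) * (T * r) := by
            linarith
        _ = 1 + (3 * Real.exp 3 * (c + 1) + C * (c + 3)) * T * r := by ring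
  · refine ⟨C, hC, h1 G T r hG hT hr hrr, ?_⟩
    have h3 : 1 < c * (T * r) := lt_of_lt_of_le (not_le.1 h) hx
    have h4 : C * 1 ≤ C * (c * (T * r)) := mul_le_mul_of_nonneg_left h3.le (by linarith)
    have h5 : 0 ≤ 3 * Real.exp 3 * (c + 1) * (T * r) := by positivity
    calc C * (1 + 3 * T * r) = C * 1 + 3 * C * (T * r) := by ring
      _ ≤ C * (c * (T * r)) + 3 * C * (T * r) := by linarith
      _ = C * (c + 3) * (T * r) := by ring
      _ ≤ 1 + 3 * Real.exp 3 * (c + 1) * (T * r) + C * (c + 3) * (T * r) := by linarith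
      _ = 1 + (3 * Real.exp 3 * (c + 1) + C * (c + 3)) * T * r := by ring

end MM
end Pool.Agent.PFM
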