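import Pool.Agent.PFM.PDrp
set_option autoImplicit false

/-!
# PFlg (size 3).  The flag of subgroups.
-/
namespace Pool.Agent.PFM
namespace MM

private theorem PFlg_min (s : ℕ) (e : ℕ → ℝ) (he : ∀ i ≤ s, 0 < e i) : ∃ ε : ℝ, 0 < ε ∧ ∀ i ≤ s, ε ≤ e i := by
  induction s with
  | zero => exact ⟨e 0, he 0 le_rfl, fun i hi => by rw [Nat.le_zero.1 hi]⟩
  | succ s ih =>
    obtain ⟨ε, h1, h2⟩ := ih (fun i hi => he i (hi.trans (Nat.le_succ s)))
    refine ⟨min ε (e (s + 1)), lt_min h1 (he _ le_rfl), fun i hi => ?_⟩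
    rcases Nat.lt_or_ge s i with h3 | h3
    · have : i = s + 1 := le_antisymm hi h3
      rw [this]
      exact min_le_right _ _
    · exact (min_le_left _ _).trans (h2 i h3)

theorem flag_exists (G : Type) [AddCommGroup G] [Finite G] (T s : ℕ) (ρ Cc : ℕ → ℝ)
    (hPP : ∀ i ≤ s, PP G T (ρ i) (Cc i)) (δ : ℝ) (hδ : 0 < δ) :
    ∃ ε : ℝ, 0 < ε ∧ ∀ b : ℕ → MM G, (∀ i ≤ s, Her (ρ i) ε (b i)) →
      ∃ V : ℕ → AddSubgroup G, (∀ i < s, V (i + 1) ≤ V i) ∧ (∀ i ≤ s, h (md (V i) (b i)) ≤ δ) ∧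
        Real.log (Nat.card (V s)) ≤ Cc s * h (Q T (b s)) + δ ∧
        ∀ i < s, Real.log (Nat.card (V i)) - Real.log (Nat.card (V (i + 1))) ≤
          Cc i * h (md (V (i + 1)) (Q T (b i))) + δ := by
  have h0 : ∀ i : ℕ, ∃ e : ℝ, 0 < e ∧ (i ≤ s → ∀ (V₀ : AddSubgroup G) (a : MM G), Her (ρ i) e (md V₀ a) →
    ∃ V : AddSubgroup G, V₀ ≤ V ∧ h (md V a) ≤ δ ∧
      Real.log (Nat.card V) - Real.log (Nat.card V₀) ≤ Cc i * h (md V₀ (Q T a)) + δ) := by
    intro i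
    by_cases hi : i ≤ s
    · obtain ⟨e, h1, h2⟩ := hPP i hi δ hδ
      exact ⟨e, h1, fun _ => h2⟩
    · exact ⟨1, one_pos, fun h => absurd h hi⟩
  choose e he hE using h0
  obtain ⟨ε, hε, hle⟩ := PFlg_min s e (fun i _ => he i)
  refine ⟨ε, hε, fun b hb => ?_⟩
  have step : ∀ (i : ℕ) (W : AddSubgroup G), ∃ V : AddSubgroup G, i ≤ s → W ≤ V ∧ h (md V (b i)) ≤ δ ∧
      Real.log (Nat.card V) - Real.log (Nat.card W) ≤ Cc i * h (md W (Q T (b i))) + δ := by
    intro i W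
    by_cases hi : i ≤ s
    · have h1 : Her (ρ i) (e i) (md W (b i)) := ((hb i hi).mono le_rfl (hle i hi)).map _
      obtain ⟨V, h2⟩ := hE i hi W (b i) h1
      exact ⟨V, fun _ => h2⟩
    · exact ⟨W, fun h => absurd h hi⟩
  choose F hF using step
  let U : ℕ → AddSubgroup G := fun n => Nat.rec (F s ⊥) (fun k W => F (s - (k + 1)) W) n
  have hU0 : U 0 = F s ⊥ := rfl
  have hUs : ∀ k, U (k + 1) = F (s - (k + 1)) (U k) := fun k => rfl
  refine ⟨fun i => U (s - i), ?_, ?_, ?_, ?_⟩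
  · intro i hi
    have e1 : s - i = (s - (i + 1)) + 1 := by omega
    have e2 : s - ((s - (i + 1)) + 1) = i := by omega
    show U (s - (i + 1)) ≤ U (s - i)
    rw [e1, hUs, e2]
    exact (hF i (U (s - (i + 1))) hi.le).1
  · intro i hi
    show h (md (U (s - i)) (b i)) ≤ δ
    rcases Nat.lt_or_ge i s with h1 | h1
    · have e1 : s - i = (s - (i + 1)) + 1 := by omega
      have e2 : s - ((s - (i + 1)) + 1) = i := by omega
      rw [e1, hUs, e2]
      exact (hF i (U (s - (i + 1))) hi).2.1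
    · have e1 : i = s := le_antisymm hi h1
      rw [e1, Nat.sub_self, hU0]
      exact (hF s ⊥ le_rfl).2.1
  · show Real.log (Nat.card ↥(U (s - s))) ≤ _
    rw [Nat.sub_self, hU0]
    have h2 := (hF s ⊥ le_rfl).2.2
    rw [h_md_bot] at h2
    have h3 : Nat.card (⊥ : AddSubgroup G) = 1 := by simp
    rw [h3] at h2
    simpa using h2
  · intro i hi
    have e1 : s - i = (s - (i + 1)) + 1 := by omega
    have e2 : s - ((s - (i + 1)) + 1) = i := by omega
    show Real.log (Nat.card ↥(U (s - i))) - Real.log (Nat.card ↥(U (s - (i + 1)))) ≤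
      Cc i * h (md (U (s - (i + 1))) (Q T (b i))) + δ
    rw [e1, hUs, e2]
    exact (hF i (U (s - (i + 1))) hi.le).2.2

end MM
end Pool.Agent.PFM
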