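import Pool.Agent.PFM.PSeq
import Pool.Agent.PFM.PFlg
import Pool.Agent.PFM.PCh
set_option autoImplicit false

/-!
# PFin (size 4).  TR1 with slope one, up to `δ`.

`tr1_delta`.  `C₄, r₁` from `pp_all`.  `ρ i := r₁ / 2^i`.  Given `a`, `δ`.  Choose `s` with `C₄ T ρ_s (h a + 1) ≤ δ/8`.  For `i ≤ s`: `Cc i` from `pp_all` (`PP G T (ρ i) (Cc i)`, `Cc i (1 + 3 T ρ_i) ≤ 1 + C₄ T ρ_i`).
`D := Σ_{i ≤ s} Cc i (..) `: choose `δ'` (small, positive, `≤ δ/2`) and `e` such that all error terms below are `≤ δ/2`.  `flag_exists` for `δ'` gives `ε`; `ε' := min ε e`; `seq_exists` with `ρ`, `ε i := ε'`.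
`h_i := h (b i)`, `k_i := kap (b i)`: `k_(i+1) + ρ_(i+1) (h_i - h_(i+1)) ≤ k_i`, `h_(i+1) ≤ h_i` (`RefM.h_le`); `k_0 + r₁ (h a - h_0) ≤ kap a`.
So `h a - h_0 ≤ kap a / r₁` and `Σ_{i<s} ρ_(i+1) (h_i - h_(i+1)) ≤ k_0 ≤ kap a`; `ρ_i = 2 ρ_(i+1)`.
TOP: `log |V s| ≤ Cc s h (Q T (b s)) + δ'`, `h (Q T (b s)) ≤ h_s + 3 T k_s` (`h_Q_le`), `k_s ≤ ρ_s h_s + ε'` (`Her.kap_le`): `log |V s| ≤ Cc s (1 + 3 T ρ_s) h_s + .. ≤ (1 + C₄ T ρ_s) h_s + .. ≤ h_s + δ/8 + ..`.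
STEP `i < s`: `log |V i| - log |V (i+1)| ≤ Cc i h (md W (Q T (b i))) + δ'`, `W := V (i+1)`, `md W (Q T (b i)) = Q T (md W (b i))`, `≤ h (md W (b i)) + 3 T kap (md W (b i))`, `kap (md W (b i)) ≤ ρ_i h (md W (b i)) + ε'` (`Her.map`),
 and `h (md W (b i)) ≤ h_i - h_(i+1) + h (md W (b (i+1))) ≤ h_i - h_(i+1) + δ'` (`RefM.drop_md`).  So it is `≤ (1 + C₄ T ρ_i) (h_i - h_(i+1) + δ') + Cc i 3 T ε' + δ'`.
SUM: `log |V 0| ≤ h_0 + C₄ T Σ ρ_i (h_i - h_(i+1)) + δ ≤ h a + 2 C₄ T kap a + δ`.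
FIRST BOUND: `h (md (V 0) a) ≤ h a - h_0 + h (md (V 0) (b 0)) ≤ kap a / r₁ + δ'` (`RefM.drop_md`).  `C := max (1/r₁) (2 C₄)`.
-/
namespace Pool.Agent.PFM
namespace MM

private theorem PFin_one {Cc C₄ T ρ m q κ ε D : ℝ} (h1 : 1 ≤ Cc) (h2 : Cc * (1 + 3 * T * ρ) ≤ 1 + C₄ * T * ρ)
    (hm : 0 ≤ m) (hq : q ≤ m + 3 * T * κ) (hκ : κ ≤ ρ * m + ε) (hT : 0 ≤ T) (hε : 0 ≤ ε)
    (hD : Cc ≤ D) : Cc * q ≤ (1 + C₄ * T * ρ) * m + 3 * T * D * ε := by
  have h3 : q ≤ (1 + 3 * T * ρ) * m + 3 * T * ε := by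
    have := mul_le_mul_of_nonneg_left hκ (by positivity : 0 ≤ 3 * T)
    linarith
  have h4 : Cc * q ≤ Cc * ((1 + 3 * T * ρ) * m + 3 * T * ε) :=
    mul_le_mul_of_nonneg_left h3 (by linarith)
  have h5 : Cc * (1 + 3 * T * ρ) * m ≤ (1 + C₄ * T * ρ) * m := mul_le_mul_of_nonneg_right h2 hm
  have h6 : Cc * (3 * T * ε) ≤ D * (3 * T * ε) := mul_le_mul_of_nonneg_right hD (by positivity)
  linarith

private theorem PFin_sum {s : ℕ} {hh k L ρ : ℕ → ℝ} {c E x : ℝ} (hc : 0 ≤ c)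
    (top : L s ≤ hh s + x + E)
    (step : ∀ i < s, L i - L (i + 1) ≤ (hh i - hh (i + 1)) + c * ρ i * (hh i - hh (i + 1)) + E)
    (h3 : ∀ i, k (i + 1) + ρ (i + 1) * (hh i - hh (i + 1)) ≤ k i)
    (h4 : ∀ i, ρ i = 2 * ρ (i + 1)) :
    L 0 ≤ hh 0 + 2 * c * (k 0 - k s) + x + (s + 1) * E := by
  have h5 : ∀ i ∈ Finset.range s,
      L i - L (i + 1) ≤ (hh i - hh (i + 1)) + 2 * c * (k i - k (i + 1)) + E := by
    intro i hi
    have h6 := step i (Finset.mem_range.1 hi)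
    have h7 : c * ρ i * (hh i - hh (i + 1)) ≤ 2 * c * (k i - k (i + 1)) := by
      rw [h4 i]
      have h8 := mul_le_mul_of_nonneg_left (h3 i) (by linarith : 0 ≤ 2 * c)
      linarith
    linarith
  have h6 := Finset.sum_le_sum h5
  rw [Finset.sum_range_sub', Finset.sum_add_distrib, Finset.sum_add_distrib,
    Finset.sum_range_sub', ← Finset.mul_sum, Finset.sum_range_sub', Finset.sum_const,
    Finset.card_range, nsmul_eq_mul] at h6
  linarith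

theorem tr1_delta : ∃ C : ℝ, 1 ≤ C ∧ ∀ (G : Type) [AddCommGroup G] [Finite G] (T : ℕ), Tor T G → 1 ≤ T →
    ∀ (a : MM G) (δ : ℝ), 0 < δ → ∃ V : AddSubgroup G, h (md V a) ≤ C * kap a + δ ∧
      Real.log (Nat.card V) ≤ h a + C * T * kap a + δ := by
  obtain ⟨C₄, r₁, hC4, hr0, hr1, Hpp⟩ := pp_all
  refine ⟨1 / r₁ + 2 * C₄, ?_, ?_⟩
  · have : 0 < 1 / r₁ := by positivity
    linarith
  intro G _ _ T hTor hT a δ hδ
  obtain ⟨ρ, hρ⟩ : ∃ ρ : ℕ → ℝ, ∀ i, ρ i = r₁ / 2 ^ i := ⟨fun i => r₁ / 2 ^ i, fun _ => rfl⟩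
  have hρ0 : ∀ i, 0 < ρ i := fun i => by rw [hρ]; positivity
  have hρ1 : ∀ i, ρ i ≤ r₁ := fun i => by
    rw [hρ]
    exact div_le_self hr0.le (one_le_pow₀ (by norm_num))
  have hρ2 : ∀ i, ρ i = 2 * ρ (i + 1) := fun i => by
    rw [hρ, hρ, pow_succ]
    field_simp
  have hρz : ρ 0 = r₁ := by rw [hρ]; simp
  have hpp : ∀ i, ∃ C : ℝ, 1 ≤ C ∧ PP G T (ρ i) C ∧ C * (1 + 3 * T * ρ i) ≤ 1 + C₄ * T * ρ i :=
    fun i => Hpp G T (ρ i) hTor hT (hρ0 i) (hρ1 i)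
  choose Cc hCc1 hCcP hCcI using hpp
  have hT1 : (1 : ℝ) ≤ T := by exact_mod_cast hT
  have hT0 : (0 : ℝ) ≤ T := by linarith
  have hha : 0 ≤ h a := h_nonneg a
  have hka : 0 ≤ kap a := kap_nonneg a
  obtain ⟨s, hs⟩ : ∃ s : ℕ, C₄ * T * ρ s * (h a + 1) ≤ δ / 8 := by
    have hX : 0 < C₄ * T * r₁ * (h a + 1) := by positivity
    have hpos : 0 < δ / (8 * (C₄ * T * r₁ * (h a + 1))) := by positivity
    obtain ⟨s, hs⟩ := exists_pow_lt_of_lt_one hpos (by norm_num : (1 / 2 : ℝ) < 1)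
    refine ⟨s, ?_⟩
    rw [lt_div_iff₀ (by positivity)] at hs
    have e : C₄ * T * ρ s * (h a + 1) = (1 / 2 : ℝ) ^ s * (C₄ * T * r₁ * (h a + 1)) := by
      rw [hρ, one_div, inv_pow]
      field_simp
    rw [e]
    linarith
  obtain ⟨D, hDdef⟩ : ∃ D : ℝ, D = ∑ i ∈ Finset.range (s + 1), Cc i := ⟨_, rfl⟩
  have hD : ∀ i ≤ s, Cc i ≤ D := by
    intro i hi
    rw [hDdef]
    exact Finset.single_le_sum (f := Cc) (fun j _ => by linarith [hCc1 j])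
      (Finset.mem_range.2 (by omega))
  have hD0 : 0 ≤ D := by linarith [hD s le_rfl, hCc1 s]
  have hs0 : (0 : ℝ) ≤ s := Nat.cast_nonneg s
  have hCT : 0 < 2 + C₄ * T := by positivity
  obtain ⟨δ', hδ'⟩ : ∃ δ' : ℝ, δ' = δ / (4 * (s + 1) * (2 + C₄ * T)) := ⟨_, rfl⟩
  have hδ'0 : 0 < δ' := by rw [hδ']; positivity
  have hδ'1 : (s + 1) * ((2 + C₄ * T) * δ') ≤ δ / 4 := by
    rw [hδ']
    apply le_of_eq
    field_simp
  obtain ⟨ε, hε, Hfl⟩ := flag_exists G T s ρ Cc (fun i _ => hCcP i) δ' hδ'0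
  obtain ⟨ε', hε'⟩ : ∃ ε' : ℝ, ε' = min ε (δ / (4 * (s + 1) * (3 * T * D + 1))) := ⟨_, rfl⟩
  have hε'0 : 0 < ε' := by
    rw [hε']
    exact lt_min hε (by positivity)
  have hε'1 : (s + 1) * (3 * T * D * ε') ≤ δ / 4 := by
    have h1 : ε' ≤ δ / (4 * (s + 1) * (3 * T * D + 1)) := by rw [hε']; exact min_le_right _ _
    rw [le_div_iff₀ (by positivity)] at h1
    have h2 : 0 ≤ (s + 1) * ε' := by positivity
    nlinarith
  obtain ⟨b, hb0, hbs, hbH, hbk0, hbk⟩ := seq_exists G a ρ (fun _ => ε') hρ0 (fun _ => hε'0)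
  obtain ⟨V, hV1, hV2, hV3, hV4⟩ := Hfl b (fun i _ => (hbH i).mono le_rfl (by rw [hε']; exact min_le_left _ _))
  have hr : r₁ * (h a - h (b 0)) ≤ kap a := by
    rw [hρz] at hbk0
    have := kap_nonneg (b 0)
    linarith
  have hk0 : kap (b 0) ≤ kap a := by
    rw [hρz] at hbk0
    have h1 : h (b 0) ≤ h a := hb0.h_le
    have := mul_nonneg hr0.le (sub_nonneg.2 h1)
    linarith
  have hba : ∀ i, h (b i) ≤ h a := by
    intro i
    induction i with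
    | zero => exact hb0.h_le
    | succ i ih => exact (hbs i).h_le.trans ih
  have hb0n : ∀ i, 0 ≤ h (b i) := fun i => h_nonneg _
  have hdec : ∀ i, h (b (i + 1)) ≤ h (b i) := fun i => (hbs i).h_le
  refine ⟨V 0, ?_, ?_⟩
  · have h1 := hb0.drop_md (V 0)
    have h2 := hV2 0 (Nat.zero_le s)
    have h3 : h a - h (b 0) ≤ 1 / r₁ * kap a := by
      rw [one_div, ← div_eq_inv_mul, le_div_iff₀ hr0]
      linarith
    have h4 : 0 ≤ 2 * C₄ * kap a := by positivity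
    have h5 : δ' ≤ δ := by
      have h6 : 1 * δ' ≤ (s + 1) * ((2 + C₄ * T) * δ') := by
        rw [← mul_assoc]
        refine mul_le_mul_of_nonneg_right ?_ hδ'0.le
        have : 0 ≤ C₄ * T := by positivity
        nlinarith
      linarith
    linarith
  · obtain ⟨E, hE⟩ : ∃ E : ℝ, E = (2 + C₄ * T) * δ' + 3 * T * D * ε' := ⟨_, rfl⟩
    have hE1 : (s + 1) * E ≤ δ / 2 := by
      rw [hE]
      linarith
    have top : Real.log (Nat.card (V s)) ≤ h (b s) + δ / 8 + E := by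
      have h1 := PFin_one (hCc1 s) (hCcI s) (hb0n s) (h_Q_le T (b s)) (hbH s).kap_le hT0
        hε'0.le (hD s le_rfl)
      have h2 : C₄ * T * ρ s * h (b s) ≤ δ / 8 := by
        have h3 : 0 ≤ C₄ * T * ρ s := by have := hρ0 s; positivity
        have h4 := mul_le_mul_of_nonneg_left (hba s) h3
        linarith
      have h5 : δ' ≤ (2 + C₄ * T) * δ' := by
        have : 0 ≤ C₄ * T * δ' := by positivity
        linarith
      linarith
    have step : ∀ i < s, Real.log (Nat.card (V i)) - Real.log (Nat.card (V (i + 1))) ≤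
        (h (b i) - h (b (i + 1))) + C₄ * T * ρ i * (h (b i) - h (b (i + 1))) + E := by
      intro i hi
      have e1 : md (V (i + 1)) (Q T (b i)) = Q T (md (V (i + 1)) (b i)) := mapHom_Q _ _ _
      have h0 := hV4 i hi
      have h1 := PFin_one (hCc1 i) (hCcI i) (h_nonneg (md (V (i + 1)) (b i)))
        (h_Q_le T (md (V (i + 1)) (b i)))
        ((hbH i).map (QuotientAddGroup.mk' (V (i + 1)))).kap_le hT0 hε'0.le (hD i hi.le)
      rw [← e1] at h1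
      have h2 := (hbs i).drop_md (V (i + 1))
      have h3 := hV2 (i + 1) hi
      have h4 : h (md (V (i + 1)) (b i)) ≤ h (b i) - h (b (i + 1)) + δ' := by linarith
      have h5 : 0 ≤ 1 + C₄ * T * ρ i := by have := hρ0 i; positivity
      have h6 := mul_le_mul_of_nonneg_left h4 h5
      have h7 : C₄ * T * ρ i * δ' ≤ C₄ * T * δ' := by
        have h8 : ρ i ≤ 1 := (hρ1 i).trans hr1
        have h9 : 0 ≤ C₄ * T * δ' := by positivity
        nlinarith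
      linarith
    have h3 : ∀ i, kap (b (i + 1)) + ρ (i + 1) * (h (b i) - h (b (i + 1))) ≤ kap (b i) := by
      intro i
      have := hbk i
      linarith
    have key := PFin_sum (s := s) (hh := fun i => h (b i)) (k := fun i => kap (b i))
      (L := fun i => Real.log (Nat.card (V i))) (ρ := ρ) (c := C₄ * T) (E := E) (x := δ / 8)
      (by positivity) top step h3 hρ2
    have h4 := kap_nonneg (b s)
    have h5 : 2 * (C₄ * T) * (kap (b 0) - kap (b s)) ≤ 2 * (C₄ * T) * kap a :=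
      mul_le_mul_of_nonneg_left (by linarith) (by positivity)
    have h6 : 0 ≤ 1 / r₁ * T * kap a := by positivity
    have h7 := hba 0
    have h8 : (1 / r₁ + 2 * C₄) * T * kap a = 1 / r₁ * T * kap a + 2 * (C₄ * T) * kap a := by ring
    rw [h8]
    linarith

end MM
end Pool.Agent.PFM
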