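import Pool.Agent.PFM.DEntC
import Pool.Agent.PFM.PFin
set_option autoImplicit false

/-!
# Section D1 (helper79): `TR1` from its `δ`-version, and `Ent`
-/
namespace Pool.Agent.PFM
open Finset Pool.Agent.Ldc

namespace D1

theorem tr1_exact : ∃ C : ℝ, 1 ≤ C ∧ TR1 C := by
  classical
  obtain ⟨C, hC, h⟩ := MM.tr1_delta
  refine ⟨C, hC, ?_⟩
  intro E _ _ T hT hE a
  by_contra hcon
  push Not at hcon
  let g : AddSubgroup E → ℝ := fun W =>
    max (MM.h (MM.mapHom (QuotientAddGroup.mk' W) a) - C * MM.kap a)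
      (Real.log (Nat.card W) - (MM.h a + C * T * MM.kap a))
  have hg : ∀ W, 0 < g W := by
    intro W
    by_cases h1 : MM.h (MM.mapHom (QuotientAddGroup.mk' W) a) ≤ C * MM.kap a
    · have h2 := hcon W h1
      have h3 := MM.h_nonneg a
      exact lt_of_lt_of_le (by linarith) (le_max_right _ _)
    · exact lt_of_lt_of_le (by linarith) (le_max_left _ _)
  obtain ⟨W0, _, hW0⟩ := Finset.exists_min_image (Finset.univ : Finset (AddSubgroup E)) g ⟨⊥, mem_univ _⟩
  obtain ⟨V, h1, h2⟩ := h E T hE hT a (g W0 / 2) (half_pos (hg W0))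
  have h3 := hW0 V (mem_univ _)
  have h4 : g V ≤ g W0 / 2 := by
    refine max_le ?_ ?_
    · change MM.h (MM.mapHom (QuotientAddGroup.mk' V) a) ≤ C * MM.kap a + g W0 / 2 at h1
      linarith
    · linarith
  have h5 := hg W0
  linarith

/-- the interface proposition of helper4 -/
theorem ent_main_all : ∃ C : ℝ, 0 < C ∧ Ent C := by
  obtain ⟨C, hC, h⟩ := tr1_exact
  exact ⟨23 * C, by linarith, ent_main hC h⟩

end D1
end Pool.Agent.PFM
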