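import Pool.Agent.PFM.DTerm
set_option autoImplicit false

/-!
# Section D1 (helper79): quotients of terminated variables, cardinalities
-/
namespace Pool.Agent.PFM
open Finset Pool.Agent.Ldc

namespace D1
variable {E : Type} [AddCommGroup E]

theorem h_quot_quot (W : AddSubgroup E) (U : AddSubgroup (E ⧸ W)) (a : MM E) :
    MM.h (MM.mapHom (QuotientAddGroup.mk' U) (MM.mapHom (QuotientAddGroup.mk' W) a)) =
      MM.h (MM.mapHom (QuotientAddGroup.mk' (U.comap (QuotientAddGroup.mk' W))) a) := by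
  induction a using MM.ind with | h A => ?_
  change CV.hc (A.map fun x => (QuotientAddGroup.mk (QuotientAddGroup.mk x : E ⧸ W) : (E ⧸ W) ⧸ U)) =
    CV.hc (A.map fun x => (QuotientAddGroup.mk x : E ⧸ U.comap (QuotientAddGroup.mk' W)))
  refine CV.hc_map_congr _ _ _ fun x y => ?_
  rw [CV.mk_eq_iff, CV.mk_eq_iff]
  rfl

theorem kap_quot_quot (W : AddSubgroup E) (U : AddSubgroup (E ⧸ W)) (a : MM E) :
    MM.kap (MM.mapHom (QuotientAddGroup.mk' U) (MM.mapHom (QuotientAddGroup.mk' W) a)) =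
      MM.kap (MM.mapHom (QuotientAddGroup.mk' (U.comap (QuotientAddGroup.mk' W))) a) := by
  unfold MM.kap
  rw [← map_nsmul, ← map_nsmul, ← map_nsmul, h_quot_quot, h_quot_quot]

theorem term_quot {L : ℝ} {a : MM E} (W : AddSubgroup E) (ha : Term L a) :
    Term L (MM.mapHom (QuotientAddGroup.mk' W) a) := by
  intro U hU
  rw [kap_quot_quot, h_quot_quot]
  refine ha _ fun h => hU ?_
  rw [eq_top_iff]
  intro x _
  obtain ⟨y, rfl⟩ := QuotientAddGroup.mk_surjective x
  have hy : y ∈ U.comap (QuotientAddGroup.mk' W) := by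
    rw [h]
    trivial
  exact hy

theorem dq_kap_map_le {K : Type} [AddCommGroup K] (φ : E →+ K) (a : MM E) :
    MM.kap (MM.mapHom φ a) ≤ MM.kap a := by
  unfold MM.kap
  rw [← map_nsmul, two_nsmul]
  exact MM.h_map_incr a a φ

/-- `log |E / W| = log |E| - log |W|` -/
theorem log_card_quot [Finite E] (W : AddSubgroup E) :
    Real.log (Nat.card (E ⧸ W) : ℝ) = Real.log (Nat.card E : ℝ) - Real.log (Nat.card W : ℝ) := by
  have h := AddSubgroup.card_eq_card_quotient_mul_card_addSubgroup W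
  have h1 : (Nat.card (E ⧸ W) : ℝ) ≠ 0 := by
    have : 0 < Nat.card (E ⧸ W) := Nat.card_pos
    exact_mod_cast this.ne'
  have h2 : (Nat.card W : ℝ) ≠ 0 := by
    have : 0 < Nat.card W := Nat.card_pos
    exact_mod_cast this.ne'
  rw [h, Nat.cast_mul, Real.log_mul h1 h2]
  ring

/-- `|E / qE| = |E[q]|` -/
theorem card_quot_range [Finite E] (φ : E →+ E) :
    Nat.card (E ⧸ φ.range) = Nat.card φ.ker := by
  have h1 := AddSubgroup.card_eq_card_quotient_mul_card_addSubgroup φ.range
  have h2 := AddSubgroup.card_eq_card_quotient_mul_card_addSubgroup φ.ker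
  have h3 : Nat.card (E ⧸ φ.ker) = Nat.card φ.range :=
    Nat.card_congr (QuotientAddGroup.quotientKerEquivRange φ).toEquiv
  rw [h3] at h2
  have h4 : 0 < Nat.card φ.range := Nat.card_pos
  rw [h2, mul_comm] at h1
  exact (Nat.eq_of_mul_eq_mul_right h4 h1).symm

theorem tor_size (q : ℕ) (hq : 0 < q) (hE : ∀ g : E, q • g = 0) : Tor (Nat.size q) E :=
  ⟨q, hq, (Nat.lt_size_self q).le, hE⟩

theorem size_le_log (q : ℕ) (hq : 2 ≤ q) : (Nat.size q : ℝ) ≤ 3 * Real.log q := by
  have h1 : 2 ^ (Nat.size q - 1) ≤ q := by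
    have h2 : Nat.size q - 1 < Nat.size q := by
      have : 0 < Nat.size q := Nat.size_pos.2 (by omega)
      omega
    exact Nat.lt_size.1 h2
  have h3 : ((Nat.size q - 1 : ℕ) : ℝ) * Real.log 2 ≤ Real.log q := by
    have h4 : ((2 : ℝ) ^ (Nat.size q - 1)) ≤ q := by exact_mod_cast h1
    have h5 := Real.log_le_log (by positivity) h4
    rwa [Real.log_pow] at h5
  have h6 : (0.6931471803 : ℝ) < Real.log 2 := Real.log_two_gt_d9
  have h7 : Real.log 2 ≤ Real.log q := Real.log_le_log (by norm_num) (by exact_mod_cast hq)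
  have h8 : 1 ≤ Nat.size q := Nat.size_pos.2 (by omega)
  rw [Nat.cast_sub h8, Nat.cast_one] at h3
  have h9 : (1 : ℝ) ≤ Nat.size q := by exact_mod_cast h8
  nlinarith

end D1
end Pool.Agent.PFM
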