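import Pool.Agent.PFM.Ref
set_option autoImplicit false

/-!
# Section D1 (helper79): a conditional variable cut into the cosets of a subgroup `V`, translated to `V`
-/
namespace Pool.Agent.PFM
open Finset Pool.Agent.Ldc

namespace CV
variable {G : Type} [AddCommGroup G]

theorem sub_out_mem (V : AddSubgroup G) (g : G) : g - (QuotientAddGroup.mk g : G ⧸ V).out ∈ V := by
  have h : (QuotientAddGroup.mk ((QuotientAddGroup.mk g : G ⧸ V).out) : G ⧸ V) = QuotientAddGroup.mk g :=
    Quotient.out_eq _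
  have h2 := QuotientAddGroup.eq.1 h
  have e : g - (QuotientAddGroup.mk g : G ⧸ V).out = -(QuotientAddGroup.mk g : G ⧸ V).out + g := by abel
  rw [e]
  exact h2

/-- translation of a coset of `V` to `V` -/
noncomputable def tr (V : AddSubgroup G) (g : G) : V := ⟨g - (QuotientAddGroup.mk g : G ⧸ V).out, sub_out_mem V g⟩

theorem tr_coe (V : AddSubgroup G) (g : G) : (tr V g : G) = g - (QuotientAddGroup.mk g : G ⧸ V).out := rfl

/-- `A` conditioned on its class modulo `V`, translated to `V` -/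
noncomputable def sec (V : AddSubgroup G) (A : CV G) : CV V :=
  A.cond (fun g => (QuotientAddGroup.mk g : G ⧸ V)) (tr V)

theorem mk_eq_iff (V : AddSubgroup G) (x y : G) :
    (QuotientAddGroup.mk x : G ⧸ V) = QuotientAddGroup.mk y ↔ x - y ∈ V := by
  rw [QuotientAddGroup.eq]
  constructor
  · intro h
    have := V.neg_mem h
    have e : -(-x + y) = x - y := by abel
    rwa [e] at this
  · intro h
    have := V.neg_mem h
    have e : -(x - y) = -x + y := by abel
    rwa [e] at this

theorem hc_sec (V : AddSubgroup G) (A : CV G) :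
    hc (sec V A) = hc A - hc (A.map fun g => (QuotientAddGroup.mk g : G ⧸ V)) := by
  unfold sec
  rw [hc_cond]
  congr 1
  refine hc_map_inj _ _ fun x y h => ?_
  simp only [Prod.mk.injEq] at h
  have h1 : (tr V x : G) = tr V y := by rw [h.1]
  rw [tr_coe, tr_coe, h.2] at h1
  exact sub_left_injective h1

theorem hc_sec_map {K : Type} (V : AddSubgroup G) (A : CV G) (φ : V → K) :
    hc ((sec V A).map φ) = hc (A.map fun g => (φ (tr V g), (QuotientAddGroup.mk g : G ⧸ V))) -
      hc (A.map fun g => (QuotientAddGroup.mk g : G ⧸ V)) := by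
  have e : (sec V A).map φ = A.cond (fun g => (QuotientAddGroup.mk g : G ⧸ V)) (fun g => φ (tr V g)) := rfl
  rw [e, hc_cond]

theorem hc_sec_add_map {K : Type} (V : AddSubgroup G) (A : CV G) (φ : V → K) :
    hc (((sec V A).add (sec V A)).map φ) =
      hc ((A.pair A).map fun x => (φ (tr V x.1 + tr V x.2),
        ((QuotientAddGroup.mk x.1 : G ⧸ V), (QuotientAddGroup.mk x.2 : G ⧸ V)))) -
      2 * hc (A.map fun g => (QuotientAddGroup.mk g : G ⧸ V)) := by
  have e1 := (iso_cond_pair A A (fun g => (QuotientAddGroup.mk g : G ⧸ V))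
    (fun g => (QuotientAddGroup.mk g : G ⧸ V)) (tr V) (tr V)).map (fun x : V × V => φ (x.1 + x.2))
  have e2 := e1.hc_eq
  have e3 : ((sec V A).add (sec V A)).map φ
      = ((A.cond (fun g => (QuotientAddGroup.mk g : G ⧸ V)) (tr V)).pair
        (A.cond (fun g => (QuotientAddGroup.mk g : G ⧸ V)) (tr V))).map
          (fun x : V × V => φ (x.1 + x.2)) := rfl
  rw [e3, e2]
  have e4 : ((A.pair A).cond (fun x => ((QuotientAddGroup.mk x.1 : G ⧸ V), (QuotientAddGroup.mk x.2 : G ⧸ V)))
      (fun x => (tr V x.1, tr V x.2))).map (fun x : V × V => φ (x.1 + x.2))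
      = (A.pair A).cond (fun x => ((QuotientAddGroup.mk x.1 : G ⧸ V), (QuotientAddGroup.mk x.2 : G ⧸ V)))
        (fun x => φ (tr V x.1 + tr V x.2)) := rfl
  rw [e4, hc_cond]
  congr 1
  have e5 : (A.pair A).map (fun x => ((QuotientAddGroup.mk x.1 : G ⧸ V), (QuotientAddGroup.mk x.2 : G ⧸ V)))
      = (A.map fun g => (QuotientAddGroup.mk g : G ⧸ V)).pair
        (A.map fun g => (QuotientAddGroup.mk g : G ⧸ V)) := rfl
  rw [e5, hc_pair]
  ring

/-- entropy of the class of a coset piece modulo a smaller subgroup -/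
theorem hc_sec_md (V : AddSubgroup G) (W : AddSubgroup V) (A : CV G) :
    hc ((sec V A).map fun v => (QuotientAddGroup.mk v : V ⧸ W)) =
      hc (A.map fun g => (QuotientAddGroup.mk g : G ⧸ W.map V.subtype)) -
        hc (A.map fun g => (QuotientAddGroup.mk g : G ⧸ V)) := by
  rw [hc_sec_map]
  congr 1
  refine hc_map_congr _ _ _ fun x y => ?_
  rw [Prod.mk.injEq, mk_eq_iff, mk_eq_iff, mk_eq_iff]
  constructor
  · rintro ⟨h1, h2⟩
    refine ⟨tr V x - tr V y, h1, ?_⟩
    have h3 := (mk_eq_iff V x y).2 h2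
    change ((tr V x - tr V y : V) : G) = x - y
    rw [AddSubgroup.coe_sub, tr_coe, tr_coe, h3]
    abel
  · rintro ⟨w, hw, hwx⟩
    have hxy : x - y ∈ V := by
      rw [← hwx]
      exact w.2
    refine ⟨?_, hxy⟩
    have h3 := (mk_eq_iff V x y).2 hxy
    have e : tr V x - tr V y = w := by
      apply Subtype.ext
      rw [AddSubgroup.coe_sub, tr_coe, tr_coe, h3]
      have : (w : G) = x - y := hwx
      rw [this]
      abel
    rw [e]
    exact hw

/-- entropy of the sum of two copies of a coset piece -/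
theorem hc_sec_add (V : AddSubgroup G) (A : CV G) :
    hc ((sec V A).add (sec V A)) =
      hc ((A.pair A).map fun x => (x.1 + x.2,
        ((QuotientAddGroup.mk x.1 : G ⧸ V), (QuotientAddGroup.mk x.2 : G ⧸ V)))) -
      2 * hc (A.map fun g => (QuotientAddGroup.mk g : G ⧸ V)) := by
  have e0 := hc_sec_add_map V A (fun v => v)
  have e1 : ((sec V A).add (sec V A)).map (fun v => v) = (sec V A).add (sec V A) := rfl
  rw [e1] at e0
  rw [e0]
  congr 1
  refine hc_map_congr _ _ _ fun x y => ?_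
  simp only [Prod.mk.injEq]
  constructor
  · rintro ⟨h1, h2, h3⟩
    refine ⟨?_, h2, h3⟩
    have h4 : ((tr V x.1 + tr V x.2 : V) : G) = ((tr V y.1 + tr V y.2 : V) : G) := by rw [h1]
    rw [AddSubgroup.coe_add, AddSubgroup.coe_add, tr_coe, tr_coe, tr_coe, tr_coe, h2, h3] at h4
    have h5 : x.1 + x.2 = (x.1 - (QuotientAddGroup.mk y.1 : G ⧸ V).out
        + (x.2 - (QuotientAddGroup.mk y.2 : G ⧸ V).out)) + (QuotientAddGroup.mk y.1 : G ⧸ V).out
        + (QuotientAddGroup.mk y.2 : G ⧸ V).out := by abel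
    rw [h5, h4]
    abel
  · rintro ⟨h1, h2, h3⟩
    refine ⟨?_, h2, h3⟩
    apply Subtype.ext
    rw [AddSubgroup.coe_add, AddSubgroup.coe_add, tr_coe, tr_coe, tr_coe, tr_coe, h2, h3]
    have h5 : x.1 - (QuotientAddGroup.mk y.1 : G ⧸ V).out + (x.2 - (QuotientAddGroup.mk y.2 : G ⧸ V).out)
        = (x.1 + x.2) - (QuotientAddGroup.mk y.1 : G ⧸ V).out - (QuotientAddGroup.mk y.2 : G ⧸ V).out := by abel
    rw [h5, h1]
    abel

/-- entropy of the class of the sum of two copies of a coset piece -/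
theorem hc_sec_add_md (V : AddSubgroup G) (W : AddSubgroup V) (A : CV G) :
    hc (((sec V A).add (sec V A)).map fun v => (QuotientAddGroup.mk v : V ⧸ W)) =
      hc ((A.pair A).map fun x => ((QuotientAddGroup.mk (x.1 + x.2) : G ⧸ W.map V.subtype),
        ((QuotientAddGroup.mk x.1 : G ⧸ V), (QuotientAddGroup.mk x.2 : G ⧸ V)))) -
      2 * hc (A.map fun g => (QuotientAddGroup.mk g : G ⧸ V)) := by
  rw [hc_sec_add_map]
  congr 1
  refine hc_map_congr _ _ _ fun x y => ?_
  simp only [Prod.mk.injEq]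
  constructor
  · rintro ⟨h1, h2, h3⟩
    refine ⟨?_, h2, h3⟩
    rw [mk_eq_iff] at h1 ⊢
    refine ⟨_, h1, ?_⟩
    change (((tr V x.1 + tr V x.2) - (tr V y.1 + tr V y.2) : V) : G) = x.1 + x.2 - (y.1 + y.2)
    rw [AddSubgroup.coe_sub, AddSubgroup.coe_add, AddSubgroup.coe_add, tr_coe, tr_coe, tr_coe, tr_coe, h2, h3]
    abel
  · rintro ⟨h1, h2, h3⟩
    refine ⟨?_, h2, h3⟩
    rw [mk_eq_iff] at h1 ⊢
    obtain ⟨w, hw, hwx⟩ := h1
    have e : (tr V x.1 + tr V x.2) - (tr V y.1 + tr V y.2) = w := by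
      apply Subtype.ext
      rw [AddSubgroup.coe_sub, AddSubgroup.coe_add, AddSubgroup.coe_add, tr_coe, tr_coe, tr_coe, tr_coe, h2, h3]
      have : (w : G) = x.1 + x.2 - (y.1 + y.2) := hwx
      rw [this]
      abel
    rw [e]
    exact hw

end CV
end Pool.Agent.PFM
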