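import Pool.Agent.PFM.Hd
import Pool.Agent.PFM.D1If
set_option autoImplicit false

/-!
# Section D1c (helper33): the star inequality and the bound for `Q T a`

`h (a mod W) + h (q a) ≤ h (a + q a') ≤ h a + 4 T κ(a)` for `1 ≤ T`, `q < 2^T` and `W ≥ q G`.
-/
namespace Pool.Agent.PFM
open Finset Pool.Agent.Ldc

namespace D1
open MM
variable {G K L : Type}

theorem st_kap_nonneg [AddCommGroup G] (a : MM G) : 0 ≤ kap a := by
  unfold kap
  rw [two_nsmul]
  have := h_le_add a a
  linarith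

theorem kap_eq [AddCommGroup G] (a : MM G) : h (a + a) = h a + kap a := by
  unfold kap
  rw [two_nsmul]
  ring

/-- `κ` decreases under homomorphisms -/
theorem kap_map_le [AddCommGroup G] [AddCommGroup K] (φ : G →+ K) (a : MM G) :
    kap (mapHom φ a) ≤ kap a := by
  have := h_map_incr a a φ
  unfold kap
  rw [two_nsmul, two_nsmul, ← map_add]
  exact this

theorem kap_map_inj [AddCommGroup G] [AddCommGroup K] (φ : G →+ K) (hφ : Function.Injective φ)
    (a : MM G) : kap (mapHom φ a) = kap a := by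
  unfold kap
  rw [← map_nsmul, h_map_inj φ hφ, h_map_inj φ hφ]

theorem h_map_zero [AddCommGroup G] [AddCommGroup K] (a : MM G) : h (mapHom (0 : G →+ K) a) = 0 := by
  induction a using ind with | h A => ?_
  exact CV.hc_map_const A _ (fun _ _ => rfl)

/-- iterated splitting lemma -/
theorem h_split_sum [AddCommGroup G] [AddCommGroup K] {ι : Type} (s : Finset ι) (n : ι → MM K)
    (φ : ι → G →+ K) (a : MM G) :
    h (∑ i ∈ s, n i + mapHom (∑ i ∈ s, φ i) a) - h (∑ i ∈ s, n i) ≤
      ∑ i ∈ s, (h (n i + mapHom (φ i) a) - h (n i)) := by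
  classical
  induction s using Finset.induction_on with
  | empty =>
    rw [Finset.sum_empty, Finset.sum_empty, Finset.sum_empty, zero_add, h_map_zero, h_zero, sub_zero]
  | insert i s hi ih =>
    rw [Finset.sum_insert hi, Finset.sum_insert hi, Finset.sum_insert hi]
    have := h_split (n i) (∑ i ∈ s, n i) a (φ i) (∑ i ∈ s, φ i)
    linarith

/-- adding an independent variable to an image -/
theorem h_dil_add_le [AddCommGroup G] (n : ℤ) (a b : MM G) :
    h (dil n a + dil n b) - h (dil n a) ≤ h (a + b) - h a := by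
  rw [← map_add]
  exact h_map_incr a b (zsmulAddGroupHom n)

/-- `h (a + 2 a') ≤ h a + 3 κ(a)` -/
theorem h_add_dil_two [AddCommGroup G] (a : MM G) : h (a + dil 2 a) ≤ h a + 3 * kap a := by
  have h1 := h_split a a a (AddMonoidHom.id G) (AddMonoidHom.id G)
  have e1 : (AddMonoidHom.id G + AddMonoidHom.id G : G →+ G) = zsmulAddGroupHom 2 := by
    ext x
    simp [two_smul]
  rw [e1, ← dil_eq, mapHom_id, kap_eq] at h1
  have h2 := h_le_add (a + dil 2 a) a
  have e2 : a + dil 2 a + a = a + a + dil 2 a := by abel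
  rw [e2] at h2
  linarith

theorem Q_zero [AddCommGroup G] (a : MM G) : Q 0 a = 0 := by
  unfold Q
  rw [Finset.range_zero, Finset.sum_empty]

theorem Q_succ [AddCommGroup G] (t : ℕ) (a : MM G) : Q (t + 1) a = Q t a + dil ((2 : ℤ) ^ t) a := by
  unfold Q
  rw [Finset.sum_range_succ]

theorem dil_Q [AddCommGroup G] (n : ℤ) (t : ℕ) (a : MM G) : dil n (Q t a) = Q t (dil n a) :=
  mapHom_Q _ _ _

theorem Q_succ' [AddCommGroup G] (t : ℕ) (a : MM G) : Q (t + 1) a = a + dil 2 (Q t a) := by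
  unfold Q
  rw [Finset.sum_range_succ', pow_zero, dil_one, map_sum, add_comm]
  congr 1
  refine Finset.sum_congr rfl fun i _ => ?_
  rw [dil_dil, pow_succ']

theorem Q_one [AddCommGroup G] (a : MM G) : Q 1 a = a := by
  rw [Q_succ', Q_zero, map_zero, add_zero]

/-- increments of `Q` are nonincreasing -/
theorem Q_incr_anti [AddCommGroup G] (t : ℕ) (a : MM G) :
    h (Q (t + 2) a) - h (Q (t + 1) a) ≤ h (Q (t + 1) a) - h (Q t a) := by
  have h1 := h_submod a (dil 2 (Q t a)) (dil 2 (dil ((2 : ℤ) ^ t) a))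
  have h2 := h_dil_add_le 2 (Q t a) (dil ((2 : ℤ) ^ t) a)
  have e1 : a + dil 2 (Q t a) + dil 2 (dil ((2 : ℤ) ^ t) a) = Q (t + 2) a := by
    rw [add_assoc, ← map_add, ← Q_succ, ← Q_succ']
  have e2 : a + dil 2 (Q t a) = Q (t + 1) a := (Q_succ' t a).symm
  rw [← Q_succ] at h2
  rw [e1, e2] at h1
  have e3 : dil 2 (Q t a) + dil 2 (dil ((2 : ℤ) ^ t) a) = dil 2 (Q (t + 1) a) := by
    rw [← map_add, ← Q_succ]
  linarith

theorem Q_incr_le [AddCommGroup G] (t : ℕ) (a : MM G) :
    h (Q (t + 2) a) - h (Q (t + 1) a) ≤ 3 * kap a := by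
  induction t with
  | zero =>
    have := h_add_dil_two a
    have e : Q (0 + 2) a = a + dil 2 a := by
      rw [show (0 : ℕ) + 2 = 1 + 1 from rfl, Q_succ', Q_one]
    rw [e, show (0 : ℕ) + 1 = 1 from rfl, Q_one]
    linarith
  | succ t ih => exact (Q_incr_anti (t + 1) a).trans ih

/-- `h (Q T a) ≤ h a + 3 (T - 1) κ(a)`, `T = t + 1` -/
theorem h_Q_le [AddCommGroup G] (t : ℕ) (a : MM G) : h (Q (t + 1) a) ≤ h a + 3 * (t : ℝ) * kap a := by
  induction t with
  | zero =>
    rw [show (0 : ℕ) + 1 = 1 from rfl, Q_one]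
    simp
  | succ t ih =>
    have := Q_incr_le t a
    push_cast
    nlinarith [this, ih]

/-- `h (Q T a) ≤ h a + 3 T κ(a)` -/
theorem h_Q_le' [AddCommGroup G] (T : ℕ) (a : MM G) : h (Q T a) ≤ h a + 3 * (T : ℝ) * kap a := by
  cases T with
  | zero =>
    rw [Q_zero, h_zero]
    have := h_nonneg a
    simpa using this
  | succ t =>
    have := h_Q_le t a
    have h2 := st_kap_nonneg a
    push_cast
    nlinarith [this, h2]

theorem sum_bits (T : ℕ) : ∀ q : ℕ, q < 2 ^ T →
    (∑ i ∈ Finset.range T, (if q.testBit i then (2 : ℤ) ^ i else 0)) = (q : ℤ) := by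
  induction T with
  | zero =>
    intro q hq
    have : q = 0 := by simpa using hq
    subst this
    simp
  | succ T ih =>
    intro q hq
    rw [Finset.sum_range_succ']
    have h1 := ih (q / 2) (by omega)
    have h2 : (∑ i ∈ Finset.range T, (if q.testBit (i + 1) then (2 : ℤ) ^ (i + 1) else 0))
        = 2 * ((q / 2 : ℕ) : ℤ) := by
      rw [← h1, Finset.mul_sum]
      refine Finset.sum_congr rfl fun i _ => ?_
      rw [Nat.testBit_succ]
      split_ifs
      · rw [pow_succ']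
      · rw [mul_zero]
    rw [h2, Nat.testBit_zero, pow_zero]
    rcases Nat.mod_two_eq_zero_or_one q with h3 | h3
    · rw [h3]
      simp only [Nat.zero_ne_one, decide_false, Bool.false_eq_true, if_false]
      omega
    · rw [h3]
      simp only [decide_true, if_true]
      omega

/-- the cost of a dilate `q < 2^T` against `Q T a` -/
theorem h_Q_add_dil [AddCommGroup G] (T : ℕ) (q : ℕ) (hq : q < 2 ^ T) (a b : MM G) :
    h (Q T a + dil (q : ℤ) b) - h (Q T a) ≤ (T : ℝ) * (h (a + b) - h a) := by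
  classical
  have h1 := h_split_sum (Finset.range T) (fun i => dil ((2 : ℤ) ^ i) a)
    (fun i => if q.testBit i then (zsmulAddGroupHom ((2 : ℤ) ^ i) : G →+ G) else 0) b
  have e1 : (∑ i ∈ Finset.range T,
      (if q.testBit i then (zsmulAddGroupHom ((2 : ℤ) ^ i) : G →+ G) else 0)) = zsmulAddGroupHom (q : ℤ) := by
    have e2 := sum_bits T q hq
    rw [← e2]
    ext x
    rw [AddMonoidHom.finsetSum_apply, zsmulAddGroupHom_apply, Finset.sum_smul]
    refine Finset.sum_congr rfl fun i _ => ?_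
    split_ifs
    · rfl
    · simp
  rw [e1, ← dil_eq] at h1
  refine h1.trans ?_
  have h2 : ∀ i ∈ Finset.range T, (h (dil ((2 : ℤ) ^ i) a +
      mapHom (if q.testBit i then (zsmulAddGroupHom ((2 : ℤ) ^ i) : G →+ G) else 0) b) -
        h (dil ((2 : ℤ) ^ i) a)) ≤ h (a + b) - h a := by
    intro i _
    split_ifs
    · rw [← dil_eq]
      exact h_dil_add_le _ a b
    · have h3 := h_add_le (dil ((2 : ℤ) ^ i) a) (mapHom (0 : G →+ G) b)
      rw [h_map_zero] at h3
      have h4 := h_le_add a b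
      linarith
  refine (Finset.sum_le_sum h2).trans (le_of_eq ?_)
  rw [Finset.sum_const, Finset.card_range, nsmul_eq_mul]

/-- second half of the star inequality -/
theorem h_add_dil_le [AddCommGroup G] (T : ℕ) (hT : 1 ≤ T) (q : ℕ) (hq : q < 2 ^ T) (a : MM G) :
    h (a + dil (q : ℤ) a) ≤ h a + 4 * (T : ℝ) * kap a := by
  obtain ⟨t, rfl⟩ : ∃ t, T = t + 1 := ⟨T - 1, by omega⟩
  have h1 := h_Q_add_dil (t + 1) q hq a a
  have h2 := h_Q_le t a
  have h3 := h_le_add (a + dil (q : ℤ) a) (dil 2 (Q t a))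
  have e3 : a + dil (q : ℤ) a + dil 2 (Q t a) = Q (t + 1) a + dil (q : ℤ) a := by
    rw [Q_succ']
    abel
  rw [e3] at h3
  rw [kap_eq] at h1
  have h4 := st_kap_nonneg a
  push_cast at h1 ⊢
  nlinarith [h1, h2, h3, h4]

/-- first half of the star inequality, for any subgroup `W ≥ q G` -/
theorem h_md_add_dil [AddCommGroup G] (q : ℕ) (W : AddSubgroup G) (hW : ∀ g : G, q • g ∈ W)
    (a b : MM G) : h (md W a) + h (dil (q : ℤ) b) ≤ h (a + dil (q : ℤ) b) := by
  have h1 := h_map_incr (dil (q : ℤ) b) a (QuotientAddGroup.mk' W)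
  have h2 : h (mapHom (QuotientAddGroup.mk' W) (dil (q : ℤ) b)) = 0 := by
    rw [dil_eq, mapHom_comp]
    have e : (QuotientAddGroup.mk' W).comp (zsmulAddGroupHom (q : ℤ)) = 0 := by
      ext x
      rw [AddMonoidHom.comp_apply, AddMonoidHom.zero_apply, QuotientAddGroup.mk'_apply,
        QuotientAddGroup.eq_zero_iff, zsmulAddGroupHom_apply, natCast_zsmul]
      exact hW x
    rw [e, h_map_zero]
  have h3 : h (md W a) ≤ h (mapHom (QuotientAddGroup.mk' W) (dil (q : ℤ) b + a)) := by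
    rw [map_add]
    exact h_le_add' _ _
  rw [h2] at h1
  rw [add_comm a]
  linarith

/-- STAR: `h (a mod W) + h (q a) ≤ h a + 4 T κ(a)` for `q < 2^T`, `1 ≤ T`, `W ≥ q G` -/
theorem star_md [AddCommGroup G] (T : ℕ) (hT : 1 ≤ T) (q : ℕ) (hq : q < 2 ^ T) (W : AddSubgroup G)
    (hW : ∀ g : G, q • g ∈ W) (a : MM G) :
    h (md W a) + h (dil (q : ℤ) a) ≤ h a + 4 * (T : ℝ) * kap a :=
  (h_md_add_dil q W hW a a).trans (h_add_dil_le T hT q hq a)

/-- `(*)` -/
theorem star (E : Type) [AddCommGroup E] (q T : ℕ) (hT : 1 ≤ T) (hq : q < 2 ^ T) (a : MM E) :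
    MM.h (MM.mapHom (QuotientAddGroup.mk' (nsmulAddMonoidHom (α := E) q).range) a) +
      MM.h (MM.mapHom (nsmulAddMonoidHom q) a) ≤ MM.h a + 5 * T * MM.kap a := by
  have h1 := star_md T hT q hq (nsmulAddMonoidHom (α := E) q).range (fun g => ⟨g, rfl⟩) a
  have e : (zsmulAddGroupHom (q : ℤ) : E →+ E) = nsmulAddMonoidHom q := by
    ext x
    simp
  rw [dil_eq, e] at h1
  have h2 : 0 ≤ (T : ℝ) * kap a := mul_nonneg (Nat.cast_nonneg T) (st_kap_nonneg a)
  unfold md at h1
  nlinarith [h1, h2]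

end D1
end Pool.Agent.PFM
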