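import Pool.Agent.PFM.DSec
import Pool.Agent.PFM.D1If
set_option autoImplicit false

/-!
# Section D1 (helper79): descent to a terminated variable
-/
namespace Pool.Agent.PFM
open Finset Pool.Agent.Ldc

namespace CV
variable {G : Type} [AddCommGroup G]

theorem kap_mk (A : CV G) : MM.kap (MM.mk A) = hc (A.add A) - hc A := by
  unfold MM.kap
  rw [two_nsmul]
  rfl

theorem kap_map_mk {K : Type} [AddCommGroup K] (φ : G →+ K) (A : CV G) :
    MM.kap (MM.mapHom φ (MM.mk A)) = hc ((A.add A).map φ) - hc (A.map φ) := by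
  unfold MM.kap
  rw [← map_nsmul, two_nsmul]
  rfl

/-- the fibring inequality for coset pieces -/
theorem sec_fib (V : AddSubgroup G) (W : AddSubgroup V) (A : CV G) :
    MM.kap (MM.mapHom (QuotientAddGroup.mk' W) (MM.mk (sec V A))) ≤
      MM.kap (MM.mk (sec V A)) - MM.kap (MM.mk (sec (W.map V.subtype) A)) := by
  rw [kap_map_mk, kap_mk, kap_mk]
  have e1 : hc (((sec V A).add (sec V A)).map (QuotientAddGroup.mk' W)) = _ := hc_sec_add_md V W A
  have e2 : hc ((sec V A).map (QuotientAddGroup.mk' W)) = _ := hc_sec_md V W A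
  rw [e1, e2, hc_sec_add, hc_sec_add, hc_sec, hc_sec]
  set V' := W.map V.subtype with hV'
  have hle : ∀ x y : G, (QuotientAddGroup.mk x : G ⧸ V') = QuotientAddGroup.mk y →
      (QuotientAddGroup.mk x : G ⧸ V) = QuotientAddGroup.mk y := by
    intro x y h
    rw [mk_eq_iff] at h ⊢
    obtain ⟨w, _, hw⟩ := h
    rw [← hw]
    exact w.2
  have hadd : ∀ x y x' y' : G, (QuotientAddGroup.mk x : G ⧸ V') = QuotientAddGroup.mk x' →
      (QuotientAddGroup.mk y : G ⧸ V') = QuotientAddGroup.mk y' →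
      (QuotientAddGroup.mk (x + y) : G ⧸ V') = QuotientAddGroup.mk (x' + y') := by
    intro x y x' y' h h'
    rw [mk_eq_iff] at h h' ⊢
    have e : x + y - (x' + y') = (x - x') + (y - y') := by abel
    rw [e]
    exact V'.add_mem h h'
  have h1 := hc_submod (A.pair A) (fun x => x.1 + x.2)
    (fun x => ((QuotientAddGroup.mk x.1 : G ⧸ V'), (QuotientAddGroup.mk x.2 : G ⧸ V')))
    (fun x => ((QuotientAddGroup.mk (x.1 + x.2) : G ⧸ V'),
      ((QuotientAddGroup.mk x.1 : G ⧸ V), (QuotientAddGroup.mk x.2 : G ⧸ V))))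
  have h2 : hc ((A.pair A).map fun x => (x.1 + x.2,
      ((QuotientAddGroup.mk x.1 : G ⧸ V'), (QuotientAddGroup.mk x.2 : G ⧸ V')),
      ((QuotientAddGroup.mk (x.1 + x.2) : G ⧸ V'),
      ((QuotientAddGroup.mk x.1 : G ⧸ V), (QuotientAddGroup.mk x.2 : G ⧸ V))))) =
      hc ((A.pair A).map fun x => (x.1 + x.2,
      ((QuotientAddGroup.mk x.1 : G ⧸ V'), (QuotientAddGroup.mk x.2 : G ⧸ V')))) := by
    refine hc_map_congr _ _ _ fun x y => ?_
    simp only [Prod.mk.injEq]
    constructor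
    · rintro ⟨h1, h2, _⟩
      exact ⟨h1, h2⟩
    · rintro ⟨h1, h2, h3⟩
      exact ⟨h1, ⟨h2, h3⟩, hadd _ _ _ _ h2 h3, hle _ _ h2, hle _ _ h3⟩
  have h3 : hc ((A.pair A).map fun x => (x.1 + x.2,
      ((QuotientAddGroup.mk (x.1 + x.2) : G ⧸ V'),
      ((QuotientAddGroup.mk x.1 : G ⧸ V), (QuotientAddGroup.mk x.2 : G ⧸ V))))) =
      hc ((A.pair A).map fun x => (x.1 + x.2,
      ((QuotientAddGroup.mk x.1 : G ⧸ V), (QuotientAddGroup.mk x.2 : G ⧸ V)))) := by
    refine hc_map_congr _ _ _ fun x y => ?_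
    simp only [Prod.mk.injEq]
    constructor
    · rintro ⟨h1, _, h2, h3⟩
      exact ⟨h1, h2, h3⟩
    · rintro ⟨h1, h2, h3⟩
      exact ⟨h1, by rw [h1], h2, h3⟩
  have h4 : hc ((A.pair A).map fun x =>
      (((QuotientAddGroup.mk x.1 : G ⧸ V'), (QuotientAddGroup.mk x.2 : G ⧸ V')),
      ((QuotientAddGroup.mk (x.1 + x.2) : G ⧸ V'),
      ((QuotientAddGroup.mk x.1 : G ⧸ V), (QuotientAddGroup.mk x.2 : G ⧸ V))))) =
      2 * hc (A.map fun g => (QuotientAddGroup.mk g : G ⧸ V')) := by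
    have h5 : hc ((A.pair A).map fun x =>
        (((QuotientAddGroup.mk x.1 : G ⧸ V'), (QuotientAddGroup.mk x.2 : G ⧸ V')),
        ((QuotientAddGroup.mk (x.1 + x.2) : G ⧸ V'),
        ((QuotientAddGroup.mk x.1 : G ⧸ V), (QuotientAddGroup.mk x.2 : G ⧸ V))))) =
        hc ((A.pair A).map fun x =>
        ((QuotientAddGroup.mk x.1 : G ⧸ V'), (QuotientAddGroup.mk x.2 : G ⧸ V'))) := by
      refine hc_map_congr _ _ _ fun x y => ?_
      simp only [Prod.mk.injEq]
      constructor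
      · rintro ⟨h2, _⟩
        exact h2
      · rintro ⟨h2, h3⟩
        exact ⟨⟨h2, h3⟩, hadd _ _ _ _ h2 h3, hle _ _ h2, hle _ _ h3⟩
    rw [h5]
    have e5 : (A.pair A).map (fun x => ((QuotientAddGroup.mk x.1 : G ⧸ V'), (QuotientAddGroup.mk x.2 : G ⧸ V')))
        = (A.map fun g => (QuotientAddGroup.mk g : G ⧸ V')).pair
          (A.map fun g => (QuotientAddGroup.mk g : G ⧸ V')) := rfl
    rw [e5, hc_pair]
    ring
  rw [h2, h3, h4] at h1
  linarith

theorem kap_nonneg (A : CV G) : 0 ≤ MM.kap (MM.mk A) := by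
  rw [kap_mk]
  have := hc_le_add A A
  linarith

/-- descent: a terminated coset piece -/
theorem desc [Finite G] (A : CV G) {L : ℝ} (hL : 0 < L) : ∃ V : AddSubgroup G,
    D1.Term L (MM.mk (sec V A)) ∧
    hc (A.map fun g => (QuotientAddGroup.mk g : G ⧸ V)) ≤ L * MM.kap (MM.mk A) ∧
    MM.kap (MM.mk (sec V A)) ≤ MM.kap (MM.mk A) := by
  let S : Set (AddSubgroup G) := {V | hc (A.map fun g => (QuotientAddGroup.mk g : G ⧸ V)) ≤
    L * (MM.kap (MM.mk A) - MM.kap (MM.mk (sec V A)))}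
  have hS : S.Nonempty := by
    refine ⟨⊤, ?_⟩
    have htop : ∀ x y : G, (QuotientAddGroup.mk x : G ⧸ (⊤ : AddSubgroup G)) = QuotientAddGroup.mk y := by
      intro x y
      rw [mk_eq_iff]
      trivial
    have h0 : hc (A.map fun g => (QuotientAddGroup.mk g : G ⧸ (⊤ : AddSubgroup G))) = 0 :=
      hc_map_const _ _ htop
    have h1 : hc ((A.pair A).map fun x => (x.1 + x.2,
        ((QuotientAddGroup.mk x.1 : G ⧸ (⊤ : AddSubgroup G)),
          (QuotientAddGroup.mk x.2 : G ⧸ (⊤ : AddSubgroup G))))) = hc (A.add A) := by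
      refine hc_map_congr _ _ _ fun x y => ?_
      simp only [Prod.mk.injEq]
      constructor
      · rintro ⟨h1, _⟩
        exact h1
      · intro h1
        exact ⟨h1, htop _ _, htop _ _⟩
    change hc (A.map fun g => (QuotientAddGroup.mk g : G ⧸ (⊤ : AddSubgroup G))) ≤
      L * (MM.kap (MM.mk A) - MM.kap (MM.mk (sec ⊤ A)))
    rw [kap_mk, kap_mk, hc_sec_add, hc_sec, h0, h1]
    linarith
  obtain ⟨V, hV, hmin⟩ := (wellFounded_lt : WellFounded ((· < ·) : AddSubgroup G → AddSubgroup G → Prop)).has_min S hS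
  have hV' : hc (A.map fun g => (QuotientAddGroup.mk g : G ⧸ V)) ≤
    L * (MM.kap (MM.mk A) - MM.kap (MM.mk (sec V A))) := hV
  refine ⟨V, ?_, ?_, ?_⟩
  · intro W hW
    have hlt : W.map V.subtype < V := by
      refine lt_of_le_of_ne (AddSubgroup.map_subtype_le W) fun h => hW ?_
      rw [eq_top_iff]
      intro x _
      have hx : (x : G) ∈ W.map V.subtype := by
        rw [h]
        exact x.2
      obtain ⟨w, hw, hwx⟩ := hx
      have e : w = x := Subtype.ext hwx
      rwa [← e]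
    have h1 : ¬ (W.map V.subtype ∈ S) := fun h => hmin _ h hlt
    have h2 : L * (MM.kap (MM.mk A) - MM.kap (MM.mk (sec (W.map V.subtype) A))) <
        hc (A.map fun g => (QuotientAddGroup.mk g : G ⧸ W.map V.subtype)) := not_le.1 h1
    have h3 := sec_fib V W A
    have h4 : MM.h (MM.mapHom (QuotientAddGroup.mk' W) (MM.mk (sec V A))) = _ := hc_sec_md V W A
    rw [h4]
    have h5 := mul_le_mul_of_nonneg_left h3 hL.le
    nlinarith
  · have := mul_nonneg hL.le (kap_nonneg (sec V A))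
    linarith
  · have h1 := hc_nonneg (A.map fun g => (QuotientAddGroup.mk g : G ⧸ V))
    have h2 : 0 ≤ L * (MM.kap (MM.mk A) - MM.kap (MM.mk (sec V A))) := h1.trans hV'
    have h3 := nonneg_of_mul_nonneg_right h2 hL
    linarith

end CV
end Pool.Agent.PFM
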