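import Pool.Agent.PFM.Spl
set_option autoImplicit false

/-!
# Definitions: sums of dilates, heredity, refinements
-/
namespace Pool.Agent.PFM
open Finset Pool.Agent.Ldc

namespace CV
variable {G K L M : Type}

/-- `B` is a refinement of `A`: the same variable with more conditioning (on a larger space) -/
def Ref (B A : CV G) : Prop :=
  ∃ π : B.Ω → A.Ω, (∀ ω, pr B.p π ω = A.p ω) ∧ (∀ ω, B.f ω = A.f (π ω)) ∧
    ∀ ω ω', B.z ω = B.z ω' → A.z (π ω) = A.z (π ω')

/-- `φ(f)` conditioned on `g(f)` and `z` -/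
def cond (A : CV G) (g : G → L) (φ : G → K) : CV K where
  Ω := A.Ω
  β := A.β × L
  p := A.p
  hp := A.hp
  z := fun ω => (A.z ω, g (A.f ω))
  f := fun ω => φ (A.f ω)

end CV

namespace MM
variable {G K : Type}

/-- `Q_t(a) = a + 2 a' + ... + 2^(t-1) a''` (independent copies) -/
noncomputable def Q [AddCommGroup G] (t : ℕ) (a : MM G) : MM G := ∑ i ∈ range t, dil ((2 : ℤ) ^ i) a

/-- heredity with ratio `r` and slack `e` -/
def Her [AddCommGroup G] (r e : ℝ) (a : MM G) : Prop :=
  ∀ (K : Type) [AddCommGroup K] (φ : G →+ K) (n : MM K),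
    kap (mapHom φ a + n) - kap n ≤ r * (h (mapHom φ a + n) - h n) + e

/-- refinement -/
def RefM (b a : MM G) : Prop := ∃ B A : CV G, mk B = b ∧ mk A = a ∧ CV.Ref B A

end MM
end Pool.Agent.PFM
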