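import Pool.Agent.PFM.Abs
set_option autoImplicit false

/-!
# Growth statements used by the stage lemma and the chain
-/
namespace Pool.Agent.PFM
open Finset Pool.Agent.Ldc

namespace MM
variable {G K L : Type}

theorem Grw_clog {x : ℕ} (hx : 2 ≤ x) : ((Nat.clog 2 x : ℕ) : ℝ) ≤ 1 + 3 / 2 * Real.log x := by
  have h1 : 2 ^ (Nat.clog 2 x - 1) < x := Nat.pow_pred_clog_lt_self (by norm_num) (by omega)
  have h2 : (2 : ℝ) ^ (Nat.clog 2 x - 1) ≤ x := by exact_mod_cast h1.le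
  have h3 : ((Nat.clog 2 x - 1 : ℕ) : ℝ) * Real.log 2 ≤ Real.log x := by
    rw [← Real.log_pow]
    exact Real.log_le_log (by positivity) h2
  have h4 : ((Nat.clog 2 x : ℕ) : ℝ) ≤ ((Nat.clog 2 x - 1 : ℕ) : ℝ) + 1 := by
    have : Nat.clog 2 x ≤ (Nat.clog 2 x - 1) + 1 := by omega
    exact_mod_cast this
  have h5 : (2 / 3 : ℝ) ≤ Real.log 2 := by
    have := Real.log_two_gt_d9
    linarith
  have h6 : (0 : ℝ) ≤ ((Nat.clog 2 x - 1 : ℕ) : ℝ) := Nat.cast_nonneg _
  nlinarith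

/-- `m` copies of `Q_t(a)` are hereditary -/
theorem hsm [AddCommGroup G] {r e : ℝ} {a : MM G} (ha : Her r e a) (m t : ℕ) (n : MM G) :
    kap (m • Q t a + n) - kap n ≤ r * (h (m • Q t a + n) - h n) + m * t * e := by
  have := (ha.Q t).nsmul m n
  rw [mul_assoc]
  exact this

theorem grw : ∃ c : ℕ, 1 ≤ c ∧ ∀ (n b : ℕ) (r : ℝ) (t : ℕ), 1 ≤ n → 1 ≤ b → 0 < r →
    c * (1 + Real.log (n * b)) * r ≤ 1 → (b : ℝ) ≤ r * t → ∃ E : ℝ, 0 ≤ E ∧
    ∀ (G : Type) [AddCommGroup G] (a : MM G) (e : ℝ), 0 ≤ e → Her r e a →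
      ∀ w : Fin n → ℕ, (∀ i, w i < 2 ^ b) → h (∑ i, dil (w i : ℤ) (Q t a)) ≤
        (1 + c * (1 + Real.log (n * b)) * r) * h (Q t a) + E * e := by
  refine ⟨12, by norm_num, ?_⟩
  intro n b r t hn hb hr hc hbt
  set j := Nat.clog 2 (2 * n * b * b) with hj
  have hn' : (1 : ℝ) ≤ n := by exact_mod_cast hn
  have hb' : (1 : ℝ) ≤ b := by exact_mod_cast hb
  have hl0 : 0 ≤ Real.log (n * b) := Real.log_nonneg (by nlinarith)
  have hj1 : (j : ℝ) ≤ 5 / 2 + 3 * Real.log (n * b) := by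
    have h1 := Grw_clog (x := 2 * n * b * b) (by
      have := Nat.mul_pos (Nat.mul_pos hn hb) hb
      have h3 : 2 * n * b * b = 2 * (n * b * b) := by ring
      omega)
    have h2 : Real.log ((2 * n * b * b : ℕ) : ℝ) ≤ Real.log 2 + 2 * Real.log (n * b) := by
      have h3 : ((2 * n * b * b : ℕ) : ℝ) ≤ 2 * ((n * b : ℝ) ^ 2) := by
        push_cast
        have : (n : ℝ) ≤ n ^ 2 := by nlinarith
        nlinarith [mul_le_mul_of_nonneg_right this (by positivity : (0 : ℝ) ≤ (b : ℝ) ^ 2)]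
      have h4 : Real.log (2 * ((n * b : ℝ) ^ 2)) = Real.log 2 + 2 * Real.log (n * b) := by
        rw [Real.log_mul (by norm_num) (by positivity), Real.log_pow]
        norm_num
      rw [← h4]
      refine Real.log_le_log ?_ h3
      have : 0 < 2 * n * b * b := Nat.mul_pos (Nat.mul_pos (by omega) hb) hb
      exact_mod_cast this
    have h5 : Real.log 2 ≤ 1 := by
      have := Real.log_two_lt_d9
      linarith
    rw [← hj] at h1
    linarith
  have hrj : r * j ≤ 1 := by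
    have h1 : r * j ≤ r * (5 / 2 + 3 * Real.log (n * b)) := mul_le_mul_of_nonneg_left hj1 hr.le
    have h2 : r * (5 / 2 + 3 * Real.log (n * b)) ≤ ((12 : ℕ) : ℝ) * (1 + Real.log (n * b)) * r := by
      push_cast
      nlinarith [mul_nonneg hr.le hl0]
    exact (h1.trans h2).trans hc
  refine ⟨(1 + r) ^ j * (2 ^ j * (t + b)) + r * ((1 + r) ^ j * (2 ^ j * t)) + n * b * t,
    by positivity, ?_⟩
  intro G _ a e he ha w hw
  have h1 := grw_core n b t j r hn hb (Nat.le_pow_clog (by norm_num) _) hr.le hrj hbt G a e he ha w hw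
  have h2 : (1 + (2 * j + 6) * r) * h (Q t a)
      ≤ (1 + ((12 : ℕ) : ℝ) * (1 + Real.log (n * b)) * r) * h (Q t a) := by
    refine mul_le_mul_of_nonneg_right ?_ (h_nonneg _)
    have h3 : (2 * (j : ℝ) + 6) * r ≤ ((12 : ℕ) : ℝ) * (1 + Real.log (n * b)) * r := by
      refine mul_le_mul_of_nonneg_right ?_ hr.le
      push_cast
      linarith
    linarith
  linarith

/-! ## the window `T` -/

theorem dil_mod [AddCommGroup G] {m : ℕ} (hm : 0 < m) (hG : ∀ g : G, m • g = 0) (w : ℤ) (a : MM G) :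
    dil w a = dil (((w % (m : ℤ)).toNat : ℕ) : ℤ) a := by
  have e : (zsmulAddGroupHom w : G →+ G) = zsmulAddGroupHom (((w % (m : ℤ)).toNat : ℕ) : ℤ) := by
    ext g
    change w • g = (((w % (m : ℤ)).toNat : ℕ) : ℤ) • g
    have h0 : (0 : ℤ) ≤ w % (m : ℤ) := Int.emod_nonneg _ (by exact_mod_cast hm.ne')
    rw [Int.toNat_of_nonneg h0]
    have h1 : w = (m : ℤ) * (w / (m : ℤ)) + w % (m : ℤ) := (Int.mul_ediv_add_emod w m).symm
    conv_lhs => rw [h1]
    rw [add_smul, mul_comm, mul_smul, natCast_zsmul, hG, smul_zero, zero_add]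
  rw [dil_eq, e, ← dil_eq]

theorem Q_one [AddCommGroup G] (a : MM G) : Q 1 a = a := by
  rw [Q_succ, Q_zero, zero_add, pow_zero, dil_one]

theorem h_le_Q1 [AddCommGroup G] {T : ℕ} (hT : 1 ≤ T) (a : MM G) : h a ≤ h (Q T a) := by
  have := Q_mono hT a
  rwa [Q_one] at this

/-- all dilates are absorbed by `Q_T` -/
theorem absT_core (T n j : ℕ) (r : ℝ) (hT : 1 ≤ T) (hn : 1 ≤ n) (hj : 2 * n * T ≤ 2 ^ j)
    (hr : 0 ≤ r) (hrj : r * j ≤ 1) (G : Type) [AddCommGroup G] (a : MM G) (e : ℝ) (hG : Tor T G)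
    (he : 0 ≤ e) (ha : Her r e a) {ι : Type} (s : Finset ι) (hs : s.card ≤ n) (w : ι → ℤ) :
    h (∑ i ∈ s, dil (w i) a) ≤ (1 + (2 * j + 3) * r) * h (Q T a) +
      ((1 + r) ^ j * (2 ^ j * T) + r * ((1 + r) ^ j * 2 ^ j) + n * T) * e := by
  obtain ⟨m, hm, hm2, hmG⟩ := hG
  set m' := n * T with hm'
  have hm0 : 0 < m' := Nat.mul_pos hn hT
  have hm0' : (0 : ℝ) < m' := by exact_mod_cast hm0
  set x : ℕ → MM G := fun c => dil ((2 : ℤ) ^ c) a with hx
  set nz : ℕ → MM G := fun c => (2 * m') • x c with hnz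
  have hcost : ∀ c, h (nz c + x c) - h (nz c) ≤ (r * h (m' • a) + m' * e) / m' := by
    intro c
    have h1 := incr_cost (ha.dil ((2 : ℤ) ^ c)) hm0
    have h2 : h (m' • x c) ≤ h (m' • a) := by
      have h3 : m' • x c = dil ((2 : ℤ) ^ c) (m' • a) := by
        rw [map_nsmul]
      rw [h3]
      exact h_map_le _ _
    rw [le_div_iff₀ hm0', mul_comm]
    have h4 := mul_le_mul_of_nonneg_left h2 hr
    simp only [hnz]
    linarith
  have hone : ∀ i ∈ s, h (∑ c ∈ range T, nz c + dil (w i) a)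
      - h (∑ c ∈ range T, nz c) ≤ T * ((r * h (m' • a) + m' * e) / m') := by
    intro i _
    rw [dil_mod hm hmG]
    have hlt : (w i % (m : ℤ)).toNat < 2 ^ T := by
      have h0 : (0 : ℤ) ≤ w i % (m : ℤ) := Int.emod_nonneg _ (by exact_mod_cast hm.ne')
      have h1 : w i % (m : ℤ) < m := Int.emod_lt_of_pos _ (by exact_mod_cast hm)
      omega
    refine (split_bits a nz T _ hlt).trans ?_
    refine (Finset.sum_le_sum fun c _ => hcost c).trans ?_
    rw [Finset.sum_const, card_range, nsmul_eq_mul]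
  have h1 := absorb_sum (∑ c ∈ range T, nz c) s (fun i => dil (w i) a) _ hone
  have h2 := h_le_add' (∑ c ∈ range T, nz c) (∑ i ∈ s, dil (w i) a)
  have hnn : 0 ≤ (r * h (m' • a) + m' * e) / m' :=
    div_nonneg (add_nonneg (mul_nonneg hr (h_nonneg _)) (by positivity)) hm0'.le
  have h3 : (s.card : ℝ) * (T * ((r * h (m' • a) + m' * e) / m')) ≤ r * h (m' • a) + n * T * e := by
    have h4 : (m' : ℝ) = n * T := by rw [hm']; push_cast; ring
    have h5 : (m' : ℝ) ≠ 0 := hm0'.ne'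
    have h6 : (s.card : ℝ) * (T * ((r * h (m' • a) + m' * e) / m'))
        ≤ n * (T * ((r * h (m' • a) + m' * e) / m')) :=
      mul_le_mul_of_nonneg_right (by exact_mod_cast hs) (mul_nonneg (Nat.cast_nonneg _) hnn)
    have h7 : (n : ℝ) * (T * ((r * h (m' • a) + m' * e) / m'))
        = (m' : ℝ) * ((r * h (m' • a) + m' * e) / m') := by rw [h4]; ring
    rw [h7, mul_div_cancel₀ _ h5] at h6
    have h8 : (m' : ℝ) * e = n * T * e := by rw [h4]
    linarith
  have h4 : ∑ c ∈ range T, nz c = (2 * m') • Q T a := by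
    simp only [hnz, hx]
    rw [← Finset.smul_sum]
    rfl
  have hjm : 2 * m' ≤ 2 ^ j := by
    refine le_trans (le_of_eq ?_) hj
    rw [hm']
    ring
  have hjm' : m' ≤ 2 ^ j := by omega
  have h5 := (ha.Q T).growth hr (by positivity) hjm
  have h6 := ha.herS'.growth hr he hjm'
  have h7 := h_le_Q1 hT a
  have hA : 0 ≤ h (Q T a) := h_nonneg _
  have hP := one_add_pow_le hr hrj
  have hP0 : (0 : ℝ) ≤ (1 + r) ^ j := by positivity
  have hP1 : (1 + r) ^ j ≤ 3 := by linarith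
  set P := (1 + r) ^ j with hPdef
  have h9 : r * h (m' • a) ≤ r * (P * (h (Q T a) + 2 ^ j * e)) := by
    refine mul_le_mul_of_nonneg_left (h6.trans ?_) hr
    exact mul_le_mul_of_nonneg_left (by linarith) hP0
  have h10 : P + r * P ≤ 1 + (2 * j + 3) * r := by
    have h11 : r * P ≤ r * 3 := mul_le_mul_of_nonneg_left hP1 hr
    nlinarith
  have h12 : (P + r * P) * h (Q T a) ≤ (1 + (2 * j + 3) * r) * h (Q T a) :=
    mul_le_mul_of_nonneg_right h10 hA
  rw [h4] at h1 h2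
  calc h (∑ i ∈ s, dil (w i) a) ≤ h ((2 * m') • Q T a + ∑ i ∈ s, dil (w i) a) := h2
    _ ≤ h ((2 * m') • Q T a) + (r * h (m' • a) + n * T * e) := by linarith
    _ ≤ P * (h (Q T a) + 2 ^ j * (T * e)) + (r * (P * (h (Q T a) + 2 ^ j * e)) + n * T * e) := by
      linarith
    _ ≤ (1 + (2 * j + 3) * r) * h (Q T a) + (P * (2 ^ j * T) + r * (P * 2 ^ j) + n * T) * e := by
      nlinarith

/-- all dilates are absorbed by `Q_T`, arbitrary index sets -/
theorem absorbTs : ∃ c : ℝ, 1 ≤ c ∧ ∀ (T n : ℕ) (r : ℝ), 1 ≤ T → 1 ≤ n → 0 < r →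
    c * (1 + Real.log T + Real.log n) * r ≤ 1 → ∃ E : ℝ, 0 ≤ E ∧
    ∀ (G : Type) [AddCommGroup G] (a : MM G) (e : ℝ), Tor T G → 0 ≤ e → Her r e a →
      ∀ (ι : Type) (s : Finset ι), s.card ≤ n → ∀ w : ι → ℤ, h (∑ i ∈ s, dil (w i) a) ≤
        (1 + c * (1 + Real.log T + Real.log n) * r) * h (Q T a) + E * e := by
  refine ⟨10, by norm_num, ?_⟩
  intro T n r hT hn hr hc
  set j := Nat.clog 2 (2 * n * T) with hj
  have hn' : (1 : ℝ) ≤ n := by exact_mod_cast hn
  have hT' : (1 : ℝ) ≤ T := by exact_mod_cast hT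
  have hl0 : 0 ≤ Real.log n := Real.log_nonneg hn'
  have hl1 : 0 ≤ Real.log T := Real.log_nonneg hT'
  have hj1 : (j : ℝ) ≤ 5 / 2 + 3 / 2 * (Real.log T + Real.log n) := by
    have h1 := Grw_clog (x := 2 * n * T) (by
      have := Nat.mul_pos hn hT
      have h3 : 2 * n * T = 2 * (n * T) := by ring
      omega)
    have h2 : Real.log ((2 * n * T : ℕ) : ℝ) = Real.log 2 + Real.log n + Real.log T := by
      push_cast
      rw [Real.log_mul (by positivity) (by positivity), Real.log_mul (by norm_num) (by positivity)]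
    have h5 : Real.log 2 ≤ 1 := by
      have := Real.log_two_lt_d9
      linarith
    rw [← hj] at h1
    linarith
  have hrj : r * j ≤ 1 := by
    have h1 : r * j ≤ r * (5 / 2 + 3 / 2 * (Real.log T + Real.log n)) :=
      mul_le_mul_of_nonneg_left hj1 hr.le
    have h2 : r * (5 / 2 + 3 / 2 * (Real.log T + Real.log n))
        ≤ 10 * (1 + Real.log T + Real.log n) * r := by
      nlinarith [mul_nonneg hr.le hl0, mul_nonneg hr.le hl1]
    linarith
  refine ⟨(1 + r) ^ j * (2 ^ j * T) + r * ((1 + r) ^ j * 2 ^ j) + n * T, by positivity, ?_⟩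
  intro G _ a e hG he ha ι s hs w
  have h1 := absT_core T n j r hT hn (Nat.le_pow_clog (by norm_num) _) hr.le hrj G a e hG he ha s hs w
  have h2 : (1 + (2 * j + 3) * r) * h (Q T a)
      ≤ (1 + 10 * (1 + Real.log T + Real.log n) * r) * h (Q T a) := by
    refine mul_le_mul_of_nonneg_right ?_ (h_nonneg _)
    have h3 : (2 * (j : ℝ) + 3) * r ≤ 10 * (1 + Real.log T + Real.log n) * r := by
      refine mul_le_mul_of_nonneg_right ?_ hr.le
      linarith
    linarith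
  linarith

/-- all dilates are absorbed by `Q_T` when `c (1 + log T + log n) r ≤ 1` -/
theorem absorbT : ∃ c : ℝ, 1 ≤ c ∧ ∀ (T n : ℕ) (r : ℝ), 1 ≤ T → 1 ≤ n → 0 < r →
    c * (1 + Real.log T + Real.log n) * r ≤ 1 → ∃ E : ℝ, 0 ≤ E ∧
    ∀ (G : Type) [AddCommGroup G] (a : MM G) (e : ℝ), Tor T G → 0 ≤ e → Her r e a →
      ∀ w : Fin n → ℤ, h (∑ i, dil (w i) a) ≤
        (1 + c * (1 + Real.log T + Real.log n) * r) * h (Q T a) + E * e := by
  obtain ⟨c, hc, hh⟩ := absorbTs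
  refine ⟨c, hc, ?_⟩
  intro T n r hT hn hr hcr
  obtain ⟨E, hE, hh⟩ := hh T n r hT hn hr hcr
  refine ⟨E, hE, ?_⟩
  intro G _ a e hG he ha w
  exact hh G a e hG he ha (Fin n) univ (by rw [Finset.card_univ, Fintype.card_fin]) w

/-- growth in the first regime: `Q_T(2^J Q_t a)` is contained in `2^J t` copies of `Q_(T+t) a` -/
theorem growth1 (T t J : ℕ) (hT : 1 ≤ T) (ht : 1 ≤ t) : ∃ E : ℝ, 0 ≤ E ∧ ∀ (r : ℝ), 0 ≤ r → r ≤ 1 →
    ∀ (G : Type) [AddCommGroup G] (a : MM G) (e : ℝ), 0 ≤ e → Her r e a →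
      h (Q T (2 ^ J • Q t a)) ≤ (1 + r) ^ (J + Nat.clog 2 t) * (1 + t / T) * h (Q T a) + E * e := by
  set j := J + Nat.clog 2 t with hj
  refine ⟨2 ^ j * (2 ^ j * (T + t)), by positivity, ?_⟩
  intro r hr hr1 G _ a e he ha
  have hT' : (0 : ℝ) < T := by exact_mod_cast hT
  have h1 : Q T (2 ^ J • Q t a) = 2 ^ J • ∑ c ∈ range t, dil ((2 : ℤ) ^ c) (Q T a) := by
    rw [Q_nsmul]
    congr 1
    change Q T (∑ c ∈ range t, dil ((2 : ℤ) ^ c) a) = _
    unfold Q
    simp only [map_sum]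
    rw [Finset.sum_comm]
    refine Finset.sum_congr rfl fun c _ => Finset.sum_congr rfl fun i _ => ?_
    rw [dil_dil, dil_dil, mul_comm]
  choose! R hR using fun c (hc : c ∈ range t) => dil_Q_le c T t (Finset.mem_range.1 hc).le a
  have h2 : h (Q T (2 ^ J • Q t a)) ≤ h ((2 ^ J * t) • Q (T + t) a) := by
    have h3 : (2 ^ J * t) • Q (T + t) a
        = 2 ^ J • ∑ c ∈ range t, dil ((2 : ℤ) ^ c) (Q T a) + 2 ^ J • ∑ c ∈ range t, R c := by
      rw [← smul_add, ← Finset.sum_add_distrib, Finset.sum_congr rfl hR, Finset.sum_const, card_range,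
        smul_smul]
    rw [h1, h3]
    exact h_le_add _ _
  have h3 : 2 ^ J * t ≤ 2 ^ j := by
    rw [hj, pow_add]
    exact Nat.mul_le_mul_left _ (Nat.le_pow_clog (by norm_num) _)
  have h4 := (ha.Q (T + t)).growth hr (by positivity) h3
  have h5 : h (Q (T + t) a) ≤ (1 + t / T) * h (Q T a) := by
    have h6 := Q_ratio T t a
    have h7 : (T : ℝ) * ((1 + t / T) * h (Q T a)) = (T + t) * h (Q T a) := by
      field_simp
    rw [← h7] at h6
    exact le_of_mul_le_mul_left h6 hT'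
  have hP0 : (0 : ℝ) ≤ (1 + r) ^ j := by positivity
  have hP2 : (1 + r) ^ j ≤ 2 ^ j := pow_le_pow_left₀ (by linarith) (by linarith) j
  push_cast at h4
  have h6 : (1 + r) ^ j * h (Q (T + t) a) ≤ (1 + r) ^ j * ((1 + t / T) * h (Q T a)) :=
    mul_le_mul_of_nonneg_left h5 hP0
  have h7 : (1 + r) ^ j * (2 ^ j * ((T + t) * e)) ≤ 2 ^ j * (2 ^ j * ((T + t) * e)) :=
    mul_le_mul_of_nonneg_right hP2 (by positivity)
  calc h (Q T (2 ^ J • Q t a)) ≤ (1 + r) ^ j * (h (Q (T + t) a) + 2 ^ j * ((T + t) * e)) := h2.trans h4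
    _ = (1 + r) ^ j * h (Q (T + t) a) + (1 + r) ^ j * (2 ^ j * ((T + t) * e)) := by ring
    _ ≤ (1 + r) ^ j * ((1 + t / T) * h (Q T a)) + 2 ^ j * (2 ^ j * ((T + t) * e)) := by linarith
    _ = (1 + r) ^ j * (1 + t / T) * h (Q T a) + 2 ^ j * (2 ^ j * (T + t)) * e := by ring

/-- `H(Q_t) ≤ H + 3 t κ` -/
theorem h_Q_le [AddCommGroup G] (t : ℕ) (a : MM G) : h (Q t a) ≤ h a + 3 * t * kap a := by
  have hk := kap_nonneg a
  have h1 : h (Q 2 a) - h (Q 1 a) ≤ 3 * kap a := by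
    have h2 := split_dil a a a 1 1
    rw [dil_one] at h2
    have h3 : h (a + a) = h a + kap a := by rw [← two_nsmul, h_two]
    have h4 : Q 2 a = a + dil 2 a := by
      rw [Q_succ, Q_one, pow_one]
    have h5 := h_le_add' a (a + dil 2 a)
    rw [← add_assoc] at h5
    have e : (1 + 1 : ℤ) = 2 := by norm_num
    rw [e] at h2
    rw [h4, Q_one]
    linarith
  induction t with
  | zero =>
    rw [Q_zero, h_zero, Nat.cast_zero]
    have := h_nonneg a
    linarith
  | succ t ih =>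
    rcases Nat.eq_zero_or_pos t with h0 | h0
    · subst h0
      rw [zero_add, Q_one]
      push_cast
      linarith
    · have h2 : h (Q (t + 1) a) - h (Q t a) ≤ h (Q 2 a) - h (Q 1 a) := by
        obtain ⟨s, rfl⟩ := Nat.exists_eq_add_of_le' h0
        clear ih h0
        induction s with
        | zero => exact le_refl _
        | succ s ih => exact (Q_conc (s + 1) a).trans ih
      push_cast
      linarith

end MM
end Pool.Agent.PFM
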