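import Pool.Agent.PFM.Pow
set_option autoImplicit false

/-!
# Heredity of sums, growth of multiples, increments of `Q`
-/
namespace Pool.Agent.PFM
open Finset Pool.Agent.Ldc

namespace MM
variable {G K L : Type}

/-- heredity inside the group -/
def HerS [AddCommGroup G] (r e : ℝ) (x : MM G) : Prop :=
  ∀ n : MM G, kap (x + n) - kap n ≤ r * (h (x + n) - h n) + e

theorem kap_zero [AddCommGroup G] : kap (0 : MM G) = 0 := by
  unfold kap
  rw [smul_zero, h_zero, sub_zero]

theorem h_two [AddCommGroup G] (x : MM G) : h (2 • x) = h x + kap x := by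
  unfold kap
  ring

theorem HerS.zero [AddCommGroup G] (r : ℝ) : HerS r 0 (0 : MM G) := by
  intro n
  rw [zero_add]
  simp

theorem HerS.add [AddCommGroup G] {r e e' : ℝ} {x y : MM G} (hx : HerS r e x) (hy : HerS r e' y) :
    HerS r (e + e') (x + y) := by
  intro n
  have h1 := hx (y + n)
  have h2 := hy n
  rw [add_assoc]
  linarith

theorem HerS.mono [AddCommGroup G] {r e e' : ℝ} {x : MM G} (hx : HerS r e x) (h : e ≤ e') :
    HerS r e' x := fun n => (hx n).trans (by linarith)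

theorem HerS.sum [AddCommGroup G] {ι : Type} (s : Finset ι) {r : ℝ} {e : ι → ℝ} {x : ι → MM G}
    (hx : ∀ i ∈ s, HerS r (e i) (x i)) : HerS r (∑ i ∈ s, e i) (∑ i ∈ s, x i) := by
  classical
  induction s using Finset.induction_on with
  | empty => rw [Finset.sum_empty, Finset.sum_empty]; exact HerS.zero r
  | insert i s hi ih =>
    rw [Finset.sum_insert hi, Finset.sum_insert hi]
    exact (hx i (Finset.mem_insert_self i s)).add
      (ih fun j hj => hx j (Finset.mem_insert_of_mem hj))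

theorem HerS.nsmul [AddCommGroup G] {r e : ℝ} {x : MM G} (hx : HerS r e x) (m : ℕ) :
    HerS r (m * e) (m • x) := by
  induction m with
  | zero =>
    rw [zero_nsmul, Nat.cast_zero, zero_mul]
    exact HerS.zero r
  | succ m ih =>
    rw [succ_nsmul]
    have := ih.add hx
    refine this.mono (le_of_eq ?_)
    push_cast
    ring

theorem HerS.kap_le [AddCommGroup G] {r e : ℝ} {x : MM G} (hx : HerS r e x) :
    kap x ≤ r * h x + e := by
  have := hx 0
  rw [add_zero, kap_zero, h_zero] at this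
  linarith

theorem Her.herS [AddCommGroup G] [AddCommGroup K] {r e : ℝ} {a : MM G} (ha : Her r e a)
    (φ : G →+ K) : HerS r e (mapHom φ a) := fun n => ha K φ n

theorem Her.map [AddCommGroup G] [AddCommGroup K] {r e : ℝ} {a : MM G} (ha : Her r e a)
    (φ : G →+ K) : Her r e (mapHom φ a) := by
  intro L _ ψ n
  rw [mapHom_comp]
  exact ha L (ψ.comp φ) n

theorem Her.herS' [AddCommGroup G] {r e : ℝ} {a : MM G} (ha : Her r e a) : HerS r e a := by
  have := ha.herS (AddMonoidHom.id G)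
  rwa [mapHom_id] at this

theorem Her.dil [AddCommGroup G] {r e : ℝ} {a : MM G} (ha : Her r e a) (n : ℤ) :
    HerS r e (dil n a) := ha.herS _

theorem Her.Q [AddCommGroup G] {r e : ℝ} {a : MM G} (ha : Her r e a) (t : ℕ) :
    HerS r (t * e) (Q t a) := by
  have := HerS.sum (range t) (r := r) (e := fun _ => e) (x := fun i => MM.dil ((2 : ℤ) ^ i) a)
    (fun i _ => ha.dil _)
  rw [Finset.sum_const, card_range, nsmul_eq_mul] at this
  exact this

/-- growth of `2^j` copies -/
theorem HerS.pow_growth [AddCommGroup G] {r e : ℝ} {x : MM G} (hx : HerS r e x) (hr : 0 ≤ r)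
    (he : 0 ≤ e) (j : ℕ) : h (2 ^ j • x) ≤ (1 + r) ^ j * (h x + 2 ^ j * e) := by
  induction j with
  | zero => simp [he]
  | succ j ih =>
    have h1 : (2 ^ (j + 1) : ℕ) • x = 2 • ((2 ^ j : ℕ) • x) := by
      rw [smul_smul, pow_succ, mul_comm]
    have h2 := (hx.nsmul (2 ^ j)).kap_le
    rw [h1, h_two]
    push_cast at h2
    have h3 : (1 : ℝ) ≤ (1 + r) ^ (j + 1) := one_le_pow₀ (by linarith)
    have h4 : (0 : ℝ) ≤ 2 ^ j * e := by positivity
    have h5 : (2 : ℝ) ^ j * e ≤ (1 + r) ^ (j + 1) * (2 ^ j * e) := le_mul_of_one_le_left h4 h3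
    have h6 : (1 + r) * h (2 ^ j • x) ≤ (1 + r) * ((1 + r) ^ j * (h x + 2 ^ j * e)) :=
      mul_le_mul_of_nonneg_left ih (by linarith)
    calc h (2 ^ j • x) + kap (2 ^ j • x) ≤ (1 + r) * h (2 ^ j • x) + 2 ^ j * e := by linarith
      _ ≤ (1 + r) * ((1 + r) ^ j * (h x + 2 ^ j * e)) + (1 + r) ^ (j + 1) * (2 ^ j * e) := by linarith
      _ = (1 + r) ^ (j + 1) * (h x + 2 ^ (j + 1) * e) := by ring

theorem h_nsmul_mono [AddCommGroup G] (x : MM G) {m n : ℕ} (hmn : m ≤ n) : h (m • x) ≤ h (n • x) := by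
  obtain ⟨d, rfl⟩ := Nat.exists_eq_add_of_le hmn
  rw [add_smul]
  exact h_le_add _ _

theorem HerS.growth [AddCommGroup G] {r e : ℝ} {x : MM G} (hx : HerS r e x) (hr : 0 ≤ r)
    (he : 0 ≤ e) {j m : ℕ} (hm : m ≤ 2 ^ j) : h (m • x) ≤ (1 + r) ^ j * (h x + 2 ^ j * e) :=
  (h_nsmul_mono x hm).trans (hx.pow_growth hr he j)

/-- more noise, smaller increment -/
theorem incr_anti [AddCommGroup G] (n n' x : MM G) : h (n + n' + x) - h (n + n') ≤ h (n + x) - h n := by
  have := h_submod n' n x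
  have e1 : n' + n + x = n + n' + x := by abel
  have e2 : n' + n = n + n' := add_comm _ _
  rw [e1, e2] at this
  linarith

/-- the last increment of `m = 2 m'` copies -/
theorem incr_le [AddCommGroup G] (x : MM G) {m : ℕ} (hm : 0 < m) :
    h ((2 * m + 1) • x) - h ((2 * m) • x) ≤ kap (m • x) / m := by
  -- the increments `h((i+1)x) - h(ix)` are nonincreasing
  have hanti : ∀ i j : ℕ, i ≤ j → h ((j + 1) • x) - h (j • x) ≤ h ((i + 1) • x) - h (i • x) := by
    intro i j hij
    obtain ⟨d, rfl⟩ := Nat.exists_eq_add_of_le hij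
    have := incr_anti (i • x) (d • x) x
    rw [← add_smul, ← succ_nsmul, ← succ_nsmul] at this
    exact this
  have h1 : (m : ℝ) * (h ((2 * m + 1) • x) - h ((2 * m) • x)) ≤ h ((2 * m) • x) - h (m • x) := by
    have h2 : ∑ i ∈ range m, (h ((m + i + 1) • x) - h ((m + i) • x))
        = h ((m + m) • x) - h ((m + 0) • x) := by
      rw [← Finset.sum_range_sub (fun i => h ((m + i) • x))]
      rfl
    rw [← two_mul, add_zero] at h2
    rw [← h2]
    have h3 : (m : ℝ) * (h ((2 * m + 1) • x) - h ((2 * m) • x))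
        = ∑ _i ∈ range m, (h ((2 * m + 1) • x) - h ((2 * m) • x)) := by
      rw [Finset.sum_const, card_range, nsmul_eq_mul]
    rw [h3]
    refine Finset.sum_le_sum fun i hi => ?_
    rw [Finset.mem_range] at hi
    exact hanti (m + i) (2 * m) (by omega)
  have h4 : kap (m • x) = h ((2 * m) • x) - h (m • x) := by
    unfold kap
    rw [smul_smul]
  have hm' : (0 : ℝ) < m := by exact_mod_cast hm
  rw [h4, le_div_iff₀ hm', mul_comm]
  exact h1

/-! increments of `Q` -/

theorem Q_zero [AddCommGroup G] (a : MM G) : Q 0 a = 0 := by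
  unfold Q
  rw [Finset.sum_range_zero]

theorem Q_succ [AddCommGroup G] (t : ℕ) (a : MM G) : Q (t + 1) a = Q t a + dil ((2 : ℤ) ^ t) a := by
  unfold Q
  rw [Finset.sum_range_succ]

theorem Q_succ' [AddCommGroup G] (t : ℕ) (a : MM G) : Q (t + 1) a = dil 2 (Q t a) + a := by
  unfold Q
  rw [Finset.sum_range_succ', pow_zero, dil_one, map_sum]
  congr 1
  refine Finset.sum_congr rfl fun i _ => ?_
  rw [dil_dil, pow_succ, mul_comm]

theorem Q_conc [AddCommGroup G] (t : ℕ) (a : MM G) :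
    h (Q (t + 2) a) - h (Q (t + 1) a) ≤ h (Q (t + 1) a) - h (Q t a) := by
  have h1 : Q (t + 2) a = dil 2 (Q t a) + a + dil 2 (dil ((2 : ℤ) ^ t) a) := by
    rw [Q_succ' (t + 1), Q_succ t, map_add]
    abel
  have h2 := incr_anti (dil 2 (Q t a)) a (dil 2 (dil ((2 : ℤ) ^ t) a))
  rw [← h1, ← Q_succ' t] at h2
  have h3 := h_map_incr (Q t a) (dil ((2 : ℤ) ^ t) a) (zsmulAddGroupHom (2 : ℤ) : G →+ G)
  rw [map_add, ← Q_succ] at h3
  refine h2.trans (le_trans (le_of_eq ?_) h3)
  rfl

theorem Q_mono [AddCommGroup G] {s t : ℕ} (hst : s ≤ t) (a : MM G) : h (Q s a) ≤ h (Q t a) := by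
  induction t, hst using Nat.le_induction with
  | base => exact le_refl _
  | succ t _ ih =>
    rw [Q_succ]
    exact ih.trans (h_le_add _ _)

/-- concavity: `t h(Q_(t+b)) ≤ (t + b) h(Q_t)` -/
theorem Q_ratio [AddCommGroup G] (t b : ℕ) (a : MM G) :
    (t : ℝ) * h (Q (t + b) a) ≤ (t + b) * h (Q t a) := by
  have hanti : ∀ i j : ℕ, i ≤ j → h (Q (j + 1) a) - h (Q j a) ≤ h (Q (i + 1) a) - h (Q i a) := by
    intro i j hij
    induction j, hij using Nat.le_induction with
    | base => exact le_refl _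
    | succ j _ ih => exact (Q_conc j a).trans ih
  have h1 : (t : ℝ) * (h (Q (t + 1) a) - h (Q t a)) ≤ h (Q t a) := by
    have h2 : ∑ i ∈ range t, (h (Q (i + 1) a) - h (Q i a)) = h (Q t a) := by
      rw [Finset.sum_range_sub (fun i => h (Q i a)), Q_zero, h_zero, sub_zero]
    have h3 : (t : ℝ) * (h (Q (t + 1) a) - h (Q t a))
        = ∑ _i ∈ range t, (h (Q (t + 1) a) - h (Q t a)) := by
      rw [Finset.sum_const, card_range, nsmul_eq_mul]
    calc (t : ℝ) * (h (Q (t + 1) a) - h (Q t a))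
        = ∑ _i ∈ range t, (h (Q (t + 1) a) - h (Q t a)) := h3
      _ ≤ ∑ i ∈ range t, (h (Q (i + 1) a) - h (Q i a)) := by
        refine Finset.sum_le_sum fun i hi => ?_
        rw [Finset.mem_range] at hi
        exact hanti i t hi.le
      _ = h (Q t a) := h2
  have h4 : h (Q (t + b) a) - h (Q t a) ≤ b * (h (Q (t + 1) a) - h (Q t a)) := by
    have h5 : ∑ i ∈ range b, (h (Q (t + (i + 1)) a) - h (Q (t + i) a)) = h (Q (t + b) a) - h (Q (t + 0) a) :=
      Finset.sum_range_sub (fun i => h (Q (t + i) a)) b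
    rw [add_zero] at h5
    rw [← h5]
    have h6 : (b : ℝ) * (h (Q (t + 1) a) - h (Q t a))
        = ∑ _i ∈ range b, (h (Q (t + 1) a) - h (Q t a)) := by
      rw [Finset.sum_const, card_range, nsmul_eq_mul]
    rw [h6]
    exact Finset.sum_le_sum fun i _ => hanti t (t + i) (by omega)
  have h7 : (t : ℝ) * (h (Q (t + b) a) - h (Q t a)) ≤ b * h (Q t a) := by
    calc (t : ℝ) * (h (Q (t + b) a) - h (Q t a)) ≤ t * (b * (h (Q (t + 1) a) - h (Q t a))) :=
          mul_le_mul_of_nonneg_left h4 (Nat.cast_nonneg t)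
      _ = b * (t * (h (Q (t + 1) a) - h (Q t a))) := by ring
      _ ≤ b * h (Q t a) := mul_le_mul_of_nonneg_left h1 (Nat.cast_nonneg b)
  linarith

end MM
end Pool.Agent.PFM
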