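import Pool.Agent.PFM.MFin
set_option autoImplicit false

/-!
# MAll.  All abelian groups: from the structure theorem `RStat` to the statement of S11517.
-/
namespace Pool.Agent.PFM
open scoped Pointwise
open Pool.Agent.NPM

private theorem mall_one_le (G : Type) [AddCommGroup G] [DecidableEq G] (A : Finset G) (K : ℝ)
    (hA : A.Nonempty) (hK : ((A + A).card : ℝ) ≤ K * (A.card : ℝ)) : 1 ≤ K := by
  have h1 : A.card ≤ (A + A).card := Finset.card_le_card_add_right hA
  have h2 : (0 : ℝ) < (A.card : ℝ) := by exact_mod_cast hA.card_pos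
  have h3 : (A.card : ℝ) ≤ ((A + A).card : ℝ) := by exact_mod_cast h1
  by_contra hc
  push Not at hc
  nlinarith

private theorem mall_card_add {G G' : Type} [AddCommGroup G] [AddCommGroup G'] [DecidableEq G]
    [DecidableEq G'] (A : Finset G) (g : G → G')
    (hg : ∀ x ∈ A, ∀ y ∈ A, ∀ z ∈ A, ∀ w ∈ A, (x + y = z + w ↔ g x + g y = g z + g w)) :
    (A.image g + A.image g).card ≤ (A + A).card := by
  classical
  let F : G → G' := fun s =>
    if h : ∃ p : G × G, p.1 ∈ A ∧ p.2 ∈ A ∧ p.1 + p.2 = s then g h.choose.1 + g h.choose.2 else 0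
  have hsub : A.image g + A.image g ⊆ (A + A).image F := by
    intro b hb
    rw [Finset.mem_add] at hb
    obtain ⟨u, hu, v, hv, rfl⟩ := hb
    rw [Finset.mem_image] at hu hv
    obtain ⟨x, hx, rfl⟩ := hu
    obtain ⟨y, hy, rfl⟩ := hv
    rw [Finset.mem_image]
    refine ⟨x + y, Finset.add_mem_add hx hy, ?_⟩
    have hex : ∃ p : G × G, p.1 ∈ A ∧ p.2 ∈ A ∧ p.1 + p.2 = x + y := ⟨(x, y), hx, hy, rfl⟩
    have hF : F (x + y) = g hex.choose.1 + g hex.choose.2 := by
      simp only [F, dif_pos hex]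
    rw [hF]
    obtain ⟨h1, h2, h3⟩ := hex.choose_spec
    exact (hg _ h1 _ h2 _ hx _ hy).1 h3
  exact (Finset.card_le_card hsub).trans Finset.card_image_le

/-- polynomial bounds in every abelian group -/
theorem all_case (h : RStat) : ∃ C : ℝ, 0 < C ∧
    ∀ (G : Type) [AddCommGroup G] [DecidableEq G] (A : Finset G) (K : ℝ),
      A.Nonempty → (((A + A).card : ℝ) ≤ K * (A.card : ℝ)) →
        1 ≤ K ∧ ∃ A' : Finset G, A' ⊆ A ∧
          Real.exp (-(C * (1 + Real.log K))) * (A.card : ℝ) ≤ (A'.card : ℝ) ∧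
          ∃ (H : Type) (_ : AddCommGroup H) (_ : Fintype H) (f : G → H),
            (Fintype.card H : ℝ) ≤ Real.exp (C * (1 + Real.log K)) * (A'.card : ℝ) ∧
            ∀ a ∈ A', ∀ b ∈ A', ∀ c ∈ A', ∀ d ∈ A', (a + b = c + d ↔ f a + f b = f c + f d) := by
  obtain ⟨C, hC, hfin⟩ := fin_case h
  refine ⟨C, hC, ?_⟩
  intro G _ _ A K hA hK
  have hK1 : 1 ≤ K := mall_one_le G A K hA hK
  refine ⟨hK1, ?_⟩
  obtain ⟨G', _, _, g, hg⟩ := red_finite G A
  have ginj : Set.InjOn g (A : Set G) := by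
    intro x hx y hy h
    have h1 : x + x = y + x := (hg x hx x hx y hy x hx).2 (by rw [h])
    exact add_right_cancel h1
  classical
  have hBcard : (A.image g).card = A.card := Finset.card_image_of_injOn ginj
  have hBB : ((A.image g + A.image g).card : ℝ) ≤ K * ((A.image g).card : ℝ) := by
    rw [hBcard]
    refine le_trans ?_ hK
    have h' : (A.image g + A.image g).card ≤ (A + A).card := mall_card_add A g hg
    exact_mod_cast h'
  obtain ⟨B', hB'B, hB'card, H, iH, iHF, f, hH, hf⟩ := hfin G' (A.image g) K (hA.image g) hK1 hBB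
  have hB'eq : (A.filter (fun x => g x ∈ B')).image g = B' := by
    ext b
    rw [Finset.mem_image]
    constructor
    · rintro ⟨x, hx, rfl⟩
      exact (Finset.mem_filter.1 hx).2
    · intro hb
      have hb2 := hB'B hb
      rw [Finset.mem_image] at hb2
      obtain ⟨x, hx, rfl⟩ := hb2
      exact ⟨x, Finset.mem_filter.2 ⟨hx, hb⟩, rfl⟩
  have hcard : (A.filter (fun x => g x ∈ B')).card = B'.card := by
    conv_rhs => rw [← hB'eq]
    refine (Finset.card_image_of_injOn ?_).symm
    intro x hx y hy h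
    have hx' := (Finset.mem_filter.1 (Finset.mem_coe.1 hx)).1
    have hy' := (Finset.mem_filter.1 (Finset.mem_coe.1 hy)).1
    exact ginj hx' hy' h
  refine ⟨A.filter (fun x => g x ∈ B'), Finset.filter_subset _ _, ?_, H, iH, iHF, fun x => f (g x),
    ?_, ?_⟩
  · rw [hcard, ← hBcard]
    exact hB'card
  · rw [hcard]
    exact hH
  · intro a ha b hb c hc d hd
    have ha' := Finset.mem_filter.1 ha
    have hb' := Finset.mem_filter.1 hb
    have hc' := Finset.mem_filter.1 hc
    have hd' := Finset.mem_filter.1 hd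
    exact (hg a ha'.1 b hb'.1 c hc'.1 d hd'.1).trans
      (hf _ ha'.2 _ hb'.2 _ hc'.2 _ hd'.2)

private theorem mall_iso {G H : Type} [AddCommGroup G] [AddCommGroup H] (A : Set G) (f : G → H)
    (h : ∀ a ∈ A, ∀ b ∈ A, ∀ c ∈ A, ∀ d ∈ A, (a + b = c + d ↔ f a + f b = f c + f d)) :
    IsAddFreimanIso 2 A (f '' A) f := by
  rw [isAddFreimanIso_two]
  refine ⟨Set.InjOn.bijOn_image ?_, ?_⟩
  · intro x hx y hy hxy
    have := (h x hx x hx y hy x hx).2 (by rw [hxy])
    exact add_right_cancel this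
  · intro x hx y hy z hz w hw
    exact (h x hx y hy z hz w hw).symm

/-- the statement of S11517 -/
theorem final_of_RStat (h : RStat) :
    ∃ C : ℝ, 0 < C ∧
      ∀ (G : Type) [AddCommGroup G] [DecidableEq G] (A : Finset G) (K : ℝ),
        A.Nonempty → (((A + A).card : ℝ) ≤ K * (A.card : ℝ)) →
          ∃ A' : Finset G, A' ⊆ A ∧
            C⁻¹ * K ^ (-C) * (A.card : ℝ) ≤ (A'.card : ℝ) ∧
            ∃ (H : Type) (_ : AddCommGroup H) (_ : Fintype H),
              (Fintype.card H : ℝ) ≤ C * K ^ C * (A'.card : ℝ) ∧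
              ∃ (B : Set H) (f : G → H), IsAddFreimanIso 2 (A' : Set G) B f := by
  obtain ⟨C, hC, hall⟩ := all_case h
  refine ⟨Real.exp C + C, by positivity, ?_⟩
  intro G _ _ A K hA hK
  obtain ⟨hK1, A', hA', hc, H, i1, i2, f, hH, hf⟩ := hall G A K hA hK
  have hK0 : 0 < K := by linarith
  have e1 : Real.exp (C * (1 + Real.log K)) = Real.exp C * K ^ C := by
    rw [Real.rpow_def_of_pos hK0, ← Real.exp_add]
    congr 1
    ring
  have e0 : (1 : ℝ) ≤ Real.exp C := Real.one_le_exp hC.le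
  have e2 : K ^ C ≤ K ^ (Real.exp C + C) :=
    Real.rpow_le_rpow_of_exponent_le hK1 (by linarith [Real.exp_pos C])
  have e3 : 0 < K ^ C := Real.rpow_pos_of_pos hK0 _
  have e4 : Real.exp C * K ^ C ≤ (Real.exp C + C) * K ^ (Real.exp C + C) :=
    mul_le_mul (by linarith) e2 e3.le (by positivity)
  refine ⟨A', hA', ?_, H, i1, i2, ?_, f '' A', f, mall_iso _ f (by simpa using hf)⟩
  · refine le_trans ?_ hc
    refine mul_le_mul_of_nonneg_right ?_ (Nat.cast_nonneg _)
    rw [Real.exp_neg, e1, Real.rpow_neg hK0.le, ← mul_inv]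
    exact inv_anti₀ (by positivity) e4
  · refine hH.trans ?_
    rw [e1]
    exact mul_le_mul_of_nonneg_right e4 (Nat.cast_nonneg _)

end Pool.Agent.PFM
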