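import Pool.Agent.PFM.MGen
set_option autoImplicit false

/-!
# MArc.  Cells on which finitely many characters are almost constant.

The circle is cut into 29 arcs by `⌊14 arg / π⌋ ∈ [-14, 14]`.
-/
namespace Pool.Agent.PFM

private theorem marc_norm (α β : ℝ) (h : |α - β| ≤ Real.pi / 14) :
    ‖Complex.exp (α * Complex.I) - Complex.exp (β * Complex.I)‖ ^ 2 ≤ 2 / 35 := by
  have h1 : Complex.exp (α * Complex.I) - Complex.exp (β * Complex.I) =
      Complex.exp (β * Complex.I) * (Complex.exp (Complex.I * ((α - β : ℝ) : ℂ)) - 1) := by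
    rw [mul_sub, mul_one, ← Complex.exp_add]
    congr 2
    push_cast
    ring
  have h2 : ‖Complex.exp (α * Complex.I) - Complex.exp (β * Complex.I)‖ ≤ |α - β| := by
    rw [h1, norm_mul, Complex.norm_exp_ofReal_mul_I, one_mul]
    have := Real.norm_exp_I_mul_ofReal_sub_one_le (x := α - β)
    rwa [Real.norm_eq_abs] at this
  have h3 : ‖Complex.exp (α * Complex.I) - Complex.exp (β * Complex.I)‖ ≤ 0.225 := by
    have hpi := Real.pi_lt_d2
    linarith
  have h4 := norm_nonneg (Complex.exp (α * Complex.I) - Complex.exp (β * Complex.I))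
  nlinarith

private theorem marc_char {G : Type} [AddCommGroup G] [Finite G] (ξ : AddChar G ℂ) (x y : G)
    (h : ⌊(ξ x).arg * (14 / Real.pi)⌋ = ⌊(ξ y).arg * (14 / Real.pi)⌋) :
    ‖ξ (x - y) - 1‖ ^ 2 ≤ 2 / 35 := by
  have hpi := Real.pi_pos
  have h1 := Int.abs_sub_lt_one_of_floor_eq_floor h
  have h2 : |(ξ x).arg - (ξ y).arg| ≤ Real.pi / 14 := by
    have h3 : (ξ x).arg * (14 / Real.pi) - (ξ y).arg * (14 / Real.pi) = ((ξ x).arg - (ξ y).arg) * (14 / Real.pi) := by
      ring
    rw [h3, abs_mul, abs_of_pos (by positivity : 0 < 14 / Real.pi)] at h1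
    have h4 : |(ξ x).arg - (ξ y).arg| < 1 / (14 / Real.pi) := by
      rw [lt_div_iff₀ (by positivity)]
      exact h1
    rw [one_div_div] at h4
    exact h4.le
  have hn : ∀ z : G, ‖ξ z‖ = 1 := fun z => AddChar.norm_apply _ _
  have hz : ∀ z : G, ξ z = Complex.exp ((ξ z).arg * Complex.I) := by
    intro z
    have := Complex.norm_mul_exp_arg_mul_I (ξ z)
    rw [hn z] at this
    simpa using this.symm
  have hy0 : ξ y ≠ 0 := by
    intro h0
    have := hn y
    rw [h0, norm_zero] at this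
    exact one_ne_zero this.symm
  have h5 : ‖ξ (x - y) - 1‖ = ‖ξ x - ξ y‖ := by
    have e : ξ x - ξ y = ξ y * (ξ (x - y) - 1) := by
      have : ξ x = ξ y * ξ (x - y) := by
        rw [← AddChar.map_add_eq_mul]
        congr 1
        abel
      rw [this]
      ring
    rw [e, norm_mul, hn y, one_mul]
  rw [h5, hz x, hz y]
  exact marc_norm _ _ h2

private theorem marc_floor (t : ℝ) (h1 : -Real.pi < t) (h2 : t ≤ Real.pi) :
    ⌊t * (14 / Real.pi)⌋ ∈ Finset.Icc (-14 : ℤ) 14 := by
  have hpi := Real.pi_pos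
  have e : Real.pi * (14 / Real.pi) = 14 := by field_simp
  have h3 : (0 : ℝ) < 14 / Real.pi := by positivity
  rw [Finset.mem_Icc]
  constructor
  · rw [Int.le_floor]
    push_cast
    nlinarith
  · have : ((⌊t * (14 / Real.pi)⌋ : ℤ) : ℝ) ≤ 14 := (Int.floor_le _).trans (by nlinarith)
    exact_mod_cast this

/-- A finite set of `n` characters is almost constant on a subset of relative size `≥ 30 ^ (-n)`. -/
theorem arcs {G : Type} [AddCommGroup G] [Finite G] {n : ℕ} (s : Fin n → AddChar G ℂ) (B : Finset G)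
    (hB : B.Nonempty) :
    ∃ A1 : Finset G, A1 ⊆ B ∧ A1.Nonempty ∧ (B.card : ℝ) ≤ 30 ^ n * (A1.card : ℝ) ∧
      ∀ x ∈ A1, ∀ y ∈ A1, ∀ i, ‖s i (x - y) - 1‖ ^ 2 ≤ 2 / 35 := by
  classical
  induction n with
  | zero => exact ⟨B, subset_rfl, hB, by simp, fun x _ y _ i => i.elim0⟩
  | succ n ih =>
    obtain ⟨A1, h1, h2, h3, h4⟩ := ih (fun i => s i.castSucc)
    have hne : (Finset.Icc (-14 : ℤ) 14).Nonempty := ⟨0, by simp⟩
    obtain ⟨c, _, hc⟩ := Finset.exists_le_card_fiber_of_nsmul_le_card_of_maps_to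
      (s := A1) (t := Finset.Icc (-14 : ℤ) 14) (f := fun x => ⌊(s (Fin.last n) x).arg * (14 / Real.pi)⌋)
      (b := (A1.card : ℝ) / 30)
      (fun x _ => marc_floor _ (Complex.neg_pi_lt_arg _) (Complex.arg_le_pi _)) hne (by
        have : (Finset.Icc (-14 : ℤ) 14).card = 29 := by decide
        rw [this, nsmul_eq_mul]
        have : (0 : ℝ) ≤ A1.card := Nat.cast_nonneg _
        push_cast
        linarith)
    have hpos : (0 : ℝ) < A1.card := by exact_mod_cast h2.card_pos
    refine ⟨A1.filter (fun x => ⌊(s (Fin.last n) x).arg * (14 / Real.pi)⌋ = c),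
      (Finset.filter_subset _ _).trans h1, ?_, ?_, ?_⟩
    · rw [← Finset.card_pos]
      have : (0 : ℝ) < ((A1.filter (fun x => ⌊(s (Fin.last n) x).arg * (14 / Real.pi)⌋ = c)).card : ℝ) := by
        linarith
      exact_mod_cast this
    · rw [pow_succ]
      have h5 : (A1.card : ℝ) ≤ 30 * ((A1.filter (fun x => ⌊(s (Fin.last n) x).arg * (14 / Real.pi)⌋ = c)).card : ℝ) := by
        linarith
      calc (B.card : ℝ) ≤ 30 ^ n * (A1.card : ℝ) := h3
        _ ≤ 30 ^ n * (30 * ((A1.filter (fun x => ⌊(s (Fin.last n) x).arg * (14 / Real.pi)⌋ = c)).card : ℝ)) := by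
          gcongr
        _ = _ := by ring
    · intro x hx y hy i
      rw [Finset.mem_filter] at hx hy
      refine Fin.lastCases ?_ (fun j => ?_) i
      · exact marc_char _ _ _ (hx.2.trans hy.2.symm)
      · exact h4 x hx.1 y hy.1 j

end Pool.Agent.PFM
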