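import Pool.Agent.PFM.MArc
set_option autoImplicit false

/-!
# MFin.  From the structure theorem `RStat` to good models in finite groups.
-/
namespace Pool.Agent.PFM
open scoped Pointwise
open Pool.Agent.NPM

private theorem mfin_inst {G : Type} [AddCommGroup G] (i1 i2 : DecidableEq G) (B : Finset G) :
    (@HAdd.hAdd (Finset G) (Finset G) (Finset G) (@instHAdd _ (@Finset.add G i1 _)) B B).card =
      (@HAdd.hAdd (Finset G) (Finset G) (Finset G) (@instHAdd _ (@Finset.add G i2 _)) B B).card := by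
  cases Subsingleton.elim i1 i2
  rfl

private theorem mfin_ann {G : Type} [AddCommGroup G] (T : AddSubgroup (AddChar G ℂ)) {n : ℕ} (s : Fin n → T)
    (hs : AddSubgroup.closure (Set.range s) = ⊤) :
    Ann (Set.range fun i => ((s i : T) : AddChar G ℂ)) = Ann (T : Set (AddChar G ℂ)) := by
  ext g
  constructor
  · intro hg ξ hξ
    have h1 : (⟨ξ, hξ⟩ : T) ∈ AddSubgroup.closure (Set.range s) := by rw [hs]; trivial
    have h2 : ∀ t ∈ AddSubgroup.closure (Set.range s), ((t : T) : AddChar G ℂ) g = 1 := by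
      intro t ht
      induction ht using AddSubgroup.closure_induction with
      | mem t ht =>
        obtain ⟨i, rfl⟩ := ht
        exact hg _ ⟨i, rfl⟩
      | zero => simp
      | add a b _ _ ha hb =>
        rw [AddSubgroup.coe_add, AddChar.add_apply, ha, hb, one_mul]
      | neg a _ ha =>
        rw [AddSubgroup.coe_neg, AddChar.neg_apply, AddChar.map_neg_eq_inv, ha, inv_one]
    exact h2 _ h1
  · intro hg ξ hξ
    obtain ⟨i, rfl⟩ := hξ
    exact hg _ (s i).2

open Classical in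
private theorem mfin_ker {G : Type} [AddCommGroup G] [Fintype G] (T : AddSubgroup (AddChar G ℂ)) (q n : ℕ)
    (h : (Finset.univ.filter (fun ξ : AddChar G ℂ => ξ ∈ T ∧ q • ξ = 0)).card ≤ n) :
    Nat.card (nsmulAddMonoidHom (α := T) q).ker ≤ n := by
  refine le_trans ?_ h
  rw [← Fintype.card_subtype, ← Nat.card_eq_fintype_card]
  refine Nat.card_le_card_of_injective (fun t => ⟨((t : T) : AddChar G ℂ), (t : T).2, ?_⟩) ?_
  · have h1 : q • (t : T) = 0 := t.2
    have h2 : ((q • (t : T) : T) : AddChar G ℂ) = ((0 : T) : AddChar G ℂ) := by rw [h1]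
    rwa [AddSubgroup.coe_nsmul, AddSubgroup.coe_zero] at h2
  · intro a b hab
    simp only [Subtype.mk.injEq] at hab
    exact Subtype.ext (Subtype.ext hab)

open Classical in
theorem fin_case (h : RStat) : ∃ C : ℝ, 0 < C ∧
    ∀ (G : Type) [AddCommGroup G] [Fintype G] (A : Finset G) (K : ℝ),
      A.Nonempty → 1 ≤ K → (((A + A).card : ℝ) ≤ K * (A.card : ℝ)) →
        ∃ A' : Finset G, A' ⊆ A ∧
          Real.exp (-(C * (1 + Real.log K))) * (A.card : ℝ) ≤ (A'.card : ℝ) ∧
          ∃ (H : Type) (_ : AddCommGroup H) (_ : Fintype H) (f : G → H),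
            (Fintype.card H : ℝ) ≤ Real.exp (C * (1 + Real.log K)) * (A'.card : ℝ) ∧
            ∀ a ∈ A', ∀ b ∈ A', ∀ c ∈ A', ∀ d ∈ A', (a + b = c + d ↔ f a + f b = f c + f d) := by
  obtain ⟨C, hC, hR⟩ := h
  refine ⟨10 * C + 2, by linarith, ?_⟩
  intro G _ _ A K hA hK1 hK
  obtain ⟨V, x, B, B', T, R, hB, hB', hBA, hdens, hdbl, hRC, htor, hB'c, hF⟩ := hR G A K hA hK1 hK
  set k : ℝ := 1 + Real.log K with hk
  have hk1 : 1 ≤ k := by
    have := Real.log_nonneg hK1
    linarith
  set E : ℝ := Real.exp (C * k) with hE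
  have hE0 : 0 < E := Real.exp_pos _
  have hE1 : 1 ≤ E := by
    rw [hE]
    exact Real.one_le_exp (by positivity)
  have hEinv : Real.exp (-(C * k)) = E⁻¹ := by rw [hE, Real.exp_neg]
  rw [hEinv] at hdens hB'c
  have hApos : (0 : ℝ) < A.card := by exact_mod_cast hA.card_pos
  have hBpos : (0 : ℝ) < B.card := by exact_mod_cast hB.card_pos
  have hB'pos : (0 : ℝ) < B'.card := lt_of_lt_of_le (by positivity) hB'c
  have hB'ne : B'.Nonempty := by
    rw [← Finset.card_pos]
    exact_mod_cast hB'pos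
  -- generators
  obtain ⟨s, hs⟩ := gen_of_torsion T R (fun q hq => mfin_ker T q _ (htor q hq))
  have hann := mfin_ann T s hs
  obtain ⟨A1, hA1, hA1ne, hA1c, hA1s⟩ := arcs (fun i => ((s i : T) : AddChar V ℂ)) B' hB'ne
  obtain ⟨x₀, hx₀⟩ := hA1ne
  -- the model
  obtain ⟨A2, hA2, hA2c, H, i1, i2, f, hH, hf⟩ := combi (G := V) B hB E hE1
    (by rw [mfin_inst _ _ B]; exact hdbl) (Set.range fun i => ((s i : T) : AddChar V ℂ)) x₀ E hE0 A1
    (hA1.trans hB') ⟨x₀, hx₀⟩
    (by
      rintro y hy ξ ⟨i, rfl⟩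
      exact hA1s y hy x₀ hx₀ i)
    (by
      intro y hy
      rw [hann]
      have h1 := hF y (hA1 hy)
      rw [hEinv] at h1
      have h2 : (Nat.card (Ann (T : Set (AddChar V ℂ))) : ℝ) =
          E * (E⁻¹ * (Nat.card (Ann (T : Set (AddChar V ℂ))) : ℝ)) := by
        field_simp
      rw [h2]
      exact mul_le_mul_of_nonneg_left h1 hE0.le)
  have h30 : (30 : ℝ) ^ R ≤ Real.exp (4 * (C * k)) := by
    have e1 : (30 : ℝ) ≤ Real.exp 4 := by
      have h1 : Real.exp 4 = Real.exp 1 ^ 4 := by rw [← Real.exp_nat_mul]; norm_num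
      have h2 := Real.exp_one_gt_d9
      rw [h1]
      have h3 : (2.7182818283 : ℝ) ^ 4 ≤ Real.exp 1 ^ 4 := pow_le_pow_left₀ (by norm_num) h2.le 4
      exact le_trans (by norm_num) h3
    calc (30 : ℝ) ^ R ≤ Real.exp 4 ^ R := pow_le_pow_left₀ (by norm_num) e1 R
      _ = Real.exp (4 * R) := by rw [← Real.exp_nat_mul]; ring_nf
      _ ≤ Real.exp (4 * (C * k)) := Real.exp_le_exp.2 (by linarith)
  have h30' : Real.exp (4 * (C * k)) = E ^ 4 := by
    rw [hE, ← Real.exp_nat_mul]
    norm_num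
  rw [h30'] at h30
  have he2 : (4 : ℝ) ≤ Real.exp (2 * k) := by
    have h1 : Real.exp 2 ≤ Real.exp (2 * k) := Real.exp_le_exp.2 (by linarith)
    have h2 : Real.exp 2 = Real.exp 1 ^ 2 := by rw [← Real.exp_nat_mul]; norm_num
    have h3 := Real.exp_one_gt_d9
    nlinarith
  have hsplit : Real.exp ((10 * C + 2) * k) = E ^ 10 * Real.exp (2 * k) := by
    rw [hE, ← Real.exp_nat_mul, ← Real.exp_add]
    congr 1
    push_cast
    ring
  have hA2pos : (0 : ℝ) ≤ A2.card := Nat.cast_nonneg _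
  -- `|B| ≤ 2 E^5 |A2|`
  have hBA2 : (B.card : ℝ) ≤ 2 * E ^ 5 * (A2.card : ℝ) := by
    have h1 : (B.card : ℝ) = E * (E⁻¹ * (B.card : ℝ)) := by field_simp
    calc (B.card : ℝ) = E * (E⁻¹ * (B.card : ℝ)) := h1
      _ ≤ E * (B'.card : ℝ) := mul_le_mul_of_nonneg_left hB'c hE0.le
      _ ≤ E * (30 ^ R * (A1.card : ℝ)) := mul_le_mul_of_nonneg_left hA1c hE0.le
      _ ≤ E * (E ^ 4 * (2 * (A2.card : ℝ))) := by
        refine mul_le_mul_of_nonneg_left ?_ hE0.le
        exact mul_le_mul h30 hA2c (Nat.cast_nonneg _) (by positivity)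
      _ = 2 * E ^ 5 * (A2.card : ℝ) := by ring
  have hAB : (A.card : ℝ) ≤ E * (B.card : ℝ) := by
    have h1 : (A.card : ℝ) = E * (E⁻¹ * (A.card : ℝ)) := by field_simp
    rw [h1]
    exact mul_le_mul_of_nonneg_left hdens hE0.le
  set g : V → G := fun v => x + (v : G) with hg
  have hginj : Function.Injective g := by
    intro a b hab
    exact Subtype.ext (add_left_cancel hab)
  refine ⟨A2.image g, ?_, ?_, H, i1, i2, fun y => if hy : y - x ∈ V then f ⟨y - x, hy⟩ else 0, ?_, ?_⟩
  · intro y hy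
    obtain ⟨v, hv, rfl⟩ := Finset.mem_image.1 hy
    exact hBA v (hB' (hA1 (hA2 hv)))
  · rw [Finset.card_image_of_injective _ hginj, Real.exp_neg, hsplit, inv_mul_le_iff₀ (by positivity)]
    calc (A.card : ℝ) ≤ E * (B.card : ℝ) := hAB
      _ ≤ E * (2 * E ^ 5 * (A2.card : ℝ)) := mul_le_mul_of_nonneg_left hBA2 hE0.le
      _ = E ^ 6 * 2 * (A2.card : ℝ) := by ring
      _ ≤ E ^ 10 * Real.exp (2 * k) * (A2.card : ℝ) := by
        refine mul_le_mul_of_nonneg_right ?_ hA2pos
        exact mul_le_mul (pow_le_pow_right₀ hE1 (by norm_num)) (by linarith) (by norm_num) (by positivity)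
  · rw [Finset.card_image_of_injective _ hginj, hsplit]
    calc (Fintype.card H : ℝ) ≤ 2 * E * E ^ 4 * (B.card : ℝ) := hH
      _ ≤ 2 * E * E ^ 4 * (2 * E ^ 5 * (A2.card : ℝ)) := mul_le_mul_of_nonneg_left hBA2 (by positivity)
      _ = E ^ 10 * 4 * (A2.card : ℝ) := by ring
      _ ≤ E ^ 10 * Real.exp (2 * k) * (A2.card : ℝ) := by
        refine mul_le_mul_of_nonneg_right ?_ hA2pos
        exact mul_le_mul_of_nonneg_left he2 (by positivity)
  · have hfg : ∀ v : V, (if hy : g v - x ∈ V then f ⟨g v - x, hy⟩ else 0) = f v := by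
      intro v
      have h1 : g v - x = (v : G) := by rw [hg]; exact add_sub_cancel_left x (v : G)
      have h2 : g v - x ∈ V := by rw [h1]; exact v.2
      rw [dif_pos h2]
      congr 1
      exact Subtype.ext h1
    intro a' ha' b' hb' c' hc' d' hd'
    obtain ⟨a, ha, rfl⟩ := Finset.mem_image.1 ha'
    obtain ⟨b, hb, rfl⟩ := Finset.mem_image.1 hb'
    obtain ⟨c, hc, rfl⟩ := Finset.mem_image.1 hc'
    obtain ⟨d, hd, rfl⟩ := Finset.mem_image.1 hd'
    simp only [hfg]
    rw [← hf a ha b hb c hc d hd]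
    constructor
    · intro h1
      refine Subtype.ext ?_
      have h2 : (x + x) + ((a : G) + (b : G)) = (x + x) + ((c : G) + (d : G)) := by
        have : x + (a : G) + (x + (b : G)) = x + (c : G) + (x + (d : G)) := h1
        calc (x + x) + ((a : G) + (b : G)) = x + (a : G) + (x + (b : G)) := by abel
          _ = x + (c : G) + (x + (d : G)) := this
          _ = _ := by abel
      exact add_left_cancel h2
    · intro h1
      have h2 : ((a : G) + (b : G)) = ((c : G) + (d : G)) := congrArg Subtype.val h1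
      change x + (a : G) + (x + (b : G)) = x + (c : G) + (x + (d : G))
      calc x + (a : G) + (x + (b : G)) = (x + x) + ((a : G) + (b : G)) := by abel
        _ = (x + x) + ((c : G) + (d : G)) := by rw [h2]
        _ = _ := by abel

end Pool.Agent.PFM
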