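import Pool.Agent.PFM.MIf
set_option autoImplicit false

/-!
# MGen.  A finite abelian group all of whose `q`-torsion subgroups (`q` prime) have at most `q ^ R` elements is
generated by `R` elements.

For every prime `q` the group `T / qT` has as many elements as the `q`-torsion subgroup; it is a vector space over
`ZMod q`, so it is generated by `R` elements.  Lifts for the primes dividing `|T|` are combined by the Chinese remainder
theorem; the subgroup `S` generated by the combined lifts satisfies `S + qT = T` for every prime `q` dividing `|T|`, so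
multiplication by `q` is surjective, hence injective on `T / S`, and `T = S` by Cauchy's theorem.
-/
namespace Pool.Agent.PFM

private theorem mgen_elem' (q : ℕ) [Fact q.Prime] (Q : Type) [AddCommGroup Q] [Module (ZMod q) Q] [Finite Q]
    (R : ℕ) (hc : Nat.card Q ≤ q ^ R) :
    ∃ s : Fin R → Q, AddSubgroup.closure (Set.range s) = ⊤ := by
  have hfin : Module.Finite (ZMod q) Q := Module.Finite.of_finite
  obtain ⟨d, hd⟩ : ∃ d, d = Module.finrank (ZMod q) Q := ⟨_, rfl⟩
  have hcard : Nat.card Q = q ^ d := by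
    have h := Module.natCard_eq_pow_finrank (K := ZMod q) (V := Q)
    rw [Nat.card_zmod, ← hd] at h
    exact h
  have hdR : d ≤ R := by
    rw [hcard] at hc
    exact (Nat.pow_le_pow_iff_right (Fact.out : q.Prime).one_lt).1 hc
  have b : Module.Basis (Fin d) (ZMod q) Q := hd ▸ Module.finBasis (ZMod q) Q
  refine ⟨fun i => if h : (i : ℕ) < d then b ⟨i, h⟩ else 0, ?_⟩
  rw [eq_top_iff]
  intro x _
  have hx := b.sum_repr x
  rw [← hx]
  refine AddSubgroup.sum_mem _ fun i _ => ?_
  have h1 : b i ∈ AddSubgroup.closure (Set.range fun i : Fin R => if h : (i : ℕ) < d then b ⟨i, h⟩ else 0) := by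
    refine AddSubgroup.subset_closure ⟨⟨i, i.2.trans_le hdR⟩, ?_⟩
    simp
  have h2 : (b.repr x i) • b i = (b.repr x i).val • b i := by
    conv_lhs => rw [← ZMod.natCast_zmod_val (b.repr x i)]
    rw [Nat.cast_smul_eq_nsmul]
  rw [h2]
  exact AddSubgroup.nsmul_mem _ h1 _

private theorem mgen_elem (q : ℕ) [Fact q.Prime] (Q : Type) [AddCommGroup Q] [Finite Q] (R : ℕ)
    (hq : ∀ x : Q, q • x = 0) (hc : Nat.card Q ≤ q ^ R) :
    ∃ s : Fin R → Q, AddSubgroup.closure (Set.range s) = ⊤ :=
  @mgen_elem' q _ Q _ (AddCommGroup.zmodModule hq) _ R hc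

private theorem mgen_card (T : Type) [AddCommGroup T] [Finite T] (q : ℕ) :
    Nat.card (T ⧸ (nsmulAddMonoidHom (α := T) q).range) = Nat.card (nsmulAddMonoidHom (α := T) q).ker := by
  have h1 := AddSubgroup.card_eq_card_quotient_mul_card_addSubgroup (nsmulAddMonoidHom (α := T) q).range
  have h2 := AddSubgroup.card_eq_card_quotient_mul_card_addSubgroup (nsmulAddMonoidHom (α := T) q).ker
  have h3 : Nat.card (T ⧸ (nsmulAddMonoidHom (α := T) q).ker) = Nat.card (nsmulAddMonoidHom (α := T) q).range :=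
    Nat.card_congr (QuotientAddGroup.quotientKerEquivRange _).toEquiv
  rw [h3] at h2
  have h4 : 0 < Nat.card (nsmulAddMonoidHom (α := T) q).range := Nat.card_pos
  have h5 : Nat.card (T ⧸ (nsmulAddMonoidHom (α := T) q).range) * Nat.card (nsmulAddMonoidHom (α := T) q).range =
      Nat.card (nsmulAddMonoidHom (α := T) q).ker * Nat.card (nsmulAddMonoidHom (α := T) q).range := by
    rw [← h1, h2, mul_comm]
  exact Nat.eq_of_mul_eq_mul_right h4 h5

theorem gen_of_torsion (T : Type) [AddCommGroup T] [Finite T] (R : ℕ)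
    (h : ∀ q : ℕ, q.Prime → Nat.card (nsmulAddMonoidHom (α := T) q).ker ≤ q ^ R) :
    ∃ s : Fin R → T, AddSubgroup.closure (Set.range s) = ⊤ := by
  classical
  -- generators modulo `q T`
  have h1 : ∀ q : ℕ, q.Prime → ∃ s : Fin R → T, ∀ x : T,
      ∃ y ∈ AddSubgroup.closure (Set.range s), ∃ z : T, x = y + q • z := by
    intro q hq
    have : Fact q.Prime := ⟨hq⟩
    obtain ⟨s, hs⟩ := mgen_elem q (T ⧸ (nsmulAddMonoidHom (α := T) q).range) R (by
      intro x
      obtain ⟨t, rfl⟩ := QuotientAddGroup.mk_surjective x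
      rw [← QuotientAddGroup.mk_nsmul]
      exact (QuotientAddGroup.eq_zero_iff _).2 ⟨t, rfl⟩) (by rw [mgen_card]; exact h q hq)
    choose u hu using fun i => QuotientAddGroup.mk_surjective (s i)
    refine ⟨u, fun x => ?_⟩
    have hx : (QuotientAddGroup.mk x : T ⧸ (nsmulAddMonoidHom (α := T) q).range) ∈
        AddSubgroup.closure (Set.range s) := by rw [hs]; trivial
    have h2 : AddSubgroup.closure (Set.range s) =
        (AddSubgroup.closure (Set.range u)).map (QuotientAddGroup.mk' (nsmulAddMonoidHom (α := T) q).range) := by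
      rw [AddMonoidHom.map_closure]
      congr 1
      rw [← Set.range_comp]
      congr 1
      ext i
      exact (hu i).symm
    rw [h2] at hx
    obtain ⟨y, hy, hyx⟩ := hx
    refine ⟨y, hy, ?_⟩
    have h3 : -y + x ∈ (nsmulAddMonoidHom (α := T) q).range := (QuotientAddGroup.eq (s := (nsmulAddMonoidHom (α := T) q).range)).1 hyx
    obtain ⟨z, hz⟩ := h3
    refine ⟨z, ?_⟩
    have : q • z = -y + x := hz
    rw [this]
    abel
  set P : Finset ℕ := (Nat.card T).primeFactors with hP
  have hPp : ∀ q ∈ P, q.Prime := fun q hq => Nat.prime_of_mem_primeFactors hq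
  have h2 : ∀ q : ℕ, ∃ s : Fin R → T, q ∈ P → ∀ x : T,
      ∃ y ∈ AddSubgroup.closure (Set.range s), ∃ z : T, x = y + q • z := by
    intro q
    by_cases hq : q ∈ P
    · obtain ⟨s, hs⟩ := h1 q (hPp q hq)
      exact ⟨s, fun _ => hs⟩
    · exact ⟨fun _ => 0, fun h => absurd h hq⟩
  choose u hu using h2
  -- Chinese remainder theorem
  have h3 : ∀ q : ℕ, ∃ c : ℤ, q ∈ P → ((q : ℤ) ∣ c - 1 ∧ ∀ q' ∈ P, q' ≠ q → (q' : ℤ) ∣ c) := by
    intro q
    by_cases hq : q ∈ P
    · have hcop : IsCoprime (q : ℤ) ((∏ q' ∈ P.erase q, q' : ℕ) : ℤ) := by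
        rw [Nat.isCoprime_iff_coprime]
        refine Nat.Coprime.prod_right fun q' hq' => ?_
        rw [Finset.mem_erase] at hq'
        exact (Nat.coprime_primes (hPp q hq) (hPp q' hq'.2)).2 (Ne.symm hq'.1)
      obtain ⟨a, b, hab⟩ := hcop
      refine ⟨b * ((∏ q' ∈ P.erase q, q' : ℕ) : ℤ), fun _ => ⟨⟨-a, ?_⟩, fun q' hq' hne => ?_⟩⟩
      · linarith
      · refine Dvd.dvd.mul_left ?_ b
        exact_mod_cast Finset.dvd_prod_of_mem (fun x : ℕ => x) (Finset.mem_erase.2 ⟨hne, hq'⟩)
    · exact ⟨0, fun h => absurd h hq⟩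
  choose c hc using h3
  set s : Fin R → T := fun i => ∑ q ∈ P, c q • u q i with hs
  refine ⟨s, ?_⟩
  set S := AddSubgroup.closure (Set.range s) with hS
  -- `s i - u q i ∈ q T`
  have h4 : ∀ q ∈ P, ∀ i, ∃ z : T, s i = u q i + q • z := by
    intro q hq i
    have e1 : s i = c q • u q i + ∑ q' ∈ P.erase q, c q' • u q' i := by
      rw [hs]
      exact (Finset.add_sum_erase P (fun q' => c q' • u q' i) hq).symm
    obtain ⟨m, hm⟩ := (hc q hq).1
    have e2 : ∀ q' ∈ P.erase q, ∃ z : T, c q' • u q' i = q • z := by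
      intro q' hq'
      rw [Finset.mem_erase] at hq'
      obtain ⟨m', hm'⟩ := (hc q' hq'.2).2 q hq (Ne.symm hq'.1)
      refine ⟨m' • u q' i, ?_⟩
      rw [hm', mul_smul, natCast_zsmul]
    have e3 : ∃ z : T, ∑ q' ∈ P.erase q, c q' • u q' i = q • z := by
      choose! z hz using e2
      refine ⟨∑ q' ∈ P.erase q, z q', ?_⟩
      rw [Finset.smul_sum]
      exact Finset.sum_congr rfl hz
    obtain ⟨z, hz⟩ := e3
    refine ⟨m • u q i + z, ?_⟩
    rw [e1, hz]
    have e4 : c q = 1 + (q : ℤ) * m := by linarith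
    rw [e4, add_smul, one_smul, mul_smul, natCast_zsmul, smul_add]
    abel
  -- `S + q T = T`
  have h5 : ∀ q ∈ P, ∀ x : T, ∃ y ∈ S, ∃ z : T, x = y + q • z := by
    intro q hq x
    obtain ⟨y, hy, z, hz⟩ := hu q hq x
    have h6 : ∃ y' ∈ S, ∃ z' : T, y = y' + q • z' := by
      clear hz
      induction hy using AddSubgroup.closure_induction with
      | mem y hy =>
        obtain ⟨i, rfl⟩ := hy
        obtain ⟨z', hz'⟩ := h4 q hq i
        exact ⟨s i, AddSubgroup.subset_closure ⟨i, rfl⟩, -z', by rw [hz', smul_neg]; abel⟩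
      | zero => exact ⟨0, S.zero_mem, 0, by simp⟩
      | add a b _ _ ha hb =>
        obtain ⟨a', ha', za, hza⟩ := ha
        obtain ⟨b', hb', zb, hzb⟩ := hb
        exact ⟨a' + b', S.add_mem ha' hb', za + zb, by rw [hza, hzb, smul_add]; abel⟩
      | neg a _ ha =>
        obtain ⟨a', ha', za, hza⟩ := ha
        exact ⟨-a', S.neg_mem ha', -za, by rw [hza, smul_neg]; abel⟩
    obtain ⟨y', hy', z', hz'⟩ := h6
    exact ⟨y', hy', z' + z, by rw [hz, hz', smul_add]; abel⟩
  by_contra hne
  have h6 : Nat.card (T ⧸ S) ≠ 1 := by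
    intro h7
    exact hne (AddSubgroup.index_eq_one.1 h7)
  obtain ⟨q, hqp, hqd⟩ := Nat.exists_prime_and_dvd h6
  have hqP : q ∈ P := by
    rw [hP, Nat.mem_primeFactors]
    refine ⟨hqp, hqd.trans ?_, Nat.card_pos.ne'⟩
    exact ⟨Nat.card S, AddSubgroup.card_eq_card_quotient_mul_card_addSubgroup S⟩
  have : Fact q.Prime := ⟨hqp⟩
  have hsurj : Function.Surjective (fun x : T ⧸ S => q • x) := by
    intro x
    obtain ⟨t, rfl⟩ := QuotientAddGroup.mk_surjective x
    obtain ⟨y, hy, z, hz⟩ := h5 q hqP t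
    refine ⟨QuotientAddGroup.mk z, ?_⟩
    change q • (QuotientAddGroup.mk z : T ⧸ S) = QuotientAddGroup.mk t
    rw [← QuotientAddGroup.mk_nsmul, QuotientAddGroup.eq, hz]
    have : -(q • z) + (y + q • z) = y := by abel
    rw [this]
    exact hy
  have hinj : Function.Injective (fun x : T ⧸ S => q • x) := Finite.injective_iff_surjective.2 hsurj
  obtain ⟨x, hx⟩ := exists_prime_addOrderOf_dvd_card' q hqd
  have hx0 : q • x = 0 := by rw [← hx]; exact addOrderOf_nsmul_eq_zero x
  have hx1 : x = 0 := hinj (by change q • x = q • (0 : T ⧸ S); rw [hx0, smul_zero])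
  rw [hx1, addOrderOf_zero] at hx
  exact hqp.one_lt.ne hx

end Pool.Agent.PFM
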