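import Pool.Agent.PFM.Hd
set_option autoImplicit false

/-!
# Near-minimisers are hereditary
-/
namespace Pool.Agent.PFM
open Finset Pool.Agent.Ldc

namespace CV
variable {G K L M : Type}

theorem iso_shuffle (A : CV G) (B : CV K) (C : CV L) (D : CV M) :
    Iso ((A.pair C).pair (B.pair D))
      (((A.pair B).pair (C.pair D)).map fun x => ((x.1.1, x.2.1), (x.1.2, x.2.2))) := by
  refine ⟨⟨fun x => ((x.1.1, x.2.1), (x.1.2, x.2.2)), fun x => ((x.1.1, x.2.1), (x.1.2, x.2.2)),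
    fun _ => rfl, fun _ => rfl⟩, fun ω => ?_, fun ω => rfl, fun ω ω' => ?_⟩
  · change (A.p ω.1.1 * B.p ω.2.1) * (C.p ω.1.2 * D.p ω.2.2)
      = (A.p ω.1.1 * C.p ω.1.2) * (B.p ω.2.1 * D.p ω.2.2)
    ring
  · change ((A.z ω.1.1, B.z ω.2.1), (C.z ω.1.2, D.z ω.2.2))
        = ((A.z ω'.1.1, B.z ω'.2.1), (C.z ω'.1.2, D.z ω'.2.2)) ↔
      ((A.z ω.1.1, C.z ω.1.2), (B.z ω.2.1, D.z ω.2.2))
        = ((A.z ω'.1.1, C.z ω'.1.2), (B.z ω'.2.1, D.z ω'.2.2))
    simp only [Prod.ext_iff]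
    tauto

/-- the variable `B` conditioned on `ψ(φ(B)) + N` -/
def cs [Add L] (B : CV G) (N : CV L) (θ : G → L) : CV G :=
  (B.pair N).cond (fun x => θ x.1 + x.2) (fun x => x.1)

theorem ref_cs [Add L] (B : CV G) (N : CV L) (θ : G → L) : Ref (B.cs N θ) B :=
  (ref_cond (B.pair N) _ _).trans (ref_pair_fst B N)

theorem hc_cs [AddCommGroup G] [AddCommGroup K] [AddCommGroup L] (B : CV G) (N : CV L)
    (φ : G →+ K) (ψ : K →+ L) :
    hc ((B.cs N fun x => ψ (φ x)).map φ)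
      = hc (B.map φ) + hc N - hc ((B.map fun x => ψ (φ x)).add N) := by
  have h0 : (B.cs N fun x => ψ (φ x)).map φ
      = (B.pair N).cond (fun x => ψ (φ x.1) + x.2) (fun x => φ x.1) := rfl
  rw [h0, hc_cond]
  have h1 : hc ((B.pair N).map fun x => (φ x.1, ψ (φ x.1) + x.2)) = hc (B.map φ) + hc N := by
    rw [← hc_pair, show (B.map φ).pair N = (B.pair N).map (fun x => (φ x.1, x.2)) from rfl]
    refine hc_map_congr _ _ _ fun x y => ?_
    simp only [Prod.ext_iff]
    constructor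
    · rintro ⟨h5, h6⟩
      rw [h5] at h6
      exact ⟨h5, add_left_cancel h6⟩
    · rintro ⟨h5, h6⟩
      exact ⟨h5, by rw [h5, h6]⟩
  rw [h1]
  rfl

theorem hc_cs2 [AddCommGroup G] [AddCommGroup K] [AddCommGroup L] (B : CV G) (N : CV L)
    (φ : G →+ K) (ψ : K →+ L) :
    hc (((B.cs N fun x => ψ (φ x)).map φ).add ((B.cs N fun x => ψ (φ x)).map φ))
      + hc (((B.map fun x => ψ (φ x)).add N).add ((B.map fun x => ψ (φ x)).add N))
      ≤ hc ((B.map φ).add (B.map φ)) + hc (N.add N) := by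
  set T := B.pair N with hT
  set g : G × L → L := fun x => ψ (φ x.1) + x.2 with hg
  have h0 : (B.cs N fun x => ψ (φ x)).map φ = T.cond g (fun x => φ x.1) := rfl
  have h1 : hc (((B.cs N fun x => ψ (φ x)).map φ).add ((B.cs N fun x => ψ (φ x)).map φ))
      = hc ((T.pair T).cond (fun x => (g x.1, g x.2)) (fun x => φ x.1.1 + φ x.2.1)) := by
    rw [h0]
    have := (iso_cond_pair T T g g (fun x => φ x.1) (fun x => φ x.1)).map
      (fun x : K × K => x.1 + x.2)
    exact this.hc_eq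
  rw [h1, hc_cond]
  have h2 := hc_submod (T.pair T) (fun x => φ x.1.1 + φ x.2.1) (fun x => (g x.1, g x.2))
    (fun x => g x.1 + g x.2)
  have h3 : hc ((T.pair T).map fun x => (φ x.1.1 + φ x.2.1, (g x.1, g x.2), g x.1 + g x.2))
      = hc ((T.pair T).map fun x => (φ x.1.1 + φ x.2.1, (g x.1, g x.2))) := by
    refine hc_map_congr _ _ _ fun x y => ?_
    simp only [Prod.ext_iff]
    constructor
    · rintro ⟨a, b, c⟩
      exact ⟨a, b⟩
    · rintro ⟨a, b⟩
      exact ⟨a, b, by rw [b.1, b.2]⟩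
  have h4 : hc ((T.pair T).map fun x => ((g x.1, g x.2), g x.1 + g x.2))
      = hc ((T.pair T).map fun x => (g x.1, g x.2)) := by
    refine hc_map_congr _ _ _ fun x y => ?_
    simp only [Prod.ext_iff]
    constructor
    · rintro ⟨b, c⟩
      exact b
    · intro b
      exact ⟨b, by rw [b.1, b.2]⟩
  have h5 : hc ((T.pair T).map fun x => (φ x.1.1 + φ x.2.1, g x.1 + g x.2))
      = hc ((B.map φ).add (B.map φ)) + hc (N.add N) := by
    rw [← hc_pair]
    have e2 := (iso_shuffle B N B N).map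
      (fun x : (G × G) × (L × L) => (φ x.1.1 + φ x.1.2, x.2.1 + x.2.2))
    have e3 : hc (((B.map φ).add (B.map φ)).pair (N.add N))
        = hc ((T.pair T).map fun x => (φ x.1.1 + φ x.2.1, x.1.2 + x.2.2)) := e2.hc_eq
    rw [e3]
    refine hc_map_congr _ _ _ fun x y => ?_
    simp only [Prod.ext_iff, hg]
    have k : ∀ x : (G × L) × (G × L), ψ (φ x.1.1) + x.1.2 + (ψ (φ x.2.1) + x.2.2)
        = ψ (φ x.1.1 + φ x.2.1) + (x.1.2 + x.2.2) := by
      intro x
      rw [map_add]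
      abel
    rw [k, k]
    constructor
    · rintro ⟨a, b⟩
      rw [a] at b
      exact ⟨a, add_left_cancel b⟩
    · rintro ⟨a, b⟩
      exact ⟨a, by rw [a, b]⟩
  have h6 : hc (((B.map fun x => ψ (φ x)).add N).add ((B.map fun x => ψ (φ x)).add N))
      = hc ((T.pair T).map fun x => g x.1 + g x.2) := rfl
  rw [h3, h4, h5] at h2
  rw [h6]
  linarith

end CV

namespace MM
variable {G K L : Type}

theorem RefM.ref [AddCommGroup G] {a b : MM G} (hr : RefM b a) : Ref b a := by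
  intro K L _ _ φ χ n
  have h1 := ((hr.map φ).add (RefM.refl n)).drop (AddMonoidHom.id K) χ
  rw [AddMonoidHom.comp_id, mapHom_id, mapHom_id] at h1
  exact h1

/-- conditioning `b` on `ψ(φ(b)) + n` -/
theorem exists_cs [AddCommGroup G] [AddCommGroup K] [AddCommGroup L] (b : MM G) (φ : G →+ K)
    (ψ : K →+ L) (n : MM L) : ∃ b' : MM G, RefM b' b ∧
      h (mapHom φ b') = h (mapHom φ b) + h n - h (mapHom ψ (mapHom φ b) + n) ∧
      kap (mapHom φ b') ≤ kap (mapHom φ b) + kap n - kap (mapHom ψ (mapHom φ b) + n) := by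
  induction b using ind with | h B => ?_
  induction n using ind with | h N => ?_
  refine ⟨mk (B.cs N fun x => ψ (φ x)), RefM.mk_mk.2 (CV.ref_cs B N _), CV.hc_cs B N φ ψ, ?_⟩
  have h1 := CV.hc_cs B N φ ψ
  have h2 := CV.hc_cs2 B N φ ψ
  unfold kap
  rw [two_nsmul, two_nsmul, two_nsmul, two_nsmul]
  change CV.hc (((B.cs N fun x => ψ (φ x)).map φ).add ((B.cs N fun x => ψ (φ x)).map φ))
      - CV.hc ((B.cs N fun x => ψ (φ x)).map φ)
    ≤ (CV.hc ((B.map φ).add (B.map φ)) - CV.hc (B.map φ)) + (CV.hc (N.add N) - CV.hc N)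
      - (CV.hc (((B.map fun x => ψ (φ x)).add N).add ((B.map fun x => ψ (φ x)).add N))
        - CV.hc ((B.map fun x => ψ (φ x)).add N))
  linarith

theorem kap_nonneg [AddCommGroup G] (a : MM G) : 0 ≤ kap a := by
  unfold kap
  rw [two_nsmul]
  have := h_le_add a a
  linarith

/-- near-minimisers of `κ(φ b) - r h(φ b)` among the refinements of `a` are hereditary -/
theorem nearmin [AddCommGroup G] [AddCommGroup K] (a : MM G) (φ : G →+ K) {r e : ℝ} (hr : 0 ≤ r)
    (he : 0 < e) : ∃ b : MM G, RefM b a ∧ Her r e (mapHom φ b) ∧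
      kap (mapHom φ b) - r * h (mapHom φ b) ≤ kap (mapHom φ a) - r * h (mapHom φ a) := by
  set F : MM G → ℝ := fun b => kap (mapHom φ b) - r * h (mapHom φ b) with hF
  set S : Set ℝ := {x | ∃ b, RefM b a ∧ F b = x} with hS
  have hbdd : BddBelow S := by
    refine ⟨-(r * h (mapHom φ a)), ?_⟩
    rintro x ⟨b, hb, rfl⟩
    have h1 := kap_nonneg (mapHom φ b)
    have h2 := mul_le_mul_of_nonneg_left (hb.map φ).h_le hr
    simp only [hF]
    linarith
  have hne : S.Nonempty := ⟨F a, a, RefM.refl a, rfl⟩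
  have key : ∃ b, RefM b a ∧ F b ≤ sInf S + e ∧ F b ≤ F a := by
    by_cases hc : F a ≤ sInf S + e
    · exact ⟨a, RefM.refl a, hc, le_refl _⟩
    · obtain ⟨x, ⟨b, hb, rfl⟩, hx⟩ := exists_lt_of_csInf_lt hne (lt_add_of_pos_right (sInf S) he)
      exact ⟨b, hb, hx.le, by linarith [not_le.1 hc]⟩
  obtain ⟨b, hb, h1, h2⟩ := key
  refine ⟨b, hb, ?_, h2⟩
  intro L _ ψ n
  obtain ⟨b', hb', h3, h4⟩ := exists_cs b φ ψ n
  have h5 : sInf S ≤ F b' := csInf_le hbdd ⟨b', hb'.trans hb, rfl⟩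
  simp only [hF] at h1 h5
  have h6 : r * h (mapHom φ b') = r * h (mapHom φ b) + r * h n - r * h (mapHom ψ (mapHom φ b) + n) := by
    rw [h3]
    ring
  linarith

theorem nearmin_id [AddCommGroup G] (a : MM G) {r e : ℝ} (hr : 0 ≤ r) (he : 0 < e) :
    ∃ b : MM G, RefM b a ∧ Her r e b ∧ kap b - r * h b ≤ kap a - r * h a := by
  have := nearmin a (AddMonoidHom.id G) hr he
  simpa only [mapHom_id] using this

end MM
end Pool.Agent.PFM
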