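import Pool.Agent.PFM.PDrp
import Pool.Agent.PFM.Cpt
set_option autoImplicit false

/-!
# PBas: the base of the chain (helper93: files `Sml`, `Cpt`)
-/
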