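import Pool.Agent.PFM.PDrp
set_option autoImplicit false

/-!
# PTopA (size 3).  Card / comap lemmas.

`h_le_log_card`: `H(f|z) ≤ H(f) ≤ log |K|` (`H_pair_le`, `H_le_log_card` of Ldc.E2 / E4 with the finset `univ`; `Fintype.ofFinite`, `Nat.card_eq_fintype_card`).
`comap_md`: `V₀ : AddSubgroup G`, `V' : AddSubgroup (G ⧸ V₀)`, `V := V'.comap (mk' V₀)`: `V₀ ≤ V` (`mk' x = 0 ∈ V'`),
`Nat.card V = Nat.card V' * Nat.card V₀` (Mathlib: some `AddSubgroup.card_comap..`, or: index V = index V' by `AddSubgroup.index_comap_of_surjective`,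
`Nat.card V * index V = Nat.card G`, `Nat.card (G ⧸ V₀) = index V₀`, all numbers positive), and `h (md V a) = h (md V' (md V₀ a))`: both are images of `a` under homomorphisms
with the same kernel `V`; `md V' (md V₀ a) = mapHom ((mk' V').comp (mk' V₀)) a` (`mapHom_comp`) and `CV.hc_map_congr` after `induction a using ind with | h A => ?_`.
-/
namespace Pool.Agent.PFM
namespace MM

theorem h_le_log_card {K : Type} [Finite K] (b : MM K) : h b ≤ Real.log (Nat.card K) := by
  classical
  haveI : Fintype K := Fintype.ofFinite K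
  induction b using ind with | h A => ?_
  rw [h_mk]
  unfold CV.hc
  have h1 := Pool.Agent.Ldc.H_pair_le A.hp A.f A.z
  have h2 := Pool.Agent.Ldc.H_le_log_card A.hp A.f (Finset.univ : Finset K)
    (fun ω _ => Finset.mem_univ _)
  rw [Nat.card_eq_fintype_card]
  rw [Finset.card_univ] at h2
  linarith

theorem comap_md {G : Type} [AddCommGroup G] [Finite G] (V₀ : AddSubgroup G) (V' : AddSubgroup (G ⧸ V₀)) :
    V₀ ≤ V'.comap (QuotientAddGroup.mk' V₀) ∧
    Nat.card (V'.comap (QuotientAddGroup.mk' V₀)) = Nat.card V' * Nat.card V₀ ∧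
    ∀ a : MM G, h (md (V'.comap (QuotientAddGroup.mk' V₀)) a) = h (md V' (md V₀ a)) := by
  refine ⟨fun x hx => ?_, ?_, fun a => ?_⟩
  · rw [AddSubgroup.mem_comap]
    have h1 : QuotientAddGroup.mk' V₀ x = 0 := (QuotientAddGroup.eq_zero_iff x).2 hx
    rw [h1]
    exact V'.zero_mem
  · have hi : (V'.comap (QuotientAddGroup.mk' V₀)).index = V'.index :=
      AddSubgroup.index_comap_of_surjective V' (QuotientAddGroup.mk'_surjective V₀)
    have h1 := AddSubgroup.card_mul_index (V'.comap (QuotientAddGroup.mk' V₀))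
    have h2 := AddSubgroup.card_mul_index V'
    have h3 := AddSubgroup.card_mul_index V₀
    have h4 : Nat.card (G ⧸ V₀) = V₀.index := rfl
    have h5 : V'.index ≠ 0 := AddSubgroup.index_ne_zero_of_finite
    rw [hi] at h1
    refine Nat.eq_of_mul_eq_mul_right (Nat.pos_of_ne_zero h5) ?_
    rw [h1, ← h3, ← h4, ← h2]
    ring
  · induction a using ind with | h A => ?_
    unfold md
    rw [mapHom_mk, mapHom_mk, mapHom_mk, h_mk, h_mk]
    change CV.hc (A.map fun x => QuotientAddGroup.mk' (V'.comap (QuotientAddGroup.mk' V₀)) x)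
      = CV.hc (A.map fun x => QuotientAddGroup.mk' V' (QuotientAddGroup.mk' V₀ x))
    refine CV.hc_map_congr _ _ _ fun x y => ?_
    have e1 : ∀ x y : G, QuotientAddGroup.mk' (V'.comap (QuotientAddGroup.mk' V₀)) x
        = QuotientAddGroup.mk' (V'.comap (QuotientAddGroup.mk' V₀)) y ↔
        x - y ∈ V'.comap (QuotientAddGroup.mk' V₀) := by
      intro x y
      rw [← sub_eq_zero, ← map_sub]
      exact QuotientAddGroup.eq_zero_iff (x - y)
    have e2 : ∀ u v : G ⧸ V₀, QuotientAddGroup.mk' V' u = QuotientAddGroup.mk' V' v ↔ u - v ∈ V' := by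
      intro u v
      rw [← sub_eq_zero, ← map_sub]
      exact QuotientAddGroup.eq_zero_iff (u - v)
    rw [e1, e2, AddSubgroup.mem_comap, map_sub]

end MM
end Pool.Agent.PFM
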