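import Pool.Agent.PFM.PBas
import Pool.Agent.PFM.PTopA
set_option autoImplicit false

/-!
# PTop (size 4).  The top of the chain: very hereditary variables.

PROOF OF pp_top.  Let `c` be from `small_ent`, `δ₁ := min c (min (τ/4) (1/4)) > 0`.  For every `V₀` (finitely many: `Finite (AddSubgroup G)`)
`cpt (G ⧸ V₀) δ₁` gives `η V₀ > 0`; let `η > 0` be a common lower bound (`Finite.exists_min` or induction on the finite type), `η ≤ 1`.
`M := log (Nat.card G) + 1 > 0`; `h (md V₀ a) ≤ log (Nat.card G)`?  needed: `h b ≤ log (Nat.card K)` for `b : MM K`, `K` finite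
(`H_le_log_card` conditionally: `H(f|z) ≤ H(f) ≤ log |K|`: `H_pair_le` and `H_le_log_card` of Ldc; write it as a lemma `h_le_log_card`).
`r₀ := min (1/4) (η / (2 M))`.  Given `0 < r ≤ r₀`, `T ≥ 1`, `δ > 0`: `e := min (η/2) (δ/4)`.
Let `Her r e (md V₀ a)`.  `kap (md V₀ a) ≤ r * h + e ≤ η/2 + η/2 = η` (`Her.kap_le`), so there is `V'` with `h (md V' (md V₀ a)) ≤ δ₁` and
`|log (card V') - h (md V₀ a)| ≤ δ₁`; `V := comap`.  `b := md V a`: `Her r e b` (`Her.md_of_le`), `h b ≤ δ₁ ≤ c`, so `h b ≤ 2 kap b ≤ 2 r h b + 2 e ≤ h b / 2 + 2 e`,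
`h b ≤ 4 e ≤ δ`.  `log card V - log card V₀ = log card V' ≤ h (md V₀ a) + δ₁`.  If `card V' = 1` this is `0 ≤ ..`.  Otherwise `card V' ≥ 2`,
`log 2 ≤ h (md V₀ a) + δ₁`, so `h (md V₀ a) ≥ log 2 - 1/4 ≥ 1/4` and `δ₁ ≤ τ/4 ≤ τ h (md V₀ a)`.  Finally `h (md V₀ a) ≤ h (md V₀ (Q T a))`
(`md V₀ (Q T a) = Q T (md V₀ a)` by `mapHom_Q`, `h_le_Q`).
-/
namespace Pool.Agent.PFM
namespace MM

theorem pp_top (G : Type) [AddCommGroup G] [Finite G] (τ : ℝ) (hτ : 0 < τ) : ∃ r₀ : ℝ, 0 < r₀ ∧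
    ∀ r : ℝ, 0 < r → r ≤ r₀ → ∀ T : ℕ, 1 ≤ T → PP G T r (1 + τ) := by
  obtain ⟨c, hc, hsm⟩ := small_ent
  obtain ⟨d, hd⟩ : ∃ d : ℝ, d = min c (min (τ / 4) (1 / 4)) := ⟨_, rfl⟩
  have hd0 : 0 < d := by
    rw [hd]
    exact lt_min hc (lt_min (by linarith) (by norm_num))
  have hd1 : d ≤ c := by
    rw [hd]
    exact min_le_left _ _
  have hd2 : d ≤ τ / 4 := by
    rw [hd]
    exact (min_le_right _ _).trans (min_le_left _ _)
  have hd3 : d ≤ 1 / 4 := by
    rw [hd]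
    exact (min_le_right _ _).trans (min_le_right _ _)
  have hcp : ∀ V₀ : AddSubgroup G, ∃ η : ℝ, 0 < η ∧ ∀ a : MM (G ⧸ V₀), kap a ≤ η →
      ∃ V : AddSubgroup (G ⧸ V₀), h (md V a) ≤ d ∧ |Real.log (Nat.card V) - h a| ≤ d :=
    fun V₀ => cpt (G ⧸ V₀) d hd0
  choose η hη1 hη2 using hcp
  obtain ⟨V1, hV1⟩ := Finite.exists_min η
  have hM0 : 0 ≤ Real.log (Nat.card G) := Real.log_natCast_nonneg _
  obtain ⟨M, hM⟩ : ∃ M : ℝ, M = Real.log (Nat.card G) + 1 := ⟨_, rfl⟩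
  have hMp : 0 < M := by linarith
  refine ⟨min (1 / 4) (η V1 / (2 * M)), lt_min (by norm_num) (div_pos (hη1 V1) (by linarith)),
    fun r hr hr0 T hT δ hδ => ?_⟩
  have hr1 : r ≤ 1 / 4 := hr0.trans (min_le_left _ _)
  have hr2 : r * M ≤ η V1 / 2 := by
    have h1 : r ≤ η V1 / (2 * M) := hr0.trans (min_le_right _ _)
    have h2 := mul_le_mul_of_nonneg_right h1 hMp.le
    have h3 : η V1 / (2 * M) * M = η V1 / 2 := by field_simp
    linarith
  refine ⟨min (η V1 / 2) (δ / 4), lt_min (by linarith [hη1 V1]) (by linarith), fun V₀ a hH => ?_⟩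
  have he1 : min (η V1 / 2) (δ / 4) ≤ η V1 / 2 := min_le_left _ _
  have he2 : min (η V1 / 2) (δ / 4) ≤ δ / 4 := min_le_right _ _
  have hhM : h (md V₀ a) ≤ M := by
    have h1 := h_md_le V₀ a
    have h2 := h_le_log_card a
    linarith
  have hh0 : 0 ≤ h (md V₀ a) := h_nonneg _
  have hk : kap (md V₀ a) ≤ η V₀ := by
    have h1 := hH.kap_le
    have h2 := hV1 V₀
    have h3 : r * h (md V₀ a) ≤ r * M := mul_le_mul_of_nonneg_left hhM hr.le
    linarith
  obtain ⟨V', hV1', hV2'⟩ := hη2 V₀ (md V₀ a) hk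
  obtain ⟨q1, q2, q3⟩ := comap_md V₀ V'
  refine ⟨V'.comap (QuotientAddGroup.mk' V₀), q1, ?_, ?_⟩
  · have h1 := (hH.md_of_le q1).kap_le
    have h2 : h (md (V'.comap (QuotientAddGroup.mk' V₀)) a) ≤ c := by
      rw [q3]
      linarith
    have h3 := hsm _ _ h2
    have h4 := h_nonneg (md (V'.comap (QuotientAddGroup.mk' V₀)) a)
    have h5 : r * h (md (V'.comap (QuotientAddGroup.mk' V₀)) a)
        ≤ 1 / 4 * h (md (V'.comap (QuotientAddGroup.mk' V₀)) a) :=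
      mul_le_mul_of_nonneg_right hr1 h4
    linarith
  · have c1 : 0 < Nat.card V' := Nat.card_pos
    have c2 : 0 < Nat.card V₀ := Nat.card_pos
    have h1 : Real.log (Nat.card (V'.comap (QuotientAddGroup.mk' V₀)))
        = Real.log (Nat.card V') + Real.log (Nat.card V₀) := by
      rw [q2, Nat.cast_mul, Real.log_mul (by exact_mod_cast c1.ne') (by exact_mod_cast c2.ne')]
    have h2 : h (md V₀ a) ≤ h (md V₀ (Q T a)) := by
      unfold md
      rw [mapHom_Q]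
      exact h_le_Q hT _
    have h3 := (abs_le.1 hV2').2
    have h4 : Real.log (Nat.card V') ≤ (1 + τ) * h (md V₀ a) := by
      rcases Nat.lt_or_ge 1 (Nat.card V') with h5 | h5
      · have h6 : Real.log 2 ≤ Real.log (Nat.card V') :=
          Real.log_le_log (by norm_num) (by exact_mod_cast h5)
        have h7 := Real.log_two_gt_d9
        have h8 : 1 / 4 ≤ h (md V₀ a) := by linarith
        have h9 : τ * (1 / 4) ≤ τ * h (md V₀ a) := mul_le_mul_of_nonneg_left h8 hτ.le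
        linarith
      · have h6 : Nat.card V' = 1 := le_antisymm h5 c1
        rw [h6, Nat.cast_one, Real.log_one]
        positivity
    have h5 : (1 + τ) * h (md V₀ a) ≤ (1 + τ) * h (md V₀ (Q T a)) :=
      mul_le_mul_of_nonneg_left h2 (by linarith)
    linarith

end MM
end Pool.Agent.PFM
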