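import Pool.Agent.PFM.PSD2
import Pool.Agent.PFM.PTop
set_option autoImplicit false

namespace Pool.Agent.PFM
namespace MM

theorem PP.mono {G : Type} [AddCommGroup G] {T : ℕ} {r C C' : ℝ} (h1 : PP G T r C) (hC : C ≤ C') :
    PP G T r C' := by
  intro δ hδ
  obtain ⟨e, he, h2⟩ := h1 δ hδ
  refine ⟨e, he, fun V₀ a ha => ?_⟩
  obtain ⟨V, h3, h4, h5⟩ := h2 V₀ a ha
  refine ⟨V, h3, h4, h5.trans ?_⟩
  have := mul_le_mul_of_nonneg_right hC (h_nonneg (md V₀ (Q T a)))
  linarith

theorem pp_two : ∃ c : ℝ, 1 ≤ c ∧ ∀ (G : Type) [AddCommGroup G] [Finite G] (T : ℕ) (r : ℝ), Tor T G → 1 ≤ T →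
    0 < r → c * (1 + Real.log T) * r ≤ 1 → PP G T r (Real.exp (3 * (c * (1 + Real.log T) * r))) := by
  obtain ⟨c, hc, hsd⟩ := sd2
  refine ⟨c, hc, fun G _ _ T r hT hT1 hr hcr => ?_⟩
  set L : ℝ := 1 + Real.log T with hL
  have hL1 : 1 ≤ L := by
    have : 0 ≤ Real.log (T : ℝ) := Real.log_natCast_nonneg T
    linarith
  have hcL : 0 < c * L := by positivity
  have hτ : 0 < c * L * r := by positivity
  obtain ⟨r₀, hr₀, htop⟩ := pp_top G (c * L * r) hτ
  have main : ∀ s : ℕ, ∀ r' : ℝ, 0 < r' → c * L * r' ≤ 1 → r' / 2 ^ s ≤ r₀ →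
      PP G T r' ((1 + c * L * r) * Real.exp (2 * (c * L * r'))) := by
    intro s
    induction s with
    | zero =>
      intro r' h1 h2 h3
      rw [pow_zero, div_one] at h3
      refine (htop r' h1 h3 T hT1).mono ?_
      have : 1 ≤ Real.exp (2 * (c * L * r')) := Real.one_le_exp (by positivity)
      nlinarith
    | succ s ih =>
      intro r' h1 h2 h3
      have h4 : c * L * (r' / 2) ≤ 1 := by
        have : 0 < c * L * r' := by positivity
        linarith
      have h5 : r' / 2 / 2 ^ s ≤ r₀ := by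
        have : r' / 2 / 2 ^ s = r' / 2 ^ (s + 1) := by
          rw [pow_succ]; field_simp
        rw [this]; exact h3
      have h6 := ih (r' / 2) (by linarith) h4 h5
      have h7 := pp_step G T r' (1 + c * L * r') _ h1 (by positivity) (hsd G T r' hT hT1 h1 h2) h6
      refine h7.mono ?_
      have e1 : 2 * (c * L * (r' / 2)) = c * L * r' := by ring
      rw [e1]
      have e2 : 1 + c * L * r' ≤ Real.exp (c * L * r') := by
        have := Real.add_one_le_exp (c * L * r')
        linarith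
      have e3 : Real.exp (2 * (c * L * r')) = Real.exp (c * L * r') * Real.exp (c * L * r') := by
        rw [← Real.exp_add]; ring_nf
      rw [e3, ← mul_assoc]
      exact mul_le_mul_of_nonneg_left e2 (by positivity)
  obtain ⟨s, hs⟩ : ∃ s : ℕ, r / 2 ^ s ≤ r₀ := by
    obtain ⟨s, hs⟩ := pow_unbounded_of_one_lt (r / r₀) (one_lt_two)
    refine ⟨s, ?_⟩
    rw [div_le_iff₀ (by positivity)]
    rw [div_lt_iff₀ hr₀] at hs
    linarith
  refine (main s r hr hcr hs).mono ?_
  have e2 : 1 + c * L * r ≤ Real.exp (c * L * r) := by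
    have := Real.add_one_le_exp (c * L * r)
    linarith
  have e3 : Real.exp (3 * (c * L * r)) = Real.exp (c * L * r) * Real.exp (2 * (c * L * r)) := by
    rw [← Real.exp_add]; ring_nf
  rw [e3]
  exact mul_le_mul_of_nonneg_right e2 (by positivity)

end MM
end Pool.Agent.PFM
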