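import Pool.Agent.PFM.PSD1
import Pool.Agent.PFM.PCh2
set_option autoImplicit false

/-!
# PCh1 (size 4).  The chain in the first regime.

`pp_one`: there are `C_*`, `r₁` (absolute) with `PP G T r C_*` for all `0 < r ≤ r₁` (and `Tor T G`, `T ≥ 1`).
  If `c L r ≤ 1` use `pp_two` (`exp 3`).  In general prove by induction on `s`: for `0 < r ≤ r₁`, `c L r ≤ 2^s`:
  `PP G T r (e^3 * exp (Φ r))`, `Φ r := 4 c' (r (3 + log (1/r))) + 2 c' c L ... ` : the product of the factors `f(r/2^i)`, where `r / 2^i > 1/(c L)`.  A convenient majorant: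
  `Φ(r) := A r (4 + log (1/r)) + B (2 c L - 1/r)/T` with `A = 2c'`, `B = c'`:  one needs `Φ(r) - Φ(r/2) ≥ c' r (1 + log (1/r)) + c'/(r T)`:
   first part: `A r (4 + log(1/r)) - A (r/2)(4 + log 2 + log(1/r)) = A (r/2)(4 - log 2 + log(1/r)) ≥ c' r (1 + log (1/r))`;  second: `-1/r + 2/r = 1/r`.  ok.
   On the range `c L r > 1` one has `1/r < c L`, so `B (2 c L - 1/r)/T ≤ 2 c' c L/T ≤ 2 c c'` (`L = 1 + log T ≤ T`) and it is `≥ 0`; at the bottom (`c L r ≤ 1`) use `pp_two` directly,
   the step from `r/2` (with `c L r/2 ≤ 1`, constant `e^3`) to `r` costs `f(r) ≤ exp (Φ(r))` as `Φ(r) ≥ ` its two parts (`2 c L - 1/r ≥ 1/r` iff `c L ≥ 1/r`).  And `r (4 + log (1/r)) ≤ 5` for `r ≤ 1`.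
  (`1 + x ≤ exp x`.)
-/
namespace Pool.Agent.PFM
namespace MM

/-- the majorant -/
private noncomputable def PCh1_F (c c' : ℝ) (T : ℕ) (r : ℝ) : ℝ :=
  2 * c' * (r * (4 + Real.log (1 / r))) + c' * (2 * (c * (1 + Real.log T)) - 1 / r) / T

private lemma PCh1_step {c' : ℝ} (c : ℝ) (hc' : 1 ≤ c') {T : ℕ} (hT : 1 ≤ T) {r : ℝ} (hr : 0 < r) :
    PCh1_F c c' T (r / 2) + c' / (r * T) + c' * (r * (1 + Real.log (1 / r))) ≤ PCh1_F c c' T r := by
  have hT' : (0 : ℝ) < T := by exact_mod_cast hT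
  have hlog : Real.log (1 / (r / 2)) = Real.log 2 + Real.log (1 / r) := by
    rw [← Real.log_mul (by norm_num) (by positivity)]
    congr 1
    field_simp
  have hl2 : Real.log 2 ≤ 1 := by
    have := Real.log_two_lt_d9
    linarith
  unfold PCh1_F
  rw [hlog]
  have h1 : c' * (2 * (c * (1 + Real.log T)) - 1 / r) / T -
      c' * (2 * (c * (1 + Real.log T)) - 1 / (r / 2)) / T = c' / (r * T) := by
    field_simp
    ring
  have h2 : 0 ≤ c' * r * (3 - Real.log 2) := by
    have : 0 ≤ 3 - Real.log 2 := by linarith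
    positivity
  nlinarith

private lemma PCh1_base {c c' : ℝ} (hc' : 1 ≤ c') {T : ℕ} (hT : 1 ≤ T) {r : ℝ} (hr : 0 < r) (hr1 : r ≤ 1)
    (h1 : 1 < c * (1 + Real.log T) * r) :
    c' / (r * T) + c' * (r * (1 + Real.log (1 / r))) ≤ PCh1_F c c' T r := by
  have hT' : (0 : ℝ) < T := by exact_mod_cast hT
  have hlog : 0 ≤ Real.log (1 / r) := Real.log_nonneg (by rw [le_div_iff₀ hr]; linarith)
  unfold PCh1_F
  have h2 : 1 / r ≤ c * (1 + Real.log T) := by
    rw [div_le_iff₀ hr]
    exact h1.le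
  have h3 : c' / (r * T) ≤ c' * (2 * (c * (1 + Real.log T)) - 1 / r) / T := by
    have e : c' / (r * T) = c' * (1 / r) / T := by field_simp
    rw [e]
    apply div_le_div_of_nonneg_right _ hT'.le
    apply mul_le_mul_of_nonneg_left _ (by linarith)
    linarith
  have h4 : 0 ≤ c' * r * (7 + Real.log (1 / r)) := by positivity
  nlinarith

private lemma PCh1_top {c c' : ℝ} (hc : 1 ≤ c) (hc' : 1 ≤ c') {T : ℕ} (hT : 1 ≤ T) {r : ℝ} (hr : 0 < r)
    (hr1 : r ≤ 1) : PCh1_F c c' T r ≤ 10 * c' + 2 * c * c' := by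
  have hT' : (0 : ℝ) < T := by exact_mod_cast hT
  have hlog : Real.log (1 / r) ≤ 1 / r - 1 := Real.log_le_sub_one_of_pos (by positivity)
  have hlogT : Real.log T ≤ T - 1 := Real.log_le_sub_one_of_pos hT'
  unfold PCh1_F
  have h1 : r * (4 + Real.log (1 / r)) ≤ 5 := by
    have h2 : r * Real.log (1 / r) ≤ r * (1 / r - 1) := mul_le_mul_of_nonneg_left hlog hr.le
    have h3 : r * (1 / r - 1) = 1 - r := by field_simp
    nlinarith
  have h2 : c' * (2 * (c * (1 + Real.log T)) - 1 / r) / T ≤ 2 * c * c' := by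
    rw [div_le_iff₀ hT']
    have h3 : 0 < 1 / r := by positivity
    have h4 : 2 * (c * (1 + Real.log T)) - 1 / r ≤ 2 * c * T := by
      nlinarith
    calc c' * (2 * (c * (1 + Real.log T)) - 1 / r) ≤ c' * (2 * c * T) :=
          mul_le_mul_of_nonneg_left h4 (by linarith)
      _ = 2 * c * c' * T := by ring
  have h3 : 2 * c' * (r * (4 + Real.log (1 / r))) ≤ 2 * c' * 5 := mul_le_mul_of_nonneg_left h1 (by linarith)
  linarith

theorem pp_one : ∃ C r₁ : ℝ, 1 ≤ C ∧ 0 < r₁ ∧ r₁ ≤ 1 ∧ ∀ (G : Type) [AddCommGroup G] [Finite G] (T : ℕ) (r : ℝ),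
    Tor T G → 1 ≤ T → 0 < r → r ≤ r₁ → PP G T r C := by
  obtain ⟨c', r₁, hc', hr1, hr11, hsd⟩ := sd1
  obtain ⟨c, hc, htwo⟩ := pp_two
  refine ⟨Real.exp (3 + (10 * c' + 2 * c * c')), r₁, Real.one_le_exp (by positivity), hr1, hr11, ?_⟩
  intro G _ _ T r hTor hT hr hrr
  -- the induction
  have key : ∀ s : ℕ, ∀ r : ℝ, 0 < r → r ≤ r₁ → 1 < c * (1 + Real.log T) * r →
      c * (1 + Real.log T) * r ≤ 2 ^ s → PP G T r (Real.exp (3 + PCh1_F c c' T r)) := by
    intro s
    induction s with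
    | zero =>
      intro r _ _ h1 h2
      rw [pow_zero] at h2
      linarith
    | succ s ih =>
      intro r hr hrr h1 h2
      have hS := hsd G T r hT hr hrr
      have hx0 : 0 ≤ c' / (r * T) := by positivity
      have hx : 1 + c' / (r * T) ≤ Real.exp (c' / (r * T)) := by
        rw [add_comm]
        exact Real.add_one_le_exp _
      by_cases h3 : c * (1 + Real.log T) * (r / 2) ≤ 1
      · have h4 := htwo G T (r / 2) hTor hT (by positivity) h3
        have h5 : PP G T (r / 2) (Real.exp 3) := h4.mono (Real.exp_le_exp.2 (by linarith))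
        refine (pp_step G T r _ _ hr (Real.exp_pos 3).le hS h5).mono ?_
        have h6 := PCh1_base (c := c) hc' hT hr (hrr.trans hr11) h1
        calc Real.exp 3 * ((1 + c' / (r * T)) * Real.exp (c' * (r * (1 + Real.log (1 / r)))))
            ≤ Real.exp 3 * (Real.exp (c' / (r * T)) * Real.exp (c' * (r * (1 + Real.log (1 / r))))) := by
              gcongr
          _ = Real.exp (3 + (c' / (r * T) + c' * (r * (1 + Real.log (1 / r))))) := by
              rw [Real.exp_add, Real.exp_add]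
          _ ≤ Real.exp (3 + PCh1_F c c' T r) := Real.exp_le_exp.2 (by linarith)
      · push Not at h3
        have h5 := ih (r / 2) (by positivity) (by linarith) h3 (by
          rw [pow_succ] at h2
          linarith)
        refine (pp_step G T r _ _ hr (Real.exp_pos _).le hS h5).mono ?_
        have h6 := PCh1_step c hc' hT hr
        calc Real.exp (3 + PCh1_F c c' T (r / 2)) *
              ((1 + c' / (r * T)) * Real.exp (c' * (r * (1 + Real.log (1 / r)))))
            ≤ Real.exp (3 + PCh1_F c c' T (r / 2)) *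
              (Real.exp (c' / (r * T)) * Real.exp (c' * (r * (1 + Real.log (1 / r))))) := by
              gcongr
          _ = Real.exp (3 + PCh1_F c c' T (r / 2) + (c' / (r * T) + c' * (r * (1 + Real.log (1 / r))))) := by
              rw [Real.exp_add (3 + PCh1_F c c' T (r / 2)), Real.exp_add (c' / (r * T))]
          _ ≤ Real.exp (3 + PCh1_F c c' T r) := Real.exp_le_exp.2 (by linarith)
  by_cases h1 : c * (1 + Real.log T) * r ≤ 1
  · refine (htwo G T r hTor hT hr h1).mono (Real.exp_le_exp.2 ?_)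
    have : 0 ≤ 10 * c' + 2 * c * c' := by positivity
    linarith
  · push Not at h1
    obtain ⟨s, hs⟩ := pow_unbounded_of_one_lt (c * (1 + Real.log T) * r) (one_lt_two : (1 : ℝ) < 2)
    refine (key s r hr hrr h1 hs.le).mono (Real.exp_le_exp.2 ?_)
    have := PCh1_top hc hc' hT hr (hrr.trans hr11)
    linarith

end MM
end Pool.Agent.PFM
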