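import Pool.Agent.PFM.PDrp
set_option autoImplicit false

/-!
# PCrd (size 1).  `V < V₁` gives `log |V₁| - log |V| ≥ log 2`
(`Nat.card V₁ = Nat.card V * k`, `k ≥ 2`: `AddSubgroup.card_dvd_of_le`, strictness: `AddSubgroup.eq_of_le_of_card_ge`).
-/
namespace Pool.Agent.PFM
namespace MM

theorem log_card_lt {G : Type} [AddCommGroup G] [Finite G] {V V₁ : AddSubgroup G} (hV : V < V₁) :
    Real.log 2 ≤ Real.log (Nat.card V₁) - Real.log (Nat.card V) := by
  obtain ⟨k, hk⟩ := AddSubgroup.card_dvd_of_le hV.le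
  have hV0 : 0 < Nat.card V := Nat.card_pos
  have hV1 : 0 < Nat.card V₁ := Nat.card_pos
  have hk0 : k ≠ 0 := by
    rintro rfl
    rw [Nat.mul_zero] at hk
    omega
  have hk1 : k ≠ 1 := by
    rintro rfl
    rw [Nat.mul_one] at hk
    exact hV.ne (AddSubgroup.eq_of_le_of_card_ge hV.le hk.le)
  have hk2 : 2 ≤ k := by omega
  have e : (Nat.card V₁ : ℝ) = (Nat.card V : ℝ) * k := by exact_mod_cast hk
  rw [e, Real.log_mul (by positivity) (by positivity)]
  have : Real.log 2 ≤ Real.log k := Real.log_le_log (by norm_num) (by exact_mod_cast hk2)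
  linarith

end MM
end Pool.Agent.PFM
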