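import Pool.Agent.PFM.Grw
set_option autoImplicit false

/-!
# PDrp (size 2).  Elementary lemmas on `md`, `Her`, `kap`, `Q` (section P)
-/
namespace Pool.Agent.PFM
namespace MM
variable {G K L : Type}

theorem h_dil_le [AddCommGroup G] (n : ℤ) (a : MM G) : h (dil n a) ≤ h a := h_map_le _ a

theorem h_sum_le [AddCommGroup G] {ι : Type} (s : Finset ι) (f : ι → MM G) :
    h (∑ i ∈ s, f i) ≤ ∑ i ∈ s, h (f i) := by
  classical
  induction s using Finset.induction_on with
  | empty => rw [Finset.sum_empty, Finset.sum_empty, h_zero]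
  | insert i s hi ih =>
    rw [Finset.sum_insert hi, Finset.sum_insert hi]
    have := h_add_le (f i) (∑ j ∈ s, f j)
    linarith

theorem h_Q_le_mul [AddCommGroup G] (t : ℕ) (a : MM G) : h (Q t a) ≤ t * h a := by
  unfold Q
  refine (h_sum_le _ _).trans ?_
  refine (Finset.sum_le_sum fun i _ => h_dil_le _ a).trans ?_
  simp

theorem h_le_Q [AddCommGroup G] {t : ℕ} (ht : 1 ≤ t) (a : MM G) : h a ≤ h (Q t a) := by
  obtain ⟨s, rfl⟩ := Nat.exists_eq_add_of_le ht
  unfold Q
  have e : dil ((2:ℤ) ^ 0) a = a := by rw [pow_zero, dil_one]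
  rw [add_comm, Finset.sum_range_succ', e]
  exact h_le_add' (∑ k ∈ Finset.range s, dil ((2:ℤ) ^ (k + 1)) a) a

theorem h_le_nsmul [AddCommGroup G] {n : ℕ} (hn : 1 ≤ n) (a : MM G) : h a ≤ h (n • a) := by
  obtain ⟨s, rfl⟩ := Nat.exists_eq_add_of_le hn
  rw [add_nsmul, one_nsmul]
  exact h_le_add _ _

theorem Her.kap_le [AddCommGroup G] {r e : ℝ} {a : MM G} (h1 : Her r e a) : kap a ≤ r * h a + e := by
  have := h1 G (AddMonoidHom.id G) 0
  rw [mapHom_id, add_zero, h_zero] at this
  have h2 : kap (0 : MM G) = 0 := by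
    unfold kap
    rw [smul_zero, h_zero, sub_zero]
  rw [h2] at this
  linarith

theorem Her.mono [AddCommGroup G] {r e r' e' : ℝ} {a : MM G} (h1 : Her r e a) (hr : r ≤ r') (he : e ≤ e') :
    Her r' e' a := by
  intro K _ φ n
  have h2 := h1 K φ n
  have h3 := h_le_add' (mapHom φ a) n
  have h4 : r * (h (mapHom φ a + n) - h n) ≤ r' * (h (mapHom φ a + n) - h n) :=
    mul_le_mul_of_nonneg_right hr (by linarith)
  linarith

/-- reduction modulo a larger subgroup factors through the smaller one -/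
theorem md_eq_map [AddCommGroup G] {V V' : AddSubgroup G} (hV : V ≤ V') (a : MM G) :
    md V' a = mapHom (QuotientAddGroup.map V V' (AddMonoidHom.id G) hV) (md V a) := by
  unfold md
  rw [mapHom_comp]
  rfl

theorem h_md_le_md [AddCommGroup G] {V V' : AddSubgroup G} (hV : V ≤ V') (a : MM G) :
    h (md V' a) ≤ h (md V a) := by
  rw [md_eq_map hV]
  exact h_map_le _ _

theorem h_md_le [AddCommGroup G] (V : AddSubgroup G) (a : MM G) : h (md V a) ≤ h a := h_map_le _ _

theorem h_md_bot [AddCommGroup G] (a : MM G) : h (md ⊥ a) = h a := by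
  refine h_map_inj _ ?_ a
  intro x y hxy
  have := (QuotientAddGroup.mk'_eq_mk' (⊥ : AddSubgroup G)).1 hxy
  obtain ⟨z, hz, h1⟩ := this
  rw [AddSubgroup.mem_bot] at hz
  rw [← h1, hz, add_zero]

/-- more summands: the drop from `mod V` to `mod V'` increases -/
theorem md_drop_add [AddCommGroup G] {V V' : AddSubgroup G} (hV : V ≤ V') (a n : MM G) :
    h (md V a) - h (md V' a) ≤ h (md V (a + n)) - h (md V' (a + n)) := by
  rw [md_eq_map hV, md_eq_map hV, map_add, map_add]
  have := h_map_incr (md V a) (md V n) (QuotientAddGroup.map V V' (AddMonoidHom.id G) hV)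
  rw [map_add] at this
  linarith

/-- more conditioning: the drop decreases -/
theorem RefM.md_drop [AddCommGroup G] {a b : MM G} (hr : RefM b a) {V V' : AddSubgroup G} (hV : V ≤ V') :
    h (md V b) - h (md V' b) ≤ h (md V a) - h (md V' a) := by
  have := hr.drop (QuotientAddGroup.mk' V) (QuotientAddGroup.map V V' (AddMonoidHom.id G) hV)
  rw [← mapHom_comp, ← mapHom_comp] at this
  rw [md_eq_map hV, md_eq_map hV]
  exact this

theorem RefM.drop_md [AddCommGroup G] {a b : MM G} (hr : RefM b a) (V : AddSubgroup G) :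
    h b - h (md V b) ≤ h a - h (md V a) := by
  have := hr.md_drop (bot_le : ⊥ ≤ V)
  rwa [h_md_bot, h_md_bot] at this

theorem Her.md_of_le [AddCommGroup G] {r e : ℝ} {a : MM G} {V V' : AddSubgroup G} (hV : V ≤ V')
    (h1 : Her r e (md V a)) : Her r e (md V' a) := by
  rw [md_eq_map hV]
  exact h1.map _

theorem Tor.quotient [AddCommGroup G] {T : ℕ} (hT : Tor T G) (V : AddSubgroup G) : Tor T (G ⧸ V) := by
  obtain ⟨m, h1, h2, h3⟩ := hT
  refine ⟨m, h1, h2, fun g => ?_⟩
  obtain ⟨x, rfl⟩ := QuotientAddGroup.mk'_surjective V g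
  rw [← map_nsmul, h3, map_zero]

end MM
end Pool.Agent.PFM
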