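import Pool.Agent.PFM.PStp
set_option autoImplicit false

/-!
# PSD1 (size 3).  The stage data, first regime.

`sd1`: `M, J, r₁` from `stage1`, `t := ⌈M / r⌉₊` (`1 ≤ t ≤ 2 M / r` since `r ≤ 1 ≤ M`).  Potential by `growth1`:
  `f := (1 + r)^(J + clog 2 t) (1 + t / T) ≤ exp (r (J + clog 2 t)) (1 + 2 M / (r T))`, `clog 2 t ≤ 1 + log t / log 2 ≤ 2 + 2 log (2 M / r)`;
  so `f ≤ exp (c r (1 + log (1/r))) (1 + c / (r T))` for a suitable `c`.
-/
namespace Pool.Agent.PFM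
namespace MM

private theorem PSD1_clog (t : ℕ) (ht : 1 ≤ t) : ((Nat.clog 2 t : ℕ) : ℝ) ≤ 1 + 2 * Real.log t := by
  have ht0 : (1 : ℝ) ≤ (t : ℝ) := by exact_mod_cast ht
  have hl : 0 ≤ Real.log t := Real.log_nonneg ht0
  rcases Nat.lt_or_ge 1 t with h1 | h1
  · have h2 : 2 ^ (Nat.clog 2 t).pred < t := Nat.pow_pred_clog_lt_self (by norm_num) h1
    have h3 : ((2 : ℝ) ^ (Nat.clog 2 t).pred) ≤ t := by exact_mod_cast h2.le
    have h4 := Real.log_le_log (by positivity) h3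
    rw [Real.log_pow] at h4
    have h5 : (1 : ℝ) / 2 ≤ Real.log 2 := by
      have := Real.log_two_gt_d9
      linarith
    have h6 : (0 : ℝ) ≤ (((Nat.clog 2 t).pred : ℕ) : ℝ) := Nat.cast_nonneg _
    have h7 : (((Nat.clog 2 t).pred : ℕ) : ℝ) ≤ 2 * Real.log t := by nlinarith
    have h8 : ((Nat.clog 2 t : ℕ) : ℝ) ≤ (((Nat.clog 2 t).pred : ℕ) : ℝ) + 1 := by
      have h9 : Nat.clog 2 t ≤ (Nat.clog 2 t).pred + 1 := by
        rw [Nat.pred_eq_sub_one]
        omega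
      exact_mod_cast h9
    linarith
  · have h2 : t = 1 := le_antisymm h1 ht
    subst h2
    simp

private theorem PSD1_f (M : ℝ) (J : ℕ) (hM : 1 ≤ M) (T : ℕ) (r : ℝ) (hT : 1 ≤ T) (hr : 0 < r)
    (hr1 : r ≤ 1) :
    (1 + r) ^ (J + Nat.clog 2 ⌈M / r⌉₊) * (1 + (⌈M / r⌉₊ : ℝ) / T) ≤
      (1 + (2 * M + J + 3 + 2 * Real.log (2 * M)) / (r * T)) *
        Real.exp ((2 * M + J + 3 + 2 * Real.log (2 * M)) * (r * (1 + Real.log (1 / r)))) := by
  obtain ⟨t, ht⟩ : ∃ t, t = ⌈M / r⌉₊ := ⟨_, rfl⟩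
  rw [← ht]
  have hT0 : (0 : ℝ) < T := by exact_mod_cast hT
  have hMr : 1 ≤ M / r := by
    rw [le_div_iff₀ hr]
    linarith
  have ht1 : 1 ≤ t := by
    rw [ht]
    exact Nat.one_le_iff_ne_zero.2 (Nat.ceil_pos.2 (by linarith)).ne'
  have ht2 : (t : ℝ) ≤ 2 * M / r := by
    have h1 : (⌈M / r⌉₊ : ℝ) < M / r + 1 := Nat.ceil_lt_add_one (by linarith)
    rw [← ht] at h1
    have h2 : 2 * M / r = M / r + M / r := by ring
    linarith
  have ht3 : (1 : ℝ) ≤ t := by exact_mod_cast ht1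
  have hL : 0 ≤ Real.log (1 / r) := by
    apply Real.log_nonneg
    rw [le_div_iff₀ hr]
    linarith
  have hLM : 0 ≤ Real.log (2 * M) := Real.log_nonneg (by linarith)
  have hlt : Real.log t ≤ Real.log (2 * M) + Real.log (1 / r) := by
    rw [← Real.log_mul (by positivity) (by positivity)]
    apply Real.log_le_log (by linarith)
    calc (t : ℝ) ≤ 2 * M / r := ht2
      _ = 2 * M * (1 / r) := by ring
  have hcl := PSD1_clog t ht1
  have h1 : (1 + (t : ℝ) / T) ≤ 1 + (2 * M + J + 3 + 2 * Real.log (2 * M)) / (r * T) := by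
    have h2 : (t : ℝ) / T ≤ (2 * M + J + 3 + 2 * Real.log (2 * M)) / (r * T) := by
      rw [div_le_div_iff₀ hT0 (by positivity)]
      have h3 : (t : ℝ) * r ≤ 2 * M := by
        rw [le_div_iff₀ hr] at ht2
        exact ht2
      have h4 : (0 : ℝ) ≤ J := Nat.cast_nonneg _
      calc (t : ℝ) * (r * T) = (t : ℝ) * r * T := by ring
        _ ≤ (2 * M + J + 3 + 2 * Real.log (2 * M)) * T := by
            apply mul_le_mul_of_nonneg_right _ hT0.le
            linarith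
    linarith
  have h2 : (1 + r) ^ (J + Nat.clog 2 t) ≤
      Real.exp ((2 * M + J + 3 + 2 * Real.log (2 * M)) * (r * (1 + Real.log (1 / r)))) := by
    have h3 : 1 + r ≤ Real.exp r := by
      have := Real.add_one_le_exp r
      linarith
    calc (1 + r) ^ (J + Nat.clog 2 t) ≤ (Real.exp r) ^ (J + Nat.clog 2 t) :=
          pow_le_pow_left₀ (by linarith) h3 _
      _ = Real.exp (((J + Nat.clog 2 t : ℕ) : ℝ) * r) := by rw [← Real.exp_nat_mul]
      _ ≤ _ := by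
          apply Real.exp_le_exp.2
          push_cast
          have h4 : (J : ℝ) + (Nat.clog 2 t : ℝ) ≤
              (2 * M + J + 3 + 2 * Real.log (2 * M)) * (1 + Real.log (1 / r)) := by
            have h5 : (0 : ℝ) ≤ J := Nat.cast_nonneg _
            have h6 : (0 : ℝ) ≤ (2 * M + J + 1 + 2 * Real.log (2 * M)) * Real.log (1 / r) :=
              mul_nonneg (by linarith) hL
            nlinarith
          calc ((J : ℝ) + (Nat.clog 2 t : ℝ)) * r ≤
              ((2 * M + J + 3 + 2 * Real.log (2 * M)) * (1 + Real.log (1 / r))) * r :=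
                mul_le_mul_of_nonneg_right h4 hr.le
            _ = (2 * M + J + 3 + 2 * Real.log (2 * M)) * (r * (1 + Real.log (1 / r))) := by ring
  rw [mul_comm]
  have h5 : (0 : ℝ) ≤ (t : ℝ) / T := by positivity
  exact mul_le_mul h1 h2 (by positivity) (by linarith)

theorem sd1 : ∃ (c r₁ : ℝ), 1 ≤ c ∧ 0 < r₁ ∧ r₁ ≤ 1 ∧ ∀ (G : Type) [AddCommGroup G] [Finite G] (T : ℕ) (r : ℝ), 1 ≤ T → 0 < r →
    r ≤ r₁ → SD G T r ((1 + c / (r * T)) * Real.exp (c * (r * (1 + Real.log (1 / r))))) := by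
  obtain ⟨M, J, r₁, hM, hr₁, hr₁1, hst⟩ := stage1
  have hLM : 0 ≤ Real.log (2 * M) := Real.log_nonneg (by linarith)
  have hJ : (0 : ℝ) ≤ J := Nat.cast_nonneg _
  refine ⟨2 * M + J + 3 + 2 * Real.log (2 * M), r₁, by linarith, hr₁, hr₁1, ?_⟩
  intro G _ _ T r hT hr hrr
  have hr1 : r ≤ 1 := hrr.trans hr₁1
  obtain ⟨E1, hE1, hs⟩ := hst r hr hrr
  have ht1 : 1 ≤ ⌈M / r⌉₊ :=
    Nat.one_le_iff_ne_zero.2 (Nat.ceil_pos.2 (by positivity)).ne'
  obtain ⟨E2, hE2, hg⟩ := growth1 T ⌈M / r⌉₊ J hT ht1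
  refine ⟨⌈M / r⌉₊, J, E1 + E2, ht1, by linarith, ?_⟩
  intro V a e he hH
  have e1 : ∀ (n : ℕ) (b : MM G), md V (Q n b) = Q n (md V b) := fun n b => mapHom_Q _ n b
  have e2 : ∀ (n : ℕ) (b : MM G), md V (n • b) = n • md V b := fun n b => map_nsmul _ _ _
  constructor
  · obtain ⟨j, hj, hk⟩ := hs (G ⧸ V) (md V a) e he hH
    refine ⟨j, hj, ?_⟩
    rw [e1]
    have h1 : 0 ≤ E2 * e := mul_nonneg hE2 he
    linarith
  · rw [e1, e2, e1, e1]
    have h1 := hg r hr.le hr1 (G ⧸ V) (md V a) e he hH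
    have h2 := mul_le_mul_of_nonneg_right (PSD1_f M J hM T r hT hr hr1)
      (h_nonneg (Q T (md V a)))
    have h3 : 0 ≤ E1 * e := mul_nonneg hE1 he
    linarith

end MM
end Pool.Agent.PFM
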