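import Pool.Agent.PFM.PStp
set_option autoImplicit false

/-!
# PSD2 (size 3).  The stage data, second regime.

`sd2`: `c₂` from `stage2`, `c₃` from `absorbT`.  For `T ≥ 1`, `L := 1 + log T`, `r c L ≤ 1` with `c` large: `stage2` gives `J ≤ c₂ L`, `t := T`.
  The stage inequality for `a' := md V a : MM (G ⧸ V)` (`Tor.quotient`), `md V (Q T a) = Q T (md V a)` (`mapHom_Q`).
  Potential: `md V (Q T (2^J • Q T a)) = Q T (2^J • Q T a')` (`mapHom_Q`, `map_nsmul`) `= Σ_{i<T} Σ_{l<T} 2^J • dil (2^(i+l)) a'` = a sum of `n = T * T * 2^J` dilates of `a'`: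
  write it as `∑ x : Fin n, dil (w x) a'` (any bijection `Fin n ≃ Fin T × Fin T × Fin (2^J)`, `finProdFinEquiv`).  `absorbT`: `≤ (1 + c₃ (1 + log T + log n) r) h (Q T a') + E e`,
  `log n = 2 log T + J log 2 ≤ (2 + c₂) L`.  So `f = 1 + c L r` with `c := c₂ + c₃ (4 + c₂)` say; all side conditions from `c L r ≤ 1`.
-/
namespace Pool.Agent.PFM
namespace MM

private theorem PSD2_sum {G : Type} [AddCommGroup G] (T J : ℕ) (b : MM G) :
    ∃ w : Fin (T * T * 2 ^ J) → ℤ, Q T (2 ^ J • Q T b) = ∑ x, dil (w x) b := by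
  have hcard : Fintype.card (Fin (2 ^ J) × Fin T × Fin T) = T * T * 2 ^ J := by
    rw [Fintype.card_prod, Fintype.card_prod, Fintype.card_fin, Fintype.card_fin]
    ring
  have ee := Fintype.equivFinOfCardEq hcard
  refine ⟨fun x => 2 ^ ((ee.symm x).2.1 : ℕ) * 2 ^ ((ee.symm x).2.2 : ℕ), ?_⟩
  have h1 : ∑ x, dil (2 ^ ((ee.symm x).2.1 : ℕ) * 2 ^ ((ee.symm x).2.2 : ℕ)) b
      = ∑ y : Fin (2 ^ J) × Fin T × Fin T, dil (2 ^ (y.2.1 : ℕ) * 2 ^ (y.2.2 : ℕ)) b :=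
    Equiv.sum_comp ee.symm (fun y : Fin (2 ^ J) × Fin T × Fin T =>
      dil (2 ^ (y.2.1 : ℕ) * 2 ^ (y.2.2 : ℕ)) b)
  have h2 : ∑ y : Fin (2 ^ J) × Fin T × Fin T, dil (2 ^ (y.2.1 : ℕ) * 2 ^ (y.2.2 : ℕ)) b
      = 2 ^ J • ∑ y : Fin T × Fin T, dil (2 ^ (y.1 : ℕ) * 2 ^ (y.2 : ℕ)) b := by
    rw [Fintype.sum_prod_type]
    change ∑ _x : Fin (2 ^ J), ∑ y : Fin T × Fin T, dil (2 ^ (y.1 : ℕ) * 2 ^ (y.2 : ℕ)) b = _
    rw [Finset.sum_const, Finset.card_univ, Fintype.card_fin]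
  rw [h1, h2, Q_nsmul]
  congr 1
  rw [Fintype.sum_prod_type]
  unfold Q
  rw [Finset.sum_range]
  refine Finset.sum_congr rfl fun i _ => ?_
  rw [Finset.sum_range, map_sum]
  refine Finset.sum_congr rfl fun j _ => ?_
  rw [dil_dil]

theorem sd2 : ∃ c : ℝ, 1 ≤ c ∧ ∀ (G : Type) [AddCommGroup G] [Finite G] (T : ℕ) (r : ℝ), Tor T G → 1 ≤ T → 0 < r →
    c * (1 + Real.log T) * r ≤ 1 → SD G T r (1 + c * (1 + Real.log T) * r) := by
  obtain ⟨c2, hc2, h2⟩ := stage2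
  obtain ⟨c3, hc3, h3⟩ := absorbT
  refine ⟨c2 + c3 * (3 + c2), by nlinarith, ?_⟩
  intro G _ _ T r hTor hT hr hc
  have hT1 : (1 : ℝ) ≤ T := by exact_mod_cast hT
  have hl0 : 0 ≤ Real.log T := Real.log_nonneg hT1
  have hLr : 0 < (1 + Real.log T) * r := by positivity
  have hcL : c2 * (1 + Real.log T) * r ≤ 1 := by
    refine le_trans ?_ hc
    rw [mul_assoc, mul_assoc]
    refine mul_le_mul_of_nonneg_right ?_ hLr.le
    nlinarith
  obtain ⟨J, hJ, E1, hE1, h2'⟩ := h2 T r hT hr hcL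
  have hn : 1 ≤ T * T * 2 ^ J := Nat.one_le_iff_ne_zero.2 (by positivity)
  have hlog : Real.log ((T * T * 2 ^ J : ℕ) : ℝ) ≤ 2 * Real.log T + c2 * (1 + Real.log T) := by
    push_cast
    rw [Real.log_mul (by positivity) (by positivity), Real.log_mul (by positivity) (by positivity),
      Real.log_pow]
    have h5 : Real.log 2 ≤ 1 := by
      have := Real.log_two_lt_d9
      linarith
    have h6 : (J : ℝ) * Real.log 2 ≤ J := by
      have h7 : (0 : ℝ) ≤ J := Nat.cast_nonneg J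
      nlinarith
    linarith
  have hfac : c3 * (1 + Real.log T + Real.log ((T * T * 2 ^ J : ℕ) : ℝ)) * r
      ≤ (c2 + c3 * (3 + c2)) * (1 + Real.log T) * r := by
    refine mul_le_mul_of_nonneg_right ?_ hr.le
    have h8 : 1 + Real.log T + Real.log ((T * T * 2 ^ J : ℕ) : ℝ) ≤ (3 + c2) * (1 + Real.log T) := by
      linarith
    have h9 : c3 * (1 + Real.log T + Real.log ((T * T * 2 ^ J : ℕ) : ℝ))
        ≤ c3 * ((3 + c2) * (1 + Real.log T)) := mul_le_mul_of_nonneg_left h8 (by linarith)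
    have h10 : 0 ≤ c2 * (1 + Real.log T) := by positivity
    nlinarith
  obtain ⟨E2, hE2, h3'⟩ := h3 T (T * T * 2 ^ J) r hT hn hr (hfac.trans hc)
  refine ⟨T, J, E1 + E2, hT, by linarith, ?_⟩
  intro V a e he hHer
  have eQ : md V (Q T a) = Q T (md V a) := mapHom_Q _ _ _
  constructor
  · obtain ⟨j, hj, h⟩ := h2' (G ⧸ V) (md V a) e (hTor.quotient V) he hHer
    refine ⟨j, hj, ?_⟩
    rw [eQ]
    have h11 : 0 ≤ E2 * e := mul_nonneg hE2 he
    linarith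
  · obtain ⟨w, hw⟩ := PSD2_sum T J (md V a)
    have e2 : md V (Q T (2 ^ J • Q T a)) = Q T (2 ^ J • Q T (md V a)) := by
      have h12 : md V (Q T (2 ^ J • Q T a)) = Q T (md V (2 ^ J • Q T a)) := mapHom_Q _ _ _
      rw [h12, map_nsmul, eQ]
    have h := h3' (G ⧸ V) (md V a) e (hTor.quotient V) he hHer w
    rw [e2, hw, eQ]
    have h13 : 0 ≤ MM.h (Q T (md V a)) := h_nonneg _
    have h14 : 0 ≤ E1 * e := mul_nonneg hE1 he
    have h15 := mul_le_mul_of_nonneg_right (add_le_add_right hfac 1) h13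
    linarith

end MM
end Pool.Agent.PFM
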