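import Pool.Agent.PFM.SStg
import Pool.Agent.PFM.Nmn
set_option autoImplicit false

/-!
# SIf.  The results used by section P: `MM.stage1`, `MM.stage2` (module SStg), `MM.growth1`, `MM.absorbT`,
`MM.h_Q_le` (module Grw), `MM.nearmin` (module Nmn).
-/
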