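import Pool.Agent.PFM.PDrp
import Pool.Agent.PFM.SIf
set_option autoImplicit false

/-!
# PSeq (size 2).  The sequence of near-minimisers.
-/
namespace Pool.Agent.PFM
namespace MM

private theorem PSeq_one (G : Type) [AddCommGroup G] (a : MM G) (r e : ℝ) (hr : 0 < r) (he : 0 < e) :
    ∃ b : MM G, RefM b a ∧ Her r e b ∧ kap b - r * h b ≤ kap a - r * h a := by
  obtain ⟨b, h1, h2, h3⟩ := nearmin a (AddMonoidHom.id G) hr.le he
  rw [mapHom_id, mapHom_id] at h3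
  rw [mapHom_id] at h2
  exact ⟨b, h1, h2, h3⟩

theorem seq_exists (G : Type) [AddCommGroup G] (a : MM G) (ρ ε : ℕ → ℝ) (hρ : ∀ i, 0 < ρ i) (hε : ∀ i, 0 < ε i) :
    ∃ b : ℕ → MM G, RefM (b 0) a ∧ (∀ i, RefM (b (i + 1)) (b i)) ∧ (∀ i, Her (ρ i) (ε i) (b i)) ∧
      kap (b 0) - ρ 0 * h (b 0) ≤ kap a - ρ 0 * h a ∧
      ∀ i, kap (b (i + 1)) - ρ (i + 1) * h (b (i + 1)) ≤ kap (b i) - ρ (i + 1) * h (b i) := by
  choose F hF1 hF2 hF3 using fun (i : ℕ) (x : MM G) => PSeq_one G x (ρ i) (ε i) (hρ i) (hε i)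
  let b : ℕ → MM G := fun n => Nat.rec (F 0 a) (fun i x => F (i + 1) x) n
  have hb0 : b 0 = F 0 a := rfl
  have hbs : ∀ i, b (i + 1) = F (i + 1) (b i) := fun i => rfl
  refine ⟨b, ?_, ?_, ?_, ?_, ?_⟩
  · rw [hb0]; exact hF1 0 a
  · intro i; rw [hbs]; exact hF1 (i + 1) (b i)
  · intro i
    cases i with
    | zero => rw [hb0]; exact hF2 0 a
    | succ i => rw [hbs]; exact hF2 (i + 1) (b i)
  · rw [hb0]; exact hF3 0 a
  · intro i; rw [hbs]; exact hF3 (i + 1) (b i)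

end MM
end Pool.Agent.PFM
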