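import Pool.Agent.PFM.PCrd
import Pool.Agent.PFM.SIf
set_option autoImplicit false

/-!
# PStA (size 4).  One step of the chain.

`Pot V := h (md V (Q T (2^J • Q t a)))`.
PROOF.  Let `ν ≤ 1` wlog not needed.  `δ₁ := min (δ/8) (ν * log 2 / (C * T + 1))  > 0`.  `hP δ₁` gives `e₁ > 0` (heredity of level `r/2`).
`e := δ r / (16 (E + 1)) > 0`.  Let `V, a` with `Her r e (md V a)`, `δ < h (md V a)`.
`hst V a e`: some `j ≤ J` with `kap (2^j • md V (Q t a)) ≤ r/4 * h (2^j • md V (Q t a)) + E e`.  `a₁ := 2^j • Q t a : MM G`, `A := md V a₁ = 2^j • md V (Q t a)`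
(`map_nsmul`).  `h A ≥ h (md V a) > δ` (`h_le_nsmul`, `mapHom_Q`, `h_le_Q`).
`nearmin (mk' V) a₁ (r/2) e₁`: `b` with `RefM b a₁`, `Her (r/2) e₁ (md V b)`, `kap (md V b) - r/2 h (md V b) ≤ kap A - r/2 h A ≤ - r/4 h A + E e`.
As `kap ≥ 0`: `r/2 h (md V b) ≥ r/4 h A - E e`, so `h (md V b) ≥ h A / 2 - 2 E e / r ≥ δ/2 - δ/8 > δ/4`.
`hP` for `V, b`: `V₁ ≥ V`, `h (md V₁ b) ≤ δ₁ ≤ δ/8`, `log |V₁| - log |V| ≤ C h (md V (Q T b)) + δ₁`.  `V₁ ≠ V` since `h (md V b) > δ/4 > h (md V₁ b)`.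
DROP: `h (md V (Q T b)) - h (md V₁ (Q T b)) ≤ h (md V (Q T a₁)) - h (md V₁ (Q T a₁))` (`RefM.Q`, `RefM.md_drop`) `≤ Pot V - Pot V₁`
(`md_drop_add`: `2^J • Q t a = a₁ + (2^J - 2^j) • Q t a`, `Q_add`), and `h (md V₁ (Q T b)) = h (Q T (md V₁ b)) ≤ T δ₁` (`mapHom_Q`, `h_Q_le_mul`).
So `log |V₁| - log |V| ≤ C (Pot V - Pot V₁) + (C T + 1) δ₁ ≤ C (Pot V - Pot V₁) + ν log 2`, and `log |V₁| - log |V| ≥ log 2`
(`V < V₁`: `Nat.card V₁ = Nat.card V * k`, `k ≥ 2`: Lagrange, `AddSubgroup.card_dvd_of_le`, strict: `AddSubgroup.eq_of_le_of_card_ge`).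
Therefore `(1 - ν)(log |V₁| - log |V|) ≤ C (Pot V - Pot V₁)`.
-/
namespace Pool.Agent.PFM
namespace MM

theorem step_one (G : Type) [AddCommGroup G] [Finite G] (T t J : ℕ) (ht : 1 ≤ t) (r E C : ℝ) (hr : 0 < r)
    (hE : 0 ≤ E) (hC : 0 ≤ C)
    (hst : ∀ (V : AddSubgroup G) (a : MM G) (e : ℝ), 0 ≤ e → Her r e (md V a) →
      ∃ j ≤ J, kap (2 ^ j • md V (Q t a)) ≤ r / 4 * h (2 ^ j • md V (Q t a)) + E * e)
    (hP : PP G T (r / 2) C) (δ ν : ℝ) (hδ : 0 < δ) (hν : 0 < ν) :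
    ∃ e : ℝ, 0 < e ∧ ∀ (V : AddSubgroup G) (a : MM G), Her r e (md V a) → δ < h (md V a) →
      ∃ V₁ : AddSubgroup G, V < V₁ ∧
        (1 - ν) * (Real.log (Nat.card V₁) - Real.log (Nat.card V)) ≤
          C * (h (md V (Q T (2 ^ J • Q t a))) - h (md V₁ (Q T (2 ^ J • Q t a)))) := by
  have hl2 : 0 < Real.log 2 := Real.log_pos (by norm_num)
  have hCT : 0 < C * T + 1 := by positivity
  obtain ⟨δ₁, hδ1, hδ18, hδ1ν⟩ : ∃ δ₁ : ℝ, 0 < δ₁ ∧ δ₁ ≤ δ / 8 ∧ (C * T + 1) * δ₁ ≤ ν * Real.log 2 := by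
    refine ⟨min (δ / 8) (ν * Real.log 2 / (C * T + 1)), lt_min (by positivity) (by positivity),
      min_le_left _ _, ?_⟩
    calc (C * T + 1) * min (δ / 8) (ν * Real.log 2 / (C * T + 1))
        ≤ (C * T + 1) * (ν * Real.log 2 / (C * T + 1)) :=
          mul_le_mul_of_nonneg_left (min_le_right _ _) hCT.le
      _ = ν * Real.log 2 := by field_simp
  obtain ⟨e₁, he1, hP'⟩ := hP δ₁ hδ1
  obtain ⟨e, he, hEe⟩ : ∃ e : ℝ, 0 < e ∧ E * e ≤ δ * r / 16 := by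
    refine ⟨δ * r / (16 * (E + 1)), by positivity, ?_⟩
    have h1 : E * (δ * r / (16 * (E + 1))) = (E / (E + 1)) * (δ * r / 16) := by
      field_simp
    rw [h1]
    have h2 : E / (E + 1) ≤ 1 := by
      rw [div_le_one (by positivity)]
      linarith
    have h3 : 0 ≤ δ * r / 16 := by positivity
    calc (E / (E + 1)) * (δ * r / 16) ≤ 1 * (δ * r / 16) := mul_le_mul_of_nonneg_right h2 h3
      _ = δ * r / 16 := one_mul _
  refine ⟨e, he, fun V a hH hδa => ?_⟩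
  obtain ⟨j, hj, hk⟩ := hst V a e he.le hH
  obtain ⟨a₁, ha₁⟩ : ∃ a₁ : MM G, a₁ = 2 ^ j • Q t a := ⟨_, rfl⟩
  have hA : md V a₁ = 2 ^ j • md V (Q t a) := by
    rw [ha₁, map_nsmul]
  rw [← hA] at hk
  have hA' : h (md V a) ≤ h (md V a₁) := by
    rw [hA]
    refine le_trans ?_ (h_le_nsmul Nat.one_le_two_pow _)
    have h1 : md V (Q t a) = Q t (md V a) := mapHom_Q _ _ _
    rw [h1]
    exact h_le_Q ht _
  obtain ⟨b, hb, hbH, hbk⟩ := nearmin a₁ (QuotientAddGroup.mk' V) (r := r / 2) (e := e₁) (by positivity) he1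
  change kap (md V b) - r / 2 * h (md V b) ≤ kap (md V a₁) - r / 2 * h (md V a₁) at hbk
  have hk0 := kap_nonneg (md V b)
  have hb4 : δ / 4 < h (md V b) := by
    have h1 : r / 4 * δ < r / 4 * h (md V a₁) :=
      mul_lt_mul_of_pos_left (lt_of_lt_of_le hδa hA') (by positivity)
    have h2 : r * (δ / 4) < r * h (md V b) := by
      nlinarith
    exact lt_of_mul_lt_mul_left h2 hr.le
  obtain ⟨V₁, hV, hV1, hV2⟩ := hP' V b hbH
  have hne : V < V₁ := by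
    refine lt_of_le_of_ne hV ?_
    rintro rfl
    linarith
  refine ⟨V₁, hne, ?_⟩
  have hlog := log_card_lt hne
  have d1 := (hb.Q T).md_drop hV
  have hsplit : Q T (2 ^ J • Q t a) = Q T a₁ + Q T ((2 ^ J - 2 ^ j) • Q t a) := by
    rw [← Q_add, ha₁, ← add_nsmul, Nat.add_sub_cancel' (Nat.pow_le_pow_right (by norm_num) hj)]
  have d2 := md_drop_add hV (Q T a₁) (Q T ((2 ^ J - 2 ^ j) • Q t a))
  rw [← hsplit] at d2
  have d3 : h (md V₁ (Q T b)) ≤ T * δ₁ := by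
    have h1 : md V₁ (Q T b) = Q T (md V₁ b) := mapHom_Q _ _ _
    rw [h1]
    exact (h_Q_le_mul _ _).trans (mul_le_mul_of_nonneg_left hV1 (Nat.cast_nonneg T))
  have d4 : h (md V (Q T b)) ≤ (h (md V (Q T (2 ^ J • Q t a))) - h (md V₁ (Q T (2 ^ J • Q t a)))) + T * δ₁ := by
    linarith
  have d5 := mul_le_mul_of_nonneg_left d4 hC
  have d6 : ν * Real.log 2 ≤ ν * (Real.log (Nat.card V₁) - Real.log (Nat.card V)) :=
    mul_le_mul_of_nonneg_left hlog hν.le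
  nlinarith

end MM
end Pool.Agent.PFM
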