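import Pool.Agent.PFM.PStA
set_option autoImplicit false

/-!
# PStp (size 3).  The step of the chain: `PP (r/2) C` implies `PP r (C f)`.

PROOF.  Let `δ > 0`, `L := log (Nat.card G) + 1 > 0`, `ν := min (1/2) (δ / (2 L (?)))`: choose `ν := min (1/2) (δ / (4 L))`.
`step_one` with `δ, ν` gives `e₀`; `e := min e₀ (δ / (4 (C + 1) (E + 1)))`.  Let `Her r e (md V₀ a)`.
Consider the (finite, nonempty: `V₀`) set of subgroups `V ≥ V₀` with `(1 - ν)(log |V| - log |V₀|) ≤ C (Pot V₀ - Pot V)`; choose one with `Nat.card V` maximal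
(`Set.Finite.exists_maximal...` / `Finset.exists_max_image`).  If `δ < h (md V a)`: `Her r e₀ (md V a)` (`Her.md_of_le`, `Her.mono`), `step_one` gives `V₁ > V`; adding the two
inequalities `V₁` is in the set, and `Nat.card V < Nat.card V₁`: contradiction.  So `h (md V a) ≤ δ`.
`log |V| - log |V₀| = (1 - ν)(..) + ν (..) ≤ C (Pot V₀ - Pot V) + ν L ≤ C Pot V₀ + δ/4` (`Pot V ≥ 0`, `log |V| ≤ L`, `log |V₀| ≥ 0`), and
`Pot V₀ ≤ f h (md V₀ (Q T a)) + E e`, `C E e ≤ δ/4`.
-/
namespace Pool.Agent.PFM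
namespace MM

/-- the data of one stage: `t`, `J`, with the potential factor `f` -/
def SD (G : Type) [AddCommGroup G] (T : ℕ) (r f : ℝ) : Prop :=
  ∃ (t J : ℕ) (E : ℝ), 1 ≤ t ∧ 0 ≤ E ∧ ∀ (V : AddSubgroup G) (a : MM G) (e : ℝ), 0 ≤ e → Her r e (md V a) →
    (∃ j ≤ J, kap (2 ^ j • md V (Q t a)) ≤ r / 4 * h (2 ^ j • md V (Q t a)) + E * e) ∧
    h (md V (Q T (2 ^ J • Q t a))) ≤ f * h (md V (Q T a)) + E * e

theorem pp_step (G : Type) [AddCommGroup G] [Finite G] (T : ℕ) (r f C : ℝ) (hr : 0 < r) (hC : 0 ≤ C)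
    (hS : SD G T r f) (hP : PP G T (r / 2) C) : PP G T r (C * f) := by
  intro δ hδ
  obtain ⟨t, J, E, ht, hE, hSD⟩ := hS
  have hcG : (1 : ℝ) ≤ (Nat.card G : ℝ) := by exact_mod_cast Nat.card_pos (α := G)
  have hlG : 0 ≤ Real.log (Nat.card G) := Real.log_nonneg hcG
  set L : ℝ := Real.log (Nat.card G) + 1 with hL
  have hLpos : 0 < L := by linarith
  set ν : ℝ := min (1 / 2) (δ / (4 * L)) with hν
  have hνpos : 0 < ν := lt_min (by norm_num) (by positivity)
  have hνL : ν * L ≤ δ / 4 := by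
    have h1 : ν ≤ δ / (4 * L) := min_le_right _ _
    calc ν * L ≤ δ / (4 * L) * L := mul_le_mul_of_nonneg_right h1 hLpos.le
      _ = δ / 4 := by field_simp
  obtain ⟨e₀, he₀, hstep⟩ := step_one G T t J ht r E C hr hE hC
    (fun V a e he hher => (hSD V a e he hher).1) hP δ ν hδ hνpos
  have hden : 0 < 4 * (C + 1) * (E + 1) := by positivity
  refine ⟨min e₀ (δ / (4 * (C + 1) * (E + 1))), lt_min he₀ (by positivity), ?_⟩
  intro V₀ a hher
  set e : ℝ := min e₀ (δ / (4 * (C + 1) * (E + 1))) with he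
  have hepos : 0 < e := lt_min he₀ (by positivity)
  have hCE : C * (E * e) ≤ δ / 4 := by
    have h1 : e ≤ δ / (4 * (C + 1) * (E + 1)) := min_le_right _ _
    have h2 : C * (E * e) ≤ (C + 1) * ((E + 1) * e) := by
      apply mul_le_mul (by linarith) _ (by positivity) (by positivity)
      exact mul_le_mul_of_nonneg_right (by linarith) hepos.le
    have h3 : (C + 1) * ((E + 1) * e) ≤ (C + 1) * ((E + 1) * (δ / (4 * (C + 1) * (E + 1)))) := by
      gcongr
    have h4 : (C + 1) * ((E + 1) * (δ / (4 * (C + 1) * (E + 1)))) = δ / 4 := by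
      field_simp
    linarith
  have hlc : ∀ V : AddSubgroup G, 0 ≤ Real.log (Nat.card V) ∧
      Real.log (Nat.card V) ≤ Real.log (Nat.card G) := by
    intro V
    have h1 : (1 : ℝ) ≤ (Nat.card V : ℝ) := by exact_mod_cast Nat.card_pos (α := V)
    have h2 : (Nat.card V : ℝ) ≤ (Nat.card G : ℝ) := by
      exact_mod_cast Nat.card_le_card_of_injective _ V.subtype_injective
    exact ⟨Real.log_nonneg h1, Real.log_le_log (by linarith) h2⟩
  have hne : ({V : AddSubgroup G | V₀ ≤ V ∧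
      (1 - ν) * (Real.log (Nat.card V) - Real.log (Nat.card V₀)) ≤
        C * (h (md V₀ (Q T (2 ^ J • Q t a))) - h (md V (Q T (2 ^ J • Q t a))))}).Nonempty :=
    ⟨V₀, le_rfl, by simp⟩
  obtain ⟨V, ⟨hV0, hVi⟩, hmax⟩ := Set.exists_max_image _ (fun V : AddSubgroup G => Nat.card V)
    (Set.toFinite _) hne
  refine ⟨V, hV0, ?_, ?_⟩
  · by_contra hcon
    rw [not_le] at hcon
    obtain ⟨V₁, hlt, hin⟩ := hstep V a
      (Her.mono (Her.md_of_le hV0 hher) le_rfl (min_le_left _ _)) hcon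
    have h1 := hmax V₁ ⟨hV0.trans hlt.le, by nlinarith [hin, hVi]⟩
    have h2 := log_card_lt hlt
    have h3 : Real.log (Nat.card V₁) ≤ Real.log (Nat.card V) := by
      apply Real.log_le_log
      · exact_mod_cast Nat.card_pos (α := V₁)
      · exact_mod_cast h1
    have h4 : 0 < Real.log 2 := Real.log_pos (by norm_num)
    linarith
  · have h1 := (hSD V₀ a e hepos.le hher).2
    have h2 : 0 ≤ h (md V (Q T (2 ^ J • Q t a))) := h_nonneg _
    have h3 : C * h (md V₀ (Q T (2 ^ J • Q t a))) ≤ C * (f * h (md V₀ (Q T a)) + E * e) :=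
      mul_le_mul_of_nonneg_left h1 hC
    have h4 : 0 ≤ C * h (md V (Q T (2 ^ J • Q t a))) := mul_nonneg hC h2
    have h5 : Real.log (Nat.card V) - Real.log (Nat.card V₀) ≤ L := by
      have := (hlc V).2
      have := (hlc V₀).1
      linarith
    have h6 : ν * (Real.log (Nat.card V) - Real.log (Nat.card V₀)) ≤ ν * L :=
      mul_le_mul_of_nonneg_left h5 hνpos.le
    nlinarith

end MM
end Pool.Agent.PFM
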