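import Pool.Agent.PFM.Nmn
set_option autoImplicit false

/-!
# Tuples of copies and linear forms
-/
namespace Pool.Agent.PFM
open Finset Pool.Agent.Ldc

namespace CV
variable {G K L M : Type}

theorem iso_pow_succ (A : CV G) (n : ℕ) :
    Iso (A.pair (A.pow n)) ((A.pow (n + 1)).map fun x => (x 0, fun i => x (Fin.succ i))) := by
  refine ⟨Fin.consEquiv (fun _ => A.Ω), fun ω => ?_, fun ω => ?_, fun ω ω' => ?_⟩
  · change (∏ i, A.p ((Fin.cons ω.1 ω.2 : Fin (n + 1) → A.Ω) i)) = A.p ω.1 * ∏ i, A.p (ω.2 i)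
    rw [Fin.prod_univ_succ]
    simp only [Fin.cons_zero, Fin.cons_succ]
  · change (A.f ((Fin.cons ω.1 ω.2 : Fin (n + 1) → A.Ω) 0),
      fun i : Fin n => A.f ((Fin.cons ω.1 ω.2 : Fin (n + 1) → A.Ω) (Fin.succ i)))
      = (A.f ω.1, fun i => A.f (ω.2 i))
    simp only [Fin.cons_zero, Fin.cons_succ]
  · change (fun i => A.z ((Fin.cons ω.1 ω.2 : Fin (n + 1) → A.Ω) i))
        = (fun i => A.z ((Fin.cons ω'.1 ω'.2 : Fin (n + 1) → A.Ω) i)) ↔
      (A.z ω.1, fun i => A.z (ω.2 i)) = (A.z ω'.1, fun i => A.z (ω'.2 i))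
    rw [funext_iff, Fin.forall_fin_succ, Prod.ext_iff]
    simp only [Fin.cons_zero, Fin.cons_succ, funext_iff]

theorem hc_pow (A : CV G) (n : ℕ) : hc (A.pow n) = n * hc A := by
  induction n with
  | zero =>
    have h1 : hc ((A.pow 0).map fun x : Fin 0 → G => x) = 0 :=
      hc_map_const _ _ fun x y => Subsingleton.elim x y
    rw [Nat.cast_zero, zero_mul]
    exact h1
  | succ n ih =>
    have h1 := (iso_pow_succ A n).hc_eq
    rw [hc_pair, ih, hc_map_inj] at h1
    · rw [← h1]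
      push_cast
      ring
    · intro x y h
      rw [Prod.ext_iff] at h
      funext i
      refine Fin.cases h.1 (fun j => ?_) i
      exact congrFun h.2 j

theorem lin_pow [AddCommGroup G] [AddCommGroup K] (A : CV G) (n : ℕ) (φ : Fin n → G →+ K) :
    MM.mk ((A.pow n).map fun x => ∑ i, φ i (x i)) = ∑ i, MM.mapHom (φ i) (MM.mk A) := by
  induction n with
  | zero =>
    rw [Fin.sum_univ_zero]
    refine MM.sound ⟨⟨fun _ => (), fun _ => fun i : Fin 0 => i.elim0, fun x => ?_,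
      fun _ => rfl⟩, fun ω => ?_, fun ω => ?_, fun ω ω' => ?_⟩
    · funext i
      exact i.elim0
    · change (1 : ℝ) = ∏ i : Fin 0, A.p (ω i)
      rw [Fin.prod_univ_zero]
    · change (0 : K) = ∑ i : Fin 0, φ i (A.f (ω i))
      rw [Fin.sum_univ_zero]
    · change () = () ↔ (fun i : Fin 0 => A.z (ω i)) = fun i => A.z (ω' i)
      exact ⟨fun _ => Subsingleton.elim _ _, fun _ => rfl⟩
  | succ n ih =>
    rw [Fin.sum_univ_succ, ← ih (fun i => φ (Fin.succ i))]
    have h1 := (iso_pow_succ A n).map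
      (fun x : G × (Fin n → G) => φ 0 x.1 + ∑ i, φ (Fin.succ i) (x.2 i))
    have h2 : (A.pow (n + 1)).map (fun x => ∑ i, φ i (x i))
        = ((A.pow (n + 1)).map fun x => (x 0, fun i => x (Fin.succ i))).map
          (fun x : G × (Fin n → G) => φ 0 x.1 + ∑ i, φ (Fin.succ i) (x.2 i)) := by
      have : (fun x : Fin (n + 1) → G => ∑ i, φ i (x i))
          = fun x => φ 0 (x 0) + ∑ i : Fin n, φ (Fin.succ i) (x (Fin.succ i)) := by
        funext x
        rw [Fin.sum_univ_succ]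
      rw [this]
      rfl
    rw [h2, ← MM.sound h1]
    rfl

/-- integer forms of copies are sums of dilates -/
theorem int_pow [AddCommGroup G] (A : CV G) (n : ℕ) (w : Fin n → ℤ) :
    hc ((A.pow n).map fun x => ∑ i, w i • x i) = MM.h (∑ i, MM.dil (w i) (MM.mk A)) := by
  have h1 := lin_pow A n (fun i => (zsmulAddGroupHom (w i) : G →+ G))
  have h2 := congrArg MM.h h1
  exact h2

/-- natural forms -/
theorem nat_pow [AddCommGroup G] (A : CV G) (n : ℕ) (w : Fin n → ℕ) :
    hc ((A.pow n).map fun x => ∑ i, w i • x i) = MM.h (∑ i, MM.dil (w i : ℤ) (MM.mk A)) := by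
  rw [← int_pow]
  simp only [natCast_zsmul]

end CV
end Pool.Agent.PFM
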