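import Pool.Agent.PFM.Defs
set_option autoImplicit false

/-!
# Refinements
-/
namespace Pool.Agent.PFM
open Finset Pool.Agent.Ldc

namespace CV
variable {G K L M : Type}

theorem exact' {A B : CV G} (h : MM.mk A = MM.mk B) : Iso A B := Quotient.exact (s := st G) h

theorem Ref.refl (A : CV G) : Ref A A :=
  ⟨fun x => x, fun ω => by rw [pr_id], fun _ => rfl, fun _ _ h => h⟩

theorem Iso.ref {A B : CV G} (h : Iso A B) : Ref A B := by
  classical
  obtain ⟨e, h1, h2, h3⟩ := h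
  refine ⟨e, fun ω => ?_, fun ω => (h2 ω).symm, fun ω ω' h => (h3 ω ω').2 h⟩
  unfold pr pe
  rw [Finset.sum_eq_single (e.symm ω)]
  · rw [if_pos (e.apply_symm_apply ω), ← h1, e.apply_symm_apply]
  · intro b _ hb
    rw [if_neg]
    intro h
    exact hb (by rw [← h, e.symm_apply_apply])
  · intro h
    exact absurd (Finset.mem_univ _) h

theorem Ref.trans {A B C : CV G} (h : Ref A B) (h' : Ref B C) : Ref A C := by
  obtain ⟨π, h1, h2, h3⟩ := h
  obtain ⟨π', h1', h2', h3'⟩ := h'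
  refine ⟨fun ω => π' (π ω), fun ω => ?_, fun ω => ?_, fun ω ω' h => h3' _ _ (h3 _ _ h)⟩
  · rw [← pr_pr A.p π π', show pr A.p π = B.p from funext h1, h1']
  · rw [h2, h2']

theorem Ref.map {A B : CV G} (h : Ref B A) (φ : G → K) : Ref (B.map φ) (A.map φ) := by
  obtain ⟨π, h1, h2, h3⟩ := h
  refine ⟨π, h1, fun ω => ?_, h3⟩
  change φ (B.f ω) = φ (A.f (π ω))
  rw [h2]

theorem Ref.pair {A B : CV G} {A' B' : CV K} (h : Ref B A) (h' : Ref B' A') :
    Ref (B.pair B') (A.pair A') := by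
  obtain ⟨π, h1, h2, h3⟩ := h
  obtain ⟨π', h1', h2', h3'⟩ := h'
  refine ⟨fun ω => (π ω.1, π' ω.2), fun ω => ?_, fun ω => ?_, fun ω ω' h => ?_⟩
  · have hI := indep_pp B.hp B'.hp π π'
    have e := pr_pair_of_indep hI
    rw [pr_pp_fst B'.hp π, pr_pp_snd B.hp π', show pr B.p π = A.p from funext h1,
      show pr B'.p π' = A'.p from funext h1'] at e
    exact congrFun e ω
  · change (B.f ω.1, B'.f ω.2) = (A.f (π ω.1), A'.f (π' ω.2))
    rw [h2, h2']
  · change (B.z ω.1, B'.z ω.2) = (B.z ω'.1, B'.z ω'.2) at h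
    rw [Prod.ext_iff] at h
    change (A.z (π ω.1), A'.z (π' ω.2)) = (A.z (π ω'.1), A'.z (π' ω'.2))
    rw [h3 _ _ h.1, h3' _ _ h.2]

theorem Ref.add [Add G] {A B A' B' : CV G} (h : Ref B A) (h' : Ref B' A') :
    Ref (B.add B') (A.add A') := (h.pair h').map _

/-- conditional entropies decrease under refinement -/
theorem Ref.cond_le {A B : CV G} (h : Ref B A) (φ : G → K) (ψ : G → L) :
    hc (B.map fun x => (φ x, ψ x)) - hc (B.map ψ) ≤ hc (A.map fun x => (φ x, ψ x)) - hc (A.map ψ) := by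
  obtain ⟨π, h1, h2, h3⟩ := h
  have hA : pr B.p π = A.p := funext h1
  have hne : Nonempty A.β := by
    by_contra hh
    have : ∀ ω : B.Ω, False := fun ω => hh ⟨A.z (π ω)⟩
    have h4 := B.hp.2
    rw [Finset.sum_eq_zero (fun ω _ => (this ω).elim)] at h4
    exact zero_ne_one h4
  obtain ⟨e, he⟩ := (Function.factorsThrough_iff (f := B.z) (fun ω => A.z (π ω))).1
    (fun ω ω' hh => h3 ω ω' hh)
  have he' : ∀ ω, A.z (π ω) = e (B.z ω) := fun ω => congrFun he ω
  have key := H_cond_anti B.hp (fun ω => φ (B.f ω)) (fun ω => (ψ (B.f ω), B.z ω))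
    (fun x => (x.1, e x.2))
  have k1 : H B.p (fun ω => (φ (B.f ω), ψ (B.f ω), B.z ω))
      = H B.p (fun ω => ((φ (B.f ω), ψ (B.f ω)), B.z ω)) :=
    H_ker _ _ _ fun ω ω' => by simp only [Prod.ext_iff, and_assoc]
  have k2 : H B.p (fun ω => (φ (B.f ω), ψ (B.f ω), e (B.z ω)))
      = H A.p (fun ω => ((φ (A.f ω), ψ (A.f ω)), A.z ω)) := by
    rw [← hA, H_law]
    refine H_ker _ _ _ fun ω ω' => ?_
    simp only [Prod.ext_iff, and_assoc, h2, he']
  have k3 : H B.p (fun ω => (ψ (B.f ω), e (B.z ω))) = H A.p (fun ω => (ψ (A.f ω), A.z ω)) := by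
    rw [← hA, H_law]
    refine H_ker _ _ _ fun ω ω' => ?_
    simp only [Prod.ext_iff, h2, he']
  rw [k1, k2, k3] at key
  change (H B.p (fun ω => ((φ (B.f ω), ψ (B.f ω)), B.z ω)) - H B.p B.z)
      - (H B.p (fun ω => (ψ (B.f ω), B.z ω)) - H B.p B.z)
    ≤ (H A.p (fun ω => ((φ (A.f ω), ψ (A.f ω)), A.z ω)) - H A.p A.z)
      - (H A.p (fun ω => (ψ (A.f ω), A.z ω)) - H A.p A.z)
  linarith

theorem Ref.hc_le {A B : CV G} (h : Ref B A) : hc B ≤ hc A := by
  have h1 := h.cond_le (fun x => x) (fun _ => ())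
  have h2 : ∀ A : CV G, hc (A.map fun x => (x, ())) = hc A := fun A =>
    hc_map_inj A _ fun x y h => by simpa using h
  rw [h2, h2, hc_map_const _ _ (fun _ _ => rfl), hc_map_const _ _ (fun _ _ => rfl)] at h1
  linarith

theorem hc_cond (A : CV G) (g : G → L) (φ : G → K) :
    hc (A.cond g φ) = hc (A.map fun x => (φ x, g x)) - hc (A.map g) := by
  have h1 : H A.p (fun ω => (φ (A.f ω), (A.z ω, g (A.f ω))))
      = H A.p (fun ω => ((φ (A.f ω), g (A.f ω)), A.z ω)) :=
    H_ker _ _ _ fun ω ω' => by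
      simp only [Prod.ext_iff]
      tauto
  have h2 : H A.p (fun ω => (A.z ω, g (A.f ω))) = H A.p (fun ω => (g (A.f ω), A.z ω)) :=
    H_ker _ _ _ fun ω ω' => by
      simp only [Prod.ext_iff]
      tauto
  change H A.p (fun ω => (φ (A.f ω), (A.z ω, g (A.f ω)))) - H A.p (fun ω => (A.z ω, g (A.f ω)))
    = (H A.p (fun ω => ((φ (A.f ω), g (A.f ω)), A.z ω)) - H A.p A.z)
      - (H A.p (fun ω => (g (A.f ω), A.z ω)) - H A.p A.z)
  rw [h1, h2]
  ring

theorem ref_cond (A : CV G) (g : G → L) (φ : G → K) : Ref (A.cond g φ) (A.map φ) :=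
  ⟨fun x => x, fun ω => by
    change pr A.p (fun x => x) ω = A.p ω
    rw [pr_id], fun _ => rfl, fun ω ω' h => by
    change (A.z ω, g (A.f ω)) = (A.z ω', g (A.f ω')) at h
    exact (Prod.ext_iff.1 h).1⟩

theorem iso_cond_pair {L' K' G' : Type} (A : CV G) (A' : CV G') (g : G → L) (g' : G' → L')
    (φ : G → K) (φ' : G' → K') :
    Iso ((A.cond g φ).pair (A'.cond g' φ'))
      ((A.pair A').cond (fun x => (g x.1, g' x.2)) (fun x => (φ x.1, φ' x.2))) := by
  refine ⟨Equiv.refl _, fun ω => rfl, fun ω => rfl, fun ω ω' => ?_⟩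
  change ((A.z ω.1, A'.z ω.2), (g (A.f ω.1), g' (A'.f ω.2)))
      = ((A.z ω'.1, A'.z ω'.2), (g (A.f ω'.1), g' (A'.f ω'.2))) ↔
    ((A.z ω.1, g (A.f ω.1)), (A'.z ω.2, g' (A'.f ω.2)))
      = ((A.z ω'.1, g (A.f ω'.1)), (A'.z ω'.2, g' (A'.f ω'.2)))
  simp only [Prod.ext_iff]
  tauto

/-- marginalisation: `A.pair B` refines to `A` -/
theorem ref_pair_fst (A : CV G) (B : CV K) : Ref ((A.pair B).map fun x => x.1) A :=
  ⟨fun ω => ω.1, fun ω => by
    change pr (pp A.p B.p) (fun x => x.1) ω = A.p ω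
    rw [pr_pp_fst B.hp (fun x => x), pr_id], fun _ => rfl, fun ω ω' h => by
    change (A.z ω.1, B.z ω.2) = (A.z ω'.1, B.z ω'.2) at h
    exact (Prod.ext_iff.1 h).1⟩

end CV

namespace MM
variable {G K L : Type}

theorem RefM.refl (a : MM G) : RefM a a := by
  induction a using ind with | h A => ?_
  exact ⟨A, A, rfl, rfl, CV.Ref.refl A⟩

theorem RefM.mk_mk {A B : CV G} : RefM (mk B) (mk A) ↔ CV.Ref B A := by
  constructor
  · rintro ⟨B', A', h1, h2, h3⟩
    exact ((CV.exact' h1.symm).ref.trans h3).trans (CV.exact' h2).ref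
  · exact fun h => ⟨B, A, rfl, rfl, h⟩

theorem RefM.trans {a b c : MM G} (h : RefM a b) (h' : RefM b c) : RefM a c := by
  induction a using ind with | h A => ?_
  induction b using ind with | h B => ?_
  induction c using ind with | h C => ?_
  rw [RefM.mk_mk] at *
  exact h.trans h'

theorem RefM.map [AddCommMonoid G] [AddCommMonoid K] {a b : MM G} (h : RefM b a) (φ : G →+ K) :
    RefM (mapHom φ b) (mapHom φ a) := by
  obtain ⟨B, A, rfl, rfl, h⟩ := h
  exact ⟨B.map φ, A.map φ, rfl, rfl, h.map φ⟩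

theorem RefM.add [AddCommMonoid G] {a b a' b' : MM G} (h : RefM b a) (h' : RefM b' a') :
    RefM (b + b') (a + a') := by
  obtain ⟨B, A, rfl, rfl, h⟩ := h
  obtain ⟨B', A', rfl, rfl, h'⟩ := h'
  exact ⟨B.add B', A.add A', rfl, rfl, h.add h'⟩

theorem RefM.nsmul [AddCommMonoid G] {a b : MM G} (h : RefM b a) (n : ℕ) :
    RefM (n • b) (n • a) := by
  induction n with
  | zero => rw [zero_nsmul, zero_nsmul]; exact RefM.refl 0
  | succ n ih => rw [succ_nsmul, succ_nsmul]; exact ih.add h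

theorem RefM.sum [AddCommMonoid G] {ι : Type} (s : Finset ι) {a b : ι → MM G}
    (h : ∀ i ∈ s, RefM (b i) (a i)) : RefM (∑ i ∈ s, b i) (∑ i ∈ s, a i) := by
  classical
  induction s using Finset.induction_on with
  | empty => rw [Finset.sum_empty, Finset.sum_empty]; exact RefM.refl 0
  | insert i s hi ih =>
    rw [Finset.sum_insert hi, Finset.sum_insert hi]
    exact (h i (Finset.mem_insert_self i s)).add (ih fun j hj => h j (Finset.mem_insert_of_mem hj))

theorem RefM.Q [AddCommGroup G] {a b : MM G} (h : RefM b a) (t : ℕ) : RefM (Q t b) (Q t a) :=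
  RefM.sum _ fun _ _ => h.map _

theorem RefM.h_le {a b : MM G} (hr : RefM b a) : h b ≤ h a := by
  obtain ⟨B, A, rfl, rfl, hr⟩ := hr
  exact hr.hc_le

/-- the drop of the entropy under a homomorphism decreases under refinement -/
theorem RefM.drop [AddCommMonoid G] [AddCommMonoid K] [AddCommMonoid L] {a b : MM G}
    (hr : RefM b a) (φ : G →+ K) (ψ : K →+ L) :
    h (mapHom φ b) - h (mapHom (ψ.comp φ) b) ≤ h (mapHom φ a) - h (mapHom (ψ.comp φ) a) := by
  obtain ⟨B, A, rfl, rfl, hr⟩ := hr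
  have h1 := hr.cond_le φ (fun x => ψ (φ x))
  have h2 : ∀ A : CV G, CV.hc (A.map fun x => (φ x, ψ (φ x))) = CV.hc (A.map φ) := fun A =>
    CV.hc_map_congr _ _ _ fun x y => by
      simp only [Prod.ext_iff, and_iff_left_iff_imp]
      intro h
      rw [h]
  rw [h2, h2] at h1
  exact h1

end MM
end Pool.Agent.PFM
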