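import Pool.Agent.PFM.SDefs
import Pool.Agent.Ldc.E7a
set_option autoImplicit false

/-!
# Module SAvg.  Averages over the fibres.

Let `g ω = (l (f ω), z ω)` on `(Ω, p)` = the space of `T`.  First a version of `H_cond_sum` without `Fintype β`:
`H p (F, g) = H p g + ∑ ω0, p ω0 * H (cnd p g (g ω0)) F` (`Hcs`): replace `g` by its corestriction to `Set.range g`
(`Fintype.ofFinite`; same kernel, `H_ker` of the file CV; `cnd` is unchanged), use `H_cond_sum` and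
`∑ b, pr p g b * u b = ∑ ω, p ω * u (g ω)` (`sum_pr_mul`).  For `p ω0 > 0`, `pr p g (g ω0) > 0` (`pr_pos`), so
`cndw p g ω0 = cnd p g (g ω0)`; for `p ω0 = 0` the weight is `0`.
`avg_fib`: `F = u ∘ f`; `hc (fib ..) = H (cndw ..) (u ∘ f)` (the label is constant, `H_ker`, `H_const`), and
`H p (u, l, z) - H p (l, z) = hc (T.map (u, l)) - hc (T.map l)`.
`avg_fib_add`: `a = mk B`; on `pp B.p T.p` with `g' = g ∘ snd`, `F' = (B.f + u, B.z)`:
`cnd (pp B.p T.p) g' b = pp B.p (cnd T.p g b)` (`E7a_cnd_pp`), so the left side is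
`H (F', g') - H g' - H (B.z)`; the right side is `H (F', z) - H (z) - H (B.z)`; conclude with `H_cond_anti`
(`φ = Prod.snd`: `(l, z) ↦ z`); `H (pp ..) (B.z, T.z) = H B.p B.z + H T.p T.z` (`H_indep`, `indep_pp`, `H_pp_fst`,
`H_pp_snd`).
-/
namespace Pool.Agent.PFM
open Finset Pool.Agent.Ldc
variable {X L G : Type}

private theorem SAvg_pr {Ω β : Type} [Fintype Ω] (p : Ω → ℝ) (g : Ω → β) (ω0 : Ω) :
    pr p (fun ω => (⟨g ω, ω, rfl⟩ : Set.range g)) ⟨g ω0, ω0, rfl⟩ = pr p g (g ω0) := by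
  unfold pr
  refine E3b_pe_congr p fun ω => ?_
  rw [Subtype.mk.injEq]

private theorem SAvg_cnd {Ω β : Type} [Fintype Ω] (p : Ω → ℝ) (g : Ω → β) (ω0 : Ω) :
    cnd p (fun ω => (⟨g ω, ω, rfl⟩ : Set.range g)) ⟨g ω0, ω0, rfl⟩ = cnd p g (g ω0) := by
  classical
  funext ω
  unfold cnd
  rw [SAvg_pr]
  by_cases h : g ω = g ω0
  · rw [if_pos h, if_pos (Subtype.ext h)]
  · rw [if_neg h, if_neg (fun h' => h (congrArg Subtype.val h'))]

theorem Hcs {Ω α β : Type} [Fintype Ω] {p : Ω → ℝ} (hp : IsP p) (F : Ω → α) (g : Ω → β) :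
    H p (fun ω => (F ω, g ω)) = H p g + ∑ ω0, p ω0 * H (cndw p g ω0) F := by
  classical
  have : Fintype (Set.range g) := Fintype.ofFinite _
  set gr : Ω → Set.range g := fun ω => ⟨g ω, ω, rfl⟩ with hgr
  have h1 : H p (fun ω => (F ω, g ω)) = H p (fun ω => (F ω, gr ω)) :=
    CV.H_ker _ _ _ fun ω ω' => by
      simp only [Prod.ext_iff, hgr, Subtype.mk.injEq]
  have h2 : H p g = H p gr :=
    CV.H_ker _ _ _ fun ω ω' => by
      simp only [hgr, Subtype.mk.injEq]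
  rw [h1, h2, H_cond_sum hp F gr, sum_pr_mul p gr (fun b => H (cnd p gr b) F)]
  congr 1
  refine Finset.sum_congr rfl fun ω0 _ => ?_
  rcases (hp.1 ω0).lt_or_eq with h0 | h0
  · have h3 := pr_pos hp g h0
    have h4 : cndw p g ω0 = cnd p g (g ω0) := by
      unfold cndw
      rw [if_pos h3]
    rw [h4, hgr, SAvg_cnd]
  · rw [← h0, zero_mul, zero_mul]

private theorem SAvg_hc (T : CV X) (l : X → L) (u : X → G) (ω0 : T.Ω) :
    CV.hc (fib T l u ω0) = H (cndw T.p (fun ω => (l (T.f ω), T.z ω)) ω0) (fun ω => u (T.f ω)) := by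
  have hq := cndw_isP T.hp (fun ω => (l (T.f ω), T.z ω)) ω0
  change H (cndw T.p (fun ω => (l (T.f ω), T.z ω)) ω0) (fun ω => (u (T.f ω), ())) -
    H (cndw T.p (fun ω => (l (T.f ω), T.z ω)) ω0) (fun _ => ()) = _
  rw [H_const hq (fun _ : T.Ω => ()) (fun _ _ => rfl), sub_zero]
  exact CV.H_ker _ _ _ fun ω ω' => by simp only [Prod.ext_iff, and_true]

theorem avg_fib (T : CV X) (l : X → L) (u : X → G) :
    ∑ ω0, T.p ω0 * CV.hc (fib T l u ω0) = CV.hc (T.map fun x => (u x, l x)) - CV.hc (T.map l) := by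
  have h1 := Hcs T.hp (fun ω => u (T.f ω)) (fun ω => (l (T.f ω), T.z ω))
  have h2 : CV.hc (T.map fun x => (u x, l x)) =
      H T.p (fun ω => (u (T.f ω), (l (T.f ω), T.z ω))) - H T.p T.z := by
    change H T.p (fun ω => ((u (T.f ω), l (T.f ω)), T.z ω)) - H T.p T.z = _
    congr 1
    exact CV.H_ker _ _ _ fun ω ω' => by simp only [Prod.ext_iff, and_assoc]
  have h3 : CV.hc (T.map l) = H T.p (fun ω => (l (T.f ω), T.z ω)) - H T.p T.z := rfl
  simp only [SAvg_hc]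
  rw [h2, h3]
  linarith

private theorem SAvg_pp {Ω Ω' β : Type} [Fintype Ω] [Fintype Ω'] {p : Ω → ℝ} {q : Ω' → ℝ}
    (hp : IsP p) (g : Ω' → β) (b : Ω) (ω0 : Ω') :
    cndw (pp p q) (fun w : Ω × Ω' => g w.2) (b, ω0) = pp p (cndw q g ω0) := by
  classical
  have h : pr (pp p q) (fun w : Ω × Ω' => g w.2) (g ω0) = pr q g (g ω0) := by
    rw [pr_pp_snd hp g]
  unfold cndw
  dsimp only
  rw [h]
  split_ifs with h0
  · funext w
    unfold cnd
    rw [h]
    unfold pp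
    dsimp only
    split_ifs
    · rw [mul_div_assoc]
    · rw [mul_zero]
  · rfl

theorem avg_fib_add [AddCommGroup G] (T : CV X) (l : X → L) (u : X → G) (a : MM G) :
    ∑ ω0, T.p ω0 * MM.h (a + MM.mk (fib T l u ω0)) ≤ MM.h (a + MM.mk (T.map u)) := by
  classical
  induction a using MM.ind with | h B => ?_
  set g : T.Ω → L × T.β := fun ω => (l (T.f ω), T.z ω) with hg
  set F : B.Ω × T.Ω → G × B.β := fun w => (B.f w.1 + u (T.f w.2), B.z w.1) with hF
  have hP := pp_isP B.hp T.hp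
  have h1 : ∀ ω0, MM.h (MM.mk B + MM.mk (fib T l u ω0)) =
      H (pp B.p (cndw T.p g ω0)) F - H B.p B.z := by
    intro ω0
    have hq := cndw_isP T.hp g ω0
    change H (pp B.p (cndw T.p g ω0)) (fun w : B.Ω × T.Ω => (B.f w.1 + u (T.f w.2), (B.z w.1, ()))) -
      H (pp B.p (cndw T.p g ω0)) (fun w : B.Ω × T.Ω => (B.z w.1, ())) = _
    have e1 : H (pp B.p (cndw T.p g ω0)) (fun w : B.Ω × T.Ω => (B.f w.1 + u (T.f w.2), (B.z w.1, ()))) =
        H (pp B.p (cndw T.p g ω0)) F :=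
      CV.H_ker _ _ _ fun ω ω' => by simp only [hF, Prod.ext_iff, and_true]
    have e2 : H (pp B.p (cndw T.p g ω0)) (fun w : B.Ω × T.Ω => (B.z w.1, ())) = H B.p B.z := by
      rw [← H_pp_fst hq B.z]
      exact CV.H_ker _ _ _ fun ω ω' => by simp only [Prod.ext_iff, and_true]
    rw [e1, e2]
  have h2 : MM.h (MM.mk B + MM.mk (T.map u)) =
      H (pp B.p T.p) (fun w => (F w, T.z w.2)) - (H B.p B.z + H T.p T.z) := by
    change H (pp B.p T.p) (fun w : B.Ω × T.Ω => (B.f w.1 + u (T.f w.2), (B.z w.1, T.z w.2))) -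
      H (pp B.p T.p) (fun w : B.Ω × T.Ω => (B.z w.1, T.z w.2)) = _
    have e1 := H_indep hP _ _ (indep_pp B.hp T.hp B.z T.z)
    rw [H_pp_fst T.hp B.z, H_pp_snd B.hp T.z] at e1
    have e2 : H (pp B.p T.p) (fun w : B.Ω × T.Ω => (B.f w.1 + u (T.f w.2), (B.z w.1, T.z w.2))) =
        H (pp B.p T.p) (fun w => (F w, T.z w.2)) :=
      CV.H_ker _ _ _ fun ω ω' => by simp only [hF, Prod.ext_iff, and_assoc]
    rw [e1, e2]
  have h3 := Hcs hP F (fun w : B.Ω × T.Ω => g w.2)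
  have h4 : ∑ w : B.Ω × T.Ω, pp B.p T.p w * H (cndw (pp B.p T.p) (fun w : B.Ω × T.Ω => g w.2) w) F =
      ∑ ω0, T.p ω0 * H (pp B.p (cndw T.p g ω0)) F := by
    rw [Fintype.sum_prod_type_right]
    refine Finset.sum_congr rfl fun ω0 _ => ?_
    have e : ∀ b, pp B.p T.p (b, ω0) * H (cndw (pp B.p T.p) (fun w : B.Ω × T.Ω => g w.2) (b, ω0)) F =
        B.p b * (T.p ω0 * H (pp B.p (cndw T.p g ω0)) F) := by
      intro b
      rw [SAvg_pp B.hp g b ω0]
      unfold pp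
      ring
    rw [Finset.sum_congr rfl (fun b _ => e b), ← Finset.sum_mul, B.hp.2, one_mul]
  have h5 := H_cond_anti hP F (fun w : B.Ω × T.Ω => g w.2) Prod.snd
  have h6 : H (pp B.p T.p) (fun w : B.Ω × T.Ω => (g w.2).2) = H T.p T.z := H_pp_snd B.hp T.z
  have h7 : ∑ ω0, T.p ω0 * H B.p B.z = H B.p B.z := by
    rw [← Finset.sum_mul, T.hp.2, one_mul]
  have h8 : ∑ ω0, T.p ω0 * (H (pp B.p (cndw T.p g ω0)) F - H B.p B.z) =
      ∑ ω0, T.p ω0 * H (pp B.p (cndw T.p g ω0)) F - H B.p B.z := by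
    simp only [mul_sub, Finset.sum_sub_distrib]
    rw [h7]
  simp only [h1]
  rw [h8, h2]
  rw [h4] at h3
  have h9 : H (pp B.p T.p) (fun w : B.Ω × T.Ω => (F w, (g w.2).2)) =
      H (pp B.p T.p) (fun w => (F w, T.z w.2)) := rfl
  rw [h9, h6] at h5
  linarith

end Pool.Agent.PFM
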