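import Pool.Agent.PFM.SDefs
import Pool.Agent.Ldc.E7c
set_option autoImplicit false

/-!
# Module SBsg.  The endgame: entropic Balog-Szemeredi-Gowers for `u`, `v` given `u + v`.

Use `Pool.Agent.Ldc.BSG` on `Ω = T.Ω`, `p = T.p`, `A ω = u (T.f ω)`, `B ω = v (T.f ω)` and `h ω = (c (T.f ω), T.z ω)`
(corestricted to `Set.range h`, a `Fintype`; entropies and `cnd` only depend on the kernel of the function: `H_ker`).
`∑ v, pr p S v * F v = ∑ ω, p ω * F (S ω)` with `S ω = (A ω + B ω, h ω)` (`sum_pr_mul`), so the left side of `BSG`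
is `∑ ω0, p ω0 * rd (pr q A) (pr q B)`, `q = cnd p S (S ω0)`.  For `p ω0 > 0`: on the support of `q` we have
`A + B = s`, a constant, so `rd (pr q A) (pr q B) = H (pp q q) (A ω.1 - B ω.2) - H q A / 2 - H q B / 2
= H (pp q q) (A ω.1 + A ω.2) - H q A = kap (mk (fib ..))`: `A ω.1 - B ω.2 = A ω.1 + A ω.2 - s` on the support of
`pp q q`, `B = s - A` on the support of `q`.  (Auxiliary lemma: `H q f = H q g` if `f ω = f ω' ↔ g ω = g ω'` for all
`ω, ω'` in the support of `q`; proof as `H_ker` in the file CV.)  Right side: `cmi` and `H` in terms of `CV.hc`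
(`H p (A, h) = hc (T.map (u, c)) + H p z` etc.; reassociate pairs with `H_ker`).
-/
namespace Pool.Agent.PFM
open Finset Pool.Agent.Ldc
variable {X L G : Type} [AddCommGroup G] [Fintype G]

private theorem SBsg_prk {Ω α β : Type} [Fintype Ω] (p : Ω → ℝ) (f : Ω → α) (g : Ω → β)
    (h : ∀ ω ω', f ω = f ω' ↔ g ω = g ω') (ω : Ω) : pr p f (f ω) = pr p g (g ω) := by
  classical
  unfold pr pe
  refine Finset.sum_congr rfl fun ω' _ => ?_
  by_cases hh : f ω' = f ω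
  · rw [if_pos hh, if_pos ((h _ _).1 hh)]
  · rw [if_neg hh, if_neg (fun h' => hh ((h _ _).2 h'))]

private theorem SBsg_cnd {Ω α β : Type} [Fintype Ω] (p : Ω → ℝ) (f : Ω → α) (g : Ω → β)
    (h : ∀ ω ω', f ω = f ω' ↔ g ω = g ω') (ω : Ω) : cnd p f (f ω) = cnd p g (g ω) := by
  classical
  funext ω'
  unfold cnd
  rw [SBsg_prk p f g h ω]
  by_cases hh : f ω' = f ω
  · rw [if_pos hh, if_pos ((h _ _).1 hh)]
  · rw [if_neg hh, if_neg (fun h' => hh ((h _ _).2 h'))]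

private theorem SBsg_Hk {Ω α β : Type} [Fintype Ω] (p : Ω → ℝ) (f : Ω → α) (g : Ω → β)
    (h : ∀ ω ω', p ω ≠ 0 → p ω' ≠ 0 → (f ω = f ω' ↔ g ω = g ω')) : H p f = H p g := by
  classical
  unfold H
  congr 1
  refine Finset.sum_congr rfl fun ω _ => ?_
  by_cases h0 : p ω = 0
  · rw [h0, zero_mul, zero_mul]
  · congr 2
    unfold pr pe
    refine Finset.sum_congr rfl fun ω' _ => ?_
    by_cases h1 : p ω' = 0
    · simp [h1]
    · by_cases hh : f ω' = f ω
      · rw [if_pos hh, if_pos ((h _ _ h1 h0).1 hh)]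
      · rw [if_neg hh, if_neg (fun h' => hh ((h _ _ h1 h0).2 h'))]

private theorem SBsg_rd {Ω : Type} [Fintype Ω] {q : Ω → ℝ} (hq : IsP q) (A B : Ω → G) (s : G)
    (hs : ∀ ω, q ω ≠ 0 → A ω + B ω = s) :
    rd (pr q A) (pr q B) = H (pp q q) (fun x => A x.1 + A x.2) - H q A := by
  have h1 := H_sub_eq (pp_isP hq hq) (fun x : Ω × Ω => A x.1) (fun x => B x.2)
    (indep_pp hq hq A B)
  rw [pr_pp_fst hq A, pr_pp_snd hq B, H_pp_fst hq A, H_pp_snd hq B] at h1
  have h2 : H q B = H q A := by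
    refine SBsg_Hk q B A fun ω ω' h h' => ?_
    have e1 : B ω = s - A ω := eq_sub_of_add_eq' (hs ω h)
    have e2 : B ω' = s - A ω' := eq_sub_of_add_eq' (hs ω' h')
    rw [e1, e2]
    exact sub_right_inj
  have h3 : H (pp q q) (fun x => A x.1 - B x.2) = H (pp q q) (fun x => A x.1 + A x.2) := by
    refine SBsg_Hk _ _ _ fun x y h h' => ?_
    have hx : q x.2 ≠ 0 := fun h0 => h (by unfold pp; rw [h0, mul_zero])
    have hy : q y.2 ≠ 0 := fun h0 => h' (by unfold pp; rw [h0, mul_zero])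
    have e1 : B x.2 = s - A x.2 := eq_sub_of_add_eq' (hs _ hx)
    have e2 : B y.2 = s - A y.2 := eq_sub_of_add_eq' (hs _ hy)
    rw [e1, e2]
    have e3 : A x.1 - (s - A x.2) = (A x.1 + A x.2) - s := by abel
    have e4 : A y.1 - (s - A y.2) = (A y.1 + A y.2) - s := by abel
    rw [e3, e4]
    exact sub_left_inj
  rw [h2, h3] at h1
  linarith

theorem avg_kap (T : CV X) (c : X → L) (u v : X → G) :
    ∑ ω0, T.p ω0 * MM.kap (MM.mk (fib T (fun x => (u x + v x, c x)) u ω0)) ≤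
      3 * (CV.hc (T.map fun x => (u x, c x)) + CV.hc (T.map fun x => (v x, c x))
            - CV.hc (T.map fun x => (u x, v x, c x)) - CV.hc (T.map c))
      + 2 * (CV.hc (T.map fun x => (u x + v x, c x)) - CV.hc (T.map c))
      - (CV.hc (T.map fun x => (u x, c x)) - CV.hc (T.map c))
      - (CV.hc (T.map fun x => (v x, c x)) - CV.hc (T.map c)) := by
  classical
  obtain ⟨h, hh⟩ : ∃ h : T.Ω → L × T.β, h = fun ω => (c (T.f ω), T.z ω) := ⟨_, rfl⟩
  have fin : Fintype (Set.range h) := Fintype.ofFinite _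
  obtain ⟨h', hh'⟩ : ∃ h' : T.Ω → Set.range h, h' = fun ω => ⟨h ω, Set.mem_range_self ω⟩ :=
    ⟨_, rfl⟩
  have hk : ∀ ω ω', h' ω = h' ω' ↔ (c (T.f ω) = c (T.f ω') ∧ T.z ω = T.z ω') := by
    intro ω ω'
    rw [hh', hh]
    simp only [Subtype.mk.injEq, Prod.mk.injEq]
  have hB := BSG T.hp (fun ω => u (T.f ω)) (fun ω => v (T.f ω)) h'
  rw [sum_pr_mul] at hB
  have hL : ∑ ω0, T.p ω0 * MM.kap (MM.mk (fib T (fun x => (u x + v x, c x)) u ω0))
      = ∑ ω0, T.p ω0 * rd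
        (pr (cnd T.p (fun ω => (u (T.f ω) + v (T.f ω), h' ω)) (u (T.f ω0) + v (T.f ω0), h' ω0))
          (fun ω => u (T.f ω)))
        (pr (cnd T.p (fun ω => (u (T.f ω) + v (T.f ω), h' ω)) (u (T.f ω0) + v (T.f ω0), h' ω0))
          (fun ω => v (T.f ω))) := by
    refine Finset.sum_congr rfl fun ω0 _ => ?_
    rcases (T.hp.1 ω0).eq_or_lt with h0 | h0
    · rw [← h0, zero_mul, zero_mul]
    congr 1
    have hq := cnd_isP T.hp (fun ω => (u (T.f ω) + v (T.f ω), h' ω))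
      (u (T.f ω0) + v (T.f ω0), h' ω0)
      (pr_pos T.hp (fun ω => (u (T.f ω) + v (T.f ω), h' ω)) h0)
    have hqe : cndw T.p (fun ω => ((u (T.f ω) + v (T.f ω), c (T.f ω)), T.z ω)) ω0
        = cnd T.p (fun ω => (u (T.f ω) + v (T.f ω), h' ω)) (u (T.f ω0) + v (T.f ω0), h' ω0) := by
      unfold cndw
      rw [if_pos (pr_pos T.hp (fun ω => ((u (T.f ω) + v (T.f ω), c (T.f ω)), T.z ω)) h0)]
      refine SBsg_cnd T.p (fun ω => ((u (T.f ω) + v (T.f ω), c (T.f ω)), T.z ω))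
        (fun ω => (u (T.f ω) + v (T.f ω), h' ω)) (fun ω ω' => ?_) ω0
      simp only [Prod.mk.injEq, hk, and_assoc]
    rw [SBsg_rd hq (fun ω => u (T.f ω)) (fun ω => v (T.f ω)) (u (T.f ω0) + v (T.f ω0))
      (fun ω hω => by
        by_contra hne
        apply hω
        unfold cnd
        rw [if_neg (fun he => hne (Prod.mk.inj he).1)])]
    rw [← hqe]
    unfold MM.kap
    rw [two_nsmul, MM.mk_add, MM.h_mk, MM.h_mk]
    have hF := cndw_isP T.hp (fun ω => ((u (T.f ω) + v (T.f ω), c (T.f ω)), T.z ω)) ω0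
    change H (pp (cndw T.p (fun ω => ((u (T.f ω) + v (T.f ω), c (T.f ω)), T.z ω)) ω0)
        (cndw T.p (fun ω => ((u (T.f ω) + v (T.f ω), c (T.f ω)), T.z ω)) ω0))
        (fun x : T.Ω × T.Ω => (u (T.f x.1) + u (T.f x.2), ((), ())))
      - H (pp (cndw T.p (fun ω => ((u (T.f ω) + v (T.f ω), c (T.f ω)), T.z ω)) ω0)
        (cndw T.p (fun ω => ((u (T.f ω) + v (T.f ω), c (T.f ω)), T.z ω)) ω0))
        (fun _ : T.Ω × T.Ω => ((), ()))
      - (H (cndw T.p (fun ω => ((u (T.f ω) + v (T.f ω), c (T.f ω)), T.z ω)) ω0)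
          (fun ω => (u (T.f ω), ()))
        - H (cndw T.p (fun ω => ((u (T.f ω) + v (T.f ω), c (T.f ω)), T.z ω)) ω0)
          (fun _ => ())) = _
    rw [H_const (pp_isP hF hF) (fun _ : T.Ω × T.Ω => ((), ())) (fun _ _ => rfl),
      H_const hF (fun _ => ()) (fun _ _ => rfl), sub_zero, sub_zero]
    congr 1
    · exact CV.H_ker _ _ _ fun ω ω' => by simp only [Prod.mk.injEq, and_true]
    · exact CV.H_ker _ _ _ fun ω ω' => by simp only [Prod.mk.injEq, and_true]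
  rw [hL]
  refine hB.trans (le_of_eq ?_)
  unfold cmi
  have e1 : H T.p (fun ω => (u (T.f ω), h' ω))
      = H T.p (fun ω => ((u (T.f ω), c (T.f ω)), T.z ω)) :=
    CV.H_ker _ _ _ fun ω ω' => by simp only [Prod.mk.injEq, hk, and_assoc]
  have e2 : H T.p (fun ω => (v (T.f ω), h' ω))
      = H T.p (fun ω => ((v (T.f ω), c (T.f ω)), T.z ω)) :=
    CV.H_ker _ _ _ fun ω ω' => by simp only [Prod.mk.injEq, hk, and_assoc]
  have e3 : H T.p (fun ω => (u (T.f ω), v (T.f ω), h' ω))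
      = H T.p (fun ω => ((u (T.f ω), v (T.f ω), c (T.f ω)), T.z ω)) :=
    CV.H_ker _ _ _ fun ω ω' => by simp only [Prod.mk.injEq, hk, and_assoc]
  have e4 : H T.p h' = H T.p (fun ω => (c (T.f ω), T.z ω)) :=
    CV.H_ker _ _ _ fun ω ω' => by simp only [Prod.mk.injEq, hk]
  have e5 : H T.p (fun ω => (u (T.f ω) + v (T.f ω), h' ω))
      = H T.p (fun ω => ((u (T.f ω) + v (T.f ω), c (T.f ω)), T.z ω)) :=
    CV.H_ker _ _ _ fun ω ω' => by simp only [Prod.mk.injEq, hk, and_assoc]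
  rw [e1, e2, e3, e4, e5]
  change _ = 3 * ((H T.p (fun ω => ((u (T.f ω), c (T.f ω)), T.z ω)) - H T.p T.z)
      + (H T.p (fun ω => ((v (T.f ω), c (T.f ω)), T.z ω)) - H T.p T.z)
      - (H T.p (fun ω => ((u (T.f ω), v (T.f ω), c (T.f ω)), T.z ω)) - H T.p T.z)
      - (H T.p (fun ω => (c (T.f ω), T.z ω)) - H T.p T.z))
    + 2 * ((H T.p (fun ω => ((u (T.f ω) + v (T.f ω), c (T.f ω)), T.z ω)) - H T.p T.z)
      - (H T.p (fun ω => (c (T.f ω), T.z ω)) - H T.p T.z))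
    - ((H T.p (fun ω => ((u (T.f ω), c (T.f ω)), T.z ω)) - H T.p T.z)
      - (H T.p (fun ω => (c (T.f ω), T.z ω)) - H T.p T.z))
    - ((H T.p (fun ω => ((v (T.f ω), c (T.f ω)), T.z ω)) - H T.p T.z)
      - (H T.p (fun ω => (c (T.f ω), T.z ω)) - H T.p T.z))
  ring

end Pool.Agent.PFM
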