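import Pool.Agent.PFM.Bas
set_option autoImplicit false

/-!
# Module SCrt.  The certificate.
-/
namespace Pool.Agent.PFM
open Finset Pool.Agent.Ldc MM
variable {G : Type} [AddCommGroup G]

theorem kap_nonneg' (y : MM G) : 0 ≤ kap y := by
  have := h_le_add y y
  unfold kap
  rw [two_smul]
  linarith

theorem cert (a y : MM G) (J : ℕ) (r e : ℝ) (hr : 0 ≤ r) (he : 0 ≤ e)
    (H : ∀ i < J, kap ((2 ^ i) • a + y) - kap y ≤ r * (h ((2 ^ i) • a + y) - h y) + e) :
    h ((2 ^ J) • a) ≤ h y + (1 + r) ^ J * (h (a + y) - h y + J * (kap y + e)) := by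
  have hk := kap_nonneg' y
  have hD : ∀ i, 0 ≤ h ((2 ^ i) • a + y) - h y := fun i => by
    have := h_le_add' ((2 ^ i) • a) y
    linarith
  have hstep : ∀ i < J, h ((2 ^ (i + 1)) • a + y) - h y
      ≤ (1 + r) * (h ((2 ^ i) • a + y) - h y) + (kap y + e) := by
    intro i hi
    have h1 := H i hi
    have h2 : h ((2 ^ (i + 1)) • a + y) ≤ h (2 • ((2 ^ i) • a + y)) := by
      have e1 : 2 • ((2 ^ i) • a + y) = ((2 ^ (i + 1)) • a + y) + y := by
        rw [pow_succ, mul_comm, mul_smul, smul_add, two_smul ℕ y, add_assoc]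
      rw [e1]
      exact h_le_add _ _
    have h3 : kap ((2 ^ i) • a + y) = h (2 • ((2 ^ i) • a + y)) - h ((2 ^ i) • a + y) := rfl
    linarith
  have hind : ∀ i ≤ J, h ((2 ^ i) • a + y) - h y
      ≤ (1 + r) ^ i * (h (a + y) - h y + i * (kap y + e)) := by
    intro i
    induction i with
    | zero =>
      intro _
      rw [pow_zero, pow_zero, one_smul, one_mul, Nat.cast_zero, zero_mul, add_zero]
    | succ i ih =>
      intro hi
      have h1 := ih (by omega)
      have h2 := hstep i (by omega)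
      have h3 : (1 + r) * (h ((2 ^ i) • a + y) - h y)
          ≤ (1 + r) * ((1 + r) ^ i * (h (a + y) - h y + i * (kap y + e))) :=
        mul_le_mul_of_nonneg_left h1 (by linarith)
      have h4 : kap y + e ≤ (1 + r) ^ (i + 1) * (kap y + e) := by
        have : (1 : ℝ) ≤ (1 + r) ^ (i + 1) := one_le_pow₀ (by linarith)
        have h5 : 0 ≤ kap y + e := by linarith
        nlinarith
      have e2 : (1 + r) ^ (i + 1) * (h (a + y) - h y + ((i + 1 : ℕ) : ℝ) * (kap y + e))
          = (1 + r) * ((1 + r) ^ i * (h (a + y) - h y + i * (kap y + e)))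
            + (1 + r) ^ (i + 1) * (kap y + e) := by
        push_cast
        ring
      rw [e2]
      linarith
  have h1 := hind J le_rfl
  have h2 := h_le_add ((2 ^ J) • a) y
  linarith

/-- telescoping -/
theorem sum_kap (a : MM G) (J : ℕ) : h ((2 ^ J) • a) - h a = ∑ j ∈ range J, kap ((2 ^ j) • a) := by
  have h1 : ∀ j, kap ((2 ^ j) • a) = h ((2 ^ (j + 1)) • a) - h ((2 ^ j) • a) := by
    intro j
    unfold kap
    rw [← mul_smul, pow_succ, mul_comm]
  rw [Finset.sum_congr rfl fun j _ => h1 j, Finset.sum_range_sub (fun j => h ((2 ^ j) • a)), pow_zero,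
    one_smul]

end Pool.Agent.PFM
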