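import Pool.Agent.PFM.Bas
set_option autoImplicit false

/-!
# Stage lemma (section S), definitions.  Owner helper14.

`A : CV G`, `N` independent copies `A.pow N`; integer (natural) linear forms of the copies.

* `form w x = ∑ k, w k • x k`;
* `pre W i x l = form (W l) x` for `l < i`, `0` otherwise (the first `i` forms of the matrix `W`);
* `EE A W i = H(pre W i (X_1..X_N) | labels)`, prefix entropies;
* `swp W j`, `adr W j`: exchange of the rows `j`, `j+1`; row `j` replaced by row `j` + row `j+1`;
* `UM W`: the forms of `W` determine `x` (for all groups we only need this one);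
* `fib T l u w0`: the random variable `u` given that `l` and the label of `T` have the same value as at
  the sample point `w0` (a conditional variable with trivial label).
-/
namespace Pool.Agent.PFM
open Finset Pool.Agent.Ldc

section forms
variable {G : Type} [AddCommGroup G] {N : ℕ}

/-- linear form -/
def form (w : Fin N → ℕ) (x : Fin N → G) : G := ∑ k, w k • x k

/-- the first `i` forms -/
def pre (W : Fin N → Fin N → ℕ) (i : ℕ) (x : Fin N → G) : Fin N → G :=
  fun l => if (l : ℕ) < i then form (W l) x else 0

/-- prefix entropies -/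
noncomputable def EE (A : CV G) (W : Fin N → Fin N → ℕ) (i : ℕ) : ℝ :=
  CV.hc ((CV.pow N A).map (pre W i))

/-- exchange of the rows `j`, `j+1` -/
def swp (W : Fin N → Fin N → ℕ) (j : ℕ) (hj : j + 1 < N) : Fin N → Fin N → ℕ :=
  fun l => W (Equiv.swap ⟨j, by omega⟩ ⟨j + 1, hj⟩ l)

/-- row `j` replaced by row `j` + row `j+1` -/
def adr (W : Fin N → Fin N → ℕ) (j : ℕ) (hj : j + 1 < N) : Fin N → Fin N → ℕ :=
  Function.update W ⟨j, by omega⟩ (fun k => W ⟨j, by omega⟩ k + W ⟨j + 1, hj⟩ k)

/-- the forms of `W` determine the tuple -/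
def UM (G : Type) [AddCommGroup G] (W : Fin N → Fin N → ℕ) : Prop :=
  ∀ x y : Fin N → G, (∀ l, form (W l) x = form (W l) y) → x = y

/-- the identity matrix -/
def idm (N : ℕ) : Fin N → Fin N → ℕ := fun l k => if l = k then 1 else 0

end forms

section fiber
variable {X L G : Type}

open Classical in
/-- the law of the sample point given the value of `g` at `w0` (junk value if this is impossible) -/
noncomputable def cndw {Ω β : Type} [Fintype Ω] (p : Ω → ℝ) (g : Ω → β) (w0 : Ω) : Ω → ℝ :=
  if 0 < pr p g (g w0) then cnd p g (g w0) else p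

theorem cndw_isP {Ω β : Type} [Fintype Ω] {p : Ω → ℝ} (hp : IsP p) (g : Ω → β) (w0 : Ω) :
    IsP (cndw p g w0) := by
  unfold cndw
  split_ifs with h
  · exact cnd_isP hp g _ h
  · exact hp

/-- `u` given that `(l, label)` has the value it has at the sample point `w0` -/
noncomputable def fib (T : CV X) (l : X → L) (u : X → G) (w0 : T.Ω) : CV G where
  Ω := T.Ω
  β := Unit
  p := cndw T.p (fun ω => (l (T.f ω), T.z ω)) w0
  hp := cndw_isP T.hp _ w0
  z := fun _ => ()
  f := fun ω => u (T.f ω)

end fiber
end Pool.Agent.PFM
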