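import Pool.Agent.PFM.SDefs
import Pool.Agent.PFM.Pow
set_option autoImplicit false

/-!
# Module SFrm.  Forms of independent copies = sums in the monoid.
-/
namespace Pool.Agent.PFM
open Finset Pool.Agent.Ldc
variable {G : Type}

theorem hc_pow' (N : ℕ) (A : CV G) : CV.hc (CV.pow N A) = N * CV.hc A := CV.hc_pow A N

theorem mk_form [AddCommGroup G] {N : ℕ} (A : CV G) (w : Fin N → ℕ) :
    MM.mk ((CV.pow N A).map (form w)) = ∑ k, MM.dil (w k : ℤ) (MM.mk A) := by
  have h1 := CV.lin_pow A N (fun i => (zsmulAddGroupHom (w i : ℤ) : G →+ G))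
  have h2 : (fun x : Fin N → G => ∑ i, (zsmulAddGroupHom (w i : ℤ) : G →+ G) (x i)) = form w := by
    funext x
    unfold form
    refine Finset.sum_congr rfl fun i _ => ?_
    change (w i : ℤ) • x i = w i • x i
    rw [natCast_zsmul]
  rw [h2] at h1
  exact h1

theorem SFrm_sum_le [AddCommGroup G] {ι : Type} (s : Finset ι) (f : ι → MM G) :
    MM.h (∑ k ∈ s, f k) ≤ ∑ k ∈ s, MM.h (f k) := by
  classical
  induction s using Finset.induction_on with
  | empty => rw [Finset.sum_empty, Finset.sum_empty, MM.h_zero]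
  | insert k s hk ih =>
    rw [Finset.sum_insert hk, Finset.sum_insert hk]
    have := MM.h_add_le (f k) (∑ k ∈ s, f k)
    linarith

theorem hc_form_idm [AddCommGroup G] {N : ℕ} (A : CV G) (l : Fin N) :
    CV.hc ((CV.pow N A).map (form (idm N l))) ≤ CV.hc A := by
  have h1 : CV.hc ((CV.pow N A).map (form (idm N l)))
      = MM.h (MM.mk ((CV.pow N A).map (form (idm N l)))) := rfl
  rw [h1, mk_form]
  refine (SFrm_sum_le _ _).trans ?_
  have h2 : ∀ k : Fin N, MM.h (MM.dil ((idm N l k : ℕ) : ℤ) (MM.mk A)) = if l = k then CV.hc A else 0 := by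
    intro k
    unfold idm
    split_ifs with h
    · rw [Nat.cast_one, MM.dil_one]
      rfl
    · rw [Nat.cast_zero]
      change CV.hc (A.map (zsmulAddGroupHom (0 : ℤ))) = 0
      exact CV.hc_map_const _ _ fun x y => by simp
  rw [Finset.sum_congr rfl fun k _ => h2 k, Finset.sum_ite_eq]
  simp

end Pool.Agent.PFM
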