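import Mathlib
set_option autoImplicit false

/-!
# Module SSel.  Choice of the position (pure real numbers).

Put `Δ = 2 M / n + γ`.  (1) Suppose `h j - h (j+1) > Δ` for all `j < n`.  Then `h i ≤ h 0 - i Δ ≤ h 0` for `i ≤ n`,
strictly smaller than `h 0 - n Δ` for `i = n`, and `h i ≤ h n + n γ` for `n ≤ i < 2 n`, so
`2 n α = ∑ h < n h 0 + n (h 0 - n Δ + n γ) ≤ 2 n (α + M) - n² (2 M / n + γ) + n² γ = 2 n α`, contradiction.
(2) For such a `j < n`: `h i ≤ α + M + n γ` for `i ≤ j`, `h i ≤ h (j+1) + 2 n γ` for `j < i < 2 n`, so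
`2 n α ≤ (j+1) (α + M + n γ) + (2 n - j - 1) (h (j+1) + 2 n γ)`, and `j + 1 ≤ n ≤ 2 n - j - 1`.
-/
namespace Pool.Agent.PFM
open Finset

/-- growth along a block -/
private theorem sSel_up (h : ℕ → ℝ) (γ : ℝ) (N : ℕ) (hs : ∀ i, i + 1 < N → h (i + 1) ≤ h i + γ)
    (a d : ℕ) (had : a + d < N) : h (a + d) ≤ h a + d * γ := by
  induction d with
  | zero => simp
  | succ d ih =>
    have h1 := ih (by omega)
    have h2 := hs (a + d) (by omega)
    have e1 : a + (d + 1) = a + d + 1 := by omega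
    rw [e1]
    push_cast
    linarith

theorem sel (h : ℕ → ℝ) (n : ℕ) (hn : 1 ≤ n) (α M γ : ℝ) (hγ : 0 ≤ γ) (hM : 0 ≤ M)
    (h0 : h 0 ≤ α + M) (hs : ∀ i, i + 1 < 2 * n → h (i + 1) ≤ h i + γ)
    (hsum : ∑ i ∈ range (2 * n), h i = 2 * n * α) :
    ∃ j < n, h j - h (j + 1) ≤ 2 * M / n + γ ∧ α - M - 3 * n * γ ≤ h (j + 1) := by
  have hnR : (1 : ℝ) ≤ n := by exact_mod_cast hn
  have hn0 : (0 : ℝ) < n := by linarith
  have hD0 : 0 ≤ 2 * M / n := by positivity
  have hex : ∃ j < n, h j - h (j + 1) ≤ 2 * M / n + γ := by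
    by_contra hcon
    push Not at hcon
    have hdown : ∀ i ≤ n, h i ≤ h 0 - i * (2 * M / n + γ) := by
      intro i
      induction i with
      | zero => intro _; simp
      | succ i ih =>
        intro hi
        have h1 := ih (by omega)
        have h2 := hcon i (by omega)
        push_cast
        linarith
    have hnn : h n < h 0 - n * (2 * M / n + γ) := by
      obtain ⟨m, rfl⟩ : ∃ m, n = m + 1 := ⟨n - 1, by omega⟩
      have h1 := hdown m (by omega)
      have h2 := hcon m (by omega)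
      have e1 : ((m + 1 : ℕ) : ℝ) = m + 1 := by push_cast; ring
      have e2 : h (m + 1) < h m - (2 * M / ((m + 1 : ℕ) : ℝ) + γ) := by linarith
      have e3 : h 0 - ((m + 1 : ℕ) : ℝ) * (2 * M / ((m + 1 : ℕ) : ℝ) + γ)
          = h 0 - m * (2 * M / ((m + 1 : ℕ) : ℝ) + γ) - (2 * M / ((m + 1 : ℕ) : ℝ) + γ) := by
        rw [e1]; ring
      rw [e3]
      linarith
    have hmul : (n : ℝ) * (2 * M / n + γ) = 2 * M + n * γ := by
      field_simp
    rw [hmul] at hnn
    have hsp : ∑ i ∈ range (2 * n), h i = ∑ i ∈ range n, h i + ∑ i ∈ range n, h (n + i) := by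
      rw [two_mul, Finset.sum_range_add]
    have s1 : ∑ i ∈ range n, h i ≤ ∑ i ∈ range n, h 0 := by
      refine Finset.sum_le_sum fun i hi => ?_
      have h1 := hdown i (by rw [mem_range] at hi; omega)
      have h2 : 0 ≤ (i : ℝ) * (2 * M / n + γ) := by positivity
      linarith
    have s2 : ∑ i ∈ range n, h (n + i) ≤ ∑ i ∈ range n, (h n + n * γ) := by
      refine Finset.sum_le_sum fun i hi => ?_
      rw [mem_range] at hi
      have h1 := sSel_up h γ (2 * n) hs n i (by omega)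
      have h2 : (i : ℝ) * γ ≤ n * γ := by
        apply mul_le_mul_of_nonneg_right _ hγ
        exact_mod_cast hi.le
      linarith
    rw [Finset.sum_const, card_range, nsmul_eq_mul] at s1 s2
    rw [hsp] at hsum
    have h3 : (n : ℝ) * (h n + n * γ) < n * (h 0 - 2 * M) := by
      apply mul_lt_mul_of_pos_left _ hn0
      linarith
    have h4 : (n : ℝ) * h 0 ≤ n * (α + M) := mul_le_mul_of_nonneg_left h0 hn0.le
    nlinarith
  obtain ⟨j, hj, hj1⟩ := hex
  refine ⟨j, hj, hj1, ?_⟩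
  have hsp : ∑ i ∈ range (2 * n), h i
      = ∑ i ∈ range (j + 1), h i + ∑ i ∈ range (2 * n - (j + 1)), h (j + 1 + i) := by
    have e : 2 * n = (j + 1) + (2 * n - (j + 1)) := by omega
    conv_lhs => rw [e]
    rw [Finset.sum_range_add]
  have s1 : ∑ i ∈ range (j + 1), h i ≤ ∑ i ∈ range (j + 1), (α + M + n * γ) := by
    refine Finset.sum_le_sum fun i hi => ?_
    rw [mem_range] at hi
    have h1 := sSel_up h γ (2 * n) hs 0 i (by omega)
    rw [zero_add] at h1
    have h2 : (i : ℝ) * γ ≤ n * γ := by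
      apply mul_le_mul_of_nonneg_right _ hγ
      have : i ≤ n := by omega
      exact_mod_cast this
    linarith
  have s2 : ∑ i ∈ range (2 * n - (j + 1)), h (j + 1 + i)
      ≤ ∑ i ∈ range (2 * n - (j + 1)), (h (j + 1) + 2 * n * γ) := by
    refine Finset.sum_le_sum fun i hi => ?_
    rw [mem_range] at hi
    have h1 := sSel_up h γ (2 * n) hs (j + 1) i (by omega)
    have h2 : (i : ℝ) * γ ≤ 2 * n * γ := by
      apply mul_le_mul_of_nonneg_right _ hγ
      have : i ≤ 2 * n := by omega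
      exact_mod_cast this
    linarith
  rw [Finset.sum_const, card_range, nsmul_eq_mul] at s1 s2
  rw [hsp] at hsum
  set b : ℕ := 2 * n - (j + 1) with hb
  have hab : ((j + 1 : ℕ) : ℝ) + (b : ℝ) = 2 * n := by
    have : (j + 1) + b = 2 * n := by omega
    exact_mod_cast this
  have hbj : ((j + 1 : ℕ) : ℝ) ≤ b := by
    have : j + 1 ≤ b := by omega
    exact_mod_cast this
  have ha0 : (0 : ℝ) ≤ ((j + 1 : ℕ) : ℝ) := by positivity
  have hb0 : (0 : ℝ) < b := by
    have : 0 < b := by omega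
    exact_mod_cast this
  set a : ℝ := ((j + 1 : ℕ) : ℝ) with ha
  by_contra hcon
  push Not at hcon
  have h5 : (b : ℝ) * (h (j + 1) + 2 * n * γ) < b * (α - M - 3 * n * γ + 2 * n * γ) := by
    apply mul_lt_mul_of_pos_left _ hb0
    linarith
  have h6 : 0 ≤ ((b : ℝ) - a) * (M + n * γ) := by
    apply mul_nonneg (by linarith)
    have : 0 ≤ (n : ℝ) * γ := by positivity
    linarith
  have h7 : 2 * (n : ℝ) * α = a * α + b * α := by rw [← hab]; ring
  nlinarith

end Pool.Agent.PFM
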