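import Pool.Agent.PFM.SGrd
import Pool.Agent.PFM.SSel
import Pool.Agent.PFM.SAvg
import Pool.Agent.PFM.SBsg
import Pool.Agent.PFM.SCrt
import Pool.Agent.PFM.SFrm
set_option autoImplicit false

/-!
# Module SFin.  The abstract stage lemma.

`N = 10^4 g = 2 n`, `n = 5000 g`, `J = 400 g`, `γ = k / N`, `M = g k`, `α = hc A = h (MM.mk A)`, `L = N^3 g + 1`
(`N^2 M = N^3 g γ < L γ`, `2^L < 2^(N^4)` as `L < N^4`).  Suppose `kap (2^j • a) > k/16` for all `j < J` (`a = mk A`); then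
`h (2^J • a) ≥ α + J k / 16 = α + 25 g k` (`sum_kap`).

(F) with the vector `(0, w)` / `(1, w)` (`Fin.cons`, `Fin.sum_univ_succ`, `dil 0 = 0`-map or monotonicity `h_le_add`):
`h (mk (form w)) ≤ α + M` and `h (a + mk (form w)) ≤ α + M` for all `w` with entries `≤ 2^L` (`mk_form`, `dil_one`).
`greedy` gives `W`; `h_i := EE A W (i+1) - EE A W i`; `h_0 ≤ α + M`; `h_(i+1) ≤ h_i + γ`:
`H(u,v,c) - H(u,c) ≤ H(v,c) - H(c)` (`CV.hc_submod`) `≤ H(u,c) + γ - H(c)` (`EE_at`, `EE_at2`, `EE_swp_at`);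
`∑ i ∈ range (2n), h_i = EE A W N - EE A W 0 = N α` (`EE_full`, `hc_pow`).  `sel` gives `j < n` with
`h_j - h_(j+1) ≤ Δ = 2 M / n + γ = k/2500 + γ`, `h_(j+1) ≥ α - M - 3 n γ = α - g k - 3 k / 2`.

`T = A.pow N`, `u = form (W j)`, `v = form (W (j+1))`, `c = pre W j`, `Y ω = fib T (u + v, c) u ω`.  With
`E0 = H(c)`, `H(u,c) = E0 + h_j`, `H(u,v,c) = E0 + h_j + h_(j+1)`, `H(v,c), H(u+v,c) ≤ E0 + h_j + γ`,
`H(v,c) ≥ E0 + h_(j+1)` (submodularity): `avg_kap` gives `∑ p kap (Y) ≤ 4 Δ + 5 γ ≤ k / 400`.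
`avg_fib`: `∑ p h(Y) = H(u, u+v, c) - H(u+v, c) ≥ h_(j+1) - γ` (`H(u,(u+v,c)) = H(u,v,c)`: same kernel).
`avg_fib_add`: `∑ p h (a + Y) ≤ h (a + mk (T.map u)) ≤ α + M`.
`cert` with `y = mk (Y ω)` (hypothesis `hH`, `2^i ≤ 2^J`), multiplied by `p ω` and summed, `∑ p = 1`:
`h (2^J • a) ≤ ∑ p h(Y) + R (D + J (κ + e))`, `R = (1+r)^J ≤ exp (r J) ≤ 1 + 2 r J ≤ 3` (`Real.add_one_le_exp`, convexity
bound `exp x ≤ 1 + 2 x` for `0 ≤ x ≤ 1`), `D = ∑ p (h(a+Y) - h(Y)) ≤ 2 g k + 3k/2 + γ ≤ 4 g k`, `κ ≤ k/400`: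
`≤ ∑ p h(a+Y) + 2 D + 3 J (k/400) + 3 k/100 ≤ α + g k + 8 g k + 3 g k + g k < α + 25 g k`.  Contradiction.
(`D ≥ 0` from `h_le_add`.)
-/
namespace Pool.Agent.PFM
open Finset Pool.Agent.Ldc MM

/-- the flag and the position -/
theorem SFin_flag {G : Type} [AddCommGroup G] (A : CV G) (n L : ℕ) (hn : 1 ≤ n) (M γ : ℝ)
    (hγ : 0 < γ) (hM0 : 0 ≤ M)
    (hM : ∀ w : Fin (2 * n) → ℕ, (∀ k, w k ≤ 2 ^ L) →
      CV.hc ((CV.pow (2 * n) A).map (form w)) ≤ CV.hc A + M)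
    (hL : ((2 * n : ℕ) : ℝ) ^ 2 * M < L * γ) :
    ∃ (wu wv : Fin (2 * n) → ℕ) (c : (Fin (2 * n) → G) → (Fin (2 * n) → G)),
      (∀ k, wu k ≤ 2 ^ L) ∧ (∀ k, wv k ≤ 2 ^ L) ∧
      CV.hc ((CV.pow (2 * n) A).map fun x => (form wv x, c x))
        ≤ CV.hc ((CV.pow (2 * n) A).map fun x => (form wu x, c x)) + γ ∧
      CV.hc ((CV.pow (2 * n) A).map fun x => (form wu x + form wv x, c x))
        ≤ CV.hc ((CV.pow (2 * n) A).map fun x => (form wu x, c x)) + γ ∧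
      (CV.hc ((CV.pow (2 * n) A).map fun x => (form wu x, c x)) - CV.hc ((CV.pow (2 * n) A).map c))
        - (CV.hc ((CV.pow (2 * n) A).map fun x => (form wu x, form wv x, c x))
          - CV.hc ((CV.pow (2 * n) A).map fun x => (form wu x, c x))) ≤ 2 * M / n + γ ∧
      CV.hc A - M - 3 * n * γ ≤ CV.hc ((CV.pow (2 * n) A).map fun x => (form wu x, form wv x, c x))
          - CV.hc ((CV.pow (2 * n) A).map fun x => (form wu x, c x)) := by
  obtain ⟨W, hUM, hWle, hW⟩ := greedy A (2 * n) L γ M hγ hM0 (hc_pow' _ A)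
    (fun l => hc_form_idm A l) hM hL
  have hstep : ∀ i, i + 1 < 2 * n → EE A W (i + 1 + 1) - EE A W (i + 1)
      ≤ EE A W (i + 1) - EE A W i + γ := by
    intro i hi
    have h1 := (hW i hi).1
    rw [EE_swp_at] at h1
    have h2 := EE_at2 A W i hi
    have h3 := EE_at A W i hi
    have h4 := CV.hc_submod (CV.pow (2 * n) A) (form (W ⟨i, by omega⟩)) (form (W ⟨i + 1, hi⟩)) (pre W i)
    have h5 : EE A W i = CV.hc ((CV.pow (2 * n) A).map (pre W i)) := rfl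
    rw [show i + 1 + 1 = i + 2 from rfl, h2]
    have h6 : CV.hc ((CV.pow (2 * n) A).map fun x => (form (W ⟨i, by omega⟩) x, pre W i x)) = EE A W (i + 1) :=
      h3.symm
    rw [h6] at h4
    linarith
  have hE1 : EE A W (0 + 1) ≤ EE A W 0 + CV.hc ((CV.pow (2 * n) A).map (form (W ⟨0, by omega⟩))) :=
    EE_succ_le A W 0 (by omega)
  have h0 : EE A W (0 + 1) - EE A W 0 ≤ CV.hc A + M := by
    have := hM (W ⟨0, by omega⟩) (fun k => hWle _ k)
    linarith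
  have hsum : ∑ i ∈ range (2 * n), (EE A W (i + 1) - EE A W i) = 2 * n * CV.hc A := by
    rw [Finset.sum_range_sub, EE_full A W hUM, EE_zero, hc_pow']
    push_cast
    ring
  obtain ⟨j, hjn, hj1, hj2⟩ := sel (fun i => EE A W (i + 1) - EE A W i) n hn (CV.hc A) M γ hγ.le hM0 h0
    (fun i hi => hstep i hi) hsum
  have hj : j + 1 < 2 * n := by omega
  refine ⟨W ⟨j, by omega⟩, W ⟨j + 1, hj⟩, pre W j, fun k => hWle _ k, fun k => hWle _ k, ?_, ?_, ?_, ?_⟩
  · rw [← EE_at A W j hj, ← EE_swp_at A W j hj]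
    exact (hW j hj).1
  · rw [← EE_at A W j hj, ← EE_adr_at A W j hj]
    exact (hW j hj).2
  · rw [← EE_at A W j hj, ← EE_at2 A W j hj]
    exact hj1
  · rw [← EE_at A W j hj, ← EE_at2 A W j hj]
    exact hj2


theorem SFin_fib {X L G : Type} [AddCommGroup G] [Fintype G] (T : CV X) (c : X → L) (u v : X → G)
    (γ Δ : ℝ)
    (h1 : CV.hc (T.map fun x => (v x, c x)) ≤ CV.hc (T.map fun x => (u x, c x)) + γ)
    (h2 : CV.hc (T.map fun x => (u x + v x, c x)) ≤ CV.hc (T.map fun x => (u x, c x)) + γ)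
    (h3 : (CV.hc (T.map fun x => (u x, c x)) - CV.hc (T.map c))
        - (CV.hc (T.map fun x => (u x, v x, c x)) - CV.hc (T.map fun x => (u x, c x))) ≤ Δ) :
    ∑ w, T.p w * kap (MM.mk (fib T (fun x => (u x + v x, c x)) u w)) ≤ 4 * Δ + 5 * γ ∧
    CV.hc (T.map fun x => (u x, v x, c x)) - CV.hc (T.map fun x => (u x, c x)) - γ
      ≤ ∑ w, T.p w * h (MM.mk (fib T (fun x => (u x + v x, c x)) u w)) := by
  have e1 := avg_kap T c u v
  have e2 := CV.hc_submod T u v c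
  constructor
  · linarith
  · have e3 := avg_fib T (fun x => (u x + v x, c x)) u
    have e4 : CV.hc (T.map fun x => (u x, (u x + v x, c x)))
        = CV.hc (T.map fun x => (u x, v x, c x)) := by
      have := CV.hc_map_congr (T.map fun x => (u x, v x, c x))
        (fun t : G × G × L => (t.1, (t.1 + t.2.1, t.2.2))) (fun t => t) (fun x y => by
          simp only [Prod.ext_iff]
          constructor
          · rintro ⟨a1, a2, a3⟩
            refine ⟨a1, ?_, a3⟩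
            rw [a1] at a2
            exact add_left_cancel a2
          · rintro ⟨a1, a2, a3⟩
            exact ⟨a1, by rw [a1, a2], a3⟩)
      exact this
    have e5 : ∑ w, T.p w * h (MM.mk (fib T (fun x => (u x + v x, c x)) u w))
        = ∑ w, T.p w * CV.hc (fib T (fun x => (u x + v x, c x)) u w) := rfl
    rw [e5, e3, e4]
    linarith

theorem SFin_exp (r : ℝ) (J : ℕ) (hr : 0 ≤ r) (h : r * J ≤ 1) : (1 + r) ^ J ≤ 1 + 2 * (r * J) := by
  have h1 : (1 + r) ^ J ≤ Real.exp (r * J) := by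
    have h2 : 1 + r ≤ Real.exp r := by
      have := Real.add_one_le_exp r
      linarith
    calc (1 + r) ^ J ≤ (Real.exp r) ^ J := pow_le_pow_left₀ (by linarith) h2 J
      _ = Real.exp (r * J) := by rw [← Real.exp_nat_mul, mul_comm]
  have hx : 0 ≤ r * J := by positivity
  have hx1 : 0 ≤ 1 - r * J := by linarith
  have h3 := convexOn_exp.2 (Set.mem_univ (0:ℝ)) (Set.mem_univ (1:ℝ)) hx1 hx (by ring)
  simp only [smul_eq_mul, mul_zero, mul_one, zero_add, Real.exp_zero] at h3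
  have h4 : Real.exp 1 ≤ 3 := by
    have := Real.exp_one_lt_d9
    linarith
  have h5 : r * J * Real.exp 1 ≤ r * J * 3 := mul_le_mul_of_nonneg_left h4 hx
  linarith

/-- the upper bound for the sum of `2 ^ J` copies -/
theorem SFin_upper {X L G : Type} [AddCommGroup G] [Fintype G] (T : CV X) (l : X → L) (u : X → G)
    (a : MM G) (J : ℕ) (r e κ B y0 : ℝ) (hr : 0 ≤ r) (he : 0 ≤ e) (hrJ : r * J ≤ 1)
    (hH : ∀ m ≤ 2 ^ J, ∀ n : MM G, kap (m • a + n) - kap n ≤ r * (h (m • a + n) - h n) + e)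
    (hκ : ∑ w, T.p w * kap (MM.mk (fib T l u w)) ≤ κ)
    (hB : h (a + MM.mk (T.map u)) ≤ B)
    (hy : y0 ≤ ∑ w, T.p w * h (MM.mk (fib T l u w))) :
    h ((2 ^ J) • a) ≤ B + 2 * (B - y0) + 3 * (J * (κ + e)) := by
  have hp1 : ∑ w, T.p w = 1 := T.hp.2
  have hp0 : ∀ w, 0 ≤ T.p w := T.hp.1
  set R := (1 + r) ^ J with hR
  have hR1 : 1 ≤ R := one_le_pow₀ (by linarith)
  have hR3 : R ≤ 1 + 2 * (r * J) := SFin_exp r J hr hrJ
  have hR3' : R ≤ 3 := by linarith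
  have hc : ∀ w, h ((2 ^ J) • a) ≤ h (MM.mk (fib T l u w))
      + R * (h (a + MM.mk (fib T l u w)) - h (MM.mk (fib T l u w)) + J * (kap (MM.mk (fib T l u w)) + e)) :=
    fun w => cert a (MM.mk (fib T l u w)) J r e hr he
      (fun i hi => hH (2 ^ i) (Nat.pow_le_pow_right (by norm_num) hi.le) _)
  have hs : h ((2 ^ J) • a) ≤ ∑ w, T.p w * (h (MM.mk (fib T l u w))
      + R * (h (a + MM.mk (fib T l u w)) - h (MM.mk (fib T l u w)) + J * (kap (MM.mk (fib T l u w)) + e))) := by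
    calc h ((2 ^ J) • a) = ∑ w, T.p w * h ((2 ^ J) • a) := by rw [← Finset.sum_mul, hp1, one_mul]
      _ ≤ _ := Finset.sum_le_sum fun w _ => mul_le_mul_of_nonneg_left (hc w) (hp0 w)
  set S1 := ∑ w, T.p w * h (MM.mk (fib T l u w)) with hS1
  set S2 := ∑ w, T.p w * h (a + MM.mk (fib T l u w)) with hS2
  set S3 := ∑ w, T.p w * kap (MM.mk (fib T l u w)) with hS3
  have hexp : ∑ w, T.p w * (h (MM.mk (fib T l u w))
      + R * (h (a + MM.mk (fib T l u w)) - h (MM.mk (fib T l u w)) + J * (kap (MM.mk (fib T l u w)) + e)))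
      = S1 + R * (S2 - S1 + J * (S3 + e)) := by
    have : ∀ w, T.p w * (h (MM.mk (fib T l u w))
      + R * (h (a + MM.mk (fib T l u w)) - h (MM.mk (fib T l u w)) + J * (kap (MM.mk (fib T l u w)) + e)))
      = T.p w * h (MM.mk (fib T l u w)) + R * (T.p w * h (a + MM.mk (fib T l u w))
        - T.p w * h (MM.mk (fib T l u w)) + J * (T.p w * kap (MM.mk (fib T l u w)) + T.p w * e)) := by
      intro w; ring
    rw [Finset.sum_congr rfl fun w _ => this w, Finset.sum_add_distrib, ← Finset.mul_sum,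
      Finset.sum_add_distrib, Finset.sum_sub_distrib, ← Finset.mul_sum, Finset.sum_add_distrib,
      ← Finset.sum_mul, hp1, one_mul]
  rw [hexp] at hs
  have hS2B : S2 ≤ B := (avg_fib_add T l u a).trans hB
  have hS12 : S1 ≤ S2 := Finset.sum_le_sum fun w _ =>
    mul_le_mul_of_nonneg_left (h_le_add' _ _) (hp0 w)
  have hS3 : 0 ≤ S3 := Finset.sum_nonneg fun w _ => mul_nonneg (hp0 w) (kap_nonneg' _)
  have hJ : (0 : ℝ) ≤ J := Nat.cast_nonneg J
  have h6 : R * (S2 - S1) ≤ (S2 - S1) + 2 * (B - y0) := by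
    have h7 : (R - 1) * (S2 - S1) ≤ 2 * (S2 - S1) :=
      mul_le_mul_of_nonneg_right (by linarith) (by linarith)
    nlinarith
  have h8 : R * (J * (S3 + e)) ≤ 3 * (J * (κ + e)) := by
    have : J * (S3 + e) ≤ J * (κ + e) := mul_le_mul_of_nonneg_left (by linarith) hJ
    have h9 : 0 ≤ J * (S3 + e) := by positivity
    nlinarith
  have h10 : R * (S2 - S1 + J * (S3 + e)) = R * (S2 - S1) + R * (J * (S3 + e)) := by ring
  rw [h10] at hs
  linarith

theorem SFin_forms {G : Type} [AddCommGroup G] (A : CV G) (N L : ℕ) (b : ℕ) (hLb : L < b) (M : ℝ)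
    (hF : ∀ w : Fin (N + 1) → ℕ, (∀ i, w i < 2 ^ b) →
      h (∑ i, dil (w i : ℤ) (MM.mk A)) ≤ h (MM.mk A) + M) (w : Fin N → ℕ) (hw : ∀ k, w k ≤ 2 ^ L) :
    h (MM.mk A + MM.mk ((CV.pow N A).map (form w))) ≤ h (MM.mk A) + M := by
  have hlt : (2 : ℕ) ^ L < 2 ^ b := Nat.pow_lt_pow_right (by norm_num) hLb
  have h1 := hF (Fin.cons 1 w) (fun i => by
    refine Fin.cases ?_ (fun k => ?_) i
    · simp only [Fin.cons_zero]
      exact lt_of_le_of_lt Nat.one_le_two_pow hlt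
    · simp only [Fin.cons_succ]
      exact lt_of_le_of_lt (hw k) hlt)
  rw [Fin.sum_univ_succ] at h1
  simp only [Fin.cons_zero, Fin.cons_succ, Nat.cast_one] at h1
  rw [dil_one, ← mk_form] at h1
  exact h1

theorem stage_abs {G : Type} [AddCommGroup G] [Fintype G] (A : CV G) (g : ℕ) (hg : 1 ≤ g)
    (k r e : ℝ) (hk : 0 < k) (hr : 0 ≤ r) (he : 0 ≤ e) (hrJ : r * (400 * g) ≤ 1)
    (heJ : e * (400 * g) ≤ k / 100)
    (hF : ∀ w : Fin (10 ^ 4 * g + 1) → ℕ, (∀ i, w i < 2 ^ ((10 ^ 4 * g) ^ 4)) →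
      h (∑ i, dil (w i : ℤ) (MM.mk A)) ≤ h (MM.mk A) + g * k)
    (hH : ∀ m ≤ 2 ^ (400 * g), ∀ n : MM G,
      kap (m • MM.mk A + n) - kap n ≤ r * (h (m • MM.mk A + n) - h n) + e) :
    ∃ j < 400 * g, kap ((2 ^ j) • MM.mk A) ≤ k / 16 := by
  classical
  by_contra hcon
  push Not at hcon
  have hg1 : (1 : ℝ) ≤ g := by exact_mod_cast hg
  have hlow := sum_kap (MM.mk A) (400 * g)
  have hlow2 : (400 * g : ℝ) * (k / 16) ≤ ∑ j ∈ range (400 * g), kap ((2 ^ j) • MM.mk A) := by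
    have : ∑ j ∈ range (400 * g), (k / 16) ≤ ∑ j ∈ range (400 * g), kap ((2 ^ j) • MM.mk A) :=
      Finset.sum_le_sum fun j hj => (hcon j (Finset.mem_range.1 hj)).le
    rw [Finset.sum_const, Finset.card_range, nsmul_eq_mul] at this
    push_cast at this
    exact this
  have hN : 10 ^ 4 * g = 2 * (5000 * g) := by ring
  rw [hN] at hF
  set n := 5000 * g with hn
  have hn1 : 1 ≤ n := by omega
  have hnr : (n : ℝ) = 5000 * g := by rw [hn]; push_cast; ring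
  set L := (2 * n) ^ 3 * g + 1 with hL
  have hLb : L < (2 * n) ^ 4 := by
    have h1 : (2 * n) ^ 4 = (2 * n) ^ 3 * (2 * n) := by ring
    have h2 : 1 ≤ (2 * n) ^ 3 := Nat.one_le_pow _ _ (by omega)
    have h3 : (2 * n) ^ 3 * (g + 2) ≤ (2 * n) ^ 3 * (2 * n) := Nat.mul_le_mul_left _ (by omega)
    rw [hL, h1]
    nlinarith
  have hM0 : (0 : ℝ) ≤ g * k := by positivity
  have hforms := SFin_forms A (2 * n) L ((2 * n) ^ 4) hLb (g * k) hF
  have hM : ∀ w : Fin (2 * n) → ℕ, (∀ k, w k ≤ 2 ^ L) →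
      CV.hc ((CV.pow (2 * n) A).map (form w)) ≤ CV.hc A + g * k := by
    intro w hw
    exact (h_le_add' (MM.mk A) (MM.mk ((CV.pow (2 * n) A).map (form w)))).trans (hforms w hw)
  set γ : ℝ := k / (2 * n) with hγ
  have hnpos : (0 : ℝ) < n := by rw [hnr]; positivity
  have hγ0 : 0 < γ := by positivity
  obtain ⟨wu, wv, c, hwu, hwv, e1, e2, e3, e4⟩ := SFin_flag A n L hn1 (g * k) γ hγ0 hM0 hM (by
    rw [hL, hγ]
    push_cast
    have : ((2 * (n : ℝ)) ^ 3 * g + 1) * (k / (2 * n)) = (2 * (n : ℝ)) ^ 2 * (g * k) + k / (2 * n) := by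
      field_simp
    rw [this]
    linarith)
  obtain ⟨f1, f2⟩ := SFin_fib (CV.pow (2 * n) A) c (form wu) (form wv) γ _ e1 e2 e3
  have hγn : γ * n = k / 2 := by
    rw [hγ]
    field_simp
  have hMn : 2 * (g * k) / (n : ℝ) = k / 2500 := by
    rw [hnr]
    field_simp
    ring
  have hγs : γ ≤ k / 10000 := by
    have : γ = k / (10000 * g) := by rw [hγ, hnr]; ring
    rw [this]
    gcongr
    linarith
  rw [hMn] at f1
  have hup := SFin_upper (CV.pow (2 * n) A) (fun x => (form wu x + form wv x, c x)) (form wu) (MM.mk A)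
    (400 * g) r e (k / 400) (h (MM.mk A) + g * k) (h (MM.mk A) - g * k - 3 * n * γ - γ) hr he
    (by push_cast; exact hrJ) hH (f1.trans (by linarith)) (hforms wu hwu) (by
      have : CV.hc A = h (MM.mk A) := rfl
      rw [this] at e4
      linarith)
  rw [hlow.symm] at hlow2
  push_cast at hup
  have h3n : 3 * (n : ℝ) * γ = 3 * k / 2 := by
    have : 3 * (n : ℝ) * γ = 3 * (γ * n) := by ring
    rw [this, hγn]; ring
  rw [h3n] at hup
  have hgk : k ≤ g * k := by nlinarith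
  nlinarith

end Pool.Agent.PFM
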