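import Pool.Agent.PFM.SMov
set_option autoImplicit false

/-!
# Module SGrd.  The greedy flag.

`P W = ∑ i ∈ range N, EE A W i`.  Claim: if the conclusion fails, then for every `s ≤ L` there is `W` with `UM G W`,
all entries `≤ 2 ^ s` and `P (idm N) + s * γ ≤ P W`: start with `idm N` (entries `≤ 1`, `UM_idm`); a matrix with
entries `≤ 2 ^ s ≤ 2 ^ L` violates the last condition at some `j`, take the move (`swp` keeps the entries, `adr` at
most doubles them; `UM_swp`, `UM_adr`); by `EE_swp` / `EE_adr` only the term `i = j + 1 < N` of `P` changes, and it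
grows by more than `γ`.  For `s = L`: `P W ≤ ∑ i < N, i (hc A + M)` (`EE_le`), `P (idm N) ≥ ∑ i < N, i hc A` (`EE_ge`:
`form (idm N l) x = x l`, so `hypothesis h1` bounds its entropy by `hc A`; `EE_full` and `hpow`), so
`L γ ≤ ∑ i < N, i M ≤ N ^ 2 M`, contradiction.
-/
namespace Pool.Agent.PFM
open Finset Pool.Agent.Ldc
variable {G : Type} [AddCommGroup G]

private theorem SGrd_step (A : CV G) {N : ℕ} (W W' : Fin N → Fin N → ℕ) (j : ℕ) (hj : j + 1 < N)
    (γ : ℝ) (he : ∀ i, i ≠ j + 1 → EE A W' i = EE A W i)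
    (hg : EE A W (j + 1) + γ < EE A W' (j + 1)) :
    (∑ i ∈ range N, EE A W i) + γ ≤ ∑ i ∈ range N, EE A W' i := by
  have hm : j + 1 ∈ range N := Finset.mem_range.2 hj
  rw [← Finset.add_sum_erase _ _ hm, ← Finset.add_sum_erase (range N) (fun i => EE A W' i) hm]
  have h1 : ∑ i ∈ (range N).erase (j + 1), EE A W' i = ∑ i ∈ (range N).erase (j + 1), EE A W i :=
    Finset.sum_congr rfl fun i hi => he i (Finset.ne_of_mem_erase hi)
  rw [h1]
  linarith

theorem greedy (A : CV G) (N L : ℕ) (γ M : ℝ) (hγ : 0 < γ) (hM0 : 0 ≤ M)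
    (hpow : CV.hc (CV.pow N A) = N * CV.hc A)
    (h1 : ∀ l : Fin N, CV.hc ((CV.pow N A).map (form (idm N l))) ≤ CV.hc A)
    (hM : ∀ w : Fin N → ℕ, (∀ k, w k ≤ 2 ^ L) → CV.hc ((CV.pow N A).map (form w)) ≤ CV.hc A + M)
    (hL : (N : ℝ) ^ 2 * M < L * γ) :
    ∃ W : Fin N → Fin N → ℕ, UM G W ∧ (∀ l k, W l k ≤ 2 ^ L) ∧
      ∀ (j : ℕ) (hj : j + 1 < N), EE A (swp W j hj) (j + 1) ≤ EE A W (j + 1) + γ ∧
        EE A (adr W j hj) (j + 1) ≤ EE A W (j + 1) + γ := by
  classical
  by_contra hcon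
  have hviol : ∀ W : Fin N → Fin N → ℕ, UM G W → (∀ l k, W l k ≤ 2 ^ L) →
      ∃ (j : ℕ) (hj : j + 1 < N), EE A W (j + 1) + γ < EE A (swp W j hj) (j + 1) ∨
        EE A W (j + 1) + γ < EE A (adr W j hj) (j + 1) := by
    intro W h2 h3
    by_contra h4
    refine hcon ⟨W, h2, h3, fun j hj => ?_⟩
    constructor
    · by_contra h5
      exact h4 ⟨j, hj, Or.inl (not_le.1 h5)⟩
    · by_contra h5
      exact h4 ⟨j, hj, Or.inr (not_le.1 h5)⟩
  have hclaim : ∀ s : ℕ, s ≤ L → ∃ W : Fin N → Fin N → ℕ, UM G W ∧ (∀ l k, W l k ≤ 2 ^ s) ∧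
      (∑ i ∈ range N, EE A (idm N) i) + s * γ ≤ ∑ i ∈ range N, EE A W i := by
    intro s
    induction s with
    | zero =>
      intro _
      refine ⟨idm N, UM_idm, fun l k => ?_, ?_⟩
      · unfold idm
        split_ifs <;> simp
      · simp
    | succ s ih =>
      intro hs
      obtain ⟨W, hW1, hW2, hW3⟩ := ih (by omega)
      have hpow2 : (2 : ℕ) ^ s ≤ 2 ^ L := Nat.pow_le_pow_right (by norm_num) (by omega)
      have hpow3 : (2 : ℕ) ^ (s + 1) = 2 ^ s + 2 ^ s := by ring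
      obtain ⟨j, hj, h⟩ := hviol W hW1 (fun l k => (hW2 l k).trans hpow2)
      rcases h with h | h
      · refine ⟨swp W j hj, UM_swp W j hj hW1, fun l k => ?_, ?_⟩
        · unfold swp
          exact (hW2 _ k).trans (by rw [hpow3]; exact Nat.le_add_right _ _)
        · have h5 := SGrd_step A W (swp W j hj) j hj γ (fun i hi => EE_swp A W j hj i hi) h
          push_cast
          linarith
      · refine ⟨adr W j hj, UM_adr W j hj hW1, fun l k => ?_, ?_⟩
        · unfold adr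
          by_cases hl : l = ⟨j, Nat.lt_of_succ_lt hj⟩
          · rw [hl, Function.update_self, hpow3]
            exact Nat.add_le_add (hW2 _ k) (hW2 _ k)
          · rw [Function.update_of_ne hl, hpow3]
            exact (hW2 l k).trans (Nat.le_add_right _ _)
        · have h5 := SGrd_step A W (adr W j hj) j hj γ (fun i hi => EE_adr A W j hj i hi) h
          push_cast
          linarith
  obtain ⟨W, hW1, hW2, hW3⟩ := hclaim L le_rfl
  have hup : ∑ i ∈ range N, EE A W i ≤ ∑ i ∈ range N, (i : ℝ) * (CV.hc A + M) :=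
    Finset.sum_le_sum fun i hi =>
      EE_le A W (CV.hc A + M) (fun l => hM (W l) (hW2 l)) i (Finset.mem_range.1 hi).le
  have hlo : ∑ i ∈ range N, (i : ℝ) * CV.hc A ≤ ∑ i ∈ range N, EE A (idm N) i := by
    refine Finset.sum_le_sum fun i hi => EE_ge A (idm N) (CV.hc A) h1 ?_ i (Finset.mem_range.1 hi).le
    rw [EE_full A (idm N) UM_idm, hpow]
  have hsum : ∑ i ∈ range N, (i : ℝ) * (CV.hc A + M)
      = ∑ i ∈ range N, (i : ℝ) * CV.hc A + ∑ i ∈ range N, (i : ℝ) * M := by
    rw [← Finset.sum_add_distrib]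
    exact Finset.sum_congr rfl fun i _ => by ring
  have hlast : ∑ i ∈ range N, (i : ℝ) * M ≤ (N : ℝ) ^ 2 * M := by
    calc ∑ i ∈ range N, (i : ℝ) * M ≤ ∑ i ∈ range N, (N : ℝ) * M := by
          refine Finset.sum_le_sum fun i hi => mul_le_mul_of_nonneg_right ?_ hM0
          exact_mod_cast (Finset.mem_range.1 hi).le
      _ = (N : ℝ) ^ 2 * M := by
          rw [Finset.sum_const, Finset.card_range, nsmul_eq_mul]
          ring
  linarith

end Pool.Agent.PFM
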