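import Pool.Agent.PFM.SPre
set_option autoImplicit false

/-!
# Module SMov.  The two moves.

`CV.hc_map_congr`: only the kernels matter.  `pre W i x = pre W i y ↔ ∀ l : Fin N, l < i → form (W l) x = form (W l) y`
(`pre_eq_iff`).  For `i ≠ j + 1` the rows `l < i` of `swp W j` are those of `W` up to the exchange of `j`, `j+1`
(both `< i` or both `≥ i`, or only `j < i`... this last case is exactly `i = j + 1`), and `form (row j + row (j+1)) x =
form (row j) x + form (row (j+1)) x` (`form_add`), so the same for `adr`.  `EE_at ..`: kernels again.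
-/
namespace Pool.Agent.PFM
open Finset Pool.Agent.Ldc
variable {G : Type} [AddCommGroup G] {N : ℕ}

theorem form_add (w w' : Fin N → ℕ) (x : Fin N → G) :
    form (fun k => w k + w' k) x = form w x + form w' x := by
  unfold form
  rw [← Finset.sum_add_distrib]
  exact Finset.sum_congr rfl fun k _ => add_nsmul _ _ _

theorem pre_eq_iff (W : Fin N → Fin N → ℕ) (i : ℕ) (x y : Fin N → G) :
    pre W i x = pre W i y ↔ ∀ l : Fin N, (l : ℕ) < i → form (W l) x = form (W l) y := by
  constructor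
  · intro h l hl
    have h1 := congrFun h l
    unfold pre at h1
    rwa [if_pos hl, if_pos hl] at h1
  · intro h
    funext l
    unfold pre
    by_cases hl : (l : ℕ) < i
    · rw [if_pos hl, if_pos hl]
      exact h l hl
    · rw [if_neg hl, if_neg hl]

private theorem SMov_swap {i j : ℕ} (hj : j + 1 < N) (hi : i ≠ j + 1) (l : Fin N) :
    ((Equiv.swap (⟨j, by omega⟩ : Fin N) ⟨j + 1, hj⟩ l : Fin N) : ℕ) < i ↔ (l : ℕ) < i := by
  by_cases h1 : l = ⟨j, by omega⟩
  · rw [h1, Equiv.swap_apply_left]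
    change j + 1 < i ↔ j < i
    omega
  · by_cases h2 : l = ⟨j + 1, hj⟩
    · rw [h2, Equiv.swap_apply_right]
      change j < i ↔ j + 1 < i
      omega
    · rw [Equiv.swap_apply_of_ne_of_ne h1 h2]

private theorem SMov_swp (W : Fin N → Fin N → ℕ) (j : ℕ) (hj : j + 1 < N) (l : Fin N) :
    swp W j hj (Equiv.swap (⟨j, by omega⟩ : Fin N) ⟨j + 1, hj⟩ l) = W l := by
  unfold swp
  rw [Equiv.swap_apply_self]

private theorem SMov_swp_of_ne (W : Fin N → Fin N → ℕ) (j : ℕ) (hj : j + 1 < N) (l : Fin N)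
    (h1 : (l : ℕ) ≠ j) (h2 : (l : ℕ) ≠ j + 1) : swp W j hj l = W l := by
  unfold swp
  rw [Equiv.swap_apply_of_ne_of_ne (fun h => h1 (congrArg Fin.val h))
    (fun h => h2 (congrArg Fin.val h))]

private theorem SMov_adr_self (W : Fin N → Fin N → ℕ) (j : ℕ) (hj : j + 1 < N) :
    adr W j hj ⟨j, by omega⟩ = fun k => W ⟨j, by omega⟩ k + W ⟨j + 1, hj⟩ k := by
  unfold adr
  rw [Function.update_self]

private theorem SMov_adr_of_ne (W : Fin N → Fin N → ℕ) (j : ℕ) (hj : j + 1 < N) (l : Fin N)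
    (h1 : (l : ℕ) ≠ j) : adr W j hj l = W l := by
  unfold adr
  rw [Function.update_of_ne (fun h => h1 (congrArg Fin.val h))]

private theorem SMov_pre_congr {W W' : Fin N → Fin N → ℕ} {i : ℕ}
    (h : ∀ l : Fin N, (l : ℕ) < i → W l = W' l) : (pre W i : (Fin N → G) → Fin N → G) = pre W' i := by
  funext x l
  unfold pre
  by_cases hl : (l : ℕ) < i
  · rw [if_pos hl, if_pos hl, h l hl]
  · rw [if_neg hl, if_neg hl]

theorem EE_swp (A : CV G) (W : Fin N → Fin N → ℕ) (j : ℕ) (hj : j + 1 < N) (i : ℕ) (hi : i ≠ j + 1) :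
    EE A (swp W j hj) i = EE A W i := by
  refine CV.hc_map_congr _ _ _ fun x y => ?_
  rw [pre_eq_iff, pre_eq_iff]
  constructor
  · intro h l hl
    have h1 := h (Equiv.swap (⟨j, by omega⟩ : Fin N) ⟨j + 1, hj⟩ l) ((SMov_swap hj hi l).2 hl)
    rwa [SMov_swp] at h1
  · intro h l hl
    exact h _ ((SMov_swap hj hi l).2 hl)

theorem EE_adr (A : CV G) (W : Fin N → Fin N → ℕ) (j : ℕ) (hj : j + 1 < N) (i : ℕ) (hi : i ≠ j + 1) :
    EE A (adr W j hj) i = EE A W i := by
  refine CV.hc_map_congr _ _ _ fun x y => ?_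
  rw [pre_eq_iff, pre_eq_iff]
  constructor
  · intro h l hl
    by_cases h1 : (l : ℕ) = j
    · have h2 : l = ⟨j, Nat.lt_of_succ_lt hj⟩ := Fin.ext h1
      subst h2
      have h3 := h ⟨j, by omega⟩ hl
      have h4 := h ⟨j + 1, hj⟩ (by
        change j + 1 < i
        change j < i at hl
        omega)
      rw [SMov_adr_of_ne W j hj ⟨j + 1, hj⟩ (by change j + 1 ≠ j; omega)] at h4
      rw [SMov_adr_self, form_add, form_add, h4] at h3
      exact add_right_cancel h3
    · have h3 := h l hl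
      rwa [SMov_adr_of_ne W j hj l h1] at h3
  · intro h l hl
    by_cases h1 : (l : ℕ) = j
    · have h2 : l = ⟨j, Nat.lt_of_succ_lt hj⟩ := Fin.ext h1
      subst h2
      have h3 := h ⟨j, by omega⟩ hl
      have h4 := h ⟨j + 1, hj⟩ (by
        change j + 1 < i
        change j < i at hl
        omega)
      rw [SMov_adr_self, form_add, form_add, h3, h4]
    · rw [SMov_adr_of_ne W j hj l h1]
      exact h l hl

theorem UM_idm : UM G (idm N) := by
  have h0 : ∀ (l : Fin N) (x : Fin N → G), form (idm N l) x = x l := by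
    intro l x
    unfold form idm
    rw [Finset.sum_eq_single l]
    · rw [if_pos rfl, one_nsmul]
    · intro k _ hk
      rw [if_neg (Ne.symm hk), zero_nsmul]
    · intro h
      exact absurd (Finset.mem_univ l) h
  intro x y h
  funext l
  rw [← h0 l x, ← h0 l y]
  exact h l

theorem UM_swp (W : Fin N → Fin N → ℕ) (j : ℕ) (hj : j + 1 < N) (h : UM G W) : UM G (swp W j hj) := by
  intro x y hxy
  refine h x y fun l => ?_
  have h1 := hxy (Equiv.swap (⟨j, by omega⟩ : Fin N) ⟨j + 1, hj⟩ l)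
  rwa [SMov_swp] at h1

theorem UM_adr (W : Fin N → Fin N → ℕ) (j : ℕ) (hj : j + 1 < N) (h : UM G W) : UM G (adr W j hj) := by
  intro x y hxy
  refine h x y fun l => ?_
  by_cases h1 : (l : ℕ) = j
  · have h2 : l = ⟨j, Nat.lt_of_succ_lt hj⟩ := Fin.ext h1
    subst h2
    have h3 := hxy ⟨j, by omega⟩
    have h4 := hxy ⟨j + 1, hj⟩
    rw [SMov_adr_of_ne W j hj ⟨j + 1, hj⟩ (by change j + 1 ≠ j; omega)] at h4
    rw [SMov_adr_self, form_add, form_add, h4] at h3
    exact add_right_cancel h3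
  · have h3 := hxy l
    rwa [SMov_adr_of_ne W j hj l h1] at h3

theorem EE_at (A : CV G) (W : Fin N → Fin N → ℕ) (j : ℕ) (hj : j + 1 < N) :
    EE A W (j + 1)
      = CV.hc ((CV.pow N A).map fun x => (form (W ⟨j, by omega⟩) x, pre W j x)) := by
  refine CV.hc_map_congr _ _ _ fun x y => ?_
  rw [pre_eq_iff, Prod.mk.injEq, pre_eq_iff]
  constructor
  · intro h
    exact ⟨h ⟨j, by omega⟩ (by change j < j + 1; omega), fun l hl => h l (by omega)⟩
  · rintro ⟨h1, h2⟩ l hl
    by_cases h3 : (l : ℕ) = j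
    · have h4 : l = ⟨j, by omega⟩ := Fin.ext h3
      rw [h4]
      exact h1
    · exact h2 l (by omega)

theorem EE_at2 (A : CV G) (W : Fin N → Fin N → ℕ) (j : ℕ) (hj : j + 1 < N) :
    EE A W (j + 2)
      = CV.hc ((CV.pow N A).map fun x =>
          (form (W ⟨j, by omega⟩) x, form (W ⟨j + 1, hj⟩) x, pre W j x)) := by
  refine CV.hc_map_congr _ _ _ fun x y => ?_
  rw [pre_eq_iff, Prod.mk.injEq, Prod.mk.injEq, pre_eq_iff]
  constructor
  · intro h
    exact ⟨h ⟨j, by omega⟩ (by change j < j + 2; omega),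
      h ⟨j + 1, hj⟩ (by change j + 1 < j + 2; omega), fun l hl => h l (by omega)⟩
  · rintro ⟨h1, h1', h2⟩ l hl
    by_cases h3 : (l : ℕ) = j
    · have h4 : l = ⟨j, by omega⟩ := Fin.ext h3
      rw [h4]
      exact h1
    · by_cases h5 : (l : ℕ) = j + 1
      · have h6 : l = ⟨j + 1, hj⟩ := Fin.ext h5
        rw [h6]
        exact h1'
      · exact h2 l (by omega)

theorem EE_swp_at (A : CV G) (W : Fin N → Fin N → ℕ) (j : ℕ) (hj : j + 1 < N) :
    EE A (swp W j hj) (j + 1)
      = CV.hc ((CV.pow N A).map fun x => (form (W ⟨j + 1, hj⟩) x, pre W j x)) := by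
  rw [EE_at A (swp W j hj) j hj]
  have h1 : swp W j hj ⟨j, by omega⟩ = W ⟨j + 1, hj⟩ := by
    unfold swp
    rw [Equiv.swap_apply_left]
  have h2 : (pre (swp W j hj) j : (Fin N → G) → Fin N → G) = pre W j :=
    SMov_pre_congr fun l hl => SMov_swp_of_ne W j hj l (by omega) (by omega)
  rw [h1, h2]

theorem EE_adr_at (A : CV G) (W : Fin N → Fin N → ℕ) (j : ℕ) (hj : j + 1 < N) :
    EE A (adr W j hj) (j + 1)
      = CV.hc ((CV.pow N A).map fun x =>
          (form (W ⟨j, by omega⟩) x + form (W ⟨j + 1, hj⟩) x, pre W j x)) := by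
  rw [EE_at A (adr W j hj) j hj]
  have h1 : ∀ x : Fin N → G, form (adr W j hj ⟨j, by omega⟩) x
      = form (W ⟨j, by omega⟩) x + form (W ⟨j + 1, hj⟩) x := by
    intro x
    rw [SMov_adr_self, form_add]
  have h2 : (pre (adr W j hj) j : (Fin N → G) → Fin N → G) = pre W j :=
    SMov_pre_congr fun l hl => SMov_adr_of_ne W j hj l (by omega)
  simp only [h1, h2]

end Pool.Agent.PFM
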