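import Pool.Agent.PFM.SDefs
set_option autoImplicit false

/-!
# Module SPre.  Prefix entropies.

`EE_zero`: `pre W 0` is constant (`CV.hc_map_const`).  `EE_full`: `pre W N` is injective (all `l : Fin N` have
`l < N`), `CV.hc_map_inj`.  `EE_mono`: `pre W i` is a function of `pre W j` for `i ≤ j`
(`pre W i x = fun l => if l < i then pre W j x l else 0`; `CV.hc_map_le` for the composition, `(A.map φ).map ψ`
is `A.map (ψ ∘ φ)` by `rfl`).  `EE_succ_le`: `pre W (i+1) x` is determined by `(pre W i x, form (W i) x)` and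
`H(f, g) ≤ H(f) + H(g)` (`hc_pair_le`, from `CV.hc_submod` with a constant third variable, `hc_map_const`,
`hc_map_congr`).  `EE_le`: induction from `EE_zero`, `EE_succ_le`.  `EE_ge`: from
`N * α ≤ EE A W N ≤ EE A W i + (N - i) * α'` (induction downwards or on `N - i`).
-/
namespace Pool.Agent.PFM
open Finset Pool.Agent.Ldc
variable {G X K L : Type}

theorem hc_pair_le (A : CV X) (φ : X → K) (ψ : X → L) :
    CV.hc (A.map fun x => (φ x, ψ x)) ≤ CV.hc (A.map φ) + CV.hc (A.map ψ) := by
  have h := CV.hc_submod A φ ψ (fun _ => ())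
  have h0 : CV.hc (A.map fun _ : X => ()) = 0 := CV.hc_map_const _ _ fun _ _ => rfl
  have h1 : CV.hc (A.map fun x => (φ x, ψ x, ())) = CV.hc (A.map fun x => (φ x, ψ x)) :=
    CV.hc_map_congr _ _ _ fun x y => by simp
  have h2 : CV.hc (A.map fun x => (φ x, ())) = CV.hc (A.map φ) :=
    CV.hc_map_congr _ _ _ fun x y => by simp
  have h3 : CV.hc (A.map fun x => (ψ x, ())) = CV.hc (A.map ψ) :=
    CV.hc_map_congr _ _ _ fun x y => by simp
  linarith

variable [AddCommGroup G] {N : ℕ}

theorem EE_zero (A : CV G) (W : Fin N → Fin N → ℕ) : EE A W 0 = 0 := by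
  refine CV.hc_map_const _ _ fun x y => ?_
  funext l
  simp [pre]

theorem EE_full (A : CV G) (W : Fin N → Fin N → ℕ) (hW : UM G W) : EE A W N = CV.hc (CV.pow N A) := by
  refine CV.hc_map_inj _ _ fun x y h => hW x y fun l => ?_
  have h1 := congrFun h l
  simpa [pre, l.2] using h1

theorem EE_mono (A : CV G) (W : Fin N → Fin N → ℕ) {i j : ℕ} (h : i ≤ j) : EE A W i ≤ EE A W j := by
  have e : pre (G := G) W i
      = fun x => (fun (y : Fin N → G) (l : Fin N) => if (l : ℕ) < i then y l else 0) (pre W j x) := by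
    funext x l
    by_cases hl : (l : ℕ) < i
    · have hj : (l : ℕ) < j := by omega
      simp [pre, hl, hj]
    · simp [pre, hl]
  unfold EE
  rw [e]
  exact CV.hc_map_le ((CV.pow N A).map (pre W j))
    (fun (y : Fin N → G) (l : Fin N) => if (l : ℕ) < i then y l else 0)

theorem EE_succ_le (A : CV G) (W : Fin N → Fin N → ℕ) (i : ℕ) (hi : i < N) :
    EE A W (i + 1) ≤ EE A W i + CV.hc ((CV.pow N A).map (form (W ⟨i, hi⟩))) := by
  have e : EE A W (i + 1)
      = CV.hc ((CV.pow N A).map fun x => (pre W i x, form (W ⟨i, hi⟩) x)) := by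
    refine CV.hc_map_congr _ _ _ fun x y => ?_
    rw [Prod.mk.injEq]
    constructor
    · intro h
      refine ⟨?_, ?_⟩
      · funext l
        by_cases hl : (l : ℕ) < i
        · have h1 := congrFun h l
          have h2 : (l : ℕ) < i + 1 := by omega
          simpa [pre, hl, h2] using h1
        · simp [pre, hl]
      · have h1 := congrFun h ⟨i, hi⟩
        simpa [pre] using h1
    · rintro ⟨h1, h2⟩
      funext l
      by_cases hl : (l : ℕ) < i
      · have h3 := congrFun h1 l
        have h4 : (l : ℕ) < i + 1 := by omega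
        simpa [pre, hl, h4] using h3
      · by_cases hl2 : (l : ℕ) = i
        · have h5 : l = ⟨i, hi⟩ := Fin.ext hl2
          subst h5
          simpa [pre] using h2
        · have h6 : ¬ (l : ℕ) < i + 1 := by omega
          simp [pre, h6]
  rw [e]
  exact hc_pair_le _ _ _

private theorem SPre_step (A : CV G) (W : Fin N → Fin N → ℕ) (c : ℝ)
    (hc : ∀ l, CV.hc ((CV.pow N A).map (form (W l))) ≤ c) (i k : ℕ) (hi : i + k ≤ N) :
    EE A W (i + k) ≤ EE A W i + k * c := by
  induction k with
  | zero => simp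
  | succ k ih =>
    have h1 := ih (by omega)
    have h2 := EE_succ_le A W (i + k) (by omega)
    have h3 := hc ⟨i + k, by omega⟩
    have e : i + (k + 1) = i + k + 1 := rfl
    rw [e]
    push_cast
    linarith

theorem EE_le (A : CV G) (W : Fin N → Fin N → ℕ) (c : ℝ)
    (hc : ∀ l, CV.hc ((CV.pow N A).map (form (W l))) ≤ c) (i : ℕ) (hi : i ≤ N) : EE A W i ≤ i * c := by
  have h := SPre_step A W c hc 0 i (by omega)
  rw [zero_add, EE_zero, zero_add] at h
  exact h

theorem EE_ge (A : CV G) (W : Fin N → Fin N → ℕ) (c : ℝ)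
    (hc : ∀ l, CV.hc ((CV.pow N A).map (form (W l))) ≤ c) (hN : N * c ≤ EE A W N) (i : ℕ) (hi : i ≤ N) :
    i * c ≤ EE A W i := by
  have h := SPre_step A W c hc i (N - i) (by omega)
  rw [Nat.add_sub_cancel' hi, Nat.cast_sub hi] at h
  linarith

end Pool.Agent.PFM
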