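import Pool.Agent.PFM.SFin
import Pool.Agent.PFM.Grw
set_option autoImplicit false

/-!
# The two stage lemmas
-/
namespace Pool.Agent.PFM
open Finset

namespace MM

theorem stage_gen {G : Type} [AddCommGroup G] [Finite G] (g t : ℕ) (hg : 1 ≤ g) (r e E : ℝ) (hr : 0 < r)
    (he : 0 ≤ e) (hE : 0 ≤ E) (hrJ : r * (400 * g) ≤ 1) (a : MM G) (ha : Her r e a)
    (hF : ∀ w : Fin (10 ^ 4 * g + 1) → ℕ, (∀ i, w i < 2 ^ ((10 ^ 4 * g) ^ 4)) →
      h (∑ i, dil (w i : ℤ) (Q t a)) ≤ (1 + 4 * g * r) * h (Q t a) + E * e) :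
    ∃ j ≤ 400 * g, kap ((2 ^ j) • Q t a) ≤ r / 4 * h ((2 ^ j) • Q t a)
      + (E + 2500 * g * 2 ^ (400 * g) * t) * e := by
  classical
  have := Fintype.ofFinite G
  have hg1 : (1 : ℝ) ≤ g := by exact_mod_cast hg
  have ht0 : (0 : ℝ) ≤ t := Nat.cast_nonneg t
  set P : ℝ := 2 ^ (400 * g) with hP
  have hP0 : 0 ≤ P := by positivity
  set K : ℝ := E + 40000 * g * P * t with hK
  have hK0 : 0 ≤ K := by positivity
  have hA : 0 ≤ h (Q t a) := h_nonneg _
  have hKe : 0 ≤ K * e := mul_nonneg hK0 he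
  rcases hA.eq_or_lt with h0 | h0
  · refine ⟨0, Nat.zero_le _, ?_⟩
    rw [pow_zero, one_smul, ← h0, mul_zero, zero_add]
    have h1 : kap (Q t a) ≤ 0 := by
      have h2 := h_add_le (Q t a) (Q t a)
      have h3 : h (Q t a + Q t a) = h (Q t a) + kap (Q t a) := by rw [← two_nsmul, h_two]
      linarith
    exact h1.trans (by positivity)
  · have hk : 0 < 4 * r * h (Q t a) + K * e := by
      have : 0 < 4 * r * h (Q t a) := by positivity
      linarith
    obtain ⟨A, hAeq⟩ : ∃ A : CV G, MM.mk A = Q t a := Quotient.exists_rep _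
    have hs := stage_abs A g hg (4 * r * h (Q t a) + K * e) r (P * t * e) hk hr.le (by positivity) hrJ
      (by
        have h1 : (P * t * e) * (400 * g) = (40000 * g * P * t) * e / 100 := by ring
        rw [h1]
        have h2 : (40000 * g * P * t) * e ≤ K * e := mul_le_mul_of_nonneg_right (by linarith) he
        have h3 : 0 ≤ 4 * r * h (Q t a) := by positivity
        linarith)
      (by
        intro w hw
        rw [hAeq]
        refine (hF w hw).trans ?_
        have h1 : E * e ≤ g * (K * e) := by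
          have h2 : E * e ≤ K * e := mul_le_mul_of_nonneg_right (by
            have : 0 ≤ 40000 * g * P * t := by positivity
            linarith) he
          nlinarith
        nlinarith)
      (by
        intro m hm n
        rw [hAeq]
        refine (hsm ha m t n).trans ?_
        have h1 : (m : ℝ) ≤ P := by
          rw [hP]
          exact_mod_cast hm
        have h2 : (m : ℝ) * t * e ≤ P * t * e :=
          mul_le_mul_of_nonneg_right (mul_le_mul_of_nonneg_right h1 ht0) he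
        linarith)
    obtain ⟨j, hj, hjk⟩ := hs
    refine ⟨j, hj.le, ?_⟩
    rw [hAeq] at hjk
    refine hjk.trans ?_
    have h1 : h (Q t a) ≤ h ((2 ^ j) • Q t a) := by
      obtain ⟨m, hm⟩ : ∃ m, 2 ^ j = m + 1 := ⟨2 ^ j - 1, by have := Nat.one_le_two_pow (n := j); omega⟩
      rw [hm, add_smul, one_smul]
      exact h_le_add' _ _
    have h2 : r / 4 * h (Q t a) ≤ r / 4 * h ((2 ^ j) • Q t a) := mul_le_mul_of_nonneg_left h1 (by positivity)
    have h3 : K / 16 ≤ E + 2500 * g * P * t := by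
      rw [hK]
      linarith
    have h4 : K / 16 * e ≤ (E + 2500 * g * P * t) * e := mul_le_mul_of_nonneg_right h3 he
    linarith

theorem SStg_log10 : Real.log 10 ≤ 14 / 5 := by
  have h1 : Real.log 10 ≤ Real.log (2 ^ 4) := Real.log_le_log (by norm_num) (by norm_num)
  rw [Real.log_pow] at h1
  have := Real.log_two_lt_d9
  push_cast at h1
  linarith

/-- STAGE, window `t = ⌈M / r⌉` -/
theorem stage1 : ∃ (M : ℝ) (J : ℕ) (r₁ : ℝ), 1 ≤ M ∧ 0 < r₁ ∧ r₁ ≤ 1 ∧ ∀ r : ℝ, 0 < r → r ≤ r₁ →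
    ∃ E : ℝ, 0 ≤ E ∧ ∀ (G : Type) [AddCommGroup G] [Finite G] (a : MM G) (e : ℝ), 0 ≤ e → Her r e a →
      ∃ j ≤ J, kap (2 ^ j • Q ⌈M / r⌉₊ a) ≤ r / 4 * h (2 ^ j • Q ⌈M / r⌉₊ a) + E * e := by
  obtain ⟨c, hc1, hgrw⟩ := grw
  have hc1' : (1 : ℝ) ≤ c := by exact_mod_cast hc1
  -- choice of `g`: `g = 100 c ^ 2`
  set g : ℕ := 100 * c ^ 2 with hg
  have hg1 : 1 ≤ g := by
    have : 1 ≤ c ^ 2 := Nat.one_le_pow _ _ hc1
    omega
  have hgr : (g : ℝ) = 100 * c ^ 2 := by rw [hg]; push_cast; ring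
  have hg1' : (1 : ℝ) ≤ g := by exact_mod_cast hg1
  set n : ℕ := 10 ^ 4 * g + 1 with hn
  set b : ℕ := (10 ^ 4 * g) ^ 4 with hb
  have hn1 : 1 ≤ n := by omega
  have hb1 : 1 ≤ b := Nat.one_le_pow _ _ (by omega)
  have hlog : 1 + Real.log (n * b) ≤ 400 * c := by
    have h1 : (n : ℝ) ≤ 10 * (10 ^ 4 * g) := by
      rw [hn]
      push_cast
      linarith
    have h2 : (n * b : ℝ) ≤ 10 * (10 ^ 6 * c ^ 2) ^ 5 := by
      have h3 : (b : ℝ) = (10 ^ 4 * g) ^ 4 := by rw [hb]; push_cast; ring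
      rw [h3]
      calc (n : ℝ) * (10 ^ 4 * g) ^ 4 ≤ (10 * (10 ^ 4 * g)) * (10 ^ 4 * g) ^ 4 :=
            mul_le_mul_of_nonneg_right h1 (by positivity)
        _ = 10 * (10 ^ 6 * c ^ 2) ^ 5 := by rw [hgr]; ring
    have h3 : Real.log (n * b) ≤ Real.log (10 * (10 ^ 6 * c ^ 2) ^ 5) :=
      Real.log_le_log (by positivity) h2
    have hcp : (0 : ℝ) < c := by linarith
    have h4 : Real.log (10 * (10 ^ 6 * (c : ℝ) ^ 2) ^ 5) = 31 * Real.log 10 + 10 * Real.log c := by
      rw [Real.log_mul (by norm_num) (by positivity), Real.log_pow, Real.log_mul (by norm_num) (by positivity),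
        Real.log_pow, Real.log_pow]
      push_cast
      ring
    have h5 : Real.log c ≤ c - 1 := Real.log_le_sub_one_of_pos hcp
    have h6 := SStg_log10
    rw [h4] at h3
    linarith
  have hlog0 : 0 ≤ 1 + Real.log (n * b) := by
    have h1 : (1 : ℝ) ≤ n := by exact_mod_cast hn1
    have h2 : (1 : ℝ) ≤ b := by exact_mod_cast hb1
    have := Real.log_nonneg (by nlinarith : (1 : ℝ) ≤ n * b)
    linarith
  refine ⟨b, 400 * g, 1 / (400 * g), by exact_mod_cast hb1, by positivity, ?_, ?_⟩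
  · rw [div_le_one (by positivity)]
    linarith
  intro r hr hr1
  have hrg : r * (400 * g) ≤ 1 := by
    rwa [le_div_iff₀ (by positivity)] at hr1
  set t : ℕ := ⌈(b : ℝ) / r⌉₊ with ht
  have hbt : (b : ℝ) ≤ r * t := by
    have h1 : (b : ℝ) / r ≤ t := Nat.le_ceil _
    rw [div_le_iff₀ hr] at h1
    linarith
  have hcl : c * (1 + Real.log (n * b)) ≤ 4 * g := by
    calc (c : ℝ) * (1 + Real.log (n * b)) ≤ c * (400 * c) := mul_le_mul_of_nonneg_left hlog (by linarith)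
      _ = 4 * g := by rw [hgr]; ring
  have hcr : c * (1 + Real.log (n * b)) * r ≤ 1 := by
    have h1 : c * (1 + Real.log (n * b)) * r ≤ 4 * g * r := mul_le_mul_of_nonneg_right hcl hr.le
    have h2 : 0 ≤ g * r := by positivity
    linarith
  obtain ⟨E, hE, hgrw⟩ := hgrw n b r t hn1 hb1 hr hcr hbt
  refine ⟨E + 2500 * g * 2 ^ (400 * g) * t, by positivity, ?_⟩
  intro G _ _ a e he ha
  refine stage_gen g t hg1 r e E hr he hE hrg a ha ?_
  intro w hw
  refine (hgrw G a e he ha w hw).trans ?_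
  have h1 : (1 + c * (1 + Real.log (n * b)) * r) * h (Q t a) ≤ (1 + 4 * g * r) * h (Q t a) := by
    refine mul_le_mul_of_nonneg_right ?_ (h_nonneg _)
    have := mul_le_mul_of_nonneg_right hcl hr.le
    linarith
  linarith

/-- STAGE, `r ≤ 1/(c (1 + log T))`, window `T` -/
theorem stage2 : ∃ c : ℝ, 1 ≤ c ∧ ∀ (T : ℕ) (r : ℝ), 1 ≤ T → 0 < r → c * (1 + Real.log T) * r ≤ 1 →
    ∃ J : ℕ, (J : ℝ) ≤ c * (1 + Real.log T) ∧ ∃ E : ℝ, 0 ≤ E ∧
    ∀ (G : Type) [AddCommGroup G] [Finite G] (a : MM G) (e : ℝ), Tor T G → 0 ≤ e → Her r e a →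
      ∃ j ≤ J, kap (2 ^ j • Q T a) ≤ r / 4 * h (2 ^ j • Q T a) + E * e := by
  obtain ⟨c₀, hc0, habs⟩ := absorbTs
  -- `g = 50 c₁ ^ 2 (1 + clog T)`, `c₁ = ⌈c₀⌉`
  set c₁ : ℕ := ⌈c₀⌉₊ with hc1
  have hc01 : c₀ ≤ c₁ := Nat.le_ceil _
  have hc1' : (1 : ℝ) ≤ c₁ := hc0.trans hc01
  have hc1n : 1 ≤ c₁ := by exact_mod_cast hc1'
  refine ⟨40000 * c₁ ^ 2, by nlinarith, ?_⟩
  intro T r hT hr hcr
  have hT' : (1 : ℝ) ≤ T := by exact_mod_cast hT
  set L := Nat.clog 2 T with hL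
  have hL0 : (0 : ℝ) ≤ L := Nat.cast_nonneg _
  have hlT0 : 0 ≤ Real.log T := Real.log_nonneg hT'
  have hLT : Real.log T ≤ L := by
    have h1 : (T : ℝ) ≤ 2 ^ L := by exact_mod_cast Nat.le_pow_clog (by norm_num) T
    have h2 := Real.log_le_log (by positivity) h1
    rw [Real.log_pow] at h2
    have h3 : Real.log 2 ≤ 1 := by
      have := Real.log_two_lt_d9
      linarith
    nlinarith
  have hLT2 : (L : ℝ) ≤ 1 + 3 / 2 * Real.log T := by
    rcases Nat.lt_or_ge T 2 with h1 | h1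
    · have h2 : T = 1 := by omega
      rw [hL, h2, Nat.clog_one_right, Nat.cast_zero, Nat.cast_one, Real.log_one]
      norm_num
    · exact Grw_clog h1
  set g : ℕ := 50 * c₁ ^ 2 * (1 + L) with hg
  have hgr : (g : ℝ) = 50 * c₁ ^ 2 * (1 + L) := by rw [hg]; push_cast; ring
  have hg1 : 1 ≤ g := by
    rw [hg]
    exact Nat.mul_pos (by positivity) (by omega)
  have hg1' : (1 : ℝ) ≤ g := by exact_mod_cast hg1
  have hJ : ((400 * g : ℕ) : ℝ) ≤ 40000 * c₁ ^ 2 * (1 + Real.log T) := by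
    push_cast
    rw [hgr]
    have h1 : (1 + (L : ℝ)) ≤ 2 * (1 + Real.log T) := by linarith
    calc 400 * (50 * (c₁ : ℝ) ^ 2 * (1 + L)) = 20000 * c₁ ^ 2 * (1 + L) := by ring
      _ ≤ 20000 * c₁ ^ 2 * (2 * (1 + Real.log T)) := mul_le_mul_of_nonneg_left h1 (by positivity)
      _ = _ := by ring
  have hrg : r * (400 * g) ≤ 1 := by
    have h1 : r * ((400 * g : ℕ) : ℝ) ≤ r * (40000 * c₁ ^ 2 * (1 + Real.log T)) :=
      mul_le_mul_of_nonneg_left hJ hr.le
    push_cast at h1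
    linarith
  set n : ℕ := 10 ^ 4 * g + 1 with hn
  have hn1 : 1 ≤ n := by omega
  have hlogn : Real.log n ≤ 20 + 2 * c₁ + L := by
    have h1 : (n : ℝ) ≤ 10 ^ 7 * (c₁ ^ 2 * (1 + L)) := by
      rw [hn]
      push_cast
      have h2 : (0 : ℝ) ≤ (c₁ : ℝ) ^ 2 * (1 + L) := by positivity
      rw [hgr] at hg1' ⊢
      linarith
    have h2 := Real.log_le_log (by positivity) h1
    have hcp : (0 : ℝ) < c₁ := by linarith
    rw [Real.log_mul (by norm_num) (by positivity), Real.log_mul (by positivity) (by positivity),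
      Real.log_pow, Real.log_pow] at h2
    have h3 : Real.log c₁ ≤ c₁ - 1 := Real.log_le_sub_one_of_pos hcp
    have h4 : Real.log (1 + L) ≤ 1 + L - 1 := Real.log_le_sub_one_of_pos (by linarith)
    have h5 := SStg_log10
    push_cast at h2
    linarith
  have hcl : c₀ * (1 + Real.log T + Real.log ((n * T : ℕ) : ℝ)) ≤ g := by
    have h1 : Real.log ((n * T : ℕ) : ℝ) = Real.log n + Real.log T := by
      push_cast
      rw [Real.log_mul (by positivity) (by positivity)]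
    rw [h1]
    have h2 : 1 + Real.log T + (Real.log n + Real.log T) ≤ 21 + 2 * c₁ + 3 * L := by linarith
    have h3 : 0 ≤ 1 + Real.log T + (Real.log n + Real.log T) := by
      have h4 : (1 : ℝ) ≤ n := by exact_mod_cast hn1
      have := Real.log_nonneg h4
      linarith
    calc c₀ * (1 + Real.log T + (Real.log n + Real.log T))
        ≤ c₁ * (1 + Real.log T + (Real.log n + Real.log T)) := mul_le_mul_of_nonneg_right hc01 h3
      _ ≤ c₁ * (21 + 2 * c₁ + 3 * L) := mul_le_mul_of_nonneg_left h2 (by linarith)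
      _ ≤ g := by
        rw [hgr]
        have h5 : (c₁ : ℝ) ≤ c₁ ^ 2 := by nlinarith
        have h6 : (c₁ : ℝ) * L ≤ c₁ ^ 2 * L := mul_le_mul_of_nonneg_right h5 hL0
        have h7 : (0 : ℝ) ≤ c₁ ^ 2 * L := by positivity
        nlinarith
  have hcl' : c₀ * (1 + Real.log T + Real.log ((n * T : ℕ) : ℝ)) * r ≤ g * r :=
    mul_le_mul_of_nonneg_right hcl hr.le
  have hgr0 : 0 ≤ g * r := by positivity
  obtain ⟨E, hE, habs⟩ := habs T (n * T) r hT (Nat.mul_pos hn1 hT) hr (by linarith)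
  refine ⟨400 * g, hJ, E + 2500 * g * 2 ^ (400 * g) * T, by positivity, ?_⟩
  intro G _ _ a e hG he ha
  refine stage_gen g T hg1 r e E hr he hE hrg a ha ?_
  intro w hw
  have h1 := habs G a e hG he ha (Fin n × ℕ) (univ ×ˢ range T) (by
    rw [Finset.card_product, Finset.card_univ, Fintype.card_fin, card_range])
    (fun x => (w x.1 : ℤ) * 2 ^ x.2)
  have h2 : ∑ x ∈ (univ : Finset (Fin n)) ×ˢ range T, dil ((w x.1 : ℤ) * 2 ^ x.2) a
      = ∑ i : Fin n, dil (w i : ℤ) (Q T a) := by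
    rw [Finset.sum_product]
    refine Finset.sum_congr rfl fun i _ => ?_
    unfold Q
    rw [map_sum]
    refine Finset.sum_congr rfl fun c _ => ?_
    rw [dil_dil]
  rw [h2] at h1
  refine h1.trans ?_
  have h3 : (1 + c₀ * (1 + Real.log T + Real.log ((n * T : ℕ) : ℝ)) * r) * h (Q T a)
      ≤ (1 + 4 * g * r) * h (Q T a) :=
    mul_le_mul_of_nonneg_right (by linarith) (h_nonneg _)
  linarith

end MM
end Pool.Agent.PFM
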