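import Pool.Agent.PFM.Bas
set_option autoImplicit false

/-!
# Section P: the small entropy lemma

There is `c > 0` such that every conditional variable with entropy at most `c` on an abelian group
satisfies `h a ≤ 2 κ a`, i.e. `h (a + a') ≥ (3/2) h a`.

Two laws `P`, `Q` with largest atoms `≥ 1 - q₀` (at `0` after translation): for `x ≠ 0` the law `R` of the sum
has `R x ≥ Q 0 · P x + P 0 · Q x` and `R x ≤ 2 q₀`, and `negMulLog` is increasing on `[0, 1/e]`.
-/
namespace Pool.Agent.PFM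
open Finset Pool.Agent.Ldc

namespace Sml

/-! ### Real inequalities -/

theorem nml_half (a b : ℝ) (ha : 0 ≤ a) (hb : 0 ≤ b) :
    Real.negMulLog a + Real.negMulLog b - (a + b) * Real.log 2 ≤ Real.negMulLog (a + b) := by
  have h := Real.concaveOn_negMulLog.2 (Set.mem_Ici.2 ha) (Set.mem_Ici.2 hb)
    (by norm_num : (0 : ℝ) ≤ 1/2) (by norm_num : (0 : ℝ) ≤ 1/2) (by norm_num)
  simp only [smul_eq_mul] at h
  have e : (1/2 : ℝ) * a + 1/2 * b = (1/2) * (a + b) := by ring
  rw [e, Real.negMulLog_mul] at h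
  have e2 : Real.negMulLog (1/2 : ℝ) = 1/2 * Real.log 2 := by
    unfold Real.negMulLog
    rw [one_div, Real.log_inv]
    ring
  rw [e2] at h
  linarith

theorem nml_smul (c u : ℝ) (hc : 0 ≤ c) (hc1 : c ≤ 1) (hu : 0 ≤ u) :
    c * Real.negMulLog u ≤ Real.negMulLog (c * u) := by
  rw [Real.negMulLog_mul]
  have := mul_nonneg hu (Real.negMulLog_nonneg hc hc1)
  linarith

theorem nml_mono (s t : ℝ) (hs : 0 ≤ s) (hst : s ≤ t) (ht : t ≤ Real.exp (-1)) :
    Real.negMulLog s ≤ Real.negMulLog t := by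
  have ht1 : t ≤ 1 := ht.trans (Real.exp_le_one_iff.2 (by norm_num))
  rcases hs.eq_or_lt with h0 | h0
  · rw [← h0, Real.negMulLog_zero]
    exact Real.negMulLog_nonneg (hs.trans hst) ht1
  · have ht0 : 0 < t := h0.trans_le hst
    have h1 : Real.log t ≤ -1 := by
      rw [Real.log_le_iff_le_exp ht0]
      exact ht
    have h2 : Real.log t - Real.log s ≤ t / s - 1 := by
      rw [← Real.log_div ht0.ne' h0.ne']
      exact Real.log_le_sub_one_of_pos (div_pos ht0 h0)
    have h3 : s * (Real.log t - Real.log s) ≤ t - s := by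
      have h4 := mul_le_mul_of_nonneg_left h2 h0.le
      have h5 : s * (t / s - 1) = t - s := by field_simp
      rwa [h5] at h4
    have h6 : (t - s) * Real.log t ≤ (t - s) * (-1) :=
      mul_le_mul_of_nonneg_left h1 (by linarith)
    unfold Real.negMulLog
    nlinarith

theorem nml_le (x : ℝ) (hx : 0 < x) : Real.negMulLog x ≤ 1 - x := by
  have h := Real.one_sub_inv_le_log_of_pos hx
  have h1 := mul_le_mul_of_nonneg_left h hx.le
  have h2 : x * (1 - x⁻¹) = x - 1 := by field_simp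
  rw [h2] at h1
  unfold Real.negMulLog
  linarith

/-! ### Entropy as a sum over a finite set of values -/

theorem H_eq_sum {Ω α : Type} [Fintype Ω] (p : Ω → ℝ) (f : Ω → α) (S : Finset α)
    (hS : ∀ ω, f ω ∈ S) : H p f = ∑ x ∈ S, Real.negMulLog (pr p f x) := by
  classical
  have h1 : ∀ x, pr p f x = ∑ ω ∈ univ.filter (fun ω => f ω = x), p ω := by
    intro x
    unfold pr pe
    rw [Finset.sum_filter]
  unfold H
  rw [← Finset.sum_fiberwise_of_maps_to (s := univ) (t := S) (g := f) (fun ω _ => hS ω)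
    (fun ω => p ω * Real.log (pr p f (f ω))), ← Finset.sum_neg_distrib]
  refine Finset.sum_congr rfl fun x _ => ?_
  have h2 : ∑ ω ∈ univ.filter (fun ω => f ω = x), p ω * Real.log (pr p f (f ω))
      = ∑ ω ∈ univ.filter (fun ω => f ω = x), p ω * Real.log (pr p f x) := by
    refine Finset.sum_congr rfl fun ω hω => ?_
    rw [(Finset.mem_filter.1 hω).2]
  rw [h2, ← Finset.sum_mul, ← h1]
  unfold Real.negMulLog
  ring

theorem sum_pr_eq {Ω α : Type} [Fintype Ω] {p : Ω → ℝ} (hp : IsP p) (f : Ω → α) (S : Finset α)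
    (hS : ∀ ω, f ω ∈ S) : ∑ x ∈ S, pr p f x = 1 := by
  classical
  rw [← E3b_mem]
  unfold pe
  rw [← hp.2]
  exact Finset.sum_congr rfl fun ω _ => by rw [if_pos (hS ω)]

/-! ### Two concentrated laws -/

theorem two_aux {Ω Ω' G : Type} [Fintype Ω] [Fintype Ω'] [AddCommGroup G] {p : Ω → ℝ} {q : Ω' → ℝ}
    (hp : IsP p) (hq : IsP q) (f : Ω → G) (g : Ω' → G) (x : G) (hx : x ≠ 0) :
    pr p f x * pr q g 0 + pr p f 0 * pr q g x ≤ pr (pp p q) (fun u => f u.1 + g u.2) x ∧
      pr (pp p q) (fun u => f u.1 + g u.2) x ≤ 1 - pr p f 0 * pr q g 0 := by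
  classical
  have hI := indep_pp hp hq f g
  have e : ∀ a b, pr p f a * pr q g b = pr (pp p q) (fun u => (f u.1, g u.2)) (a, b) := by
    intro a b
    rw [hI a b, pr_pp_fst hq f, pr_pp_snd hp g]
  have hpp := pp_isP hp hq
  constructor
  · rw [e, e]
    unfold pr pe
    rw [← Finset.sum_add_distrib]
    refine Finset.sum_le_sum fun u _ => ?_
    by_cases h1 : (f u.1, g u.2) = (x, 0)
    · have h2 : f u.1 = x := (Prod.ext_iff.1 h1).1
      have h3 : g u.2 = 0 := (Prod.ext_iff.1 h1).2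
      have h4 : ¬ ((f u.1, g u.2) = (0, x)) := by
        intro h5
        exact hx (h2.symm.trans (Prod.ext_iff.1 h5).1)
      rw [if_pos h1, if_neg h4, if_pos (show f u.1 + g u.2 = x by rw [h2, h3, add_zero]), add_zero]
    · rw [if_neg h1, zero_add]
      by_cases h4 : (f u.1, g u.2) = (0, x)
      · rw [if_pos h4, if_pos (show f u.1 + g u.2 = x by
          rw [show f u.1 = 0 from (Prod.ext_iff.1 h4).1, show g u.2 = x from (Prod.ext_iff.1 h4).2,
            zero_add])]
      · rw [if_neg h4]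
        split_ifs
        · exact hpp.1 u
        · exact le_refl _
  · rw [e, le_sub_iff_add_le, ← hpp.2]
    unfold pr pe
    rw [← Finset.sum_add_distrib]
    refine Finset.sum_le_sum fun u _ => ?_
    by_cases h1 : (f u.1, g u.2) = (0, 0)
    · have h2 : f u.1 = 0 := (Prod.ext_iff.1 h1).1
      have h3 : g u.2 = 0 := (Prod.ext_iff.1 h1).2
      rw [if_pos h1, if_neg (show ¬ (f u.1 + g u.2 = x) by
        rw [h2, h3, add_zero]; exact hx.symm), zero_add]
    · rw [if_neg h1, add_zero]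
      split_ifs
      · exact le_refl _
      · exact hpp.1 u

/-- the mass outside the atom `0` is small compared with the entropy -/
theorem one_aux {Ω G : Type} [Fintype Ω] [AddCommGroup G] [DecidableEq G] {p : Ω → ℝ}
    (hp : IsP p) (f : Ω → G) (S : Finset G) (hS : ∀ ω, f ω ∈ S) (h0 : (0 : G) ∈ S)
    (hx : 1 - Real.exp (-16) ≤ pr p f 0) :
    H p f ≤ (1 - pr p f 0) + ∑ x ∈ S.erase 0, Real.negMulLog (pr p f x) ∧
      16 * (1 - pr p f 0) ≤ H p f ∧ ∑ x ∈ S.erase 0, pr p f x = 1 - pr p f 0 := by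
  have hs := sum_pr_eq hp f S hS
  rw [← Finset.add_sum_erase S _ h0] at hs
  have hH := H_eq_sum p f S hS
  rw [← Finset.add_sum_erase S _ h0] at hH
  have he : Real.exp (-16) < 1 := by
    rw [Real.exp_lt_one_iff]
    norm_num
  have hpos : 0 < pr p f 0 := by linarith
  have h1 := nml_le _ hpos
  have h2 := Real.negMulLog_nonneg (pr_nonneg hp f 0) (pr_le_one hp f 0)
  have h3 : ∀ x ∈ S.erase 0, 16 * pr p f x ≤ Real.negMulLog (pr p f x) := by
    intro x hx'
    have h4 : pr p f x ≤ 1 - pr p f 0 := by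
      have := Finset.single_le_sum (f := fun x => pr p f x) (fun y _ => pr_nonneg hp f y) hx'
      linarith
    rcases (pr_nonneg hp f x).eq_or_lt with h5 | h5
    · rw [← h5]; simp
    · have h6 : Real.log (pr p f x) ≤ -16 := by
        rw [Real.log_le_iff_le_exp h5]
        linarith
      unfold Real.negMulLog
      nlinarith
  have h7 := Finset.sum_le_sum h3
  rw [← Finset.mul_sum] at h7
  refine ⟨by linarith, by linarith, by linarith⟩

theorem two_ent0 {Ω Ω' G : Type} [Fintype Ω] [Fintype Ω'] [AddCommGroup G] {p : Ω → ℝ} {q : Ω' → ℝ}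
    (hp : IsP p) (hq : IsP q) (f : Ω → G) (g : Ω' → G)
    (hx : 1 - Real.exp (-16) ≤ pr p f 0) (hy : 1 - Real.exp (-16) ≤ pr q g 0) :
    7 / 8 * (H p f + H q g) ≤ H (pp p q) (fun u => f u.1 + g u.2) := by
  classical
  set S : Finset G := insert 0 (univ.image f ∪ univ.image g ∪
    univ.image (fun u : Ω × Ω' => f u.1 + g u.2)) with hSdef
  have h0 : (0 : G) ∈ S := by simp [hSdef]
  have hSf : ∀ ω, f ω ∈ S := fun ω => by simp [hSdef]
  have hSg : ∀ ω, g ω ∈ S := fun ω => by simp [hSdef]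
  have hSs : ∀ u : Ω × Ω', f u.1 + g u.2 ∈ S := fun u => by
    rw [hSdef]
    exact Finset.mem_insert_of_mem (Finset.mem_union_right _
      (Finset.mem_image_of_mem (fun u : Ω × Ω' => f u.1 + g u.2) (Finset.mem_univ u)))
  obtain ⟨f1, f2, f3⟩ := one_aux hp f S hSf h0 hx
  obtain ⟨g1, g2, g3⟩ := one_aux hq g S hSg h0 hy
  have hR := H_eq_sum (pp p q) (fun u => f u.1 + g u.2) S hSs
  rw [← Finset.add_sum_erase S _ h0] at hR
  have hpp := pp_isP hp hq
  have hR0 := Real.negMulLog_nonneg (pr_nonneg hpp (fun u => f u.1 + g u.2) 0)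
    (pr_le_one hpp (fun u => f u.1 + g u.2) 0)
  have hF0 := pr_nonneg hp f 0
  have hG0 := pr_nonneg hq g 0
  have hF1 := pr_le_one hp f 0
  have hG1 := pr_le_one hq g 0
  have he : Real.exp (-16) ≤ 1 / 100 := by
    have h1 : Real.exp (-16 : ℝ) = (Real.exp 16)⁻¹ := Real.exp_neg 16
    have h2 : (100 : ℝ) ≤ Real.exp 16 := by
      have h3 : Real.exp 16 = Real.exp 8 * Real.exp 8 := by
        rw [← Real.exp_add]; norm_num
      have h4 : (9 : ℝ) ≤ Real.exp 8 := by
        have := Real.add_one_le_exp (8 : ℝ)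
        linarith
      have h5 : Real.exp 8 = Real.exp 4 * Real.exp 4 := by
        rw [← Real.exp_add]; norm_num
      have h6 : (5 : ℝ) ≤ Real.exp 4 := by
        have := Real.add_one_le_exp (4 : ℝ)
        linarith
      nlinarith
    rw [h1, inv_eq_one_div]
    exact one_div_le_one_div_of_le (by norm_num) h2
  have he1 : (1 : ℝ) / 50 ≤ Real.exp (-1) := by
    have h1 : Real.exp (-1 : ℝ) = (Real.exp 1)⁻¹ := Real.exp_neg 1
    have h2 : Real.exp 1 ≤ 50 := by
      have := Real.exp_one_lt_d9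
      linarith
    rw [h1, inv_eq_one_div]
    exact one_div_le_one_div_of_le (Real.exp_pos 1) h2
  have hlog : Real.log 2 ≤ 7 / 10 := by
    have := Real.log_two_lt_d9
    linarith
  have hlog0 : 0 ≤ Real.log 2 := Real.log_nonneg (by norm_num)
  have key : ∀ x ∈ S.erase 0, 99 / 100 * (Real.negMulLog (pr p f x) + Real.negMulLog (pr q g x))
      - (pr p f x + pr q g x) * (7 / 10) ≤
      Real.negMulLog (pr (pp p q) (fun u => f u.1 + g u.2) x) := by
    intro x hx'
    have hx0 : x ≠ 0 := Finset.ne_of_mem_erase hx'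
    obtain ⟨a1, a2⟩ := two_aux hp hq f g x hx0
    have b1 := pr_nonneg hp f x
    have b2 := pr_nonneg hq g x
    have b3 := pr_le_one hp f x
    have b4 := pr_le_one hq g x
    have c1 : 0 ≤ pr p f x * pr q g 0 := mul_nonneg b1 hG0
    have c2 : 0 ≤ pr p f 0 * pr q g x := mul_nonneg hF0 b2
    have d1 : pr (pp p q) (fun u => f u.1 + g u.2) x ≤ Real.exp (-1) := by
      refine a2.trans (le_trans ?_ he1)
      nlinarith
    have d2 := nml_mono _ _ (by linarith) a1 d1
    have d3 := nml_half _ _ c1 c2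
    have d4 := nml_smul (pr q g 0) (pr p f x) hG0 hG1 b1
    have d5 := nml_smul (pr p f 0) (pr q g x) hF0 hF1 b2
    rw [mul_comm (pr q g 0)] at d4
    have n1 := Real.negMulLog_nonneg b1 b3
    have n2 := Real.negMulLog_nonneg b2 b4
    have e1 : pr p f x * pr q g 0 ≤ pr p f x := by nlinarith
    have e2 : pr p f 0 * pr q g x ≤ pr q g x := by nlinarith
    have m1 : 99 / 100 * Real.negMulLog (pr p f x) ≤ pr q g 0 * Real.negMulLog (pr p f x) :=
      mul_le_mul_of_nonneg_right (by linarith) n1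
    have m2 : 99 / 100 * Real.negMulLog (pr q g x) ≤ pr p f 0 * Real.negMulLog (pr q g x) :=
      mul_le_mul_of_nonneg_right (by linarith) n2
    have m3 : (pr p f x * pr q g 0 + pr p f 0 * pr q g x) * Real.log 2
        ≤ (pr p f x + pr q g x) * (7 / 10) :=
      mul_le_mul (by linarith) hlog hlog0 (by linarith)
    have d4' : pr q g 0 * Real.negMulLog (pr p f x) ≤ Real.negMulLog (pr p f x * pr q g 0) := by
      first
        | exact d4
        | (rw [mul_comm (pr p f x)]; exact nml_smul (pr q g 0) (pr p f x) hG0 hG1 b1)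
    linarith
  have hsum := Finset.sum_le_sum key
  rw [Finset.sum_sub_distrib, ← Finset.mul_sum, Finset.sum_add_distrib, ← Finset.sum_mul,
    Finset.sum_add_distrib, f3, g3] at hsum
  have hHf := H_nonneg hp f
  have hHg := H_nonneg hq g
  linarith

/-- two laws with large atoms -/
theorem two_ent {Ω Ω' G : Type} [Fintype Ω] [Fintype Ω'] [AddCommGroup G] {p : Ω → ℝ} {q : Ω' → ℝ}
    (hp : IsP p) (hq : IsP q) (f : Ω → G) (g : Ω' → G) (x y : G)
    (hx : 1 - Real.exp (-16) ≤ pr p f x) (hy : 1 - Real.exp (-16) ≤ pr q g y) :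
    7 / 8 * (H p f + H q g) ≤ H (pp p q) (fun u => f u.1 + g u.2) := by
  have h := two_ent0 hp hq (fun ω => f ω - x) (fun ω => g ω - y)
    (by
      refine hx.trans (le_of_eq ?_)
      unfold pr
      exact E3b_pe_congr p fun ω => sub_eq_zero.symm)
    (by
      refine hy.trans (le_of_eq ?_)
      unfold pr
      exact E3b_pe_congr q fun ω => sub_eq_zero.symm)
  have e1 : H p (fun ω => f ω - x) = H p f := CV.H_ker _ _ _ fun ω ω' => sub_left_inj
  have e2 : H q (fun ω => g ω - y) = H q g := CV.H_ker _ _ _ fun ω ω' => sub_left_inj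
  have e3 : H (pp p q) (fun u => f u.1 - x + (g u.2 - y)) = H (pp p q) (fun u => f u.1 + g u.2) :=
    CV.H_ker _ _ _ fun ω ω' => by
      rw [show f ω.1 - x + (g ω.2 - y) = (f ω.1 + g ω.2) - (x + y) by abel,
        show f ω'.1 - x + (g ω'.2 - y) = (f ω'.1 + g ω'.2) - (x + y) by abel]
      exact sub_left_inj
  rw [e1, e2, e3] at h
  exact h

/-- a law without a large atom has large entropy -/
theorem bad_ent {Ω α : Type} [Fintype Ω] {p : Ω → ℝ} (hp : IsP p) (f : Ω → α) (c : ℝ)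
    (h : ∀ x, pr p f x < 1 - c) : c ≤ H p f := by
  unfold H
  rw [← Finset.sum_neg_distrib]
  calc c = ∑ ω, p ω * c := by rw [← Finset.sum_mul, hp.2, one_mul]
    _ ≤ ∑ ω, -(p ω * Real.log (pr p f (f ω))) := by
      refine Finset.sum_le_sum fun ω _ => ?_
      rcases (hp.1 ω).eq_or_lt with h0 | h0
      · rw [← h0]; simp
      · have h1 := Real.log_le_sub_one_of_pos (pr_pos hp f h0)
        have h2 := h (f ω)
        nlinarith

theorem H_le_sum {Ω Ω' G : Type} [Fintype Ω] [Fintype Ω'] [AddCommGroup G] {p : Ω → ℝ} {q : Ω' → ℝ}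
    (hp : IsP p) (hq : IsP q) (f : Ω → G) (g : Ω' → G) :
    H p f ≤ H (pp p q) (fun u => f u.1 + g u.2) := by
  have h := CV.hc_le_add
    (⟨Ω, Unit, p, hp, fun _ => (), f⟩ : CV G) (⟨Ω', Unit, q, hq, fun _ => (), g⟩ : CV G)
  have e1 : H p (fun ω => (f ω, ())) = H p f := CV.H_ker _ _ _ fun ω ω' => by simp
  have e2 : H p (fun _ => ()) = 0 := H_const hp _ fun _ _ => rfl
  have e3 : H (pp p q) (fun u => (f u.1 + g u.2, ((), ()))) = H (pp p q) (fun u => f u.1 + g u.2) :=
    CV.H_ker _ _ _ fun ω ω' => by simp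
  have e4 : H (pp p q) (fun _ => ((), ())) = 0 := H_const (pp_isP hp hq) _ fun _ _ => rfl
  change H p (fun ω => (f ω, ())) - H p (fun _ => ()) ≤
    H (pp p q) (fun u => (f u.1 + g u.2, ((), ()))) - H (pp p q) (fun _ => ((), ())) at h
  rw [e1, e2, e3, e4] at h
  linarith

theorem H_le_sum' {Ω Ω' G : Type} [Fintype Ω] [Fintype Ω'] [AddCommGroup G] {p : Ω → ℝ} {q : Ω' → ℝ}
    (hp : IsP p) (hq : IsP q) (f : Ω → G) (g : Ω' → G) :
    H q g ≤ H (pp p q) (fun u => f u.1 + g u.2) := by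
  have h := H_le_sum hq hp g f
  have e := CV.H_equiv (pp p q) (pp q p) (Equiv.prodComm _ _) (fun ω => mul_comm _ _)
    (fun u => g u.1 + f u.2)
  rw [← e] at h
  refine h.trans (le_of_eq ?_)
  congr 1
  funext u
  exact add_comm _ _

/-- any two laws -/
theorem any_ent {Ω Ω' G : Type} [Fintype Ω] [Fintype Ω'] [AddCommGroup G] {p : Ω → ℝ} {q : Ω' → ℝ}
    (hp : IsP p) (hq : IsP q) (f : Ω → G) (g : Ω' → G) :
    7 / 8 * (H p f * (1 - H q g / Real.exp (-16)) + H q g * (1 - H p f / Real.exp (-16)))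
      ≤ H (pp p q) (fun u => f u.1 + g u.2) := by
  have hF := H_nonneg hp f
  have hG := H_nonneg hq g
  have he := Real.exp_pos (-16 : ℝ)
  have hFd : 0 ≤ H p f / Real.exp (-16) := div_nonneg hF he.le
  have hGd : 0 ≤ H q g / Real.exp (-16) := div_nonneg hG he.le
  by_cases h1 : ∃ x, 1 - Real.exp (-16) ≤ pr p f x
  · obtain ⟨x, hx⟩ := h1
    by_cases h2 : ∃ y, 1 - Real.exp (-16) ≤ pr q g y
    · obtain ⟨y, hy⟩ := h2
      have := two_ent hp hq f g x y hx hy
      have m1 : H p f * (1 - H q g / Real.exp (-16)) ≤ H p f := by nlinarith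
      have m2 : H q g * (1 - H p f / Real.exp (-16)) ≤ H q g := by nlinarith
      linarith
    · push Not at h2
      have h3 := bad_ent hq g _ h2
      have h4 : 1 ≤ H q g / Real.exp (-16) := by rwa [le_div_iff₀ he, one_mul]
      have h5 := H_le_sum' hp hq f g
      have m1 : H p f * (1 - H q g / Real.exp (-16)) ≤ 0 :=
        mul_nonpos_of_nonneg_of_nonpos hF (by linarith)
      have m2 : H q g * (1 - H p f / Real.exp (-16)) ≤ H q g := by nlinarith
      linarith
  · push Not at h1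
    have h3 := bad_ent hp f _ h1
    have h4 : 1 ≤ H p f / Real.exp (-16) := by rwa [le_div_iff₀ he, one_mul]
    have h5 := H_le_sum hp hq f g
    have m1 : H q g * (1 - H p f / Real.exp (-16)) ≤ 0 :=
      mul_nonpos_of_nonneg_of_nonpos hG (by linarith)
    have m2 : H p f * (1 - H q g / Real.exp (-16)) ≤ H p f := by nlinarith
    linarith

/-! ### Conditional variables -/

theorem exists_fin {G : Type} (A : CV G) : ∃ (B : CV G), CV.Iso A B ∧ Nonempty (Fintype B.β) := by
  classical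
  refine ⟨⟨A.Ω, Set.range A.z, A.p, A.hp, Set.rangeFactorization A.z, A.f⟩, ?_, ⟨Fintype.ofFinite _⟩⟩
  refine ⟨Equiv.refl _, fun _ => rfl, fun _ => rfl, fun ω ω' => ?_⟩
  change Set.rangeFactorization A.z ω = Set.rangeFactorization A.z ω' ↔ A.z ω = A.z ω'
  simp [Subtype.ext_iff, Set.rangeFactorization]

theorem cnd_pp {Ω Ω' β β' : Type} [Fintype Ω] [Fintype Ω'] {p : Ω → ℝ} {q : Ω' → ℝ}
    (hp : IsP p) (hq : IsP q) (z : Ω → β) (z' : Ω' → β') (b : β) (b' : β') :
    pr (pp p q) (fun u => (z u.1, z' u.2)) (b, b') = pr p z b * pr q z' b' ∧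
    cnd (pp p q) (fun u => (z u.1, z' u.2)) (b, b') = pp (cnd p z b) (cnd q z' b') := by
  classical
  have e : pr (pp p q) (fun u => (z u.1, z' u.2)) (b, b') = pr p z b * pr q z' b' := by
    rw [indep_pp hp hq z z' b b', pr_pp_fst hq z, pr_pp_snd hp z']
  refine ⟨e, ?_⟩
  funext u
  have e0 : ∀ {Ω₀ β₀ : Type} [Fintype Ω₀] (r : Ω₀ → ℝ) (g : Ω₀ → β₀) (c : β₀) (ω : Ω₀),
      cnd r g c ω = if g ω = c then r ω / pr r g c else 0 := fun r g c ω => by
    unfold cnd
    split_ifs <;> rfl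
  change cnd (pp p q) (fun u => (z u.1, z' u.2)) (b, b') u = cnd p z b u.1 * cnd q z' b' u.2
  rw [e0, e0, e0, e]
  by_cases h1 : z u.1 = b
  · by_cases h2 : z' u.2 = b'
    · rw [if_pos (show (z u.1, z' u.2) = (b, b') by rw [h1, h2]), if_pos h1, if_pos h2]
      change p u.1 * q u.2 / _ = _
      rw [mul_div_mul_comm]
    · rw [if_neg (fun h => h2 (Prod.ext_iff.1 h).2), if_neg h2, mul_zero]
  · rw [if_neg (fun h => h1 (Prod.ext_iff.1 h).1), if_neg h1, zero_mul]

theorem hc_eq_sum {G : Type} (A : CV G) [Fintype A.β] :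
    A.hc = ∑ b, pr A.p A.z b * H (cnd A.p A.z b) A.f := by
  unfold CV.hc
  rw [H_cond_sum A.hp A.f A.z]
  ring

theorem hc_add_eq_sum {G : Type} [AddCommGroup G] (A B : CV G) [Fintype A.β] [Fintype B.β] :
    (A.add B).hc = ∑ b, ∑ b', pr A.p A.z b * pr B.p B.z b' *
      H (pp (cnd A.p A.z b) (cnd B.p B.z b')) (fun u => A.f u.1 + B.f u.2) := by
  have h1 : (A.add B).hc = H (pp A.p B.p) (fun u => (A.f u.1 + B.f u.2, (A.z u.1, B.z u.2)))
      - H (pp A.p B.p) (fun u => (A.z u.1, B.z u.2)) := rfl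
  rw [h1, H_cond_sum (pp_isP A.hp B.hp) (fun u : A.Ω × B.Ω => A.f u.1 + B.f u.2)
    (fun u => (A.z u.1, B.z u.2)), add_sub_cancel_left, Fintype.sum_prod_type]
  refine Finset.sum_congr rfl fun b _ => Finset.sum_congr rfl fun b' _ => ?_
  obtain ⟨e1, e2⟩ := cnd_pp A.hp B.hp A.z B.z b b'
  rw [e1, e2]

theorem sum_pr_one {Ω β : Type} [Fintype Ω] [Fintype β] {p : Ω → ℝ} (hp : IsP p) (z : Ω → β) :
    ∑ b, pr p z b = 1 := (pr_isP hp z).2

theorem small_aux {G : Type} [AddCommGroup G] (A : CV G) [Fintype A.β] :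
    7 / 4 * (A.hc * (1 - A.hc / Real.exp (-16))) ≤ (A.add A).hc := by
  rw [hc_add_eq_sum]
  have h1 : ∑ b, ∑ b', pr A.p A.z b * pr A.p A.z b' *
      (7 / 8 * (H (cnd A.p A.z b) A.f * (1 - H (cnd A.p A.z b') A.f / Real.exp (-16))
        + H (cnd A.p A.z b') A.f * (1 - H (cnd A.p A.z b) A.f / Real.exp (-16))))
      ≤ ∑ b, ∑ b', pr A.p A.z b * pr A.p A.z b' *
      H (pp (cnd A.p A.z b) (cnd A.p A.z b')) (fun u => A.f u.1 + A.f u.2) := by
    refine Finset.sum_le_sum fun b _ => Finset.sum_le_sum fun b' _ => ?_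
    rcases (pr_nonneg A.hp A.z b).eq_or_lt with h0 | h0
    · rw [← h0]; simp
    · rcases (pr_nonneg A.hp A.z b').eq_or_lt with h0' | h0'
      · rw [← h0']; simp
      · exact mul_le_mul_of_nonneg_left
          (any_ent (cnd_isP A.hp A.z b h0) (cnd_isP A.hp A.z b' h0') A.f A.f)
          (mul_nonneg h0.le h0'.le)
  refine le_trans (le_of_eq ?_) h1
  have hA := hc_eq_sum A
  have hone := sum_pr_one A.hp A.z
  set w := fun b => pr A.p A.z b with hw
  set η := fun b => H (cnd A.p A.z b) A.f with hη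
  have e1 : ∀ b b', w b * w b' * (7 / 8 * (η b * (1 - η b' / Real.exp (-16))
      + η b' * (1 - η b / Real.exp (-16))))
      = 7 / 8 * ((w b * η b) * w b') + 7 / 8 * (w b * (w b' * η b'))
        - 7 / 4 / Real.exp (-16) * ((w b * η b) * (w b' * η b')) := by
    intro b b'
    ring
  have e2 : ∑ b, ∑ b', w b * w b' * (7 / 8 * (η b * (1 - η b' / Real.exp (-16))
      + η b' * (1 - η b / Real.exp (-16))))
      = 7 / 8 * ((∑ b, w b * η b) * (∑ b', w b')) + 7 / 8 * ((∑ b, w b) * (∑ b', w b' * η b'))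
        - 7 / 4 / Real.exp (-16) * ((∑ b, w b * η b) * (∑ b', w b' * η b')) := by
    simp only [e1, Finset.sum_sub_distrib, Finset.sum_add_distrib, ← Finset.mul_sum,
      ← Finset.sum_mul]
  change _ = ∑ b, ∑ b', w b * w b' * (7 / 8 * (η b * (1 - η b' / Real.exp (-16))
      + η b' * (1 - η b / Real.exp (-16))))
  have hone' : ∑ b, w b = 1 := hone
  have hA' : A.hc = ∑ b, w b * η b := hA
  rw [e2, hone', ← hA']
  ring

end Sml

namespace MM

/-- small entropy lemma: a conditional variable of small entropy on an abelian group has large doubling -/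
theorem small_ent : ∃ c : ℝ, 0 < c ∧ ∀ (G : Type) [AddCommGroup G] (a : MM G), h a ≤ c →
    h a ≤ 2 * kap a := by
  refine ⟨Real.exp (-16) / 7, by positivity, ?_⟩
  intro G _ a ha
  induction a using ind with | h A => ?_
  obtain ⟨B, hAB, ⟨hB⟩⟩ := Sml.exists_fin A
  rw [sound hAB] at ha ⊢
  have h1 := Sml.small_aux B
  have h2 : h (2 • mk B) = (B.add B).hc := by
    rw [two_nsmul, mk_add, h_mk]
  have h3 := CV.hc_nonneg B
  rw [h_mk] at ha
  have he := Real.exp_pos (-16 : ℝ)
  have h4 : B.hc / Real.exp (-16) ≤ 1 / 7 := by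
    rw [div_le_iff₀ he]
    linarith
  have h5 : B.hc * (6 / 7) ≤ B.hc * (1 - B.hc / Real.exp (-16)) :=
    mul_le_mul_of_nonneg_left (by linarith) h3
  unfold kap
  rw [h2, h_mk]
  linarith

end MM
end Pool.Agent.PFM
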