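import Pool.Agent.PFM.Bas
set_option autoImplicit false

/-!
# Splitting lemma
-/
namespace Pool.Agent.PFM
open Finset Pool.Agent.Ldc

namespace CV
variable {G K L M : Type}

theorem hc_map_fst (A : CV G) (B : CV K) (g : G → L) :
    hc ((A.pair B).map (fun x => g x.1)) = hc (A.map g) := by
  have e1 : hc ((A.pair B).map (fun x => g x.1)) = hc ((A.map g).pair (B.map fun _ => ())) := by
    rw [show (A.map g).pair (B.map fun _ => ()) = (A.pair B).map (fun x => (g x.1, ())) from rfl]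
    exact hc_map_congr _ _ _ fun x y => by simp
  rw [e1, hc_pair, hc_map_const B _ (fun _ _ => rfl), add_zero]

theorem hc_map_snd (A : CV G) (B : CV K) (g : K → L) :
    hc ((A.pair B).map (fun x => g x.2)) = hc (B.map g) := by
  have e1 : hc ((A.pair B).map (fun x => g x.2)) = hc ((A.map fun _ => ()).pair (B.map g)) := by
    rw [show (A.map fun _ => ()).pair (B.map g) = (A.pair B).map (fun x => ((), g x.2)) from rfl]
    exact hc_map_congr _ _ _ fun x y => by simp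
  rw [e1, hc_pair, hc_map_const A _ (fun _ _ => rfl), zero_add]

theorem hc_map_pair_le (A : CV G) (φ : G → K) (ψ : G → L) :
    hc (A.map fun x => (φ x, ψ x)) ≤ hc (A.map φ) + hc (A.map ψ) := by
  have h1 := hc_submod A φ ψ (fun _ => ())
  have h2 : hc (A.map fun x => (φ x, ψ x, ())) = hc (A.map fun x => (φ x, ψ x)) :=
    hc_map_congr _ _ _ fun x y => by simp [Prod.ext_iff]
  have h3 : hc (A.map fun _ => ()) = 0 := hc_map_const _ _ fun _ _ => rfl
  have h4 : hc (A.map fun x => (φ x, ())) = hc (A.map φ) :=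
    hc_map_congr _ _ _ fun x y => by simp [Prod.ext_iff]
  have h5 : hc (A.map fun x => (ψ x, ())) = hc (A.map ψ) :=
    hc_map_congr _ _ _ fun x y => by simp [Prod.ext_iff]
  linarith

theorem iso_rot (A : CV G) (B : CV K) (C : CV L) :
    Iso ((A.pair C).pair B) (((A.pair B).pair C).map fun x => ((x.1.1, x.2), x.1.2)) := by
  refine ⟨⟨fun x => ((x.1.1, x.2), x.1.2), fun x => ((x.1.1, x.2), x.1.2), fun _ => rfl,
    fun _ => rfl⟩, fun ω => ?_, fun ω => rfl, fun ω ω' => ?_⟩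
  · change (A.p ω.1.1 * B.p ω.2) * C.p ω.1.2 = (A.p ω.1.1 * C.p ω.1.2) * B.p ω.2
    ring
  · change ((A.z ω.1.1, B.z ω.2), C.z ω.1.2) = ((A.z ω'.1.1, B.z ω'.2), C.z ω'.1.2) ↔
      ((A.z ω.1.1, C.z ω.1.2), B.z ω.2) = ((A.z ω'.1.1, C.z ω'.1.2), B.z ω'.2)
    simp only [Prod.ext_iff]
    tauto

theorem hc_split [AddCommGroup G] [AddCommGroup K] (N1 N2 : CV K) (A : CV G) (φ1 φ2 : G →+ K) :
    hc ((N1.add N2).add (A.map (φ1 + φ2))) + hc N1 + hc N2 ≤
      hc (N1.add N2) + hc (N1.add (A.map φ1)) + hc (N2.add (A.map φ2)) := by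
  set T := (N1.pair N2).pair A with hT
  have h1 := hc_submod T (fun x => x.2) (fun x => (x.1.1 + φ1 x.2, x.1.2 + φ2 x.2))
    (fun x => (x.1.1 + x.1.2) + (φ1 + φ2) x.2)
  have h2 : hc (T.map fun x => (x.2, (x.1.1 + φ1 x.2, x.1.2 + φ2 x.2),
      (x.1.1 + x.1.2) + (φ1 + φ2) x.2)) = hc N1 + hc N2 + hc A := by
    rw [hT, ← hc_pair, ← hc_pair]
    refine hc_map_inj _ _ ?_
    rintro ⟨⟨a, b⟩, c⟩ ⟨⟨a', b'⟩, c'⟩ h
    simp only [Prod.mk.injEq] at h
    obtain ⟨h3, ⟨h4, h5⟩, -⟩ := h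
    subst h3
    rw [add_right_cancel h4, add_right_cancel h5]
  have h3 : hc (T.map fun x => (x.1.1 + x.1.2) + (φ1 + φ2) x.2)
      = hc ((N1.add N2).add (A.map (φ1 + φ2))) := rfl
  have h4 : hc (T.map fun x => (x.2, (x.1.1 + x.1.2) + (φ1 + φ2) x.2)) = hc (N1.add N2) + hc A := by
    rw [← hc_pair, show (N1.add N2).pair A = T.map (fun x => (x.1.1 + x.1.2, x.2)) from rfl]
    refine hc_map_congr _ _ _ fun x y => ?_
    simp only [Prod.ext_iff]
    constructor
    · rintro ⟨h5, h6⟩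
      rw [h5] at h6
      exact ⟨add_right_cancel h6, h5⟩
    · rintro ⟨h5, h6⟩
      exact ⟨h6, by rw [h5, h6]⟩
  have h5 : hc (T.map fun x => ((x.1.1 + φ1 x.2, x.1.2 + φ2 x.2),
      (x.1.1 + x.1.2) + (φ1 + φ2) x.2)) ≤ hc (N1.add (A.map φ1)) + hc (N2.add (A.map φ2)) := by
    have e1 : hc (T.map fun x => ((x.1.1 + φ1 x.2, x.1.2 + φ2 x.2),
        (x.1.1 + x.1.2) + (φ1 + φ2) x.2)) = hc (T.map fun x => (x.1.1 + φ1 x.2, x.1.2 + φ2 x.2)) := by
      refine hc_map_congr _ _ _ fun x y => ?_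
      simp only [Prod.ext_iff, and_iff_left_iff_imp]
      rintro ⟨h6, h7⟩
      have h8 : (x.1.1 + x.1.2) + (φ1 + φ2) x.2 = (x.1.1 + φ1 x.2) + (x.1.2 + φ2 x.2) := by
        rw [AddMonoidHom.add_apply]
        abel
      have h9 : (y.1.1 + y.1.2) + (φ1 + φ2) y.2 = (y.1.1 + φ1 y.2) + (y.1.2 + φ2 y.2) := by
        rw [AddMonoidHom.add_apply]
        abel
      rw [h8, h9, h6, h7]
    rw [e1]
    refine (hc_map_pair_le _ _ _).trans (add_le_add (le_of_eq ?_) (le_of_eq ?_))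
    · -- U1
      have e2 := hc_map_fst (N1.pair A) N2 (fun x : K × G => x.1 + φ1 x.2)
      rw [show N1.add (A.map φ1) = (N1.pair A).map (fun x : K × G => x.1 + φ1 x.2) from rfl, ← e2]
      have e3 := (iso_rot N1 N2 A).map (fun x : (K × G) × K => x.1.1 + φ1 x.1.2)
      exact e3.hc_eq.symm
    · -- U2
      have e2 := hc_map_snd N1 (N2.pair A) (fun x : K × G => x.1 + φ2 x.2)
      rw [show N2.add (A.map φ2) = (N2.pair A).map (fun x : K × G => x.1 + φ2 x.2) from rfl, ← e2]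
      refine Iso.hc_eq ⟨Equiv.prodAssoc _ _ _, fun ω => ?_, fun ω => rfl, fun ω ω' => ?_⟩
      · change N1.p ω.1.1 * (N2.p ω.1.2 * A.p ω.2) = (N1.p ω.1.1 * N2.p ω.1.2) * A.p ω.2
        ring
      · change (N1.z ω.1.1, (N2.z ω.1.2, A.z ω.2)) = (N1.z ω'.1.1, (N2.z ω'.1.2, A.z ω'.2)) ↔
          ((N1.z ω.1.1, N2.z ω.1.2), A.z ω.2) = ((N1.z ω'.1.1, N2.z ω'.1.2), A.z ω'.2)
        simp only [Prod.ext_iff]
        exact and_assoc.symm
  rw [h2, h3] at h1
  rw [h4] at h1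
  linarith

end CV

namespace MM
variable {G K : Type}

/-- splitting lemma -/
theorem h_split [AddCommGroup G] [AddCommGroup K] (n1 n2 : MM K) (a : MM G) (φ1 φ2 : G →+ K) :
    h (n1 + n2 + mapHom (φ1 + φ2) a) - h (n1 + n2) ≤
      (h (n1 + mapHom φ1 a) - h n1) + (h (n2 + mapHom φ2 a) - h n2) := by
  induction a using ind with | h A => ?_
  induction n1 using ind with | h N1 => ?_
  induction n2 using ind with | h N2 => ?_
  have := CV.hc_split N1 N2 A φ1 φ2
  change ((N1.add N2).add (A.map (φ1 + φ2))).hc - (N1.add N2).hc ≤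
    ((N1.add (A.map φ1)).hc - N1.hc) + ((N2.add (A.map φ2)).hc - N2.hc)
  linarith

/-- data processing: `H(φ(a + b)) - H(φ a) ≤ H(a + b) - H(a)` -/
theorem h_map_incr [AddCommGroup G] [AddCommGroup K] (a b : MM G) (φ : G →+ K) :
    h (mapHom φ (a + b)) - h (mapHom φ a) ≤ h (a + b) - h a := by
  induction a using ind with | h A => ?_
  induction b using ind with | h B => ?_
  -- H(φ(A+B)) - H(φ A) = I(B ; φ(A + B)) ≤ I(B ; A + B)
  have h1 := CV.hc_submod (A.pair B) (fun x => x.2) (fun x => x.1 + x.2) (fun x => φ (x.1 + x.2))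
  have h2 : CV.hc ((A.pair B).map fun x => (x.2, x.1 + x.2, φ (x.1 + x.2))) = A.hc + B.hc := by
    rw [← CV.hc_pair]
    refine CV.hc_map_inj _ _ ?_
    rintro ⟨a, b⟩ ⟨a', b'⟩ h
    simp only [Prod.mk.injEq] at h
    obtain ⟨h3, h4, -⟩ := h
    subst h3
    rw [add_right_cancel h4]
  have h3 : CV.hc ((A.pair B).map fun x => (x.1 + x.2, φ (x.1 + x.2))) = (A.add B).hc := by
    refine CV.hc_map_congr _ _ _ fun x y => ?_
    simp only [Prod.ext_iff, and_iff_left_iff_imp]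
    intro h
    rw [h]
  have h4 : CV.hc ((A.pair B).map fun x => (x.2, φ (x.1 + x.2))) = (A.map φ).hc + B.hc := by
    rw [← CV.hc_pair, show (A.map φ).pair B = (A.pair B).map (fun x => (φ x.1, x.2)) from rfl]
    refine CV.hc_map_congr _ _ _ fun x y => ?_
    simp only [Prod.ext_iff, map_add]
    constructor
    · rintro ⟨h5, h6⟩
      rw [h5] at h6
      exact ⟨add_right_cancel h6, h5⟩
    · rintro ⟨h5, h6⟩
      exact ⟨h6, by rw [h5, h6]⟩
  change ((A.add B).map φ).hc - (A.map φ).hc ≤ (A.add B).hc - A.hc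
  rw [h2, h3, h4] at h1
  change _ + ((A.add B).map φ).hc ≤ _ at h1
  linarith

end MM
end Pool.Agent.PFM
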